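import Pool.Agent.H710.KU.St

/-! KU: basic facts on product measures (A0, A1, A2, A3). -/

set_option autoImplicit false

namespace Pool.Agent.H710.KU

open Finset Equiv

theorem a0 : S_A0 := by
  intro n b G x f hx
  have hG : G = insert x (G.erase x) := (Finset.insert_erase hx).symm
  have hxn : x ∉ G.erase x := Finset.notMem_erase x G
  have key : ∀ h : Finset (Fin n) → ℝ, Ex b G h =
      (1 - b x) * Ex b (G.erase x) h + b x * Ex b (G.erase x) (fun D => h (insert x D)) := by
    intro h
    conv_lhs => rw [hG]
    exact Ex_insert b hxn h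
  have hD : ∀ D ⊆ G.erase x, x ∉ D := fun D hD h => hxn (hD h)
  rw [key f, key (fun D => f (D.erase x)), key (fun D => f (insert x D))]
  have e1 : Ex b (G.erase x) (fun D => f (D.erase x)) = Ex b (G.erase x) f :=
    Ex_congr _ _ fun D h => by rw [Finset.erase_eq_of_notMem (hD D h)]
  have e2 : Ex b (G.erase x) (fun D => f ((insert x D).erase x)) = Ex b (G.erase x) f :=
    Ex_congr _ _ fun D h => by rw [Finset.erase_insert (hD D h)]
  have e3 : Ex b (G.erase x) (fun D => f (insert x (insert x D))) =
      Ex b (G.erase x) (fun D => f (insert x D)) :=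
    Ex_congr _ _ fun D h => by rw [Finset.insert_idem]
  simp only [e1, e2, e3]
  ring

theorem a1 : S_A1 := by
  intro n b b' G
  induction G using Finset.induction_on with
  | empty =>
    intro f _ _ _ _
    rw [Ex_empty, Ex_empty]
  | insert x G hx ih =>
    intro f h0 h1 h2 hf
    rw [Ex_insert b hx, Ex_insert b' hx]
    have i1 := ih f h0 h1 h2 hf
    have i2 := ih (fun D => f (insert x D)) h0 h1 h2 fun D D' h => hf _ _ (Finset.insert_subset_insert _ h)
    have i3 : Ex b' G f ≤ Ex b' G (fun D => f (insert x D)) :=
      Ex_mono (fun i => (h0 i).trans (h1 i)) h2 fun D _ => hf _ _ (Finset.subset_insert _ _)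
    have hb := h0 x
    have hb1 : b x ≤ 1 := (h1 x).trans (h2 x)
    nlinarith [h1 x]

theorem a2 : S_A2 := by
  intro n p r G
  induction G using Finset.induction_on with
  | empty =>
    intro f
    simp only [Ex_empty, Finset.empty_union]
  | insert x G hx ih =>
    intro f
    rw [Ex_insert _ hx, Ex_insert _ hx, ← ih f, ← ih fun D => f (insert x D)]
    simp only [Ex_insert _ hx, Ex_add, Ex_mul_left]
    have e1 : ∀ D E : Finset (Fin n), D ∪ insert x E = insert x (D ∪ E) := fun D E => Finset.union_insert _ _ _
    have e2 : ∀ D E : Finset (Fin n), insert x D ∪ E = insert x (D ∪ E) := fun D E => Finset.insert_union _ _ _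
    simp only [e1, e2, Finset.insert_idem]
    ring

theorem a3 : S_A3 := by
  intro n p G f
  unfold Ex
  refine Finset.sum_bij' (fun D _ => G \ D) (fun D _ => G \ D) ?_ ?_ ?_ ?_ ?_
  · intro D _
    exact Finset.mem_powerset.2 Finset.sdiff_subset
  · intro D _
    exact Finset.mem_powerset.2 Finset.sdiff_subset
  · intro D hD
    exact Finset.sdiff_sdiff_eq_self (Finset.mem_powerset.1 hD)
  · intro D hD
    exact Finset.sdiff_sdiff_eq_self (Finset.mem_powerset.1 hD)
  · intro D hD
    rw [Finset.sdiff_sdiff_eq_self (Finset.mem_powerset.1 hD)]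
    simp only [Finset.prod_const]
    ring

end Pool.Agent.H710.KU
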