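import Pool.Agent.H710.KU.St

/-! KU: the correlation inequality A4. -/

set_option autoImplicit false

namespace Pool.Agent.H710.KU

open Finset Equiv

theorem A4.ins_sdiff {n : ℕ} {y : Fin n} {D' T : Finset (Fin n)} (h : y ∉ T) :
    insert y D' \ T = insert y (D' \ T) := Finset.insert_sdiff_of_notMem _ h

theorem A4.sdiff_ins {n : ℕ} {y : Fin n} {D' T : Finset (Fin n)} (h : y ∉ D') :
    D' \ insert y T = D' \ T := by
  ext z
  simp only [Finset.mem_sdiff, Finset.mem_insert, not_or]
  constructor
  · rintro ⟨h1, -, h2⟩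
    exact ⟨h1, h2⟩
  · rintro ⟨h1, h2⟩
    exact ⟨h1, fun h3 => h (h3 ▸ h1), h2⟩

theorem A4.ins_sdiff_ins {n : ℕ} {y : Fin n} {D' T : Finset (Fin n)} (h : y ∉ D') :
    insert y D' \ insert y T = D' \ T := by
  ext z
  simp only [Finset.mem_sdiff, Finset.mem_insert, not_or]
  constructor
  · rintro ⟨h1 | h1, h2, h3⟩
    · exact absurd h1 h2
    · exact ⟨h1, h3⟩
  · rintro ⟨h1, h2⟩
    exact ⟨Or.inr h1, fun h3 => h (h3 ▸ h1), h2⟩

theorem a4 : S_A4 := by
  intro n p S G
  induction G using Finset.induction_on with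
  | empty =>
    intro F H _ _ _ _
    simp only [Ex_empty, Finset.empty_sdiff]
    exact le_rfl
  | insert y G hy ih =>
    intro F H hp0 hp1 hF hH
    have hF1 : ∀ D D' : Finset (Fin n), D ⊆ D' → F (insert y D) ≤ F (insert y D') :=
      fun D D' h => hF _ _ (Finset.insert_subset_insert _ h)
    have hH1 : ∀ D : Finset (Fin n), 0 ≤ H (insert y D) := fun D => hH _
    have e00 := ih F H hp0 hp1 hF hH
    have e01 := ih F (fun D => H (insert y D)) hp0 hp1 hF hH1
    have e10 := ih (fun D => F (insert y D)) H hp0 hp1 hF1 hH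
    have e11 := ih (fun D => F (insert y D)) (fun D => H (insert y D)) hp0 hp1 hF1 hH1
    have hden : 0 < 1 - p + p ^ 2 := by nlinarith [sq_nonneg (p - 1 / 2)]
    set pp := p / (1 - p + p ^ 2) with hpp
    have hpp1 : pp * (1 - p + p ^ 2) = p := by rw [hpp]; field_simp
    have hpp0 : 0 ≤ pp := by positivity
    have hpple : pp ≤ 1 := by
      rw [hpp, div_le_one hden]; nlinarith [sq_nonneg (p - 1)]
    have hple : p ≤ pp := by
      rw [hpp, le_div_iff₀ hden]; nlinarith [mul_nonneg hp0 (mul_nonneg hp0 (sub_nonneg.2 hp1))]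
    set bS : Fin n → ℝ := fun i => @ite ℝ (i ∈ S) (Classical.propDecidable _) (p * (1 - p)) p with hbS
    have hbS0 : ∀ i, 0 ≤ bS i := by
      intro i
      simp only [hbS]
      split_ifs
      · exact mul_nonneg hp0 (by linarith)
      · exact hp0
    have hbS1 : ∀ i, bS i ≤ 1 := by
      intro i
      simp only [hbS]
      split_ifs
      · nlinarith
      · exact hp1
    have ha01 : Ex (fun _ => pp) G F ≤ Ex (fun _ => pp) G (fun D => F (insert y D)) :=
      Ex_mono (fun _ => hpp0) (fun _ => hpple) fun D _ => hF _ _ (Finset.subset_insert _ _)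
    have hh0 : 0 ≤ Ex bS G H := Ex_nonneg hbS0 hbS1 fun D _ => hH D
    have hh1 : 0 ≤ Ex bS G (fun D => H (insert y D)) := Ex_nonneg hbS0 hbS1 fun D _ => hH _
    set a0 := Ex (fun _ => pp) G F
    set a1 := Ex (fun _ => pp) G (fun D => F (insert y D))
    set h0 := Ex bS G H
    set h1 := Ex bS G (fun D => H (insert y D))
    rw [Ex_insert _ hy F, Ex_insert _ hy H]
    rw [Ex_insert _ hy]
    simp only [Ex_insert _ hy]
    rw [Ex_add, Ex_mul_left, Ex_mul_left, Ex_add, Ex_mul_left, Ex_mul_left]
    -- the four terms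
    have t00 : Ex (fun _ => p) G (fun D => Ex (fun _ => p) G (fun D' => F D * H (D' \ (D ∩ S)))) ≤ a0 * h0 := e00
    have t01 : Ex (fun _ => p) G (fun D => Ex (fun _ => p) G (fun D' => F D * H (insert y D' \ (D ∩ S)))) ≤
        a0 * h1 := by
      refine le_trans (le_of_eq ?_) e01
      refine Ex_congr _ _ fun D hD => Ex_congr _ _ fun D' _ => ?_
      rw [A4.ins_sdiff fun h => hy (hD (Finset.mem_inter.1 h).1)]
    by_cases hyS : y ∈ S
    · have hb : bS y = p * (1 - p) := by
        simp only [hbS]; rw [if_pos hyS]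
      have t10 : Ex (fun _ => p) G (fun D => Ex (fun _ => p) G (fun D' => F (insert y D) *
          H (D' \ (insert y D ∩ S)))) ≤ a1 * h0 := by
        refine le_trans (le_of_eq ?_) e10
        refine Ex_congr _ _ fun D hD => Ex_congr _ _ fun D' hD' => ?_
        rw [Finset.insert_inter_of_mem hyS, A4.sdiff_ins fun h => hy (hD' h)]
      have t11 : Ex (fun _ => p) G (fun D => Ex (fun _ => p) G (fun D' => F (insert y D) *
          H (insert y D' \ (insert y D ∩ S)))) ≤ a1 * h0 := by
        refine le_trans (le_of_eq ?_) e10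
        refine Ex_congr _ _ fun D hD => Ex_congr _ _ fun D' hD' => ?_
        rw [Finset.insert_inter_of_mem hyS, A4.ins_sdiff_ins fun h => hy (hD' h)]
      rw [hb]
      have hq : 0 ≤ 1 - p := by linarith
      have s1 := mul_le_mul_of_nonneg_left t00 (mul_nonneg hq hq)
      have s2 := mul_le_mul_of_nonneg_left t01 (mul_nonneg hq hp0)
      have s3 := mul_le_mul_of_nonneg_left t10 (mul_nonneg hp0 hq)
      have s4 := mul_le_mul_of_nonneg_left t11 (mul_nonneg hp0 hp0)
      have s5 : 0 ≤ p * (1 - p) * pp * (a1 - a0) * h1 := by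
        have := sub_nonneg.2 ha01
        positivity
      have s6 : ((1 - pp) * a0 + pp * a1) * ((1 - p * (1 - p)) * h0 + p * (1 - p) * h1) =
          (1 - p) * (1 - p) * (a0 * h0) + (1 - p) * p * (a0 * h1) + (p * (1 - p) + p * p) * (a1 * h0) +
            p * (1 - p) * pp * (a1 - a0) * h1 := by
        linear_combination (a1 * h0 - a0 * h0) * hpp1
      rw [s6]
      linarith
    · have hb : bS y = p := by
        simp only [hbS]; rw [if_neg hyS]
      have t10 : Ex (fun _ => p) G (fun D => Ex (fun _ => p) G (fun D' => F (insert y D) *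
          H (D' \ (insert y D ∩ S)))) ≤ a1 * h0 := by
        refine le_trans (le_of_eq ?_) e10
        refine Ex_congr _ _ fun D hD => Ex_congr _ _ fun D' hD' => ?_
        rw [Finset.insert_inter_of_notMem hyS]
      have t11 : Ex (fun _ => p) G (fun D => Ex (fun _ => p) G (fun D' => F (insert y D) *
          H (insert y D' \ (insert y D ∩ S)))) ≤ a1 * h1 := by
        refine le_trans (le_of_eq ?_) e11
        refine Ex_congr _ _ fun D hD => Ex_congr _ _ fun D' hD' => ?_
        rw [Finset.insert_inter_of_notMem hyS, A4.ins_sdiff fun h => hy (hD (Finset.mem_inter.1 h).1)]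
      rw [hb]
      have hq : 0 ≤ 1 - p := by linarith
      have s1 := mul_le_mul_of_nonneg_left t00 (mul_nonneg hq hq)
      have s2 := mul_le_mul_of_nonneg_left t01 (mul_nonneg hq hp0)
      have s3 := mul_le_mul_of_nonneg_left t10 (mul_nonneg hp0 hq)
      have s4 := mul_le_mul_of_nonneg_left t11 (mul_nonneg hp0 hp0)
      have s5 : 0 ≤ (pp - p) * (a1 - a0) * ((1 - p) * h0 + p * h1) := by
        have := sub_nonneg.2 ha01
        have := sub_nonneg.2 hple
        positivity
      have s6 : ((1 - pp) * a0 + pp * a1) * ((1 - p) * h0 + p * h1) =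
          (1 - p) * (1 - p) * (a0 * h0) + (1 - p) * p * (a0 * h1) + p * (1 - p) * (a1 * h0) +
            p * p * (a1 * h1) + (pp - p) * (a1 - a0) * ((1 - p) * h0 + p * h1) := by
        ring
      rw [s6]
      linarith

end Pool.Agent.H710.KU
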