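import Pool.Agent.H710.KU.St

/-!
KU, part A5: the differential inequality for intersecting up-sets.
-/

set_option autoImplicit false

namespace Pool.Agent.H710.KU

open Finset Equiv

namespace A5

variable {n : ℕ}

theorem Ex_sub (b : Fin n → ℝ) (G : Finset (Fin n)) (f g : Finset (Fin n) → ℝ) :
    Ex b G (fun D => f D - g D) = Ex b G f - Ex b G g := by
  have h := Ex_add b G (fun D => f D - g D) g
  have e : (fun D => f D - g D + g D) = f := by funext D; ring
  rw [e] at h
  linarith

theorem Ex_congr_b {b b' : Fin n → ℝ} {G : Finset (Fin n)} (h : ∀ i ∈ G, b i = b' i)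
    (f : Finset (Fin n) → ℝ) : Ex b G f = Ex b' G f := by
  unfold Ex
  apply Finset.sum_congr rfl
  intro D hD
  have hD' := Finset.mem_powerset.1 hD
  have e1 : ∏ i ∈ D, b i = ∏ i ∈ D, b' i := Finset.prod_congr rfl fun i hi => h i (hD' hi)
  have e2 : ∏ i ∈ G \ D, (1 - b i) = ∏ i ∈ G \ D, (1 - b' i) :=
    Finset.prod_congr rfl fun i hi => by rw [h i (Finset.mem_sdiff.1 hi).1]
  rw [e1, e2]

/-- the expectation of `F(D) H(D' \ (D ∩ S))` -/
noncomputable def ee (p : ℝ) (S G : Finset (Fin n)) (F H : Finset (Fin n) → ℝ) : ℝ :=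
  Ex (fun _ => p) G (fun D => Ex (fun _ => p) G (fun D' => F D * H (D' \ (D ∩ S))))

/-- the biases -/
noncomputable def bS (p : ℝ) (S : Finset (Fin n)) : Fin n → ℝ :=
  fun i => @ite ℝ (i ∈ S) (Classical.propDecidable _) (p * (1 - p)) p

theorem bS_in {p : ℝ} {S : Finset (Fin n)} {i : Fin n} (h : i ∈ S) : bS p S i = p * (1 - p) := by
  unfold bS; exact if_pos h

theorem bS_out {p : ℝ} {S : Finset (Fin n)} {i : Fin n} (h : i ∉ S) : bS p S i = p := by
  unfold bS; exact if_neg h

theorem ee_sub (p : ℝ) (S G : Finset (Fin n)) (F H K : Finset (Fin n) → ℝ) :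
    ee p S G F (fun E => H E - K E) = ee p S G F H - ee p S G F K := by
  unfold ee
  rw [← Ex_sub]
  congr 1
  funext D
  rw [← Ex_sub]
  congr 1
  funext D'
  ring

/-- expansion for `x ∉ S` -/
theorem ee_out {p : ℝ} {S G : Finset (Fin n)} {x : Fin n} (hG : x ∉ G) (hS : x ∉ S)
    (F H : Finset (Fin n) → ℝ) :
    ee p S (insert x G) F H =
      (1 - p) * ((1 - p) * ee p S G F H + p * ee p S G F (fun E => H (insert x E))) +
      p * ((1 - p) * ee p S G (fun D => F (insert x D)) H +
        p * ee p S G (fun D => F (insert x D)) (fun E => H (insert x E))) := by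
  unfold ee
  rw [Ex_insert _ hG]
  have e1 : ∀ D D' : Finset (Fin n), insert x D' \ (D ∩ S) = insert x (D' \ (D ∩ S)) := by
    intro D D'
    rw [Finset.insert_sdiff_of_notMem]
    exact fun h => hS (Finset.mem_inter.1 h).2
  have e2 : ∀ D : Finset (Fin n), insert x D ∩ S = D ∩ S := by
    intro D
    rw [Finset.insert_inter_of_notMem hS]
  simp only [Ex_insert _ hG, e1, e2, Ex_add, Ex_mul_left]

/-- expansion for `insert x S` -/
theorem ee_in {p : ℝ} {S G : Finset (Fin n)} {x : Fin n} (hG : x ∉ G) (hS : x ∉ S)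
    (F H : Finset (Fin n) → ℝ) :
    ee p (insert x S) (insert x G) F H =
      (1 - p) * ((1 - p) * ee p S G F H + p * ee p S G F (fun E => H (insert x E))) +
      p * ((1 - p) * ee p S G (fun D => F (insert x D)) H +
        p * ee p S G (fun D => F (insert x D)) H) := by
  unfold ee
  rw [Ex_insert _ hG]
  have a1 : Ex (fun _ => p) G (fun D => Ex (fun _ => p) (insert x G)
      (fun D' => F D * H (D' \ (D ∩ insert x S)))) =
      Ex (fun _ => p) G (fun D => Ex (fun _ => p) (insert x G)
      (fun D' => F D * H (D' \ (D ∩ S)))) := by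
    apply Ex_congr
    intro D hD
    have : D ∩ insert x S = D ∩ S := by
      rw [Finset.inter_insert_of_notMem fun h => hG (hD h)]
    rw [this]
  have e1 : ∀ D D' : Finset (Fin n), insert x D' \ (D ∩ S) = insert x (D' \ (D ∩ S)) := by
    intro D D'
    rw [Finset.insert_sdiff_of_notMem]
    exact fun h => hS (Finset.mem_inter.1 h).2
  have e2 : ∀ D : Finset (Fin n), insert x D ∩ insert x S = insert x (D ∩ S) := by
    intro D
    rw [Finset.insert_inter_distrib]
  have e3 : ∀ D D' : Finset (Fin n), insert x D' \ insert x (D ∩ S) = D' \ insert x (D ∩ S) := by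
    intro D D'
    rw [Finset.insert_sdiff_of_mem _ (Finset.mem_insert_self _ _)]
  have a2 : ∀ D : Finset (Fin n), Ex (fun _ => p) G
      (fun D' => F (insert x D) * H (D' \ insert x (D ∩ S))) =
      Ex (fun _ => p) G (fun D' => F (insert x D) * H (D' \ (D ∩ S))) := by
    intro D
    apply Ex_congr
    intro D' hD'
    have : D' \ insert x (D ∩ S) = D' \ (D ∩ S) := by
      ext y
      simp only [Finset.mem_sdiff, Finset.mem_insert, not_or]
      constructor
      · rintro ⟨h1, h2, h3⟩
        exact ⟨h1, h3⟩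
      · rintro ⟨h1, h2⟩
        exact ⟨h1, fun h => hG (h ▸ hD' h1), h2⟩
    rw [this]
  rw [a1]
  simp only [Ex_insert _ hG, e1, e2, e3, a2, Ex_add, Ex_mul_left]

theorem claim (h4 : S_A4) {U : Finset (Fin n) → Prop} {G : Finset (Fin n)} {p m : ℝ}
    (hU : Up U) (hp0 : 0 ≤ p) (hp1 : p ≤ 1)
    (hm : ∀ x ∈ G, Ex (fun _ => p / (1 - p + p ^ 2)) G (fun D => ind (U (insert x D))) ≤ m)
    {S : Finset (Fin n)} {x : Fin n} (hx : x ∈ G) (hS : x ∉ S) :
    ee p S G (fun D => ind (U D)) (fun D => ind (U D)) -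
      ee p (insert x S) G (fun D => ind (U D)) (fun D => ind (U D)) ≤
    m * (Ex (bS p S) G (fun D => ind (U D)) - Ex (bS p (insert x S)) G (fun D => ind (U D))) := by
  obtain ⟨G0, hG0, hG⟩ : ∃ G0 : Finset (Fin n), x ∉ G0 ∧ G = insert x G0 :=
    ⟨G.erase x, Finset.notMem_erase x G, (Finset.insert_erase hx).symm⟩
  have hm' := hm x hx
  subst hG
  set F : Finset (Fin n) → ℝ := fun D => ind (U (insert x D)) with hF
  set H : Finset (Fin n) → ℝ := fun E => ind (U (insert x E)) - ind (U E) with hH
  have hH0 : ∀ D, 0 ≤ H D := by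
    intro D
    have := ind_mono (hU D (insert x D) (Finset.subset_insert x D))
    simp only [hH]
    linarith
  have hFm : ∀ D D', D ⊆ D' → F D ≤ F D' := fun D D' h =>
    ind_mono (hU _ _ (Finset.insert_subset_insert x h))
  have k1 : ee p S (insert x G0) (fun D => ind (U D)) (fun D => ind (U D)) -
      ee p (insert x S) (insert x G0) (fun D => ind (U D)) (fun D => ind (U D)) =
      p ^ 2 * ee p S G0 F H := by
    rw [ee_out hG0 hS, ee_in hG0 hS, hH, ee_sub]
    ring
  have k2 : ee p S G0 F H ≤ Ex (fun _ => p / (1 - p + p ^ 2)) G0 F * Ex (bS p S) G0 H :=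
    h4 n p S G0 F H hp0 hp1 hFm hH0
  have k3 : Ex (fun _ => p / (1 - p + p ^ 2)) (insert x G0) F =
      Ex (fun _ => p / (1 - p + p ^ 2)) G0 F := by
    rw [Ex_insert _ hG0]
    have : (fun D => F (insert x D)) = F := by
      funext D
      simp only [hF, Finset.insert_idem]
    rw [this]
    ring
  have hb0 : ∀ i, 0 ≤ bS p S i := by
    intro i
    by_cases h : i ∈ S
    · rw [bS_in h]; exact mul_nonneg hp0 (by linarith)
    · rw [bS_out h]; exact hp0
  have hb1 : ∀ i, bS p S i ≤ 1 := by
    intro i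
    by_cases h : i ∈ S
    · rw [bS_in h]; nlinarith
    · rw [bS_out h]; exact hp1
  have k4 : 0 ≤ Ex (bS p S) G0 H := Ex_nonneg hb0 hb1 fun D _ => hH0 D
  have k5 : Ex (bS p S) (insert x G0) (fun D => ind (U D)) -
      Ex (bS p (insert x S)) (insert x G0) (fun D => ind (U D)) = p ^ 2 * Ex (bS p S) G0 H := by
    have g1 : ∀ f : Finset (Fin n) → ℝ, Ex (bS p (insert x S)) G0 f = Ex (bS p S) G0 f := by
      intro f
      apply Ex_congr_b
      intro i hi
      have hix : i ≠ x := fun h => hG0 (h ▸ hi)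
      by_cases h : i ∈ S
      · rw [bS_in h, bS_in (Finset.mem_insert_of_mem h)]
      · rw [bS_out h, bS_out fun h' => (Finset.mem_insert.1 h').elim hix h]
    rw [Ex_insert _ hG0, Ex_insert _ hG0, g1, g1, bS_out hS, bS_in (Finset.mem_insert_self x S), hH,
      Ex_sub]
    ring
  rw [k1, k5]
  rw [k3] at hm'
  calc p ^ 2 * ee p S G0 F H
      ≤ p ^ 2 * (m * Ex (bS p S) G0 H) :=
        mul_le_mul_of_nonneg_left (k2.trans (mul_le_mul_of_nonneg_right hm' k4)) (by positivity)
    _ = _ := by ring

end A5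

open A5 in
theorem a5 (_h0 : S_A0) (h4 : S_A4) : S_A5 := by
  intro n U G p m hU hI hp0 hp1 _ hm
  have key : ∀ T : Finset (Fin n), T ⊆ G →
      ee p ∅ G (fun D => ind (U D)) (fun D => ind (U D)) -
        ee p T G (fun D => ind (U D)) (fun D => ind (U D)) ≤
      m * (Ex (bS p ∅) G (fun D => ind (U D)) - Ex (bS p T) G (fun D => ind (U D))) := by
    intro T
    induction T using Finset.induction_on with
    | empty => intro _; simp
    | insert x T hx ih =>
      intro hT
      have h1 := ih fun y hy => hT (Finset.mem_insert_of_mem hy)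
      have h2 := claim h4 hU hp0 hp1 hm (hT (Finset.mem_insert_self x T)) hx
      linarith
  have h := key G (Finset.Subset.refl G)
  have e1 : ee p ∅ G (fun D => ind (U D)) (fun D => ind (U D)) =
      (Ex (fun _ => p) G (fun D => ind (U D))) ^ 2 := by
    unfold ee
    simp only [Finset.inter_empty, Finset.sdiff_empty, Ex_mul_left]
    have : (fun D => ind (U D) * Ex (fun _ => p) G fun D => ind (U D)) =
        fun D => (Ex (fun _ => p) G fun D => ind (U D)) * ind (U D) := by
      funext D; ring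
    rw [this, Ex_mul_left]
    ring
  have e2 : ee p G G (fun D => ind (U D)) (fun D => ind (U D)) = 0 := by
    unfold ee
    have : Ex (fun _ => p) G (fun D => Ex (fun _ => p) G
        (fun D' => ind (U D) * ind (U (D' \ (D ∩ G))))) =
        Ex (fun _ => p) G (fun _ => Ex (fun _ => p) G (fun _ => (0:ℝ))) := by
      apply Ex_congr
      intro D hD
      apply Ex_congr
      intro D' _
      rw [Finset.inter_eq_left.2 hD, ← ind_and]
      apply ind_false
      rintro ⟨h1, h2⟩
      obtain ⟨y, hy⟩ := hI _ _ h1 h2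
      rw [Finset.mem_inter, Finset.mem_sdiff] at hy
      exact hy.2.2 hy.1
    rw [this, Ex_const, Ex_const]
  have e3 : Ex (bS p ∅) G (fun D => ind (U D)) = Ex (fun _ => p) G (fun D => ind (U D)) :=
    Ex_congr_b (fun i _ => bS_out (Finset.notMem_empty i)) _
  have e4 : Ex (bS p G) G (fun D => ind (U D)) = Ex (fun _ => p * (1 - p)) G (fun D => ind (U D)) :=
    Ex_congr_b (fun i hi => bS_in hi) _
  rw [e1, e2, e3, e4, sub_zero] at h
  exact h

end Pool.Agent.H710.KU
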