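import Pool.Agent.H710.KU.St

/-! KU: the cross lemma A6. -/

set_option autoImplicit false

namespace Pool.Agent.H710.KU

open Finset Equiv

theorem a6 (h1 : S_A1) (h2 : S_A2) (h3 : S_A3) : S_A6 := by
  intro n U G p p' M x hU hI hp0 hp1 hp'0 hp'
  set h : Finset (Fin n) → ℝ := fun E => 1 - ind (U (insert x E)) with hh
  have hh0 : ∀ E, 0 ≤ h E := fun E => by
    have := ind_le_one (U (insert x E))
    simp only [hh]; linarith
  have hh1 : ∀ E, h E ≤ 1 := fun E => by
    have := ind_nonneg (U (insert x E))
    simp only [hh]; linarith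
  have hanti : ∀ D D' : Finset (Fin n), D ⊆ D' → h D' ≤ h D := by
    intro D D' hD
    have := ind_mono (hU _ _ (Finset.insert_subset_insert x hD))
    simp only [hh]; linarith
  have hmul : ∀ D E : Finset (Fin n), h (D ∪ E) ≤ h D * h E := by
    intro D E
    by_cases hD : U (insert x D)
    · have e : U (insert x (D ∪ E)) := hU _ _ (Finset.insert_subset_insert x Finset.subset_union_left) hD
      have e0 : h (D ∪ E) = 0 := by
        show 1 - ind (U (insert x (D ∪ E))) = 0
        rw [ind_true e]; norm_num
      rw [e0]
      exact mul_nonneg (hh0 _) (hh0 _)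
    · by_cases hE : U (insert x E)
      · have e : U (insert x (D ∪ E)) := hU _ _ (Finset.insert_subset_insert x Finset.subset_union_right) hE
        have e0 : h (D ∪ E) = 0 := by
          show 1 - ind (U (insert x (D ∪ E))) = 0
          rw [ind_true e]; norm_num
        rw [e0]
        exact mul_nonneg (hh0 _) (hh0 _)
      · have eD : h D = 1 := by
          show 1 - ind (U (insert x D)) = 1
          rw [ind_false hD]; norm_num
        have eE : h E = 1 := by
          show 1 - ind (U (insert x E)) = 1
          rw [ind_false hE]; norm_num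
        rw [eD, eE, one_mul]
        exact hh1 _
  have he : Ex (fun _ => p) G h = 1 - Ex (fun _ => p) G (fun D => ind (U (insert x D))) := by
    have e1 := Ex_add (fun _ => p) G h (fun D => ind (U (insert x D)))
    have e2 : Ex (fun _ => p) G (fun D => h D + ind (U (insert x D))) = 1 := by
      have : (fun D => h D + ind (U (insert x D))) = fun _ => (1 : ℝ) := by
        funext D
        simp only [hh]; ring
      rw [this, Ex_const]
    rw [e2] at e1
    linarith
  rw [← he]
  set e := Ex (fun _ => p) G h with hedef
  have he0 : 0 ≤ e := Ex_nonneg (fun _ => hp0) (fun _ => hp1) fun D _ => hh0 D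
  have hpow0 : ∀ M : ℕ, 0 ≤ (1 - p) ^ M := fun M => pow_nonneg (by linarith) M
  have hpow1 : ∀ M : ℕ, (1 - p) ^ M ≤ 1 := fun M => pow_le_one₀ (by linarith) (by linarith)
  have claim : ∀ M : ℕ, Ex (fun _ => 1 - (1 - p) ^ M) G h ≤ e ^ M := by
    intro M
    induction M with
    | zero =>
      rw [pow_zero (a := e)]
      refine Ex_le_one (fun _ => ?_) (fun _ => ?_) fun D _ => hh1 D
      · have := hpow1 0; linarith
      · have := hpow0 0; linarith
    | succ M ih =>
      have e1 := h2 n (1 - (1 - p) ^ M) p G h
      have e2 : (1 : ℝ) - (1 - (1 - (1 - p) ^ M)) * (1 - p) = 1 - (1 - p) ^ (M + 1) := by ring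
      rw [e2] at e1
      rw [← e1]
      have hb0 : 0 ≤ 1 - (1 - p) ^ M := by linarith [hpow1 M]
      have hb1 : 1 - (1 - p) ^ M ≤ 1 := by linarith [hpow0 M]
      calc Ex (fun _ => 1 - (1 - p) ^ M) G (fun D => Ex (fun _ => p) G (fun E => h (D ∪ E)))
          ≤ Ex (fun _ => 1 - (1 - p) ^ M) G (fun D => e * h D) := by
            refine Ex_mono (fun _ => hb0) (fun _ => hb1) fun D _ => ?_
            calc Ex (fun _ => p) G (fun E => h (D ∪ E)) ≤ Ex (fun _ => p) G (fun E => h D * h E) :=
                  Ex_mono (fun _ => hp0) (fun _ => hp1) fun E _ => hmul D E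
              _ = h D * e := Ex_mul_left _ _ _ _
              _ = e * h D := mul_comm _ _
        _ = e * Ex (fun _ => 1 - (1 - p) ^ M) G h := Ex_mul_left _ _ _ _
        _ ≤ e * e ^ M := mul_le_mul_of_nonneg_left ih he0
        _ = e ^ (M + 1) := by ring
  have hp'1 : p' ≤ 1 := hp'.trans (hpow1 M)
  calc Ex (fun _ => p') G (fun D => ind (U (D.erase x)))
      ≤ Ex (fun _ => p') G (fun D => h (G \ D)) := by
        refine Ex_mono (fun _ => hp'0) (fun _ => hp'1) fun D _ => ?_
        by_cases hD : U (D.erase x)
        · have e0 : ¬ U (insert x (G \ D)) := by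
            intro h5
            obtain ⟨z, hz⟩ := hI _ _ hD h5
            rw [Finset.mem_inter, Finset.mem_erase, Finset.mem_insert, Finset.mem_sdiff] at hz
            obtain ⟨⟨z1, z2⟩, z3 | z3⟩ := hz
            · exact z1 z3
            · exact z3.2 z2
          show ind (U (D.erase x)) ≤ 1 - ind (U (insert x (G \ D)))
          rw [ind_false e0]
          linarith [ind_le_one (U (D.erase x))]
        · rw [ind_false hD]
          exact hh0 _
    _ = Ex (fun _ => 1 - p') G h := h3 n p' G h
    _ ≤ Ex (fun _ => 1 - (1 - p) ^ M) G h := by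
        have e1 := h1 n (fun _ => 1 - (1 - p) ^ M) (fun _ => 1 - p') G (fun D => (-1) * h D)
          (fun _ => by linarith [hpow1 M]) (fun _ => by linarith) (fun _ => by linarith)
          (fun D D' hD => by
            have := hanti D D' hD
            linarith)
        rw [Ex_mul_left, Ex_mul_left] at e1
        linarith
    _ ≤ e ^ M := claim M

end Pool.Agent.H710.KU
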