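import Pool.Agent.H710.KU.St

/-! B1 and B5: the law of the `k`-th set of a random maximal chain. -/

set_option autoImplicit false

namespace Pool.Agent.H710.KU

open Finset Equiv

namespace B1

theorem P_mul_inv {n : ℕ} (r τ : Perm (Fin n)) (k : ℕ) :
    P (r * τ⁻¹) k = (P r k).map τ.toEmbedding := by
  ext e
  rw [mem_P, Finset.mem_map_equiv, mem_P]
  rfl

/-- the number of chains through a set -/
noncomputable def NA {n : ℕ} (A : Finset (Fin n)) (k : ℕ) : ℝ :=
  ∑ r : Perm (Fin n), ind (P r k = A)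

theorem NA_map {n : ℕ} (A : Finset (Fin n)) (k : ℕ) (τ : Perm (Fin n)) :
    NA (A.map τ.toEmbedding) k = NA A k := by
  unfold NA
  have h1 : ∑ r : Perm (Fin n), ind (P (r * τ⁻¹) k = A.map τ.toEmbedding) =
      ∑ r : Perm (Fin n), ind (P r k = A.map τ.toEmbedding) :=
    Fintype.sum_equiv (Equiv.mulRight τ⁻¹) _ _ (fun _ => rfl)
  rw [← h1]
  refine Finset.sum_congr rfl fun r _ => ind_congr ?_
  rw [P_mul_inv, Finset.map_inj]

theorem exists_perm {n : ℕ} {A A' : Finset (Fin n)} (h : A.card = A'.card) :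
    ∃ τ : Perm (Fin n), A.map τ.toEmbedding = A' := by
  classical
  let e : {x // x ∈ A} ≃ {x // x ∈ A'} := Finset.equivOfCardEq h
  refine ⟨e.extendSubtype, ?_⟩
  apply Finset.eq_of_subset_of_card_le
  · intro y hy
    obtain ⟨x, hx, rfl⟩ := Finset.mem_map.1 hy
    exact e.extendSubtype_mem x hx
  · rw [Finset.card_map, h]

theorem NA_eq {n : ℕ} {A A' : Finset (Fin n)} (h : A.card = A'.card) (k : ℕ) :
    NA A' k = NA A k := by
  obtain ⟨τ, rfl⟩ := exists_perm h
  exact NA_map A k τ

theorem sum_NA {n k : ℕ} (hk : k ≤ n) :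
    ∑ A ∈ powersetCard k (univ : Finset (Fin n)), NA A k = (n.factorial : ℝ) := by
  unfold NA
  rw [Finset.sum_comm]
  have h1 : ∀ r : Perm (Fin n),
      ∑ A ∈ powersetCard k (univ : Finset (Fin n)), ind (P r k = A) = 1 := by
    intro r
    rw [Finset.sum_eq_single (P r k)]
    · exact ind_true rfl
    · intro A _ hA
      exact ind_false (Ne.symm hA)
    · intro h
      exact absurd (Finset.mem_powersetCard.2 ⟨Finset.subset_univ _, card_P r k hk⟩) h
  rw [Finset.sum_congr rfl fun r _ => h1 r, Finset.sum_const, nsmul_eq_mul, mul_one,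
    Finset.card_univ, Fintype.card_perm, Fintype.card_fin]

theorem ind_mem {n : ℕ} (F : Fam n) (B : Finset (Fin n)) :
    ind (B ∈ F) = ∑ A ∈ F, ind (B = A) := by
  by_cases h : B ∈ F
  · rw [ind_true h, Finset.sum_eq_single B, ind_true rfl]
    · intro A _ hA
      exact ind_false (Ne.symm hA)
    · intro h'
      exact absurd h h'
  · rw [ind_false h, Finset.sum_eq_zero]
    intro A hA
    exact ind_false (fun h' => h (h' ▸ hA))

end B1

open B1

theorem b1 : S_B1 := by
  intro n A
  have hk : A.card ≤ n := by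
    have := Finset.card_le_univ A
    rwa [Fintype.card_fin] at this
  have h1 := sum_NA (n := n) hk
  have h2 : ∑ A' ∈ powersetCard A.card (univ : Finset (Fin n)), NA A' A.card =
      ∑ A' ∈ powersetCard A.card (univ : Finset (Fin n)), NA A A.card :=
    Finset.sum_congr rfl fun A' hA' => NA_eq (Finset.mem_powersetCard.1 hA').2.symm _
  rw [h2, Finset.sum_const, nsmul_eq_mul, Finset.card_powersetCard, Finset.card_univ,
    Fintype.card_fin] at h1
  exact h1

theorem b5 (h : S_B1) : S_B5 := by
  intro n F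
  have h1 : (F.card : ℝ) * (n.factorial : ℝ) =
      ∑ A ∈ F, (n.choose A.card : ℝ) * ∑ r : Perm (Fin n), ind (P r A.card = A) := by
    rw [Finset.sum_congr rfl fun A _ => h n A, Finset.sum_const, nsmul_eq_mul]
  have h2 : ∀ r : Perm (Fin n), ∑ k ∈ range (n + 1), (n.choose k : ℝ) * ind (P r k ∈ F) =
      ∑ A ∈ F, (n.choose A.card : ℝ) * ind (P r A.card = A) := by
    intro r
    have h3 : ∀ k ∈ range (n + 1), (n.choose k : ℝ) * ind (P r k ∈ F) =
        ∑ A ∈ F, (n.choose k : ℝ) * ind (P r k = A) := by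
      intro k _
      rw [ind_mem, Finset.mul_sum]
    rw [Finset.sum_congr rfl h3, Finset.sum_comm]
    refine Finset.sum_congr rfl fun A _ => ?_
    rw [Finset.sum_eq_single A.card]
    · intro k hk hkA
      rw [ind_false, mul_zero]
      intro h4
      apply hkA
      rw [← h4, card_P r k (Nat.lt_succ_iff.1 (Finset.mem_range.1 hk))]
    · intro h4
      exfalso
      apply h4
      have := Finset.card_le_univ A
      rw [Fintype.card_fin] at this
      exact Finset.mem_range.2 (Nat.lt_succ_of_le this)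
  rw [h1, Finset.sum_congr rfl fun r _ => h2 r, Finset.sum_comm]
  refine Finset.sum_congr rfl fun A _ => ?_
  rw [Finset.mul_sum]

end Pool.Agent.H710.KU
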