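import Pool.Agent.H710.KU.St

set_option autoImplicit false

/-! The law of the lower sets of a random chain below a given set. -/

namespace Pool.Agent.H710.KU

open Finset Equiv

namespace B2

variable {n : ℕ}

theorem P_mul_inv (r τ : Perm (Fin n)) (k : ℕ) :
    P (r * τ⁻¹) k = (P r k).map τ.toEmbedding := by
  ext e
  rw [mem_P, mem_map_equiv, mem_P]
  rfl

/-- a permutation which preserves `C` and maps `Y` to `Y'` -/
theorem exists_perm (C Y Y' : Finset (Fin n)) (hY : Y ⊆ C) (hY' : Y' ⊆ C)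
    (hc : Y.card = Y'.card) :
    ∃ τ : Perm (Fin n), C.map τ.toEmbedding = C ∧ Y.map τ.toEmbedding = Y' := by
  classical
  have e1 : Fintype.card {x : C // x.1 ∈ Y} = Y.card := by
    rw [← Fintype.card_coe Y]
    exact Fintype.card_congr ⟨fun x => ⟨x.1.1, x.2⟩, fun x => ⟨⟨x.1, hY x.2⟩, x.2⟩,
      fun _ => rfl, fun _ => rfl⟩
  have e2 : Fintype.card {x : C // x.1 ∈ Y'} = Y'.card := by
    rw [← Fintype.card_coe Y']
    exact Fintype.card_congr ⟨fun x => ⟨x.1.1, x.2⟩, fun x => ⟨⟨x.1, hY' x.2⟩, x.2⟩,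
      fun _ => rfl, fun _ => rfl⟩
  have e : {x : C // x.1 ∈ Y} ≃ {x : C // x.1 ∈ Y'} :=
    Fintype.equivOfCardEq (by rw [e1, e2, hc])
  set σ : Perm C := e.extendSubtype with hσ
  have hmem : ∀ x : C, x.1 ∈ Y ↔ (σ x).1 ∈ Y' := by
    intro x
    constructor
    · intro hx
      exact e.extendSubtype_mem x hx
    · intro hx
      by_contra h
      exact e.extendSubtype_not_mem x h hx
  set τ : Perm (Fin n) := Perm.ofSubtype σ with hτ
  have h1 : ∀ x (hx : x ∈ C), τ x = (σ ⟨x, hx⟩).1 := fun x hx =>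
    Perm.ofSubtype_apply_of_mem σ hx
  have h2 : ∀ x, x ∉ C → τ x = x := fun x hx => Perm.ofSubtype_apply_of_not_mem σ hx
  have hC : C.map τ.toEmbedding = C := by
    refine eq_of_subset_of_card_le ?_ (by rw [card_map])
    intro y hy
    rw [mem_map] at hy
    obtain ⟨x, hx, rfl⟩ := hy
    change τ x ∈ C
    rw [h1 x hx]
    exact (σ ⟨x, hx⟩).2
  refine ⟨τ, hC, ?_⟩
  refine eq_of_subset_of_card_le ?_ (by rw [card_map, hc])
  intro y hy
  rw [mem_map] at hy
  obtain ⟨x, hx, rfl⟩ := hy
  change τ x ∈ Y'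
  rw [h1 x (hY hx)]
  exact (hmem ⟨x, hY hx⟩).1 hx

/-- the number of chains through `C` with the given part above level `i` -/
noncomputable def NN2 (C : Finset (Fin n)) (i : ℕ) (Y : Finset (Fin n)) : ℝ :=
  ∑ r : Perm (Fin n), ind (P r C.card = C) * ind (C \ P r i = Y)

theorem NN2_eq (C : Finset (Fin n)) (i : ℕ) (Y Y' : Finset (Fin n)) (hY : Y ⊆ C) (hY' : Y' ⊆ C)
    (hc : Y.card = Y'.card) : NN2 C i Y = NN2 C i Y' := by
  classical
  obtain ⟨τ, h1, h2⟩ := exists_perm C Y Y' hY hY' hc
  unfold NN2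
  refine Fintype.sum_equiv (Equiv.mulRight τ⁻¹) _ _ fun r => ?_
  change _ = ind (P (r * τ⁻¹) C.card = C) * ind (C \ P (r * τ⁻¹) i = Y')
  rw [P_mul_inv, P_mul_inv]
  have e1 : (P r C.card).map τ.toEmbedding = C ↔ P r C.card = C := by
    conv_lhs => rw [← h1, h1]
    constructor
    · intro h
      apply map_injective τ.toEmbedding
      rw [h, h1]
    · intro h
      rw [h, h1]
  have e2 : C \ (P r i).map τ.toEmbedding = Y' ↔ C \ P r i = Y := by
    have e3 : C \ (P r i).map τ.toEmbedding = (C \ P r i).map τ.toEmbedding := by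
      rw [Finset.map_sdiff, h1]
    rw [e3, ← h2]
    exact (map_injective τ.toEmbedding).eq_iff
  rw [ind_congr e1, ind_congr e2]

end B2

theorem b2 : S_B2 := by
  classical
  intro n C i g hi
  have hcard : ∀ r : Perm (Fin n), P r C.card = C → C \ P r i ∈ powersetCard (C.card - i) C := by
    intro r hr
    rw [mem_powersetCard]
    have hn : C.card ≤ n := (card_le_univ C).trans (by rw [Fintype.card_fin])
    have hs : P r i ⊆ C := by
      have := P_mono r hi
      rwa [hr] at this
    refine ⟨sdiff_subset, ?_⟩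
    rw [card_sdiff_of_subset hs, card_P r i (by omega)]
  have key : ∀ h : Finset (Fin n) → ℝ,
      ∑ r : Perm (Fin n), ind (P r C.card = C) * h (C \ P r i) =
      ∑ Y ∈ powersetCard (C.card - i) C, B2.NN2 C i Y * h Y := by
    intro h
    unfold B2.NN2
    simp only [sum_mul]
    rw [sum_comm]
    refine sum_congr rfl fun r _ => ?_
    by_cases hr : P r C.card = C
    · rw [sum_eq_single (C \ P r i)]
      · rw [ind_true (rfl : C \ P r i = C \ P r i), mul_one]
      · intro Y _ hne
        rw [ind_false (p := C \ P r i = Y) (fun h => hne h.symm)]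
        ring
      · intro h
        exact absurd (hcard r hr) h
    · rw [ind_false hr]
      simp
  have key1 := key fun _ => 1
  simp only [mul_one] at key1
  obtain ⟨Y0, hY0⟩ : (powersetCard (C.card - i) C).Nonempty := by
    rw [powersetCard_nonempty]
    omega
  have hconst : ∀ Y ∈ powersetCard (C.card - i) C, B2.NN2 C i Y = B2.NN2 C i Y0 := by
    intro Y hY
    rw [mem_powersetCard] at hY hY0
    exact B2.NN2_eq C i Y Y0 hY.1 hY0.1 (by rw [hY.2, hY0.2])
  rw [key, key1, sum_congr rfl fun Y hY => by rw [hconst Y hY],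
    sum_congr rfl (g := fun _ => B2.NN2 C i Y0) hconst, sum_const, card_powersetCard,
    Nat.choose_symm hi, nsmul_eq_mul, ← mul_sum]
  ring

end Pool.Agent.H710.KU
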