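import Pool.Agent.H710.KU.St

set_option autoImplicit false

/-! Uniform subset versus random subset. -/

namespace Pool.Agent.H710.KU

open Finset Equiv

namespace B3

variable {n : ℕ}

/-- the sum over the subsets of size `j` -/
noncomputable def sj (C : Finset (Fin n)) (g : Finset (Fin n) → ℝ) (j : ℕ) : ℝ :=
  ∑ Y ∈ powersetCard j C, g Y

theorem step (C : Finset (Fin n)) (g : Finset (Fin n) → ℝ) (hg : ∀ D D', D ⊆ D' → g D ≤ g D')
    (j : ℕ) (hj : j < C.card) :
    ((C.card : ℝ) - j) * sj C g j ≤ ((j : ℝ) + 1) * sj C g (j + 1) := by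
  have h1 : ((C.card : ℝ) - j) * sj C g j = ∑ Y ∈ powersetCard j C, ∑ _x ∈ C \ Y, g Y := by
    unfold sj
    rw [mul_sum]
    refine sum_congr rfl fun Y hY => ?_
    rw [mem_powersetCard] at hY
    rw [sum_const, nsmul_eq_mul, card_sdiff_of_subset hY.1, Nat.cast_sub (card_le_card hY.1), hY.2]
  have h2 : ((j : ℝ) + 1) * sj C g (j + 1) = ∑ Y ∈ powersetCard (j + 1) C, ∑ _x ∈ Y, g Y := by
    unfold sj
    rw [mul_sum]
    refine sum_congr rfl fun Y hY => ?_
    rw [mem_powersetCard] at hY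
    rw [sum_const, nsmul_eq_mul, hY.2]
    push_cast
    ring
  have h3 : ∑ Y ∈ powersetCard j C, ∑ x ∈ C \ Y, g (insert x Y) =
      ∑ Y ∈ powersetCard (j + 1) C, ∑ _x ∈ Y, g Y := by
    rw [sum_sigma', sum_sigma']
    refine sum_bij' (fun p _ => ⟨insert p.2 p.1, p.2⟩) (fun p _ => ⟨p.1.erase p.2, p.2⟩)
      ?_ ?_ ?_ ?_ ?_
    · rintro ⟨Y, x⟩ hp
      simp only [mem_sigma, mem_powersetCard, mem_sdiff] at hp ⊢
      refine ⟨⟨insert_subset hp.2.1 hp.1.1, ?_⟩, mem_insert_self _ _⟩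
      rw [card_insert_of_notMem hp.2.2, hp.1.2]
    · rintro ⟨Y, x⟩ hp
      simp only [mem_sigma, mem_powersetCard, mem_sdiff] at hp ⊢
      refine ⟨⟨(erase_subset _ _).trans hp.1.1, ?_⟩, hp.1.1 hp.2, notMem_erase _ _⟩
      rw [card_erase_of_mem hp.2, hp.1.2]
      rfl
    · rintro ⟨Y, x⟩ hp
      simp only [mem_sigma, mem_powersetCard, mem_sdiff] at hp
      simp only [erase_insert hp.2.2]
    · rintro ⟨Y, x⟩ hp
      simp only [mem_sigma, mem_powersetCard, mem_sdiff] at hp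
      simp only [insert_erase hp.2]
    · rintro ⟨Y, x⟩ hp
      rfl
  rw [h1, h2, ← h3]
  refine sum_le_sum fun Y _ => sum_le_sum fun x _ => hg _ _ (subset_insert _ _)

theorem mono (C : Finset (Fin n)) (g : Finset (Fin n) → ℝ) (hg : ∀ D D', D ⊆ D' → g D ≤ g D')
    (J : ℕ) : ∀ d : ℕ, J + d ≤ C.card →
    (C.card.choose (J + d) : ℝ) * sj C g J ≤ (C.card.choose J : ℝ) * sj C g (J + d) := by
  intro d
  induction d with
  | zero => intro _; exact le_rfl
  | succ d ih =>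
    intro hd
    have h1 := ih (by omega)
    have h2 := step C g hg (J + d) (by omega)
    have h3 : ((C.card.choose (J + d + 1) : ℝ)) * ((J + d : ℕ) + 1 : ℝ) =
        (C.card.choose (J + d) : ℝ) * ((C.card : ℝ) - (J + d : ℕ)) := by
      have := Nat.choose_succ_right_eq C.card (J + d)
      have h4 : ((C.card - (J + d) : ℕ) : ℝ) = (C.card : ℝ) - (J + d : ℕ) :=
        Nat.cast_sub (by omega)
      rw [← h4]
      exact_mod_cast this
    have h5 : (0 : ℝ) < ((J + d : ℕ) : ℝ) + 1 := by positivity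
    have h6 : (0 : ℝ) ≤ (C.card : ℝ) - (J + d : ℕ) := by
      have : ((J + d : ℕ) : ℝ) ≤ C.card := by exact_mod_cast (by omega : J + d ≤ C.card)
      linarith
    have h7 : (0 : ℝ) ≤ (C.card.choose J : ℝ) := Nat.cast_nonneg _
    change (C.card.choose (J + d + 1) : ℝ) * sj C g J ≤
      (C.card.choose J : ℝ) * sj C g (J + d + 1)
    refine le_of_mul_le_mul_left ?_ h5
    calc (((J + d : ℕ) : ℝ) + 1) * ((C.card.choose (J + d + 1) : ℝ) * sj C g J)
        = ((C.card : ℝ) - (J + d : ℕ)) * ((C.card.choose (J + d) : ℝ) * sj C g J) := by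
          rw [← mul_assoc, mul_comm (((J + d : ℕ) : ℝ) + 1), h3]; ring
      _ ≤ ((C.card : ℝ) - (J + d : ℕ)) * ((C.card.choose J : ℝ) * sj C g (J + d)) :=
          mul_le_mul_of_nonneg_left h1 h6
      _ = (C.card.choose J : ℝ) * (((C.card : ℝ) - (J + d : ℕ)) * sj C g (J + d)) := by ring
      _ ≤ (C.card.choose J : ℝ) * ((((J + d : ℕ) : ℝ) + 1) * sj C g (J + d + 1)) :=
          mul_le_mul_of_nonneg_left h2 h7
      _ = (((J + d : ℕ) : ℝ) + 1) * ((C.card.choose J : ℝ) * sj C g (J + d + 1)) := by ring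

theorem ex_eq (C : Finset (Fin n)) (g : Finset (Fin n) → ℝ) (q : ℝ) :
    Ex (fun _ => q) C g =
      ∑ j ∈ range (C.card + 1), q ^ j * (1 - q) ^ (C.card - j) * sj C g j := by
  unfold Ex sj
  rw [sum_powerset]
  refine sum_congr rfl fun j _ => ?_
  rw [mul_sum]
  refine sum_congr rfl fun Y hY => ?_
  rw [mem_powersetCard] at hY
  rw [prod_const, prod_const, card_sdiff_of_subset hY.1, hY.2]

theorem var_id (N : ℕ) (q : ℝ) :
    ∑ j ∈ range (N + 1), ((N : ℝ) * q - j) ^ 2 * ((N.choose j : ℝ) * q ^ j * (1 - q) ^ (N - j)) =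
      N * q * (1 - q) := by
  have h := congrArg (Polynomial.eval q) (bernsteinPolynomial.variance ℝ N)
  rw [Polynomial.eval_finsetSum] at h
  simp only [bernsteinPolynomial, Polynomial.eval_mul, Polynomial.eval_pow, Polynomial.eval_sub,
    Polynomial.eval_smul, Polynomial.eval_X, Polynomial.eval_natCast, Polynomial.eval_one,
    nsmul_eq_mul] at h
  exact h

theorem sum_id (N : ℕ) (q : ℝ) :
    ∑ j ∈ range (N + 1), ((N.choose j : ℝ) * q ^ j * (1 - q) ^ (N - j)) = 1 := by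
  have h := congrArg (Polynomial.eval q) (bernsteinPolynomial.sum ℝ N)
  rw [Polynomial.eval_finsetSum] at h
  simp only [bernsteinPolynomial, Polynomial.eval_mul, Polynomial.eval_pow, Polynomial.eval_sub,
    Polynomial.eval_X, Polynomial.eval_natCast, Polynomial.eval_one] at h
  exact h

theorem low_tail (N J : ℕ) (q : ℝ) (h0 : 0 ≤ q) (h1 : q ≤ 1) (hJ : J ≤ N)
    (h4 : 4 * ((J : ℝ) + 1) ≤ q * N) :
    ∑ j ∈ range J, ((N.choose j : ℝ) * q ^ j * (1 - q) ^ (N - j)) ≤ 1 / 2 := by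
  have hb : ∀ j, 0 ≤ (N.choose j : ℝ) * q ^ j * (1 - q) ^ (N - j) := fun j =>
    mul_nonneg (mul_nonneg (Nat.cast_nonneg _) (pow_nonneg h0 _)) (pow_nonneg (by linarith) _)
  have hN : 4 ≤ q * N := by
    have : (0 : ℝ) ≤ J := Nat.cast_nonneg _
    linarith
  have h2 : ∑ j ∈ range J, ((N : ℝ) * q - j) ^ 2 *
      ((N.choose j : ℝ) * q ^ j * (1 - q) ^ (N - j)) ≤ N * q * (1 - q) := by
    rw [← var_id N q]
    refine sum_le_sum_of_subset_of_nonneg ?_ fun j _ _ => mul_nonneg (sq_nonneg _) (hb j)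
    intro j hj
    rw [mem_range] at hj ⊢
    omega
  have h3 : ((3 / 4) * (q * N)) ^ 2 *
      ∑ j ∈ range J, ((N.choose j : ℝ) * q ^ j * (1 - q) ^ (N - j)) ≤
      ∑ j ∈ range J, ((N : ℝ) * q - j) ^ 2 * ((N.choose j : ℝ) * q ^ j * (1 - q) ^ (N - j)) := by
    rw [mul_sum]
    refine sum_le_sum fun j hj => mul_le_mul_of_nonneg_right ?_ (hb j)
    rw [mem_range] at hj
    have h5 : (j : ℝ) ≤ J := by exact_mod_cast hj.le
    refine pow_le_pow_left₀ (by positivity) ?_ 2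
    linarith
  have h6 : ((3 / 4) * (q * N)) ^ 2 *
      ∑ j ∈ range J, ((N.choose j : ℝ) * q ^ j * (1 - q) ^ (N - j)) ≤ q * N := by
    refine (h3.trans h2).trans ?_
    have : (N : ℝ) * q * (1 - q) = q * N - q * N * q := by ring
    rw [this]
    have : 0 ≤ q * N * q := by positivity
    linarith
  set T := ∑ j ∈ range J, ((N.choose j : ℝ) * q ^ j * (1 - q) ^ (N - j)) with hT
  have hT0 : 0 ≤ T := sum_nonneg fun j _ => hb j
  set m := q * N with hm
  -- (9/16) m^2 T ≤ m, m ≥ 4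
  have h7 : m * ((9 / 16) * m * T - 1) ≤ 0 := by nlinarith
  have h8 : (9 / 16) * m * T - 1 ≤ 0 := by
    by_contra hc
    push Not at hc
    have : 0 < m * ((9 / 16) * m * T - 1) := mul_pos (by linarith) hc
    linarith
  nlinarith

end B3

theorem b3 : S_B3 := by
  intro n C J q g h0 h1 hJ h4 hg hg0
  have hs0 : ∀ j, 0 ≤ B3.sj C g j := fun j => sum_nonneg fun Y _ => hg0 Y
  have hb : ∀ j, 0 ≤ q ^ j * (1 - q) ^ (C.card - j) := fun j =>
    mul_nonneg (pow_nonneg h0 _) (pow_nonneg (by linarith) _)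
  have htail := B3.low_tail C.card J q h0 h1 hJ h4
  have hsum := B3.sum_id C.card q
  have hsplit : ∀ f : ℕ → ℝ, ∑ j ∈ range (C.card + 1), f j =
      ∑ j ∈ range J, f j + ∑ j ∈ Ico J (C.card + 1), f j := fun f =>
    (sum_range_add_sum_Ico f (by omega)).symm
  rw [hsplit] at hsum
  have h5 : (C.card.choose J : ℝ) * Ex (fun _ => q) C g ≥
      B3.sj C g J * ∑ j ∈ Ico J (C.card + 1),
        ((C.card.choose j : ℝ) * q ^ j * (1 - q) ^ (C.card - j)) := by
    rw [B3.ex_eq, hsplit, mul_add, mul_sum, mul_sum]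
    have h6 : 0 ≤ ∑ j ∈ range J, (C.card.choose J : ℝ) *
        (q ^ j * (1 - q) ^ (C.card - j) * B3.sj C g j) :=
      sum_nonneg fun j _ => mul_nonneg (Nat.cast_nonneg _) (mul_nonneg (hb j) (hs0 j))
    have h7 : ∑ j ∈ Ico J (C.card + 1),
        B3.sj C g J * ((C.card.choose j : ℝ) * q ^ j * (1 - q) ^ (C.card - j)) ≤
        ∑ j ∈ Ico J (C.card + 1),
        (C.card.choose J : ℝ) * (q ^ j * (1 - q) ^ (C.card - j) * B3.sj C g j) := by
      refine sum_le_sum fun j hj => ?_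
      rw [mem_Ico] at hj
      obtain ⟨d, rfl⟩ := Nat.exists_eq_add_of_le hj.1
      have h8 := B3.mono C g hg J d (by omega)
      have h9 := mul_le_mul_of_nonneg_left h8 (hb (J + d))
      calc B3.sj C g J * ((C.card.choose (J + d) : ℝ) * q ^ (J + d) * (1 - q) ^ (C.card - (J + d)))
          = q ^ (J + d) * (1 - q) ^ (C.card - (J + d)) *
              ((C.card.choose (J + d) : ℝ) * B3.sj C g J) := by ring
        _ ≤ _ := h9
        _ = _ := by ring
    rw [ge_iff_le, mul_sum]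
    linarith
  have h6 : (1 : ℝ) / 2 ≤ ∑ j ∈ Ico J (C.card + 1),
        ((C.card.choose j : ℝ) * q ^ j * (1 - q) ^ (C.card - j)) := by linarith
  have h7 := mul_le_mul_of_nonneg_left h6 (hs0 J)
  change B3.sj C g J ≤ _
  nlinarith

end Pool.Agent.H710.KU
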