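import Pool.Agent.H710.KU.St

/-! B4 and L3. -/

set_option autoImplicit false

namespace Pool.Agent.H710.KU

open Finset Equiv

theorem b4 (h2 : S_B2) (h3 : S_B3) : S_B4 := by
  intro n C i q g hq0 hq1 hi hq hmono hpos
  have hJ : C.card - i ≤ C.card := Nat.sub_le _ _
  have e1 := h2 n C i g hi
  have e2 := h3 n C (C.card - i) q g hq0 hq1 hJ (by
    rw [Nat.cast_sub hi]
    exact hq) hmono hpos
  rw [Nat.choose_symm hi] at e2
  have hN : (0 : ℝ) < (C.card.choose i : ℝ) := by exact_mod_cast Nat.choose_pos hi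
  have hR : 0 ≤ ∑ r : Perm (Fin n), ind (P r C.card = C) := Finset.sum_nonneg fun r _ => ind_nonneg _
  have e3 := mul_le_mul_of_nonneg_left e2 hR
  rw [← e1] at e3
  refine le_of_mul_le_mul_left (a := (C.card.choose i : ℝ)) ?_ hN
  refine e3.trans (le_of_eq ?_)
  ring

namespace B4

/-- the function to which B4 is applied -/
noncomputable def gg {n : ℕ} (F : Fam n) (S : Cen n) (C D : Finset (Fin n)) : ℝ :=
  ind (∃ x, S C = some x ∧ UpF F C (D.erase x))

theorem UpF_mono {n : ℕ} {F : Fam n} {C D D' : Finset (Fin n)} (h : D ⊆ D') (hD : UpF F C D) : UpF F C D' := by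
  obtain ⟨A, hA, hAC, hs⟩ := hD
  exact ⟨A, hA, hAC, hs.trans h⟩

theorem gg_mono {n : ℕ} (F : Fam n) (S : Cen n) (C D D' : Finset (Fin n)) (h : D ⊆ D') :
    gg F S C D ≤ gg F S C D' := by
  unfold gg
  apply ind_mono
  rintro ⟨x, hx, hU⟩
  exact ⟨x, hx, UpF_mono (Finset.erase_subset_erase x h) hU⟩

theorem Ex_gg {n : ℕ} {F : Fam n} {S : Cen n} {K0 q ε : ℝ} (hG : Good F S K0 q ε) (hε : 0 ≤ ε)
    {C : Finset (Fin n)} (hC : C ∈ F) : Ex (fun _ => q) C (gg F S C) ≤ ε := by
  rcases hS : S C with _ | x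
  · have h1 : Ex (fun _ => q) C (gg F S C) = Ex (fun _ => q) C (fun _ => 0) := by
      apply Ex_congr
      intro D _
      unfold gg
      apply ind_false
      rintro ⟨x, hx, -⟩
      rw [hS] at hx
      exact absurd hx (by simp)
    rw [h1, Ex_const]
    exact hε
  · have h1 : Ex (fun _ => q) C (gg F S C) = Ex (fun _ => q) C (fun D => ind (UpF F C (D.erase x))) := by
      apply Ex_congr
      intro D _
      unfold gg
      apply ind_congr
      constructor
      · rintro ⟨y, hy, hU⟩
        rw [hS] at hy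
        rw [Option.some.inj hy]
        exact hU
      · intro hU
        exact ⟨x, hS, hU⟩
    rw [h1]
    exact hG.2.1 C hC x hS

/-- the pointwise bound -/
theorem exc_le {n : ℕ} {F : Fam n} {S : Cen n} {lo hi : ℕ} (hL : Levels F lo hi) (hh : hi < n)
    (r : Perm (Fin n)) : ind (ExcChain F S r) ≤
      ∑ C ∈ F, ind (P r C.card = C) * gg F S C (C \ P r lo) := by
  by_cases hE : ExcChain F S r
  · obtain ⟨i, k, hiF, hkF, hik, x, hx, hSx⟩ := hE
    rw [ind_true ⟨i, k, hiF, hkF, hik, x, hx, hSx⟩]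
    have hi := hit_level hL hh hiF
    have hk := hit_level hL hh hkF
    have hcard : (P r k).card = k := card_P r k (by omega)
    have h1 : ind (P r (P r k).card = P r k) * gg F S (P r k) (P r k \ P r lo) = 1 := by
      rw [ind_true (by rw [hcard])]
      unfold gg
      rw [ind_true, one_mul]
      refine ⟨x, hSx, P r i, hiF, hik, ?_⟩
      intro e he
      rw [Finset.mem_sdiff] at he
      rw [Finset.mem_erase, Finset.mem_sdiff]
      exact ⟨fun h => he.2 (h ▸ hx), he.1, fun h => he.2 (P_mono r (by omega) h)⟩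
    rw [← h1]
    exact Finset.single_le_sum (f := fun C => ind (P r C.card = C) * gg F S C (C \ P r lo))
      (fun C _ => mul_nonneg (ind_nonneg _) (ind_nonneg _)) hkF
  · rw [ind_false hE]
    exact Finset.sum_nonneg fun C _ => mul_nonneg (ind_nonneg _) (ind_nonneg _)

/-- a chain contains at most `n` members of `F` -/
theorem count_le {n : ℕ} {F : Fam n} {lo hi : ℕ} (hL : Levels F lo hi) (hh : hi < n)
    (r : Perm (Fin n)) : ∑ C ∈ F, ind (P r C.card = C) ≤ n := by
  classical
  have h1 : ∑ C ∈ F, ind (P r C.card = C) = ((F.filter fun C => P r C.card = C).card : ℝ) := by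
    rw [Finset.card_filter, Nat.cast_sum]
    apply Finset.sum_congr rfl
    intro C _
    by_cases h : P r C.card = C
    · rw [ind_true h, if_pos h, Nat.cast_one]
    · rw [ind_false h, if_neg h, Nat.cast_zero]
  rw [h1]
  have h2 : (F.filter fun C => P r C.card = C).card ≤ (Finset.range n).card := by
    refine Finset.card_le_card_of_injOn (fun C => C.card) ?_ ?_
    · intro C hC
      have hC' := Finset.mem_filter.1 (Finset.mem_coe.1 hC)
      have := (hL C hC'.1).2
      exact Finset.mem_coe.2 (Finset.mem_range.2 (lt_of_le_of_lt this hh))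
    · intro C hC D hD hCD
      have hC' := Finset.mem_filter.1 (Finset.mem_coe.1 hC)
      have hD' := Finset.mem_filter.1 (Finset.mem_coe.1 hD)
      have hCD' : C.card = D.card := hCD
      rw [← hC'.2, ← hD'.2, hCD']
  rw [Finset.card_range] at h2
  exact_mod_cast h2

end B4

theorem l3 (h : S_B4) : S_L3 := by
  intro n F S lo hi K0 q ε hL hlo hh hn hG hε hq0 hq1 hq
  have h1 : ∑ r : Perm (Fin n), ind (ExcChain F S r) ≤
      ∑ r : Perm (Fin n), ∑ C ∈ F, ind (P r C.card = C) * B4.gg F S C (C \ P r lo) :=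
    Finset.sum_le_sum fun r _ => B4.exc_le hL hh r
  rw [Finset.sum_comm] at h1
  have h2 : ∀ C ∈ F, ∑ r : Perm (Fin n), ind (P r C.card = C) * B4.gg F S C (C \ P r lo) ≤
      2 * ε * ∑ r : Perm (Fin n), ind (P r C.card = C) := by
    intro C hC
    have hCc := hL C hC
    have hlo' : (lo : ℝ) ≤ C.card := by exact_mod_cast (by omega : lo ≤ C.card)
    have hhi' : (C.card : ℝ) ≤ hi := by exact_mod_cast hCc.2
    have hn' : (n : ℝ) ≤ 3 * lo := by exact_mod_cast hn
    have h3 := h n C lo q (B4.gg F S C) hq0 hq1 (by omega) (by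
      have e1 : q * n ≤ q * (3 * C.card) := mul_le_mul_of_nonneg_left (by linarith) hq0
      nlinarith) (fun D D' hD => B4.gg_mono F S C D D' hD) (fun D => ind_nonneg _)
    refine h3.trans ?_
    refine mul_le_mul_of_nonneg_right ?_ (Finset.sum_nonneg fun r _ => ind_nonneg _)
    exact mul_le_mul_of_nonneg_left (B4.Ex_gg hG hε hC) (by norm_num)
  have h3 : ∑ C ∈ F, ∑ r : Perm (Fin n), ind (P r C.card = C) ≤ n * (n.factorial : ℝ) := by
    rw [Finset.sum_comm]
    refine (Finset.sum_le_sum fun r _ => B4.count_le hL hh r).trans (le_of_eq ?_)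
    rw [Finset.sum_const, Finset.card_univ, Fintype.card_perm, Fintype.card_fin, nsmul_eq_mul]
    ring
  calc ∑ r : Perm (Fin n), ind (ExcChain F S r)
      ≤ ∑ C ∈ F, ∑ r : Perm (Fin n), ind (P r C.card = C) * B4.gg F S C (C \ P r lo) := h1
    _ ≤ ∑ C ∈ F, 2 * ε * ∑ r : Perm (Fin n), ind (P r C.card = C) := Finset.sum_le_sum h2
    _ = 2 * ε * ∑ C ∈ F, ∑ r : Perm (Fin n), ind (P r C.card = C) := by rw [Finset.mul_sum]
    _ ≤ 2 * ε * (n * (n.factorial : ℝ)) := mul_le_mul_of_nonneg_left h3 (by linarith)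
    _ = 2 * n * ε * (n.factorial : ℝ) := by ring

end Pool.Agent.H710.KU
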