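import Pool.Agent.H710.KU.St

/-! KU B6: Gaussian bound for binomial coefficients. -/

set_option autoImplicit false

namespace Pool.Agent.H710.KU

namespace B6

theorem step {n k : ℕ} (hk1 : k + 1 ≤ n) (hk : n ≤ 2 * k + 1) :
    (n.choose (k + 1) : ℝ) ≤ n.choose k * Real.exp (-((2 * k + 1 - n) / n)) := by
  have hn : (0 : ℝ) < n := by
    have : 0 < n := by omega
    exact_mod_cast this
  have h1 : (n.choose (k + 1) : ℝ) * ((k : ℝ) + 1) = n.choose k * ((n : ℝ) - k) := by
    have h2 := Nat.choose_succ_right_eq n k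
    have h3 : ((n - k : ℕ) : ℝ) = (n : ℝ) - k := by
      rw [Nat.cast_sub (by omega)]
    rw [← h3]
    exact_mod_cast h2
  have hk0 : (0 : ℝ) < (k : ℝ) + 1 := by positivity
  have hkn : (k : ℝ) + 1 ≤ n := by exact_mod_cast hk1
  have hkn2 : (n : ℝ) ≤ 2 * k + 1 := by exact_mod_cast hk
  have h4 : (n.choose (k + 1) : ℝ) = n.choose k * (((n : ℝ) - k) / (k + 1)) := by
    rw [← mul_div_assoc, ← h1, mul_div_assoc, div_self hk0.ne', mul_one]
  rw [h4]
  refine mul_le_mul_of_nonneg_left ?_ (by positivity)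
  have h5 := Real.add_one_le_exp (-((2 * (k : ℝ) + 1 - n) / n))
  refine le_trans ?_ h5
  have h6 : ((n : ℝ) - k) / (k + 1) = -((2 * (k : ℝ) + 1 - n) / (k + 1)) + 1 := by
    field_simp
    ring
  rw [h6]
  have h7 : (2 * (k : ℝ) + 1 - n) / n ≤ (2 * (k : ℝ) + 1 - n) / (k + 1) :=
    div_le_div_of_nonneg_left (by linarith) hk0 hkn
  linarith

theorem upper {n : ℕ} {k : ℕ} (hk0 : n / 2 ≤ k) (hk : k ≤ n) :
    (n.choose k : ℝ) ≤ (n.choose (n / 2) : ℝ) *
      Real.exp (-((((k : ℝ) - n / 2) ^ 2 - (((n / 2 : ℕ) : ℝ) - n / 2) ^ 2) / n)) := by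
  induction k, hk0 using Nat.le_induction with
  | base => simp
  | succ k hk0 ih =>
    have h1 := ih (by omega)
    have h2 := step hk (by omega : n ≤ 2 * k + 1)
    refine h2.trans ((mul_le_mul_of_nonneg_right h1 (Real.exp_pos _).le).trans (le_of_eq ?_))
    rw [mul_assoc, ← Real.exp_add]
    congr 2
    push_cast
    ring

theorem half (n : ℕ) : (((n / 2 : ℕ) : ℝ) - n / 2) ^ 2 ≤ 1 / 4 := by
  rcases Nat.even_or_odd' n with ⟨m, hm | hm⟩
  · have h1 : n / 2 = m := by omega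
    rw [h1, hm]
    push_cast
    have : (m : ℝ) - 2 * m / 2 = 0 := by ring
    rw [this]
    norm_num
  · have h1 : n / 2 = m := by omega
    rw [h1, hm]
    push_cast
    have : (m : ℝ) - (2 * m + 1) / 2 = -(1 / 2) := by ring
    rw [this]
    norm_num

theorem upper' {n : ℕ} {k : ℕ} (hk0 : n / 2 ≤ k) (hk : k ≤ n) :
    (n.choose k : ℝ) ≤ (n.choose (n / 2) : ℝ) *
      Real.exp (-((((k : ℝ) - n / 2) ^ 2 - 1 / 4) / n)) := by
  refine (upper hk0 hk).trans (mul_le_mul_of_nonneg_left (Real.exp_le_exp.2 ?_) (by positivity))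
  have h1 := half n
  apply neg_le_neg
  apply div_le_div_of_nonneg_right _ (Nat.cast_nonneg n)
  linarith

end B6

theorem b6 : S_B6 := by
  intro n k _ hk
  rcases le_or_gt (n / 2) k with h | h
  · exact B6.upper' h hk
  · have h1 := B6.upper' (n := n) (k := n - k) (by omega) (by omega)
    rw [Nat.choose_symm hk] at h1
    refine h1.trans (le_of_eq ?_)
    congr 4
    rw [Nat.cast_sub hk]
    ring

end Pool.Agent.H710.KU
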