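import Pool.Agent.H710.KU.St

/-!
C1: exchange argument for dead elements.
-/

set_option autoImplicit false

namespace Pool.Agent.H710.KU

open Finset Equiv

namespace C1

theorem sum_ind_le {α : Type*} (s : Finset α) (p : α → Prop)
    (h : ∀ x ∈ s, ∀ y ∈ s, p x → p y → x = y) : ∑ x ∈ s, ind (p x) ≤ ind (∃ x ∈ s, p x) := by
  classical
  by_cases hex : ∃ x ∈ s, p x
  · rw [ind_true hex]
    obtain ⟨x, hx, hpx⟩ := hex
    have h1 : ∑ y ∈ s, ind (p y) = ind (p x) := by
      refine Finset.sum_eq_single x ?_ ?_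
      · intro y hy hyx
        exact ind_false fun hpy => hyx (h y hy x hx hpy hpx)
      · intro hx'
        exact absurd hx hx'
    rw [h1]
    exact ind_le_one _
  · rw [ind_false hex]
    refine le_of_eq (Finset.sum_eq_zero fun x hx => ind_false fun hpx => hex ⟨x, hx, hpx⟩)

/-- the first `lo` positions and the position `i` -/
def B {n : ℕ} (lo : ℕ) (i : Fin n) : Finset (Fin n) :=
  insert i (univ.filter fun j : Fin n => (j : ℕ) < lo)

theorem mem_B {n : ℕ} {lo : ℕ} {i j : Fin n} : j ∈ B lo i ↔ j = i ∨ (j : ℕ) < lo := by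
  unfold B
  rw [Finset.mem_insert, Finset.mem_filter]
  simp

theorem card_B {n : ℕ} {lo : ℕ} {i : Fin n} (h : lo ≤ (i : ℕ)) : (B lo i).card = lo + 1 := by
  unfold B
  rw [Finset.card_insert_of_notMem, Fin.card_filter_val_lt, min_eq_right]
  · have := i.isLt; omega
  · simp only [Finset.mem_filter, Finset.mem_univ, true_and, not_lt]
    exact h

theorem mem_PP {n : ℕ} {lo : ℕ} {i j : Fin n} (hj : j ∈ B lo i) (r : Perm (Fin n)) {k : ℕ}
    (h1 : lo ≤ k) (h2 : k ≤ (i : ℕ)) (e : Fin n) :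
    e ∈ P (swap i j * r) k ↔ (r e = i ∨ (r e : ℕ) < k) ∧ r e ≠ j := by
  rw [mem_P_mul]
  rw [mem_B] at hj
  by_cases e1 : r e = i
  · rw [e1, swap_apply_left]
    constructor
    · intro h
      refine ⟨Or.inl rfl, ?_⟩
      intro h'
      rw [← h'] at h
      omega
    · rintro ⟨-, h⟩
      rcases hj with hj | hj
      · exact absurd hj.symm h
      · omega
  · by_cases e2 : r e = j
    · rw [e2, swap_apply_right]
      constructor
      · intro h; omega
      · rintro ⟨-, h⟩; exact absurd rfl h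
    · rw [swap_apply_of_ne_of_ne e1 e2]
      constructor
      · intro h; exact ⟨Or.inr h, e2⟩
      · rintro ⟨h | h, -⟩
        · exact absurd h e1
        · exact h

theorem symm_i {n : ℕ} (i j : Fin n) (r : Perm (Fin n)) :
    (swap i j * r).symm i = r.symm j := by
  rw [Equiv.symm_apply_eq]
  show i = swap i j (r (r.symm j))
  rw [Equiv.apply_symm_apply, swap_apply_right]

/-- the event -/
def G {n : ℕ} (F : Fam n) (lo : ℕ) (i : Fin n) (r : Perm (Fin n)) : Prop :=
  ∃ a ∈ range ((i : ℕ) + 1), Low F r a ∧ LL F lo r a (r.symm i)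

theorem low_ge {n : ℕ} {F : Fam n} {lo : ℕ} (hF : ∀ A ∈ F, lo + 3 ≤ A.card) {r : Perm (Fin n)}
    {a : ℕ} (h : Low F r a) : lo + 3 ≤ a := by
  have h1 := hF _ h.1
  rw [card_P'] at h1
  omega

theorem disj {n : ℕ} {F : Fam n} {lo : ℕ} {i : Fin n} (hF : ∀ A ∈ F, lo + 3 ≤ A.card)
    (r : Perm (Fin n)) {j j' : Fin n} (hj : j ∈ B lo i) (hj' : j' ∈ B lo i) (hne : j ≠ j')
    {a a' : ℕ} (ha : a ≤ (i : ℕ)) (haa : a' ≤ a)
    (h1 : LL F lo (swap i j * r) a ((swap i j * r).symm i)) (h2 : Low F (swap i j' * r) a') :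
    False := by
  have hge := low_ge hF h2
  rw [symm_i] at h1
  have h3 : r.symm j' ∈ P (swap i j * r) lo := by
    rw [mem_PP hj r le_rfl (by omega), Equiv.apply_symm_apply]
    exact ⟨mem_B.mp hj', hne.symm⟩
  refine h1.2 a' haa _ h3 ?_
  have h4 : (insert (r.symm j) (P (swap i j * r) a')).erase (r.symm j') = P (swap i j' * r) a' := by
    ext e
    rw [Finset.mem_erase, Finset.mem_insert, mem_PP hj r (by omega) (by omega),
      mem_PP hj' r (by omega) (by omega)]
    have e1 : e = r.symm j' ↔ r e = j' := by rw [Equiv.eq_symm_apply]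
    have e2 : e = r.symm j ↔ r e = j := by rw [Equiv.eq_symm_apply]
    rw [ne_eq, e1, e2]
    have e3 : r e = j → (r e = i ∨ (r e : ℕ) < a') := by
      intro h
      rw [h]
      rcases mem_B.mp hj with h | h
      · exact Or.inl h
      · right; omega
    tauto
  rw [h4]
  exact h2.1

end C1

open C1 in
theorem c1 : S_C1 := by
  intro n F lo i hF hlo
  have h1 : ∀ r : Perm (Fin n), ∑ a ∈ range ((i : ℕ) + 1),
      ind (Low F r a ∧ LL F lo r a (r.symm i)) ≤ ind (G F lo i r) := by
    intro r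
    refine sum_ind_le _ _ ?_
    intro x _ y _ hx hy
    exact Low_unique hx.1 hy.1
  have h2 : ∀ r : Perm (Fin n), ∑ j ∈ B lo i, ind (G F lo i (swap i j * r)) ≤ 1 := by
    intro r
    refine (sum_ind_le _ _ ?_).trans (ind_le_one _)
    intro j hj j' hj' hGj hGj'
    by_contra hne
    obtain ⟨a, ha, hl, hL⟩ := hGj
    obtain ⟨a', ha', hl', hL'⟩ := hGj'
    rw [Finset.mem_range] at ha ha'
    rcases le_total a' a with h | h
    · exact disj hF r hj hj' hne (by omega) h hL hl'
    · exact disj hF r hj' hj (Ne.symm hne) (by omega) h hL' hl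
  have h3 : ((lo : ℝ) + 1) * ∑ r : Perm (Fin n), ind (G F lo i r) ≤ (n.factorial : ℝ) := by
    have h4 : ((lo : ℝ) + 1) * ∑ r : Perm (Fin n), ind (G F lo i r) =
        ∑ r : Perm (Fin n), ∑ j ∈ B lo i, ind (G F lo i (swap i j * r)) := by
      rw [Finset.sum_comm]
      have h5 : ∀ j ∈ B lo i, ∑ r : Perm (Fin n), ind (G F lo i (swap i j * r)) =
          ∑ r : Perm (Fin n), ind (G F lo i r) := fun j _ =>
        sum_mul_left (swap i j) fun r => ind (G F lo i r)
      rw [Finset.sum_congr rfl h5, Finset.sum_const, card_B hlo, nsmul_eq_mul]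
      push_cast
      rfl
    rw [h4]
    calc ∑ r : Perm (Fin n), ∑ j ∈ B lo i, ind (G F lo i (swap i j * r))
        ≤ ∑ _r : Perm (Fin n), (1 : ℝ) := Finset.sum_le_sum fun r _ => h2 r
      _ = (n.factorial : ℝ) := by
          rw [Finset.sum_const, Finset.card_univ, Fintype.card_perm, Fintype.card_fin,
            nsmul_eq_mul, mul_one]
  refine le_trans ?_ h3
  apply mul_le_mul_of_nonneg_left _ (by positivity)
  exact Finset.sum_le_sum fun r _ => h1 r

end Pool.Agent.H710.KU
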