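import Pool.Agent.H710.KU.St

/-!
C2: exchange argument for dead pairs.
-/

set_option autoImplicit false

namespace Pool.Agent.H710.KU

open Finset Equiv

namespace C2

theorem sum_ind_le {α : Type*} (s : Finset α) (p : α → Prop)
    (h : ∀ x ∈ s, ∀ y ∈ s, p x → p y → x = y) : ∑ x ∈ s, ind (p x) ≤ ind (∃ x ∈ s, p x) := by
  classical
  by_cases hex : ∃ x ∈ s, p x
  · rw [ind_true hex]
    obtain ⟨x, hx, hpx⟩ := hex
    have h1 : ∑ y ∈ s, ind (p y) = ind (p x) := by
      refine Finset.sum_eq_single x ?_ ?_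
      · intro y hy hyx
        exact ind_false fun hpy => hyx (h y hy x hx hpy hpx)
      · intro hx'
        exact absurd hx hx'
    rw [h1]
    exact ind_le_one _
  · rw [ind_false hex]
    refine le_of_eq (Finset.sum_eq_zero fun x hx => ind_false fun hpx => hex ⟨x, hx, hpx⟩)

theorem sum_ind_le_two {α : Type*} (s : Finset (α × α)) (p : α × α → Prop)
    (h : ∀ x ∈ s, ∀ y ∈ s, p x → p y → y = x ∨ y = x.swap) : ∑ x ∈ s, ind (p x) ≤ 2 := by
  classical
  by_cases hex : ∃ x ∈ s, p x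
  · obtain ⟨x, hx, hpx⟩ := hex
    have h1 : ∑ y ∈ s, ind (p y) ≤ ∑ y ∈ s, ind (y ∈ ({x, x.swap} : Finset (α × α))) := by
      refine Finset.sum_le_sum fun y hy => ind_mono fun hpy => ?_
      rw [Finset.mem_insert, Finset.mem_singleton]
      exact h x hx y hy hpx hpy
    have h2 : ∑ y ∈ s, ind (y ∈ ({x, x.swap} : Finset (α × α))) ≤
        ∑ y ∈ ({x, x.swap} : Finset (α × α)), (1 : ℝ) := by
      have h3 : ∑ y ∈ s, ind (y ∈ ({x, x.swap} : Finset (α × α))) =
          ∑ y ∈ s.filter (fun y => y ∈ ({x, x.swap} : Finset (α × α))), (1 : ℝ) := by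
        rw [Finset.sum_filter]
        refine Finset.sum_congr rfl fun y _ => ?_
        by_cases hy : y ∈ ({x, x.swap} : Finset (α × α))
        · rw [ind_true hy, if_pos hy]
        · rw [ind_false hy, if_neg hy]
      rw [h3]
      refine Finset.sum_le_sum_of_subset_of_nonneg ?_ fun _ _ _ => zero_le_one
      intro y hy
      exact (Finset.mem_filter.mp hy).2
    have h4 : ∑ y ∈ ({x, x.swap} : Finset (α × α)), (1 : ℝ) ≤ 2 := by
      rw [Finset.sum_const, nsmul_eq_mul, mul_one]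
      exact_mod_cast Finset.card_le_two
    linarith
  · rw [Finset.sum_eq_zero fun x hx => ind_false fun hpx => hex ⟨x, hx, hpx⟩]
    norm_num

/-- the first `lo` positions and the positions `i, i'` -/
def B {n : ℕ} (lo : ℕ) (i i' : Fin n) : Finset (Fin n) :=
  insert i (insert i' (univ.filter fun j : Fin n => (j : ℕ) < lo))

theorem mem_B {n : ℕ} {lo : ℕ} {i i' j : Fin n} : j ∈ B lo i i' ↔ j = i ∨ j = i' ∨ (j : ℕ) < lo := by
  unfold B
  rw [Finset.mem_insert, Finset.mem_insert, Finset.mem_filter]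
  simp

theorem card_B {n : ℕ} {lo : ℕ} {i i' : Fin n} (h : lo ≤ (i : ℕ)) (h' : lo ≤ (i' : ℕ))
    (hne : i ≠ i') : (B lo i i').card = lo + 2 := by
  unfold B
  have h1 : i' ∉ (univ.filter fun j : Fin n => (j : ℕ) < lo) := by
    simp only [Finset.mem_filter, Finset.mem_univ, true_and, not_lt]
    exact h'
  have h2 : i ∉ insert i' (univ.filter fun j : Fin n => (j : ℕ) < lo) := by
    rw [Finset.mem_insert, not_or]
    refine ⟨hne, ?_⟩
    simp only [Finset.mem_filter, Finset.mem_univ, true_and, not_lt]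
    exact h
  rw [Finset.card_insert_of_notMem h2, Finset.card_insert_of_notMem h1, Fin.card_filter_val_lt,
    min_eq_right]
  have := i.isLt; omega

/-- the permutation of positions -/
def rho {n : ℕ} (i i' : Fin n) (p : Fin n × Fin n) : Perm (Fin n) :=
  swap i' (swap i p.1 p.2) * swap i p.1

theorem rho_fst {n : ℕ} {i i' : Fin n} (hne : i ≠ i') {p : Fin n × Fin n} (hp : p.1 ≠ p.2) :
    rho i i' p p.1 = i := by
  unfold rho
  rw [Perm.mul_apply, swap_apply_right]
  apply swap_apply_of_ne_of_ne hne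
  intro h
  apply hp
  have h1 : swap i p.1 p.1 = swap i p.1 p.2 := by rw [swap_apply_right]; exact h
  exact (swap i p.1).injective h1

theorem rho_snd {n : ℕ} {i i' : Fin n} (p : Fin n × Fin n) :
    rho i i' p p.2 = i' := by
  unfold rho
  rw [Perm.mul_apply, swap_apply_right]

theorem swap_mem {n : ℕ} {lo : ℕ} {i i' a b c : Fin n} (ha : a ∈ B lo i i') (hb : b ∈ B lo i i')
    (hc : c ∈ B lo i i') : swap a b c ∈ B lo i i' := by
  by_cases h1 : c = a
  · rw [h1, swap_apply_left]; exact hb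
  · by_cases h2 : c = b
    · rw [h2, swap_apply_right]; exact ha
    · rw [swap_apply_of_ne_of_ne h1 h2]; exact hc

theorem self_mem {n : ℕ} {lo : ℕ} {i i' : Fin n} : i ∈ B lo i i' := mem_B.mpr (Or.inl rfl)

theorem self_mem' {n : ℕ} {lo : ℕ} {i i' : Fin n} : i' ∈ B lo i i' :=
  mem_B.mpr (Or.inr (Or.inl rfl))

theorem rho_mem {n : ℕ} {lo : ℕ} {i i' : Fin n} {p : Fin n × Fin n} (h1 : p.1 ∈ B lo i i')
    (h2 : p.2 ∈ B lo i i') {c : Fin n} (hc : c ∈ B lo i i') : rho i i' p c ∈ B lo i i' := by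
  unfold rho
  rw [Perm.mul_apply]
  exact swap_mem self_mem' (swap_mem self_mem h1 h2) (swap_mem self_mem h1 hc)

theorem rho_out {n : ℕ} {lo : ℕ} {i i' : Fin n} {p : Fin n × Fin n} (h1 : p.1 ∈ B lo i i')
    (h2 : p.2 ∈ B lo i i') {c : Fin n} (hc : c ∉ B lo i i') : rho i i' p c = c := by
  have key : ∀ a ∈ B lo i i', c ≠ a := fun a ha h => hc (h ▸ ha)
  unfold rho
  rw [Perm.mul_apply, swap_apply_of_ne_of_ne (key _ self_mem) (key _ h1),
    swap_apply_of_ne_of_ne (key _ self_mem') (key _ (swap_mem self_mem h1 h2))]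

theorem mem_PP {n : ℕ} {lo : ℕ} {i i' : Fin n} (hne : i ≠ i') {p : Fin n × Fin n}
    (h1 : p.1 ∈ B lo i i') (h2 : p.2 ∈ B lo i i') (hp : p.1 ≠ p.2) (r : Perm (Fin n)) {k : ℕ}
    (hk : lo ≤ k) (hk1 : k ≤ (i : ℕ)) (hk2 : k ≤ (i' : ℕ)) (e : Fin n) :
    e ∈ P (rho i i' p * r) k ↔ (r e ∈ B lo i i' ∨ (r e : ℕ) < k) ∧ r e ≠ p.1 ∧ r e ≠ p.2 := by
  rw [mem_P_mul]
  by_cases hc : r e ∈ B lo i i'
  · have h3 := rho_mem h1 h2 hc
    rw [mem_B] at h3
    constructor
    · intro h
      refine ⟨Or.inl hc, ?_, ?_⟩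
      · intro h4
        rw [h4, rho_fst hne hp] at h
        omega
      · intro h4
        rw [h4, rho_snd] at h
        omega
    · rintro ⟨-, h4, h5⟩
      rcases h3 with h3 | h3 | h3
      · exact absurd ((rho i i' p).injective (h3.trans (rho_fst hne hp).symm)) h4
      · exact absurd ((rho i i' p).injective (h3.trans (rho_snd p).symm)) h5
      · omega
  · rw [rho_out h1 h2 hc]
    constructor
    · intro h
      exact ⟨Or.inr h, fun h' => hc (h' ▸ h1), fun h' => hc (h' ▸ h2)⟩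
    · rintro ⟨h | h, -⟩
      · exact absurd h hc
      · exact h

theorem symm_i {n : ℕ} {i i' : Fin n} (hne : i ≠ i') {p : Fin n × Fin n} (hp : p.1 ≠ p.2)
    (r : Perm (Fin n)) : (rho i i' p * r).symm i = r.symm p.1 := by
  rw [Equiv.symm_apply_eq]
  show i = rho i i' p (r (r.symm p.1))
  rw [Equiv.apply_symm_apply, rho_fst hne hp]

theorem symm_i' {n : ℕ} {i i' : Fin n} {p : Fin n × Fin n}
    (r : Perm (Fin n)) : (rho i i' p * r).symm i' = r.symm p.2 := by
  rw [Equiv.symm_apply_eq]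
  show i' = rho i i' p (r (r.symm p.2))
  rw [Equiv.apply_symm_apply, rho_snd]

/-- the event -/
def G {n : ℕ} (F : Fam n) (lo : ℕ) (i i' : Fin n) (r : Perm (Fin n)) : Prop :=
  ∃ a ∈ range (min (i : ℕ) (i' : ℕ) + 1), Low F r a ∧ M2 F lo r a (r.symm i) (r.symm i')

theorem low_ge {n : ℕ} {F : Fam n} {lo : ℕ} (hF : ∀ A ∈ F, lo + 3 ≤ A.card) {r : Perm (Fin n)}
    {a : ℕ} (h : Low F r a) : lo + 3 ≤ a := by
  have h1 := hF _ h.1
  rw [card_P'] at h1
  omega

theorem eqs {n : ℕ} (r : Perm (Fin n)) (e j : Fin n) : e = r.symm j ↔ r e = j := by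
  rw [Equiv.eq_symm_apply]

theorem disj {n : ℕ} {F : Fam n} {lo : ℕ} {i i' : Fin n} (hF : ∀ A ∈ F, lo + 3 ≤ A.card)
    (hne : i ≠ i') (r : Perm (Fin n)) {p q : Fin n × Fin n} (hp1 : p.1 ∈ B lo i i')
    (hp2 : p.2 ∈ B lo i i') (hp : p.1 ≠ p.2) (hq1 : q.1 ∈ B lo i i') (hq2 : q.2 ∈ B lo i i')
    (hq : q.1 ≠ q.2) {a a' : ℕ} (ha : a ≤ (i : ℕ)) (hai : a ≤ (i' : ℕ)) (haa : a' ≤ a)
    (h1 : M2 F lo (rho i i' p * r) a ((rho i i' p * r).symm i) ((rho i i' p * r).symm i'))
    (h2 : Low F (rho i i' q * r) a') : q = p ∨ q = p.swap := by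
  have hge := low_ge hF h2
  rw [symm_i hne hp, symm_i'] at h1
  obtain ⟨-, hLx, hLy, hM⟩ := h1
  have hPl : ∀ j, j ∈ B lo i i' → j ≠ p.1 → j ≠ p.2 → r.symm j ∈ P (rho i i' p * r) lo := by
    intro j hj hj1 hj2
    rw [mem_PP hne hp1 hp2 hp r le_rfl (by omega) (by omega), Equiv.apply_symm_apply]
    exact ⟨Or.inl hj, hj1, hj2⟩
  have hin : ∀ e j, j ∈ B lo i i' → r e = j → (r e ∈ B lo i i' ∨ (r e : ℕ) < a') := by
    intro e j hj h
    rw [h]; exact Or.inl hj
  have hmp : ∀ e, e ∈ P (rho i i' p * r) a' ↔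
      (r e ∈ B lo i i' ∨ (r e : ℕ) < a') ∧ r e ≠ p.1 ∧ r e ≠ p.2 := fun e =>
    mem_PP hne hp1 hp2 hp r (by omega) (by omega) (by omega) e
  have hmq : ∀ e, e ∈ P (rho i i' q * r) a' ↔
      (r e ∈ B lo i i' ∨ (r e : ℕ) < a') ∧ r e ≠ q.1 ∧ r e ≠ q.2 := fun e =>
    mem_PP hne hq1 hq2 hq r (by omega) (by omega) (by omega) e
  -- the case of one common element
  have hone : ∀ (s t z : Fin n), s ∈ B lo i i' → t ∈ B lo i i' → z ∈ B lo i i' → z ≠ p.1 →
      z ≠ p.2 → (∀ e : Fin n, (r e ≠ p.1 ∧ r e ≠ p.2) ↔ (r e ≠ s ∧ r e ≠ t)) →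
      (∀ e : Fin n, (r e ≠ q.1 ∧ r e ≠ q.2) ↔ (r e ≠ s ∧ r e ≠ z)) →
      LL F lo (rho i i' p * r) a (r.symm t) → s ≠ t → False := by
    intro s t z hs ht hz hz1 hz2 hst hsz hL hst'
    refine hL.2 a' haa _ (hPl z hz hz1 hz2) ?_
    have h4 : (insert (r.symm t) (P (rho i i' p * r) a')).erase (r.symm z) =
        P (rho i i' q * r) a' := by
      ext e
      rw [Finset.mem_erase, Finset.mem_insert, hmp, hmq, ne_eq, eqs, eqs, hst e, hsz e]
      have e3 := hin e t ht
      constructor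
      · rintro ⟨k1, k2⟩
        rcases k2 with k2 | ⟨k2, k3, k4⟩
        · exact ⟨e3 k2, fun h => hst' (h.symm.trans k2), k1⟩
        · exact ⟨k2, k3, k1⟩
      · rintro ⟨k1, k2, k3⟩
        refine ⟨k3, ?_⟩
        by_cases h : r e = t
        · exact Or.inl h
        · exact Or.inr ⟨k1, k2, h⟩
    rw [h4]
    exact h2.1
  by_cases c1 : q.1 = p.1
  · by_cases c2 : q.2 = p.2
    · left; exact Prod.ext c1 c2
    · exfalso
      refine hone p.1 p.2 q.2 hp1 hp2 hq2 (by rw [← c1]; exact hq.symm) c2 (fun _ => Iff.rfl)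
        (fun e => by rw [c1]) hLy hp
  · by_cases c2 : q.1 = p.2
    · by_cases c3 : q.2 = p.1
      · right; exact Prod.ext c2 c3
      · exfalso
        refine hone p.2 p.1 q.2 hp2 hp1 hq2 c3 (by rw [← c2]; exact hq.symm)
          (fun _ => and_comm) (fun e => by rw [c2]) hLx hp.symm
    · by_cases c3 : q.2 = p.1
      · exfalso
        refine hone p.1 p.2 q.1 hp1 hp2 hq1 c1 c2 (fun _ => Iff.rfl)
          (fun e => by rw [c3]; exact and_comm) hLy hp
      · by_cases c4 : q.2 = p.2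
        · exfalso
          refine hone p.2 p.1 q.1 hp2 hp1 hq1 c1 c2 (fun _ => and_comm)
            (fun e => by rw [c4]; exact and_comm) hLx hp.symm
        · exfalso
          refine hM a' haa _ (hPl q.1 hq1 c1 c2) _ (hPl q.2 hq2 c3 c4)
            (fun h => hq (r.symm.injective h)) ?_
          have h4 : ((insert (r.symm p.1) (insert (r.symm p.2)
              (P (rho i i' p * r) a'))).erase (r.symm q.1)).erase (r.symm q.2) =
              P (rho i i' q * r) a' := by
            ext e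
            rw [Finset.mem_erase, Finset.mem_erase, Finset.mem_insert, Finset.mem_insert, hmp, hmq,
              ne_eq, ne_eq, eqs, eqs, eqs, eqs]
            have e3 := hin e p.1 hp1
            have e4 := hin e p.2 hp2
            constructor
            · rintro ⟨k1, k2, k3⟩
              rcases k3 with k3 | k3 | ⟨k3, -⟩
              · exact ⟨e3 k3, k2, k1⟩
              · exact ⟨e4 k3, k2, k1⟩
              · exact ⟨k3, k2, k1⟩
            · rintro ⟨k1, k2, k3⟩
              refine ⟨k3, k2, ?_⟩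
              by_cases h : r e = p.1
              · exact Or.inl h
              · by_cases h' : r e = p.2
                · exact Or.inr (Or.inl h')
                · exact Or.inr (Or.inr ⟨k1, h, h'⟩)
          rw [h4]
          exact h2.1

end C2

open C2 in
theorem c2 : S_C2 := by
  intro n F lo i i' hF hlo hlo' hne
  have h1 : ∀ r : Perm (Fin n), ∑ a ∈ range (min (i : ℕ) (i' : ℕ) + 1),
      ind (Low F r a ∧ M2 F lo r a (r.symm i) (r.symm i')) ≤ ind (G F lo i i' r) := by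
    intro r
    refine sum_ind_le _ _ ?_
    intro x _ y _ hx hy
    exact Low_unique hx.1 hy.1
  have h2 : ∀ r : Perm (Fin n),
      ∑ p ∈ (B lo i i').offDiag, ind (G F lo i i' (rho i i' p * r)) ≤ 2 := by
    intro r
    refine sum_ind_le_two _ _ ?_
    intro p hp q hq hGp hGq
    rw [Finset.mem_offDiag] at hp hq
    obtain ⟨a, ha, hl, hL⟩ := hGp
    obtain ⟨a', ha', hl', hL'⟩ := hGq
    rw [Finset.mem_range] at ha ha'
    rcases le_total a' a with h | h
    · exact disj hF hne r hp.1 hp.2.1 hp.2.2 hq.1 hq.2.1 hq.2.2 (by omega) (by omega) h hL hl'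
    · rcases disj hF hne r hq.1 hq.2.1 hq.2.2 hp.1 hp.2.1 hp.2.2 (by omega) (by omega) h hL' hl
        with h' | h'
      · exact Or.inl h'.symm
      · right; rw [h', Prod.swap_swap]
  have h3 : (((lo : ℝ) + 2) * (lo + 1)) * ∑ r : Perm (Fin n), ind (G F lo i i' r) ≤
      2 * (n.factorial : ℝ) := by
    have h4 : (((lo : ℝ) + 2) * (lo + 1)) * ∑ r : Perm (Fin n), ind (G F lo i i' r) =
        ∑ r : Perm (Fin n), ∑ p ∈ (B lo i i').offDiag, ind (G F lo i i' (rho i i' p * r)) := by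
      rw [Finset.sum_comm]
      have h5 : ∀ p ∈ (B lo i i').offDiag,
          ∑ r : Perm (Fin n), ind (G F lo i i' (rho i i' p * r)) =
          ∑ r : Perm (Fin n), ind (G F lo i i' r) := fun p _ =>
        sum_mul_left (rho i i' p) fun r => ind (G F lo i i' r)
      rw [Finset.sum_congr rfl h5, Finset.sum_const, Finset.offDiag_card, card_B hlo hlo' hne,
        nsmul_eq_mul]
      have h6 : (lo + 2) * (lo + 2) - (lo + 2) = (lo + 2) * (lo + 1) := by
        have : (lo + 2) * (lo + 2) = (lo + 2) * (lo + 1) + (lo + 2) := by ring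
        omega
      rw [h6]
      push_cast
      rfl
    rw [h4]
    calc ∑ r : Perm (Fin n), ∑ p ∈ (B lo i i').offDiag, ind (G F lo i i' (rho i i' p * r))
        ≤ ∑ _r : Perm (Fin n), (2 : ℝ) := Finset.sum_le_sum fun r _ => h2 r
      _ = 2 * (n.factorial : ℝ) := by
          rw [Finset.sum_const, Finset.card_univ, Fintype.card_perm, Fintype.card_fin,
            nsmul_eq_mul, mul_comm]
  have h7 : ∑ r : Perm (Fin n), ∑ a ∈ range (min (i : ℕ) (i' : ℕ) + 1),
      ind (Low F r a ∧ M2 F lo r a (r.symm i) (r.symm i')) ≤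
      ∑ r : Perm (Fin n), ind (G F lo i i' r) := Finset.sum_le_sum fun r _ => h1 r
  have h8 := mul_le_mul_of_nonneg_left h7
    (show (0 : ℝ) ≤ ((lo : ℝ) + 2) * (lo + 1) / 2 by positivity)
  linarith

end Pool.Agent.H710.KU
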