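import Pool.Agent.H710.KU.St

set_option autoImplicit false

namespace Pool.Agent.H710.KU

open Finset Equiv

namespace C3

/-- reindexing the levels of a chain by the members of the family -/
theorem reindex {n : ℕ} (F' : Fam n) (r : Perm (Fin n)) (G : Finset (Fin n) → ℕ → ℝ) :
    ∑ k ∈ range (n + 1), ind (P r k ∈ F') * G (P r k) k =
      ∑ C ∈ F', ind (P r C.card = C) * G C C.card := by
  have h1 : ∀ k ∈ range (n + 1), ind (P r k ∈ F') * G (P r k) k =
      ∑ C ∈ F', ind (P r k = C) * G C k := by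
    intro k _
    by_cases h : P r k ∈ F'
    · rw [ind_true h, one_mul, Finset.sum_eq_single_of_mem (P r k) h]
      · rw [ind_true rfl, one_mul]
      · intro C _ hne
        rw [ind_false (fun h' => hne h'.symm), zero_mul]
    · rw [ind_false h, zero_mul]
      symm
      apply Finset.sum_eq_zero
      intro C hC
      have hne : ¬ P r k = C := fun h' => h (by rw [h']; exact hC)
      rw [ind_false hne, zero_mul]
  rw [Finset.sum_congr rfl h1, Finset.sum_comm]
  apply Finset.sum_congr rfl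
  intro C _
  have hCn : C.card ≤ n := by simpa using Finset.card_le_univ C
  rw [Finset.sum_eq_single_of_mem C.card (Finset.mem_range.mpr (by omega))]
  intro k hk hne
  rw [ind_false, zero_mul]
  intro h'
  apply hne
  rw [← h', card_P r k (by have := Finset.mem_range.mp hk; omega)]

theorem UpF_mono {n : ℕ} {F : Fam n} {C D D' : Finset (Fin n)} (h : D ⊆ D') (hU : UpF F C D) : UpF F C D' := by
  obtain ⟨A, hA, hAC, hD⟩ := hU
  exact ⟨A, hA, hAC, hD.trans h⟩

/-- the smoothed indicator -/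
noncomputable def gC {n : ℕ} (F : Fam n) (p' : ℝ) (C Y : Finset (Fin n)) : ℝ :=
  Ex (fun _ => p') C (fun Z => ind (UpF F C (Y ∪ Z)))

theorem gC_nonneg {n : ℕ} (F : Fam n) {p' : ℝ} (h0 : 0 ≤ p') (h1 : p' ≤ 1) (C Y : Finset (Fin n)) :
    0 ≤ gC F p' C Y :=
  Ex_nonneg (fun _ => h0) (fun _ => h1) (fun _ _ => ind_nonneg _)

theorem gC_mono {n : ℕ} (F : Fam n) {p' : ℝ} (h0 : 0 ≤ p') (h1 : p' ≤ 1) (C D D' : Finset (Fin n))
    (h : D ⊆ D') : gC F p' C D ≤ gC F p' C D' :=
  Ex_mono (fun _ => h0) (fun _ => h1)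
    (fun _ _ => ind_mono (UpF_mono (Finset.union_subset_union_left h)))

end C3

open C3 in
theorem c3 (ha : S_C3a) (hb : S_C3b) (h4 : S_B4) (_h1 : S_A1) (h2 : S_A2) : S_C3 := by
  intro n F S lo hi H J K0 q ε hL hH hHn hlo hG hK0 hq1 hq
  classical
  have hn5 : 5 ≤ n := by omega
  have hn0 : (0 : ℝ) < n := by
    have : (5 : ℝ) ≤ n := by exact_mod_cast hn5
    linarith
  have hsq : 0 < Real.sqrt n := Real.sqrt_pos.mpr hn0
  obtain ⟨q₁, hq₁⟩ : ∃ q₁ : ℝ, q₁ = 12 * ((J : ℝ) + 1) / n := ⟨_, rfl⟩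
  obtain ⟨p', hp'⟩ : ∃ p' : ℝ, p' = 1 / Real.sqrt n := ⟨_, rfl⟩
  rw [← hq₁, ← hp'] at hq
  have hq₁0 : 0 ≤ q₁ := by rw [hq₁]; positivity
  have hp'0 : 0 ≤ p' := by rw [hp']; positivity
  have hq₁1 : q₁ ≤ 1 := by linarith
  have hp'1 : p' ≤ 1 := by linarith
  have hp'sq : p' ^ 2 = 1 / n := by
    rw [hp', div_pow, Real.sq_sqrt hn0.le, one_pow]
  set F' : Fam n := F.filter (fun C => S C = none) with hF'
  set i₀ : ℕ → ℕ := fun k => max (k - J) (lo + 2) with hi₀
  obtain ⟨p, hp⟩ : ∃ p : ℝ, p = 1 - (1 - q₁) * (1 - p') := ⟨_, rfl⟩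
  have hp0 : 0 ≤ p := by
    rw [hp]
    nlinarith
  have hpq : p ≤ q₁ + p' := by
    rw [hp]
    nlinarith [mul_nonneg hq₁0 hp'0]
  -- step 1
  have hs1 : ∀ r : Perm (Fin n), ∀ k ∈ range (n + 1),
      ∑ x : Fin n, ∑ y : Fin n, ind (P r k ∈ F ∧ S (P r k) = none ∧ Spec F lo J k r x y) ≤
        4 * n * (ind (P r k ∈ F') * gC F p' (P r k) (P r k \ P r (i₀ k))) := by
    intro r k hk
    by_cases h : P r k ∈ F'
    · have hPF : P r k ∈ F := (Finset.mem_filter.mp h).1
      have hlev := hit_level hL (by omega) hPF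
      have hkn : k ≤ n := by
        have := Finset.mem_range.mp hk
        omega
      have h5 := hb n F lo J k r hlev.1 hkn hPF
      rw [ind_true h, one_mul]
      refine le_trans ?_ (h5.trans (le_of_eq ?_))
      · apply Finset.sum_le_sum
        intro x _
        apply Finset.sum_le_sum
        intro y _
        exact ind_mono (fun h' => h'.2.2)
      · rw [← hp']
        rfl
    · rw [ind_false h, zero_mul, mul_zero]
      apply le_of_eq
      apply Finset.sum_eq_zero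
      intro x _
      apply Finset.sum_eq_zero
      intro y _
      apply ind_false
      rintro ⟨h6, h7, -⟩
      exact h (Finset.mem_filter.mpr ⟨h6, h7⟩)
  -- step 2: one member
  have hs2 : ∀ C ∈ F', ∑ r : Perm (Fin n), ind (P r C.card = C) * gC F p' C (C \ P r (i₀ C.card)) ≤
      2 * (K0 * p ^ 2) * ∑ r : Perm (Fin n), ind (P r C.card = C) := by
    intro C hC
    have hCF : C ∈ F := (Finset.mem_filter.mp hC).1
    have hCS : S C = none := (Finset.mem_filter.mp hC).2
    have hlev := hL C hCF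
    have hiC : i₀ C.card ≤ C.card := by
      show max (C.card - J) (lo + 2) ≤ C.card
      omega
    have hiJ : C.card ≤ i₀ C.card + J := by
      show C.card ≤ max (C.card - J) (lo + 2) + J
      omega
    have h5 := h4 n C (i₀ C.card) q₁ (gC F p' C) hq₁0 hq₁1 hiC (by
      have e1 : (C.card : ℝ) ≤ i₀ C.card + J := by exact_mod_cast hiJ
      have e2 : (n : ℝ) ≤ 3 * C.card := by
        have : n ≤ 3 * C.card := by omega
        exact_mod_cast this
      rw [hq₁, div_mul_eq_mul_div, le_div_iff₀ hn0]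
      have e3 : (0 : ℝ) ≤ J := Nat.cast_nonneg J
      have e4 : 4 * ((C.card : ℝ) - i₀ C.card + 1) ≤ 4 * ((J : ℝ) + 1) := by linarith
      calc 4 * ((C.card : ℝ) - i₀ C.card + 1) * n ≤ 4 * ((J : ℝ) + 1) * n :=
            mul_le_mul_of_nonneg_right e4 hn0.le
        _ ≤ 4 * ((J : ℝ) + 1) * (3 * C.card) := mul_le_mul_of_nonneg_left e2 (by positivity)
        _ = 12 * ((J : ℝ) + 1) * C.card := by ring)
      (fun D D' hD => gC_mono F hp'0 hp'1 C D D' hD) (fun D => gC_nonneg F hp'0 hp'1 C D)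
    refine h5.trans ?_
    apply mul_le_mul_of_nonneg_right _ (Finset.sum_nonneg (fun _ _ => ind_nonneg _))
    have h6 : Ex (fun _ => q₁) C (gC F p' C) = Ex (fun _ => p) C (fun D => ind (UpF F C D)) := by
      have := h2 n q₁ p' C (fun D => ind (UpF F C D))
      rw [← hp] at this
      exact this
    rw [h6]
    have h7 := hG.2.2 C hCF hCS p hp0 (hpq.trans hq)
    linarith
  -- assembling
  have hA := ha n F S lo hi H J hL hH hHn hlo hG.1
  refine hA.trans ?_
  have hB : ∑ r : Perm (Fin n), ∑ k ∈ range (n + 1), ∑ x : Fin n, ∑ y : Fin n,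
      ind (P r k ∈ F ∧ S (P r k) = none ∧ Spec F lo J k r x y) ≤
      4 * n * ∑ r : Perm (Fin n), ∑ C ∈ F', ind (P r C.card = C) * gC F p' C (C \ P r (i₀ C.card)) := by
    rw [Finset.mul_sum]
    apply Finset.sum_le_sum
    intro r _
    refine (Finset.sum_le_sum (hs1 r)).trans (le_of_eq ?_)
    rw [← Finset.mul_sum]
    congr 1
    exact reindex F' r (fun C k => gC F p' C (C \ P r (i₀ k)))
  have hC : ∑ r : Perm (Fin n), ∑ C ∈ F', ind (P r C.card = C) * gC F p' C (C \ P r (i₀ C.card)) ≤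
      2 * (K0 * p ^ 2) * ∑ r : Perm (Fin n), NN F r := by
    rw [Finset.sum_comm]
    refine (Finset.sum_le_sum hs2).trans ?_
    rw [← Finset.mul_sum]
    apply mul_le_mul_of_nonneg_left _ (by positivity)
    rw [Finset.sum_comm]
    apply Finset.sum_le_sum
    intro r _
    have h5 := reindex F' r (fun _ _ => 1)
    simp only [mul_one] at h5
    rw [← h5]
    apply Finset.sum_le_sum
    intro k _
    exact ind_mono (fun h => (Finset.mem_filter.mp h).1)
  have hNN : 0 ≤ ∑ r : Perm (Fin n), NN F r :=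
    Finset.sum_nonneg (fun r _ => Finset.sum_nonneg (fun k _ => ind_nonneg _))
  have hp2 : (n : ℝ) * p ^ 2 ≤ 288 * ((J : ℝ) + 1) ^ 2 / n + 2 := by
    have e1 : p ^ 2 ≤ 2 * q₁ ^ 2 + 2 * p' ^ 2 := by
      have : p ^ 2 ≤ (q₁ + p') ^ 2 := pow_le_pow_left₀ hp0 hpq 2
      nlinarith [sq_nonneg (q₁ - p')]
    have e2 : (n : ℝ) * (2 * q₁ ^ 2 + 2 * p' ^ 2) = 288 * ((J : ℝ) + 1) ^ 2 / n + 2 := by
      rw [hp'sq, hq₁]
      field_simp
      ring
    rw [← e2]
    exact mul_le_mul_of_nonneg_left e1 hn0.le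
  calc 4 * ∑ r : Perm (Fin n), ∑ k ∈ range (n + 1), ∑ x : Fin n, ∑ y : Fin n,
      ind (P r k ∈ F ∧ S (P r k) = none ∧ Spec F lo J k r x y)
      ≤ 4 * (4 * n * (2 * (K0 * p ^ 2) * ∑ r : Perm (Fin n), NN F r)) := by
        apply mul_le_mul_of_nonneg_left _ (by norm_num)
        exact hB.trans (mul_le_mul_of_nonneg_left hC (by positivity))
    _ = 32 * K0 * ((n : ℝ) * p ^ 2) * ∑ r : Perm (Fin n), NN F r := by ring
    _ ≤ 32 * K0 * (288 * ((J : ℝ) + 1) ^ 2 / n + 2) * ∑ r : Perm (Fin n), NN F r := by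
        apply mul_le_mul_of_nonneg_right _ hNN
        exact mul_le_mul_of_nonneg_left hp2 (by positivity)
    _ ≤ 10 ^ 4 * K0 * (1 + ((J : ℝ) + 1) ^ 2 / n) * ∑ r : Perm (Fin n), NN F r := by
        apply mul_le_mul_of_nonneg_right _ hNN
        have e3 : 0 ≤ ((J : ℝ) + 1) ^ 2 / n := by positivity
        have e4 : 288 * ((J : ℝ) + 1) ^ 2 / n = 288 * (((J : ℝ) + 1) ^ 2 / n) := by ring
        rw [e4]
        nlinarith [mul_nonneg hK0 e3]

end Pool.Agent.H710.KU
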