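import Pool.Agent.H710.KU.St

/-!
C3a: transfer of NS pairs into the base (helper100, for helper710).
-/

set_option autoImplicit false

namespace Pool.Agent.H710.KU

open Finset Equiv

namespace C3a

/-- a permutation with two prescribed values, inside of `Q`. -/
lemma exists_perm2 {n : ℕ} (Q : Fin n → Prop) (a b c d : Fin n) (hab : a ≠ b) (hcd : c ≠ d)
    (ha : Q a) (hb : Q b) (hc : Q c) (hd : Q d) :
    ∃ α : Perm (Fin n), α a = c ∧ α b = d ∧ ∀ p, ¬ Q p → α p = p := by
  have key : ∀ (u v p : Fin n), Q u → Q v → ¬ Q p → swap u v p = p := by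
    intro u v p hu hv hp
    exact swap_apply_of_ne_of_ne (fun h => hp (by rw [h]; exact hu))
      (fun h => hp (by rw [h]; exact hv))
  have ht : Q (swap a c b) := by
    by_cases h1 : b = a
    · rw [h1, swap_apply_left]; exact hc
    · by_cases h2 : b = c
      · rw [h2, swap_apply_right]; exact ha
      · rw [swap_apply_of_ne_of_ne h1 h2]; exact hb
  have hct : c ≠ swap a c b := by
    intro h
    have h1 : swap a c a = swap a c b := by rw [swap_apply_left]; exact h
    exact hab ((swap a c).injective h1)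
  refine ⟨swap (swap a c b) d * swap a c, ?_, ?_, ?_⟩
  · rw [Perm.mul_apply, swap_apply_left]
    exact swap_apply_of_ne_of_ne hct hcd
  · rw [Perm.mul_apply, swap_apply_left]
  · intro p hp
    rw [Perm.mul_apply, key a c p ha hc hp, key _ d p ht hd hp]

/-- moving the positions `i, i' ≥ H` to `j, j' < lo + 2`. -/
lemma exists_rho {n : ℕ} (lo H : ℕ) (hH : H + 2 ≤ n) (i i' j j' : Fin n)
    (hii : i ≠ i') (hjj : j ≠ j') (hi : H ≤ (i : ℕ)) (hi' : H ≤ (i' : ℕ))
    (hj : (j : ℕ) < lo + 2) (hj' : (j' : ℕ) < lo + 2) :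
    ∃ ρ : Perm (Fin n), ρ i = j ∧ ρ i' = j' ∧ ∀ p, p ≠ i → p ≠ i' → ∀ k, lo ≤ k → k ≤ H →
      ((ρ p : ℕ) < k + 2 ↔ (p : ℕ) < k) := by
  have hn : 2 ≤ n := by omega
  have hiv : (i : ℕ) ≠ (i' : ℕ) := fun h => hii (Fin.ext h)
  by_cases hn2 : n = 2
  · -- then `H = lo = 0`, all positions are `i, i'`
    subst hn2
    obtain ⟨α, h1, h2, -⟩ := exists_perm2 (fun _ : Fin 2 => True) i i' j j' hii hjj trivial trivial
      trivial trivial
    refine ⟨α, h1, h2, ?_⟩
    intro p hp hp'
    exfalso
    have e1 : (p : ℕ) ≠ (i : ℕ) := fun h => hp (Fin.ext h)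
    have e2 : (p : ℕ) ≠ (i' : ℕ) := fun h => hp' (Fin.ext h)
    have := p.isLt
    have := i.isLt
    have := i'.isLt
    omega
  have hn3 : 3 ≤ n := by omega
  have : NeZero n := ⟨by omega⟩
  let u : Fin n := ⟨n - 2, by omega⟩
  let v : Fin n := ⟨n - 1, by omega⟩
  let z0 : Fin n := ⟨0, by omega⟩
  let z1 : Fin n := ⟨1, by omega⟩
  let two : Fin n := ⟨2, by omega⟩
  have huv : u ≠ v := by
    intro h
    have := congrArg Fin.val h
    simp only [u, v] at this
    omega
  have h01 : z0 ≠ z1 := by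
    intro h
    have := congrArg Fin.val h
    simp only [z0, z1] at this
    omega
  obtain ⟨α, ha1, ha2, ha3⟩ := exists_perm2 (fun p : Fin n => H ≤ (p : ℕ)) i i' u v hii huv hi hi'
    (by change H ≤ n - 2; omega) (by change H ≤ n - 1; omega)
  obtain ⟨β, hb1, hb2, hb3⟩ := exists_perm2 (fun p : Fin n => (p : ℕ) < lo + 2) z0 z1 j j' h01 hjj
    (by change 0 < lo + 2; omega) (by change 1 < lo + 2; omega) hj hj'
  have hval : ∀ p : Fin n, ((Equiv.addRight two p : Fin n) : ℕ) = ((p : ℕ) + 2) % n := by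
    intro p
    rw [Equiv.coe_addRight, Fin.val_add]
  have hu0 : Equiv.addRight two u = z0 := by
    apply Fin.ext
    rw [hval]
    change (n - 2 + 2) % n = 0
    rw [Nat.sub_add_cancel hn, Nat.mod_self]
  have hv1 : Equiv.addRight two v = z1 := by
    apply Fin.ext
    rw [hval]
    change (n - 1 + 2) % n = 1
    have : n - 1 + 2 = n + 1 := by omega
    rw [this, Nat.add_mod_left]
    exact Nat.mod_eq_of_lt (by omega)
  refine ⟨β * Equiv.addRight two * α, ?_, ?_, ?_⟩
  · rw [Perm.mul_apply, Perm.mul_apply, ha1, hu0, hb1]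
  · rw [Perm.mul_apply, Perm.mul_apply, ha2, hv1, hb2]
  · intro p hp hp' k hk1 hk2
    rw [Perm.mul_apply, Perm.mul_apply]
    have e1 : α p ≠ u := by
      intro h
      exact hp (α.injective (h.trans ha1.symm))
    have e2 : α p ≠ v := by
      intro h
      exact hp' (α.injective (h.trans ha2.symm))
    have e3 : ((α p : Fin n) : ℕ) < n - 2 := by
      have f1 : ((α p : Fin n) : ℕ) ≠ n - 2 := fun h => e1 (Fin.ext h)
      have f2 : ((α p : Fin n) : ℕ) ≠ n - 1 := fun h => e2 (Fin.ext h)
      have := (α p).isLt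
      omega
    have e4 : ((Equiv.addRight two (α p) : Fin n) : ℕ) = (α p : ℕ) + 2 := by
      rw [hval]
      exact Nat.mod_eq_of_lt (by omega)
    -- `β` preserves the positions below `k + 2`
    have e5 : ∀ t : Fin n, ((β t : ℕ) < k + 2 ↔ (t : ℕ) < k + 2) := by
      intro t
      by_cases h : (t : ℕ) < lo + 2
      · by_cases h' : ((β t : Fin n) : ℕ) < lo + 2
        · constructor
          · intro _; omega
          · intro _; omega
        · have h2 : β t = t := β.injective (hb3 (β t) h')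
          rw [h2]
      · rw [hb3 t h]
    have e6 : ((α p : Fin n) : ℕ) < k ↔ (p : ℕ) < k := by
      by_cases h : H ≤ (p : ℕ)
      · by_cases h' : H ≤ ((α p : Fin n) : ℕ)
        · constructor
          · intro _; omega
          · intro _; omega
        · have h2 : α p = p := α.injective (ha3 (α p) h')
          rw [h2]
      · rw [ha3 p h]
    rw [e5, e4, ← e6]
    omega

/-- the sets of the new chain. -/
lemma P_rho {n : ℕ} {lo H : ℕ} {i i' j j' : Fin n} {ρ r : Perm (Fin n)}
    (h1 : ρ i = j) (h2 : ρ i' = j')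
    (hj : (j : ℕ) < lo + 2) (hj' : (j' : ℕ) < lo + 2)
    (h3 : ∀ p, p ≠ i → p ≠ i' → ∀ k, lo ≤ k → k ≤ H → ((ρ p : ℕ) < k + 2 ↔ (p : ℕ) < k))
    (k : ℕ) (hk1 : lo ≤ k) (hk2 : k ≤ H) :
    P (ρ * r) (k + 2) = insert (r.symm i) (insert (r.symm i') (P r k)) := by
  ext e
  rw [mem_P_mul, mem_insert, mem_insert, mem_P]
  by_cases e1 : r e = i
  · have e2 : e = r.symm i := by rw [← e1, symm_apply_apply]
    constructor
    · intro _; exact Or.inl e2
    · intro _; rw [e1, h1]; omega
  · by_cases e2 : r e = i'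
    · have e3 : e = r.symm i' := by rw [← e2, symm_apply_apply]
      constructor
      · intro _; exact Or.inr (Or.inl e3)
      · intro _; rw [e2, h2]; omega
    · rw [h3 _ e1 e2 k hk1 hk2]
      constructor
      · intro h; exact Or.inr (Or.inr h)
      · rintro (h | h | h)
        · exact absurd (by rw [h, apply_symm_apply]) e1
        · exact absurd (by rw [h, apply_symm_apply]) e2
        · exact h

/-- the pointwise transfer. -/
lemma transfer {n : ℕ} {F : Fam n} {S : Cen n} {lo hi H J : ℕ} (hL : Levels F lo hi)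
    (hhi : hi + 3 ≤ H) (hH : H + 2 ≤ n) {i i' j j' : Fin n} {ρ r : Perm (Fin n)}
    (hi1 : H ≤ (i : ℕ)) (hi2 : H ≤ (i' : ℕ))
    (hj : (j : ℕ) < lo + 2) (hj' : (j' : ℕ) < lo + 2) (h1 : ρ i = j) (h2 : ρ i' = j')
    (h3 : ∀ p, p ≠ i → p ≠ i' → ∀ k, lo ≤ k → k ≤ H → ((ρ p : ℕ) < k + 2 ↔ (p : ℕ) < k))
    {a : ℕ} (hP : PairD F lo H r a (r.symm i) (r.symm i') ∧ NS F S J r a (r.symm i) (r.symm i')) :
    ∃ k ∈ range (n + 1), P (ρ * r) k ∈ F ∧ S (P (ρ * r) k) = none ∧
      Spec F lo J k (ρ * r) (r.symm i) (r.symm i') := by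
  obtain ⟨⟨hxy, hx, hy, hlow, hLx, hLy⟩, k0, hk0, hk1, hk2, hk3⟩ := hP
  have hlev := hit_level hL (by omega) hlow.1
  have hk4 : k0 ≤ hi := by
    have e1 := (hL _ hk2).2
    have e2 : (P r k0).card ≤ (insert (r.symm i) (insert (r.symm i') (P r k0))).card :=
      card_le_card (fun e he => mem_insert_of_mem (mem_insert_of_mem he))
    rw [card_P'] at e2
    omega
  have hset := P_rho (r := r) h1 h2 hj hj' h3
  have hmemP : ∀ k, k ≤ H → r.symm i ∉ P r k ∧ r.symm i' ∉ P r k := by
    intro k hk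
    rw [mem_P, mem_P, apply_symm_apply, apply_symm_apply]
    omega
  have hxm : r.symm i ∈ P (ρ * r) (lo + 2) := by
    rw [mem_P_mul, apply_symm_apply, h1]
    exact hj
  have hym : r.symm i' ∈ P (ρ * r) (lo + 2) := by
    rw [mem_P_mul, apply_symm_apply, h2]
    exact hj'
  have e0 := hset k0 (by omega) (by omega)
  refine ⟨k0 + 2, ?_, ?_, ?_, hxy, hxm, hym, a, by omega, by omega, by omega, ?_, ?_⟩
  · rw [mem_range]; omega
  · rw [e0]; exact hk2
  · rw [e0]; exact hk3
  · rw [hset a (by omega) (by omega)]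
    obtain ⟨f1, f2⟩ := hmemP a (by omega)
    have f3 : r.symm i ∉ insert (r.symm i') (P r a) := by
      rw [mem_insert]
      rintro (h | h)
      · exact hxy h
      · exact f1 h
    rw [erase_insert f3, erase_insert f2]
    exact hlow.1
  · intro l hl z hz hzx hzy
    by_cases hlo : lo ≤ l
    · rw [hset l hlo (by omega)]
      obtain ⟨f1, f2⟩ := hmemP l (by omega)
      have hz' : z ∈ P r lo := by
        rw [hset lo le_rfl (by omega), mem_insert, mem_insert] at hz
        rcases hz with h | h | h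
        · exact absurd h hzx
        · exact absurd h hzy
        · exact h
      constructor
      · have f3 : (insert (r.symm i) (insert (r.symm i') (P r l))).erase (r.symm i') =
            insert (r.symm i) (P r l) := by
          have g1 : r.symm i' ∉ insert (r.symm i) (P r l) := by
            rw [mem_insert]
            rintro (h | h)
            · exact hxy h.symm
            · exact f2 h
          rw [insert_comm, erase_insert g1]
        rw [f3]
        exact hLx.2 l hl z hz'
      · have f3 : r.symm i ∉ insert (r.symm i') (P r l) := by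
          rw [mem_insert]
          rintro (h | h)
          · exact hxy h
          · exact f1 h
        rw [erase_insert f3]
        exact hLy.2 l hl z hz'
    · have hc : (P (ρ * r) (l + 2)).card ≤ lo + 1 := by
        rw [card_P']
        omega
      constructor
      · intro hF
        have g1 := (hL _ hF).1
        have g2 := card_le_card (erase_subset z ((P (ρ * r) (l + 2)).erase (r.symm i')))
        have g3 := card_le_card (erase_subset (r.symm i') (P (ρ * r) (l + 2)))
        omega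
      · intro hF
        have g1 := (hL _ hF).1
        have g2 := card_le_card (erase_subset z ((P (ρ * r) (l + 2)).erase (r.symm i)))
        have g3 := card_le_card (erase_subset (r.symm i) (P (ρ * r) (l + 2)))
        omega

end C3a

open C3a in
theorem c3a : S_C3a := by
  intro n F S lo hi H J hL hhi hH hn _
  classical
  let f : Perm (Fin n) → ℕ → Fin n → Fin n → ℝ := fun r a x y =>
    ind (PairD F lo H r a x y ∧ NS F S J r a x y)
  let g : Perm (Fin n) → ℕ → Fin n → Fin n → ℝ := fun r k x y =>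
    ind (P r k ∈ F ∧ S (P r k) = none ∧ Spec F lo J k r x y)
  change ∑ r, ∑ a ∈ range (n + 1), ∑ x, ∑ y, f r a x y ≤
    4 * ∑ r, ∑ k ∈ range (n + 1), ∑ x, ∑ y, g r k x y
  have hg0 : ∀ r k x y, 0 ≤ g r k x y := fun r k x y => ind_nonneg _
  have hR0 : 0 ≤ ∑ r, ∑ k ∈ range (n + 1), ∑ x, ∑ y, g r k x y :=
    sum_nonneg fun r _ => sum_nonneg fun k _ => sum_nonneg fun x _ => sum_nonneg fun y _ =>
      hg0 r k x y
  rcases F.eq_empty_or_nonempty with hF | ⟨A0, hA0⟩
  · have h0 : ∀ r a x y, f r a x y = 0 := by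
      intro r a x y
      apply ind_false
      rintro ⟨⟨_, _, _, hlow, _⟩, _⟩
      have := hlow.1
      rw [hF] at this
      exact absurd this (notMem_empty _)
    have : ∑ r, ∑ a ∈ range (n + 1), ∑ x, ∑ y, f r a x y = 0 :=
      sum_eq_zero fun r _ => sum_eq_zero fun a _ => sum_eq_zero fun x _ => sum_eq_zero fun y _ =>
        h0 r a x y
    rw [this]
    linarith
  have hlh : lo + 3 ≤ hi := by
    have := hL _ hA0
    omega
  let sA : Finset (Fin n) := univ.filter (fun p => H ≤ (p : ℕ))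
  let sB : Finset (Fin n) := univ.filter (fun p => (p : ℕ) < lo + 2)
  have hcB : sB.card = lo + 2 := by
    change (univ.filter (fun p : Fin n => (p : ℕ) < lo + 2)).card = _
    rw [Fin.card_filter_val_lt]
    omega
  have hcA : sA.card = n - H := by
    have e1 : sA = univ \ univ.filter (fun p : Fin n => (p : ℕ) < H) := by
      ext p
      simp only [sA, mem_filter, mem_univ, true_and, mem_sdiff, not_lt]
    rw [e1, card_sdiff_of_subset (subset_univ _), Fin.card_filter_val_lt, card_univ,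
      Fintype.card_fin]
    omega
  let A := sA.offDiag
  let B := sB.offDiag
  have hAB : (A.card : ℝ) ≤ 4 * (B.card : ℝ) ∧ (0 : ℝ) < B.card := by
    have e1 : A.card ≤ (2 * lo) * (2 * lo) := by
      rw [offDiag_card, hcA]
      have : n - H ≤ 2 * lo := by omega
      calc (n - H) * (n - H) - (n - H) ≤ (n - H) * (n - H) := Nat.sub_le _ _
        _ ≤ (2 * lo) * (2 * lo) := Nat.mul_le_mul this this
    have e2 : B.card = (lo + 2) * (lo + 1) := by
      rw [offDiag_card, hcB, Nat.mul_succ (lo + 2) (lo + 1), Nat.add_sub_cancel]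
    have e3 : A.card ≤ 4 * B.card := by
      rw [e2]
      nlinarith
    constructor
    · exact_mod_cast e3
    · rw [e2]; positivity
  -- the left side
  have hleft : ∀ r : Perm (Fin n), ∀ a, ∑ x, ∑ y, f r a x y =
      ∑ p ∈ A, f r a (r.symm p.1) (r.symm p.2) := by
    intro r a
    have e1 : ∑ x, ∑ y, f r a x y = ∑ i, ∑ i', f r a (r.symm i) (r.symm i') := by
      rw [← Equiv.sum_comp r.symm]
      apply sum_congr rfl
      intro i _
      exact (Equiv.sum_comp r.symm (fun y => f r a (r.symm i) y)).symm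
    rw [e1, ← sum_product']
    symm
    apply sum_subset (fun _ _ => mem_product.2 ⟨mem_univ _, mem_univ _⟩)
    intro p _ hp
    apply ind_false
    rintro ⟨⟨hxy, hx, hy, _⟩, _⟩
    apply hp
    rw [mem_P, apply_symm_apply, not_lt] at hx hy
    rw [mem_offDiag]
    refine ⟨?_, ?_, fun h => hxy (by rw [h])⟩
    · simp only [sA, mem_filter, mem_univ, true_and]; exact hx
    · simp only [sA, mem_filter, mem_univ, true_and]; exact hy
  -- the right side
  have hright : ∀ r : Perm (Fin n), ∀ k, ∑ p ∈ B, g r k (r.symm p.1) (r.symm p.2) ≤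
      ∑ x, ∑ y, g r k x y := by
    intro r k
    have e1 : ∑ x, ∑ y, g r k x y = ∑ i, ∑ i', g r k (r.symm i) (r.symm i') := by
      rw [← Equiv.sum_comp r.symm]
      apply sum_congr rfl
      intro i _
      exact (Equiv.sum_comp r.symm (fun y => g r k (r.symm i) y)).symm
    rw [e1, ← sum_product']
    exact sum_le_sum_of_subset_of_nonneg (fun _ _ => mem_product.2 ⟨mem_univ _, mem_univ _⟩)
      (fun p _ _ => hg0 _ _ _ _)
  -- one quadruple of positions
  have hkey : ∀ p ∈ A, ∀ p' ∈ B, ∑ r, ∑ a ∈ range (n + 1), f r a (r.symm p.1) (r.symm p.2) ≤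
      ∑ r, ∑ k ∈ range (n + 1), g r k (r.symm p'.1) (r.symm p'.2) := by
    intro p hp p' hp'
    rw [mem_offDiag] at hp hp'
    simp only [sA, sB, mem_filter, mem_univ, true_and] at hp hp'
    obtain ⟨ρ, h1, h2, h3⟩ := exists_rho lo H hH p.1 p.2 p'.1 p'.2 hp.2.2 hp'.2.2
      hp.1 hp.2.1 hp'.1 hp'.2.1
    rw [← sum_mul_left ρ (fun r => ∑ k ∈ range (n + 1), g r k (r.symm p'.1) (r.symm p'.2))]
    apply sum_le_sum
    intro r _
    have s1 : (ρ * r).symm p'.1 = r.symm p.1 := by
      rw [symm_apply_eq, Perm.mul_apply, apply_symm_apply, h1]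
    have s2 : (ρ * r).symm p'.2 = r.symm p.2 := by
      rw [symm_apply_eq, Perm.mul_apply, apply_symm_apply, h2]
    change ∑ a ∈ range (n + 1), f r a (r.symm p.1) (r.symm p.2) ≤
      ∑ k ∈ range (n + 1), g (ρ * r) k ((ρ * r).symm p'.1) ((ρ * r).symm p'.2)
    rw [s1, s2]
    have hnn : 0 ≤ ∑ k ∈ range (n + 1), g (ρ * r) k (r.symm p.1) (r.symm p.2) :=
      sum_nonneg fun k _ => hg0 _ _ _ _
    by_cases hex : ∃ a, PairD F lo H r a (r.symm p.1) (r.symm p.2) ∧
        NS F S J r a (r.symm p.1) (r.symm p.2)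
    · obtain ⟨a, ha⟩ := hex
      obtain ⟨k, hk, hk'⟩ := transfer hL hhi hH hp.1 hp.2.1 hp'.1 hp'.2.1 h1 h2 h3 ha
      have e1 : ∑ a ∈ range (n + 1), f r a (r.symm p.1) (r.symm p.2) ≤ 1 := by
        have e2 : ∀ b ∈ range (n + 1), b ≠ a → f r b (r.symm p.1) (r.symm p.2) = 0 := by
          intro b _ hb
          apply ind_false
          intro h
          exact hb (Low_unique h.1.2.2.2.1 ha.1.2.2.2.1)
        by_cases hm : a ∈ range (n + 1)
        · rw [sum_eq_single_of_mem a hm e2]
          exact ind_le_one _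
        · rw [sum_eq_zero]
          · exact zero_le_one
          · intro b hb
            exact e2 b hb (fun h => hm (by rw [← h]; exact hb))
      have e3 : (1 : ℝ) ≤ ∑ k ∈ range (n + 1), g (ρ * r) k (r.symm p.1) (r.symm p.2) := by
        have e4 : g (ρ * r) k (r.symm p.1) (r.symm p.2) = 1 := ind_true hk'
        rw [← e4]
        exact single_le_sum (f := fun k => g (ρ * r) k (r.symm p.1) (r.symm p.2))
          (fun k _ => hg0 _ _ _ _) hk
      exact e1.trans e3
    · have e1 : ∑ a ∈ range (n + 1), f r a (r.symm p.1) (r.symm p.2) = 0 :=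
        sum_eq_zero fun a _ => ind_false fun h => hex ⟨a, h⟩
      rw [e1]
      exact hnn
  -- summation
  have hL1 : ∑ r, ∑ a ∈ range (n + 1), ∑ x, ∑ y, f r a x y =
      ∑ p ∈ A, ∑ r, ∑ a ∈ range (n + 1), f r a (r.symm p.1) (r.symm p.2) := by
    symm
    rw [sum_comm]
    apply sum_congr rfl
    intro r _
    rw [sum_comm]
    exact sum_congr rfl fun a _ => (hleft r a).symm
  have hR1 : ∑ p' ∈ B, ∑ r, ∑ k ∈ range (n + 1), g r k (r.symm p'.1) (r.symm p'.2) ≤
      ∑ r, ∑ k ∈ range (n + 1), ∑ x, ∑ y, g r k x y := by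
    rw [sum_comm]
    apply sum_le_sum
    intro r _
    rw [sum_comm]
    exact sum_le_sum fun k _ => hright r k
  set L := ∑ r, ∑ a ∈ range (n + 1), ∑ x, ∑ y, f r a x y with hLdef
  set R := ∑ r, ∑ k ∈ range (n + 1), ∑ x, ∑ y, g r k x y with hRdef
  have hmain : (B.card : ℝ) * L ≤ (A.card : ℝ) * R := by
    calc (B.card : ℝ) * L = ∑ p' ∈ B, L := by rw [sum_const, nsmul_eq_mul]
      _ = ∑ p' ∈ B, ∑ p ∈ A, ∑ r, ∑ a ∈ range (n + 1), f r a (r.symm p.1) (r.symm p.2) := by
          rw [hL1]
      _ ≤ ∑ p' ∈ B, ∑ p ∈ A, ∑ r, ∑ k ∈ range (n + 1), g r k (r.symm p'.1) (r.symm p'.2) :=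
          sum_le_sum fun p' hp' => sum_le_sum fun p hp => hkey p hp p' hp'
      _ = (A.card : ℝ) *
          ∑ p' ∈ B, ∑ r, ∑ k ∈ range (n + 1), g r k (r.symm p'.1) (r.symm p'.2) := by
          rw [mul_sum]
          apply sum_congr rfl
          intro p' _
          rw [sum_const, nsmul_eq_mul]
      _ ≤ (A.card : ℝ) * R := mul_le_mul_of_nonneg_left hR1 (Nat.cast_nonneg _)
  have h5 : (B.card : ℝ) * L ≤ (B.card : ℝ) * (4 * R) := by
    calc (B.card : ℝ) * L ≤ (A.card : ℝ) * R := hmain
      _ ≤ (4 * (B.card : ℝ)) * R := mul_le_mul_of_nonneg_right hAB.1 hR0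
      _ = (B.card : ℝ) * (4 * R) := by ring
  exact le_of_mul_le_mul_left h5 hAB.2

end Pool.Agent.H710.KU
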