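import Pool.Agent.H710.KU.St

set_option autoImplicit false

namespace Pool.Agent.H710.KU

open Finset Equiv

namespace C3b

theorem Ex_subset {n : ℕ} (p : ℝ) (G : Finset (Fin n)) : ∀ T : Finset (Fin n), T ⊆ G →
    Ex (fun _ => p) G (fun D => ind (T ⊆ D)) = p ^ T.card := by
  induction G using Finset.induction_on with
  | empty =>
    intro T hT
    rw [Finset.subset_empty] at hT
    subst hT
    rw [Ex_empty, ind_true (Finset.Subset.refl _), card_empty, pow_zero]
  | insert x G hx ih =>
    intro T hT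
    rw [Ex_insert _ hx]
    by_cases hxT : x ∈ T
    · have h1 : Ex (fun _ => p) G (fun D => ind (T ⊆ D)) = 0 := by
        rw [Ex_congr (g := fun _ => 0), Ex_const]
        intro D hD
        exact ind_false fun h => hx (hD (h hxT))
      have h2 : Ex (fun _ => p) G (fun D => ind (T ⊆ insert x D))
          = Ex (fun _ => p) G (fun D => ind (T.erase x ⊆ D)) :=
        Ex_congr _ _ fun D _ => ind_congr Finset.subset_insert_iff
      have h3 : T.card = (T.erase x).card + 1 := (card_erase_add_one hxT).symm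
      rw [h1, h2, ih (T.erase x) (Finset.subset_insert_iff.1 hT), h3, pow_succ]
      ring
    · have h2 : Ex (fun _ => p) G (fun D => ind (T ⊆ insert x D))
          = Ex (fun _ => p) G (fun D => ind (T ⊆ D)) :=
        Ex_congr _ _ fun D _ => ind_congr (Finset.subset_insert_iff_of_notMem hxT)
      rw [h2, ih T ((Finset.subset_insert_iff_of_notMem hxT).1 hT)]
      ring

theorem Ex_sum {n : ℕ} {ι : Type} (b : Fin n → ℝ) (G : Finset (Fin n)) (Q : Finset ι)
    (f : ι → Finset (Fin n) → ℝ) :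
    Ex b G (fun D => ∑ q ∈ Q, f q D) = ∑ q ∈ Q, Ex b G (f q) := by
  unfold Ex
  rw [Finset.sum_comm]
  refine Finset.sum_congr rfl fun D _ => ?_
  rw [Finset.mul_sum]

variable {n : ℕ} {F : Fam n} {lo J k : ℕ} {r : Perm (Fin n)}

theorem symm {x y : Fin n} (h : Spec F lo J k r x y) : Spec F lo J k r y x := by
  obtain ⟨h1, h2, h3, a, h4, h5, h6, h7, h8⟩ := h
  refine ⟨h1.symm, h3, h2, a, h4, h5, h6, ?_, fun i hi z hz hzy hzx => ?_⟩
  · rwa [Finset.erase_right_comm]
  · exact ⟨(h8 i hi z hz hzx hzy).2, (h8 i hi z hz hzx hzy).1⟩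

theorem matching {x y z : Fin n} (h : Spec F lo J k r x y) (h' : Spec F lo J k r x z) :
    y = z := by
  by_contra hne
  obtain ⟨h1, h2, h3, a, h4, h5, h6, h7, h8⟩ := h
  obtain ⟨g1, g2, g3, a', g4, g5, g6, g7, g8⟩ := h'
  rcases le_total a' a with ha | ha
  · exact (h8 a' ha z g3 g1.symm (fun h => hne h.symm)).2 g7
  · exact (g8 a ha y h3 h1.symm hne).2 h7

theorem up {x y : Fin n} (h : Spec F lo J k r x y) (hlk : lo + 3 ≤ k) (Z : Finset (Fin n))
    (hx : x ∈ Z) (hy : y ∈ Z) :
    UpF F (P r k) ((P r k \ P r (max (k - J) (lo + 2))) ∪ Z) := by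
  obtain ⟨h1, h2, h3, a, h4, h5, h6, h7, h8⟩ := h
  have hxk : x ∈ P r k := P_mono r (by omega) h2
  have hsub : ((P r (a + 2)).erase x).erase y ⊆ P r k :=
    (erase_subset _ _).trans ((erase_subset _ _).trans (P_mono r h5))
  refine ⟨_, h7, ?_, ?_⟩
  · rw [Finset.ssubset_iff_of_subset hsub]
    exact ⟨x, hxk, fun h => (mem_erase.1 (mem_erase.1 h).2).1 rfl⟩
  · intro e he
    rw [mem_sdiff] at he
    obtain ⟨he1, he2⟩ := he
    rw [mem_union, mem_sdiff]
    by_cases hex : e = x
    · right; rw [hex]; exact hx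
    by_cases hey : e = y
    · right; rw [hey]; exact hy
    left
    refine ⟨he1, fun he3 => he2 ?_⟩
    rw [mem_erase, mem_erase]
    exact ⟨hey, hex, P_mono r (by omega) he3⟩

end C3b

theorem c3b : S_C3b := by
  classical
  intro n F lo J k r hlk hkn hkF
  set p : ℝ := 1 / Real.sqrt n with hp
  have hn0 : (0 : ℝ) < n := by exact_mod_cast (by omega : 0 < n)
  have hp2 : p ^ 2 = 1 / n := by
    rw [hp, div_pow, one_pow, Real.sq_sqrt hn0.le]
  have hp0 : 0 ≤ p := by positivity
  have hp1 : p ≤ 1 := by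
    have h1 : (1 : ℝ) ≤ n := by exact_mod_cast (by omega : 1 ≤ n)
    have : p ^ 2 ≤ 1 := by
      rw [hp2, div_le_one hn0]
      exact h1
    nlinarith
  set Q : Finset (Fin n × Fin n) :=
    univ.filter fun q => q.1 < q.2 ∧ Spec F lo J k r q.1 q.2 with hQ
  have hQmem : ∀ q, q ∈ Q ↔ q.1 < q.2 ∧ Spec F lo J k r q.1 q.2 := fun q => by
    rw [hQ, mem_filter]; simp
  -- the left side
  have hleft : ∑ x : Fin n, ∑ y : Fin n, ind (Spec F lo J k r x y) = 2 * (Q.card : ℝ) := by
    have e1 : ∀ x y : Fin n, ind (Spec F lo J k r x y) =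
        ind (x < y ∧ Spec F lo J k r x y) + ind (y < x ∧ Spec F lo J k r y x) := by
      intro x y
      by_cases h : Spec F lo J k r x y
      · rw [ind_true h]
        rcases lt_or_gt_of_ne h.1 with hlt | hlt
        · rw [ind_true ⟨hlt, h⟩, ind_false fun h' => lt_asymm hlt h'.1, add_zero]
        · rw [ind_false fun h' => lt_asymm hlt h'.1, ind_true ⟨hlt, C3b.symm h⟩, zero_add]
      · rw [ind_false h, ind_false fun h' => h h'.2, ind_false fun h' => h (C3b.symm h'.2),
          add_zero]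
    have e2 : ∑ x : Fin n, ∑ y : Fin n, ind (x < y ∧ Spec F lo J k r x y) = (Q.card : ℝ) := by
      rw [← Fintype.sum_prod_type' (f := fun x y => ind (x < y ∧ Spec F lo J k r x y)), hQ,
        Finset.card_filter, Nat.cast_sum]
      refine Finset.sum_congr rfl fun q _ => ?_
      by_cases h : q.1 < q.2 ∧ Spec F lo J k r q.1 q.2
      · rw [ind_true h, if_pos h, Nat.cast_one]
      · rw [ind_false h, if_neg h, Nat.cast_zero]
    simp only [e1, Finset.sum_add_distrib]
    have e3 : ∑ x : Fin n, ∑ y : Fin n, ind (y < x ∧ Spec F lo J k r y x) = (Q.card : ℝ) := by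
      rw [Finset.sum_comm, e2]
    rw [e2, e3]
    ring
  have hdisj : ∀ q ∈ Q, ∀ q' ∈ Q, q ≠ q' →
      Disjoint ({q.1, q.2} : Finset (Fin n)) {q'.1, q'.2} := by
    intro q hq q' hq' hne
    rw [hQmem] at hq hq'
    rw [Finset.disjoint_left]
    intro e he he'
    rw [mem_insert, mem_singleton] at he he'
    apply hne
    rcases he with he | he <;> rcases he' with he' | he'
    · have h1 : q'.1 = q.1 := he'.symm.trans he
      have h2 : q.2 = q'.2 := by
        have := hq'.2
        rw [h1] at this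
        exact C3b.matching hq.2 this
      exact Prod.ext h1.symm h2
    · exfalso
      have h1 : q'.2 = q.1 := he'.symm.trans he
      have h2 : q.2 = q'.1 := by
        have := C3b.symm hq'.2
        rw [h1] at this
        exact C3b.matching hq.2 this
      have h3 := hq.1
      have h4 := hq'.1
      rw [h1, ← h2] at h4
      exact lt_asymm h3 h4
    · exfalso
      have h1 : q'.1 = q.2 := he'.symm.trans he
      have h2 : q.1 = q'.2 := by
        have := hq'.2
        rw [h1] at this
        exact C3b.matching (C3b.symm hq.2) this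
      have h3 := hq.1
      have h4 := hq'.1
      rw [h1, ← h2] at h4
      exact lt_asymm h3 h4
    · have h1 : q'.2 = q.2 := he'.symm.trans he
      have h2 : q.1 = q'.1 := by
        have := C3b.symm hq'.2
        rw [h1] at this
        exact C3b.matching (C3b.symm hq.2) this
      exact Prod.ext h2 h1.symm
  have hcardn : 2 * Q.card ≤ n := by
    have h1 : (Q.biUnion fun q => ({q.1, q.2} : Finset (Fin n))).card
        = ∑ q ∈ Q, ({q.1, q.2} : Finset (Fin n)).card :=
      Finset.card_biUnion fun q hq q' hq' hne => hdisj q hq q' hq' hne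
    have h2 : ∑ q ∈ Q, ({q.1, q.2} : Finset (Fin n)).card = ∑ q ∈ Q, 2 :=
      Finset.sum_congr rfl fun q hq => Finset.card_pair ((hQmem q).1 hq).1.ne
    have h3 : (Q.biUnion fun q => ({q.1, q.2} : Finset (Fin n))).card ≤ n := by
      have := Finset.card_le_univ (Q.biUnion fun q => ({q.1, q.2} : Finset (Fin n)))
      rwa [Fintype.card_fin] at this
    rw [h1, h2, Finset.sum_const, smul_eq_mul] at h3
    omega
  -- the counting function
  set X : Finset (Fin n) → ℝ := fun Z =>
    ∑ q ∈ Q, ind (({q.1, q.2} : Finset (Fin n)) ⊆ Z) with hX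
  have hsubC : ∀ q ∈ Q, ({q.1, q.2} : Finset (Fin n)) ⊆ P r k := by
    intro q hq
    rw [hQmem] at hq
    obtain ⟨-, -, h2, h3, -⟩ := hq
    intro e he
    rw [mem_insert, mem_singleton] at he
    rcases he with rfl | rfl
    · exact P_mono r (by omega) h2
    · exact P_mono r (by omega) h3
  have hEX : Ex (fun _ => p) (P r k) X = Q.card * p ^ 2 := by
    rw [hX, C3b.Ex_sum]
    rw [Finset.sum_congr rfl fun q hq => C3b.Ex_subset p (P r k) _ (hsubC q hq)]
    rw [Finset.sum_congr rfl fun q hq => by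
      rw [Finset.card_pair ((hQmem q).1 hq).1.ne]]
    rw [Finset.sum_const, nsmul_eq_mul]
  have hEX2 : Ex (fun _ => p) (P r k) (fun Z => X Z * X Z)
      = Q.card * p ^ 2 + Q.card * (Q.card - 1) * p ^ 4 := by
    have e1 : (fun Z => X Z * X Z) = fun Z => ∑ q ∈ Q, ∑ q' ∈ Q,
        ind (({q.1, q.2} : Finset (Fin n)) ∪ {q'.1, q'.2} ⊆ Z) := by
      funext Z
      rw [hX]
      simp only
      rw [Finset.sum_mul_sum]
      refine Finset.sum_congr rfl fun q _ => Finset.sum_congr rfl fun q' _ => ?_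
      rw [← ind_and]
      exact ind_congr Finset.union_subset_iff.symm
    rw [e1, C3b.Ex_sum]
    have e2 : ∀ q ∈ Q, Ex (fun _ => p) (P r k) (fun Z => ∑ q' ∈ Q,
        ind (({q.1, q.2} : Finset (Fin n)) ∪ {q'.1, q'.2} ⊆ Z))
        = p ^ 2 + (Q.card - 1) * p ^ 4 := by
      intro q hq
      rw [C3b.Ex_sum]
      rw [Finset.sum_congr rfl fun q' hq' =>
        C3b.Ex_subset p (P r k) _ (Finset.union_subset (hsubC q hq) (hsubC q' hq'))]
      rw [← Finset.add_sum_erase Q _ hq]
      congr 1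
      · rw [Finset.union_self, Finset.card_pair ((hQmem q).1 hq).1.ne]
      · rw [Finset.sum_congr rfl (g := fun _ => p ^ 4)]
        · rw [Finset.sum_const, nsmul_eq_mul, Finset.card_erase_of_mem hq,
            Nat.cast_sub (Finset.card_pos.2 ⟨q, hq⟩), Nat.cast_one]
        · intro q' hq'
          rw [mem_erase] at hq'
          rw [Finset.card_union_of_disjoint (hdisj q hq q' hq'.2 (Ne.symm hq'.1)),
            Finset.card_pair ((hQmem q).1 hq).1.ne, Finset.card_pair ((hQmem q').1 hq'.2).1.ne]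
    rw [Finset.sum_congr rfl e2, Finset.sum_const, nsmul_eq_mul]
    ring
  -- pointwise inequality
  have hpt : ∀ Z ⊆ P r k, (3 / 2) * X Z + (-(1 / 2)) * (X Z * X Z) ≤
      ind (UpF F (P r k) ((P r k \ P r (max (k - J) (lo + 2))) ∪ Z)) := by
    intro Z _
    have hXc : X Z = ((Q.filter fun q => ({q.1, q.2} : Finset (Fin n)) ⊆ Z).card : ℝ) := by
      rw [Finset.card_filter, Nat.cast_sum, hX]
      refine Finset.sum_congr rfl fun q _ => ?_
      by_cases h : ({q.1, q.2} : Finset (Fin n)) ⊆ Z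
      · rw [ind_true h, if_pos h, Nat.cast_one]
      · rw [ind_false h, if_neg h, Nat.cast_zero]
    rcases Nat.eq_zero_or_pos (Q.filter fun q => ({q.1, q.2} : Finset (Fin n)) ⊆ Z).card with h0 | h0
    · rw [hXc, h0]
      have := ind_nonneg (UpF F (P r k) ((P r k \ P r (max (k - J) (lo + 2))) ∪ Z))
      simpa using this
    · obtain ⟨q, hq⟩ := Finset.card_pos.1 h0
      rw [mem_filter, hQmem] at hq
      obtain ⟨⟨_, hq1⟩, hq2⟩ := hq
      rw [ind_true (C3b.up hq1 hlk Z (hq2 (by simp)) (hq2 (by simp))), hXc]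
      set N := (Q.filter fun q => ({q.1, q.2} : Finset (Fin n)) ⊆ Z).card
      rcases Nat.lt_or_ge N 2 with h2 | h2
      · have : N = 1 := by omega
        rw [this]; norm_num
      · have h3 : (2 : ℝ) ≤ N := by exact_mod_cast h2
        nlinarith
  have hEx := Ex_mono (b := fun _ : Fin n => p) (fun _ => hp0) (fun _ => hp1) hpt
  rw [Ex_add, Ex_mul_left, Ex_mul_left, hEX, hEX2] at hEx
  rw [hleft]
  have hm : (2 : ℝ) * Q.card ≤ n := by exact_mod_cast hcardn
  have hm0 : (0 : ℝ) ≤ Q.card := Nat.cast_nonneg _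
  have hp4 : p ^ 4 = 1 / n * (1 / n) := by
    rw [← hp2]; ring
  rw [hp2, hp4] at hEx
  refine le_trans ?_ (mul_le_mul_of_nonneg_left hEx (by positivity))
  have e : 4 * (n : ℝ) * (3 / 2 * (Q.card * (1 / (n : ℝ))) + -(1 / 2) * (Q.card * (1 / (n : ℝ)) +
      Q.card * (Q.card - 1) * (1 / n * (1 / n)))) = 4 * Q.card - 2 * Q.card * (Q.card - 1) / n := by
    field_simp
    ring
  rw [e]
  have h5 : 2 * (Q.card : ℝ) * (Q.card - 1) / n ≤ 2 * Q.card := by
    rw [div_le_iff₀ hn0]
    nlinarith
  linarith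

end Pool.Agent.H710.KU
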