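import Pool.Agent.H710.KU.St

set_option autoImplicit false

namespace Pool.Agent.H710.KU

open Finset Equiv

namespace C4

/-- The property of the rearranged chain. -/
def EE {n : ℕ} (F : Fam n) (S : Cen n) (lo H : ℕ) (r' : Perm (Fin n)) (x : Fin n) (s : ℕ) : Prop :=
  ∃ (r : Perm (Fin n)) (a : ℕ) (y : Fin n),
    (∀ k, lo ≤ k → k ≤ s → P r' (k + 1) = insert x (P r k)) ∧
    (∀ k, s ≤ k → k ≤ H → P r' (k + 2) = insert x (insert y (P r k))) ∧
    x ∉ P r H ∧ y ∉ P r H ∧ (r' y : ℕ) = s + 1 ∧ Vld F S lo r a x y s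

theorem cx_le {n : ℕ} {F : Fam n} {lo hi H : ℕ} {r : Perm (Fin n)} {c : ℕ}
    {x : Fin n} (hL : Levels F lo hi) (h1 : hi + 3 ≤ H) (h2 : H + 2 ≤ n)
    (hx : x ∉ P r H) (hF : insert x (P r c) ∈ F) : c + 1 ≤ hi := by
  have hcard := (hL _ hF).2
  rcases le_total c H with hc | hc
  · have hx' : x ∉ P r c := fun h' => hx (P_mono r hc h')
    rw [card_insert_of_notMem hx', card_P r c (by omega)] at hcard
    exact hcard
  · have h3 : (P r H).card ≤ (insert x (P r c)).card :=
      card_le_card ((P_mono r hc).trans (subset_insert _ _))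
    rw [card_P r H (by omega)] at h3
    omega

theorem exists_rho {n H s : ℕ} (hs : s ≤ H) (hH : H + 2 ≤ n) (i i' : Fin n) (hi : H ≤ (i : ℕ))
    (hi' : H ≤ (i' : ℕ)) (hne : i ≠ i') : ∃ ρ : Perm (Fin n), (ρ i : ℕ) = 0 ∧
      (ρ i' : ℕ) = s + 1 ∧ (∀ j : Fin n, (j : ℕ) < s → (ρ j : ℕ) = j + 1) ∧
      (∀ j : Fin n, s ≤ (j : ℕ) → (j : ℕ) < H → (ρ j : ℕ) = j + 2) := by
  classical
  let f : Fin n → Fin n := fun j => ⟨if j = i then 0 else if j = i' then s + 1
    else if (j : ℕ) < s then j + 1 else if (j : ℕ) < H then j + 2 else j, by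
      have := j.isLt
      split_ifs <;> omega⟩
  have hf : ∀ j, (f j : ℕ) = if j = i then 0 else if j = i' then s + 1
    else if (j : ℕ) < s then j + 1 else if (j : ℕ) < H then j + 2 else j := fun j => rfl
  have hcard : Fintype.card (Fin n) = (univ : Finset (Fin n)).card := rfl
  obtain ⟨g, hg⟩ := Finset.exists_equiv_extend_of_card_eq hcard
    (s := univ.filter fun j : Fin n => j = i ∨ j = i' ∨ (j : ℕ) < H) (f := f)
    (subset_univ _) (by
      intro j hj j' hj' he
      have he' := congrArg Fin.val he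
      rw [hf, hf] at he'
      have hj2 : j = i ∨ j = i' ∨ (j : ℕ) < H := by simpa using hj
      have hj3 : j' = i ∨ j' = i' ∨ (j' : ℕ) < H := by simpa using hj'
      by_cases a1 : j = i
      · by_cases b1 : j' = i
        · rw [a1, b1]
        · exfalso
          rw [if_pos a1, if_neg b1] at he'
          split_ifs at he' <;> omega
      · by_cases b1 : j' = i
        · exfalso
          rw [if_pos b1, if_neg a1] at he'
          split_ifs at he' <;> omega
        · rw [if_neg a1, if_neg b1] at he'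
          by_cases a2 : j = i'
          · by_cases b2 : j' = i'
            · rw [a2, b2]
            · exfalso
              rw [if_pos a2, if_neg b2] at he'
              have : (j' : ℕ) < H := by tauto
              split_ifs at he' <;> omega
          · by_cases b2 : j' = i'
            · exfalso
              rw [if_neg a2, if_pos b2] at he'
              have : (j : ℕ) < H := by tauto
              split_ifs at he' <;> omega
            · rw [if_neg a2, if_neg b2] at he'
              have h3 : (j : ℕ) < H := by tauto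
              have h4 : (j' : ℕ) < H := by tauto
              apply Fin.ext
              split_ifs at he' <;> omega)
  refine ⟨g.trans (Equiv.subtypeUnivEquiv fun _ => mem_univ _), ?_, ?_, ?_, ?_⟩
  · have := congrArg Fin.val (hg i (by simp))
    rw [hf, if_pos rfl] at this
    exact this
  · have := congrArg Fin.val (hg i' (by simp))
    rw [hf, if_neg (Ne.symm hne), if_pos rfl] at this
    exact this
  · intro j hj
    have h1 : j ≠ i := by rintro rfl; omega
    have h2 : j ≠ i' := by rintro rfl; omega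
    have := congrArg Fin.val (hg j (by
      rw [mem_filter]; exact ⟨mem_univ _, Or.inr (Or.inr (by omega))⟩))
    rw [hf, if_neg h1, if_neg h2, if_pos hj] at this
    exact this
  · intro j hj hj'
    have h1 : j ≠ i := by rintro rfl; omega
    have h2 : j ≠ i' := by rintro rfl; omega
    have := congrArg Fin.val (hg j (by
      rw [mem_filter]; exact ⟨mem_univ _, Or.inr (Or.inr (by omega))⟩))
    rw [hf, if_neg h1, if_neg h2, if_neg (by omega), if_pos hj'] at this
    exact this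

section rho

variable {n H s : ℕ} {ρ : Perm (Fin n)} {i i' : Fin n}

theorem rho_big (hs : s ≤ H) (hH : H + 2 ≤ n) (h0 : (ρ i : ℕ) = 0)
    (h1 : (ρ i' : ℕ) = s + 1) (h2 : ∀ j : Fin n, (j : ℕ) < s → (ρ j : ℕ) = j + 1)
    (h3 : ∀ j : Fin n, s ≤ (j : ℕ) → (j : ℕ) < H → (ρ j : ℕ) = j + 2) (e : Fin n)
    (he : H ≤ (e : ℕ)) (hei : e ≠ i) (hei' : e ≠ i') : H + 2 ≤ (ρ e : ℕ) := by
  by_contra hcon
  push Not at hcon
  have hinj : ∀ j : Fin n, (ρ e : ℕ) = ρ j → e = j := fun j hj => ρ.injective (Fin.ext hj)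
  rcases Nat.eq_zero_or_pos (ρ e : ℕ) with hz | hz
  · exact hei (hinj i (by omega))
  by_cases h4 : (ρ e : ℕ) = s + 1
  · exact hei' (hinj i' (by omega))
  rcases Nat.lt_or_ge (ρ e : ℕ) (s + 1) with h5 | h5
  · have h6 := h2 ⟨(ρ e : ℕ) - 1, by omega⟩ (by simp only; omega)
    have h7 := hinj ⟨(ρ e : ℕ) - 1, by omega⟩ (by simp only at h6; omega)
    have h8 := congrArg Fin.val h7
    simp only at h8
    omega
  · have h6 := h3 ⟨(ρ e : ℕ) - 2, by omega⟩ (by simp only; omega) (by simp only; omega)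
    have h7 := hinj ⟨(ρ e : ℕ) - 2, by omega⟩ (by simp only at h6; omega)
    have h8 := congrArg Fin.val h7
    simp only at h8
    omega

theorem rho_A (hs : s ≤ H) (hH : H + 2 ≤ n) (hi : H ≤ (i : ℕ)) (hi' : H ≤ (i' : ℕ))
    (hne : i ≠ i') (h0 : (ρ i : ℕ) = 0)
    (h1 : (ρ i' : ℕ) = s + 1) (h2 : ∀ j : Fin n, (j : ℕ) < s → (ρ j : ℕ) = j + 1)
    (h3 : ∀ j : Fin n, s ≤ (j : ℕ) → (j : ℕ) < H → (ρ j : ℕ) = j + 2) (r : Perm (Fin n))
    (k : ℕ) (hk : k ≤ s) : P (ρ * r) (k + 1) = insert (r.symm i) (P r k) := by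
  ext e
  rw [mem_P_mul, mem_insert, mem_P, Equiv.eq_symm_apply]
  by_cases a1 : r e = i
  · rw [a1, h0]; simp
  by_cases a2 : r e = i'
  · rw [a2, h1]
    constructor
    · intro h; omega
    · rintro (h | h)
      · exact absurd h (Ne.symm hne)
      · omega
  rcases Nat.lt_or_ge (r e : ℕ) s with h4 | h4
  · rw [h2 _ h4]
    constructor
    · intro h; right; omega
    · rintro (h | h)
      · exact absurd h a1
      · omega
  rcases Nat.lt_or_ge (r e : ℕ) H with h5 | h5
  · rw [h3 _ h4 h5]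
    constructor
    · intro h; omega
    · rintro (h | h)
      · exact absurd h a1
      · omega
  · have := rho_big hs hH h0 h1 h2 h3 (r e) h5 a1 a2
    constructor
    · intro h; omega
    · rintro (h | h)
      · exact absurd h a1
      · omega

theorem rho_B (hs : s ≤ H) (hH : H + 2 ≤ n) (h0 : (ρ i : ℕ) = 0)
    (h1 : (ρ i' : ℕ) = s + 1) (h2 : ∀ j : Fin n, (j : ℕ) < s → (ρ j : ℕ) = j + 1)
    (h3 : ∀ j : Fin n, s ≤ (j : ℕ) → (j : ℕ) < H → (ρ j : ℕ) = j + 2) (r : Perm (Fin n))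
    (k : ℕ) (hk : s ≤ k) (hkH : k ≤ H) :
    P (ρ * r) (k + 2) = insert (r.symm i) (insert (r.symm i') (P r k)) := by
  ext e
  rw [mem_P_mul, mem_insert, mem_insert, mem_P, Equiv.eq_symm_apply, Equiv.eq_symm_apply]
  by_cases a1 : r e = i
  · rw [a1, h0]; simp
  by_cases a2 : r e = i'
  · rw [a2, h1]
    constructor
    · intro _; right; left; rfl
    · intro _; omega
  have a3 : (r e = i ∨ r e = i' ∨ (r e : ℕ) < k) ↔ (r e : ℕ) < k := by tauto
  rw [a3]
  rcases Nat.lt_or_ge (r e : ℕ) s with h4 | h4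
  · rw [h2 _ h4]; omega
  rcases Nat.lt_or_ge (r e : ℕ) H with h5 | h5
  · rw [h3 _ h4 h5]; omega
  · have := rho_big hs hH h0 h1 h2 h3 (r e) h5 a1 a2
    omega

end rho

theorem P_swap {n : ℕ} (r : Perm (Fin n)) (z j : Fin n) (lo k : ℕ) (hz : (z : ℕ) = 0)
    (hj : (j : ℕ) ≤ lo) (hk : lo + 1 ≤ k) : P (swap z j * r) k = P r k := by
  ext e
  rw [mem_P_mul, mem_P]
  by_cases h1 : r e = z
  · rw [h1, swap_apply_left]; omega
  by_cases h2 : r e = j
  · rw [h2, swap_apply_right]; omega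
  · rw [swap_apply_of_ne_of_ne h1 h2]

theorem low_ge {n : ℕ} {F : Fam n} {lo hi a : ℕ} {r : Perm (Fin n)} (hL : Levels F lo hi)
    (h : Low F r a) : lo + 3 ≤ a := by
  have := (hL _ h.1).1
  rw [card_P'] at this
  omega

theorem EE_swap {n : ℕ} {F : Fam n} {S : Cen n} {lo hi H : ℕ} (hL : Levels F lo hi)
    (r' : Perm (Fin n)) (z j x : Fin n) (s : ℕ) (hz : (z : ℕ) = 0)
    (hj : (j : ℕ) ≤ lo) (h : EE F S lo H (swap z j * r') x s) : EE F S lo H r' x s := by
  obtain ⟨r, a, y, h1, h2, h3, h4, h5, h6⟩ := h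
  have ha := low_ge hL h6.2.1
  have has := h6.1
  refine ⟨r, a, y, fun k hk hks => ?_, fun k hk hkH => ?_, h3, h4, ?_, h6⟩
  · rw [← h1 k hk hks, P_swap r' z j lo (k + 1) hz hj (by omega)]
  · rw [← h2 k hk hkH, P_swap r' z j lo (k + 2) hz hj (by omega)]
  · have h7 : ((swap z j) (r' y) : ℕ) = s + 1 := h5
    by_cases h8 : r' y = z
    · rw [h8, swap_apply_left] at h7; omega
    by_cases h9 : r' y = j
    · rw [h9, swap_apply_right] at h7; omega
    · rwa [swap_apply_of_ne_of_ne h8 h9] at h7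

theorem EE_miss {n : ℕ} {F : Fam n} {S : Cen n} {lo hi H : ℕ} (hL : Levels F lo hi)
    (h1 : hi + 3 ≤ H) (h2 : H + 2 ≤ n) {r' : Perm (Fin n)} {x : Fin n} {s : ℕ}
    (h : EE F S lo H r' x s) : Miss F r' := by
  obtain ⟨r, a, y, hA, hB, h3, h4, h5, h6⟩ := h
  intro k hk
  obtain ⟨hk1, hk2⟩ := hit_level hL (by omega) hk
  obtain ⟨g1, g2, g3, g4, g5, g6, g7, g8, c, g9, g10, g11⟩ := h6
  rcases Nat.lt_or_ge k (s + 2) with h7 | h7
  · obtain ⟨m, rfl⟩ : ∃ m, k = m + 1 := ⟨k - 1, by omega⟩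
    rw [hA m (by omega) (by omega)] at hk
    exact g7 m (by omega) hk
  · obtain ⟨m, rfl⟩ : ∃ m, k = m + 2 := ⟨k - 2, by omega⟩
    rw [hB m (by omega) (by omega)] at hk
    exact g8 m (by omega) hk

/-- first case of the uniqueness -/
theorem uniq1 {n : ℕ} {F : Fam n} {S : Cen n} {lo hi H : ℕ} (hL : Levels F lo hi)
    (h1 : hi + 3 ≤ H) (h2 : H + 2 ≤ n) {r' r ρ : Perm (Fin n)} {x x' y y' : Fin n}
    {s s' a a' : ℕ} (hne : x ≠ x') (haa : a' ≤ a)
    (hA : ∀ k, lo ≤ k → k ≤ s → P r' (k + 1) = insert x (P r k))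
    (hA' : ∀ k, lo ≤ k → k ≤ s' → P r' (k + 1) = insert x' (P ρ k))
    (hx' : x' ∉ P ρ H)
    (hV : Vld F S lo r a x y s) (hV' : Vld F S lo ρ a' x' y' s') : False := by
  have ha := low_ge hL hV.2.1
  have ha' := low_ge hL hV'.2.1
  obtain ⟨g1, g2, g3, g4, -, -, g7, -, c, g9, g10, -⟩ := hV
  obtain ⟨e1, e2, -, -, -, -, -, -, c', e9, e10, -⟩ := hV'
  have hc' := cx_le hL h1 h2 hx' e10
  have hxlo' : x' ∈ P r' (lo + 1) := by
    rw [hA' lo le_rfl (by omega)]; exact mem_insert_self _ _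
  have hx'lo : x' ∈ P r lo := by
    rw [hA lo le_rfl (by omega), mem_insert] at hxlo'
    rcases hxlo' with h | h
    · exact absurd h (Ne.symm hne)
    · exact h
  have hbad := g4.2 a' haa x' hx'lo
  rw [← hA a' (by omega) (by omega), hA' a' (by omega) e1, erase_insert] at hbad
  · exact hbad e2.1
  · exact fun h => hx' (P_mono ρ (by omega) h)

/-- second case of the uniqueness -/
theorem uniq2 {n : ℕ} {F : Fam n} {S : Cen n} {lo hi H : ℕ} (hL1 : S_L1) (hL : Levels F lo hi)
    (h1 : hi + 3 ≤ H) (h2 : H + 2 ≤ n) {r' r ρ : Perm (Fin n)} {x y y' : Fin n}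
    {s s' a a' : ℕ} (hss : s < s')
    (hA : ∀ k, lo ≤ k → k ≤ s → P r' (k + 1) = insert x (P r k))
    (hA' : ∀ k, lo ≤ k → k ≤ s' → P r' (k + 1) = insert x (P ρ k))
    (hB' : ∀ k, s' ≤ k → k ≤ H → P r' (k + 2) = insert x (insert y' (P ρ k)))
    (hx : x ∉ P r H) (hx' : x ∉ P ρ H) (hy : y ∉ P r H) (hy' : y' ∉ P ρ H)
    (hry : (r' y : ℕ) = s + 1) (hry' : (r' y' : ℕ) = s' + 1)
    (hV : Vld F S lo r a x y s) (hV' : Vld F S lo ρ a' x y' s') : Pol F S r' := by
  classical
  have ha := low_ge hL hV.2.1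
  have ha' := low_ge hL hV'.2.1
  obtain ⟨g1, g2, g3, g4, g5, g6, g7, g8, c, g9, g10, g11⟩ := hV
  obtain ⟨e1, e2, e3, e4, e5, e6, e7, e8, c', e9, e10, e11⟩ := hV'
  have hc := cx_le hL h1 h2 hx g10
  have hc' := cx_le hL h1 h2 hx' e10
  have hr : ∀ k, lo ≤ k → k ≤ s → P r k = (P r' (k + 1)).erase x := by
    intro k hk hks
    rw [hA k hk hks, erase_insert]
    exact fun h => hx (P_mono r (by omega) h)
  have hρ : ∀ k, lo ≤ k → k ≤ s' → P ρ k = (P r' (k + 1)).erase x := by
    intro k hk hks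
    rw [hA' k hk hks, erase_insert]
    exact fun h => hx' (P_mono ρ (by omega) h)
  have haa : a = a' := by
    rcases lt_trichotomy a a' with h | h | h
    · exfalso
      apply e2.2 a h
      rw [hρ a (by omega) (by omega), ← hr a (by omega) g1]
      exact g2.1
    · exact h
    · exfalso
      apply g2.2 a' h
      rw [hr a' (by omega) (by omega), ← hρ a' (by omega) e1]
      exact e2.1
  -- not M2 gives a member of F
  by_contra hpol
  apply g6
  refine ⟨g3, g4, g5, fun i hi x'' hx'' y'' hy'' hxy hE => ?_⟩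
  set E0 := ((insert x (insert y (P r i))).erase x'').erase y'' with hE0
  set C' := insert x (P ρ c') with hC'
  have hx''a : x'' ∈ P r a := P_mono r (by omega) hx''
  have hy''a : y'' ∈ P r a := P_mono r (by omega) hy''
  have hsub : P r a ⊆ C' := by
    intro e he
    rw [hr a (by omega) g1, ← hρ a (by omega) (by omega)] at he
    exact mem_insert_of_mem (P_mono ρ (by omega) he)
  have hyC : y ∈ C' := by
    have h3 : y ∈ P r' (c' + 2) := by rw [mem_P]; omega
    rw [hB' c' (by omega) (by omega), mem_insert, mem_insert] at h3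
    rcases h3 with h3 | h3 | h3
    · rw [h3]; exact mem_insert_self _ _
    · exfalso; rw [h3] at hry; omega
    · exact mem_insert_of_mem h3
  have hxE : x ∈ E0 := by
    rw [hE0, mem_erase, mem_erase]
    refine ⟨?_, ?_, mem_insert_self _ _⟩
    · rintro rfl; exact hx (P_mono r (by omega) hy'')
    · rintro rfl; exact hx (P_mono r (by omega) hx'')
  have hEC : E0 ⊂ C' := by
    have hsub' : E0 ⊆ C' := by
      refine (erase_subset _ _).trans ((erase_subset _ _).trans ?_)
      intro e he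
      rw [mem_insert, mem_insert] at he
      rcases he with rfl | rfl | he
      · exact mem_insert_self _ _
      · exact hyC
      · exact hsub (P_mono r hi he)
    rw [Finset.ssubset_iff_of_subset hsub']
    refine ⟨x'', hsub hx''a, fun h => ?_⟩
    rw [hE0, mem_erase, mem_erase] at h
    exact h.2.1 rfl
  have hiE : lo + 1 ≤ i := by
    have h3 := (hL _ hE).1
    have h4 : E0.card ≤ (P r i).card + 2 := by
      calc E0.card ≤ (insert x (insert y (P r i))).card :=
            card_le_card ((erase_subset _ _).trans (erase_subset _ _))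
        _ ≤ (insert y (P r i)).card + 1 := card_insert_le _ _
        _ ≤ (P r i).card + 2 := by have := card_insert_le y (P r i); omega
    rw [card_P'] at h4
    omega
  have hexc : Exc F S E0 C' := ⟨hE, e10, hEC, x, hxE, e11⟩
  refine hpol (hL1 n F S r' (i + 1) (c' + 2) E0 C' hexc (by omega) (by omega) ?_ ?_)
  · rw [hA i (by omega) (by omega)]
    have h3 : (E0 \ insert x (P r i)).card ≤ 1 := by
      have : E0 \ insert x (P r i) ⊆ {y} := by
        intro e he
        rw [mem_sdiff, hE0, mem_erase, mem_erase] at he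
        obtain ⟨⟨-, -, he1⟩, he2⟩ := he
        rw [mem_insert, mem_insert] at he1
        rw [mem_insert, not_or] at he2
        rw [mem_singleton]
        rcases he1 with h | h | h
        · exact absurd h he2.1
        · exact h
        · exact absurd h he2.2
      exact (card_le_card this).trans (by rw [card_singleton])
    have h4 : (insert x (P r i) \ E0).card ≤ 2 := by
      have : insert x (P r i) \ E0 ⊆ {x'', y''} := by
        intro e he
        rw [mem_sdiff, hE0, mem_erase, mem_erase] at he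
        obtain ⟨he1, he2⟩ := he
        rw [mem_insert, mem_singleton]
        by_contra hcon
        rw [not_or] at hcon
        apply he2
        refine ⟨hcon.2, hcon.1, ?_⟩
        rw [mem_insert] at he1
        rcases he1 with h | h
        · rw [h]; exact mem_insert_self _ _
        · exact mem_insert_of_mem (mem_insert_of_mem h)
      exact (card_le_card this).trans card_le_two
    omega
  · rw [hB' c' (by omega) (by omega)]
    have h3 : (C' \ insert x (insert y' (P ρ c'))).card = 0 := by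
      rw [card_eq_zero, sdiff_eq_empty_iff_subset, hC']
      intro e he
      rw [mem_insert] at he
      rcases he with h | h
      · rw [h]; exact mem_insert_self _ _
      · exact mem_insert_of_mem (mem_insert_of_mem h)
    have h4 : (insert x (insert y' (P ρ c')) \ C').card ≤ 1 := by
      have : insert x (insert y' (P ρ c')) \ C' ⊆ {y'} := by
        intro e he
        rw [mem_sdiff, hC'] at he
        obtain ⟨he1, he2⟩ := he
        rw [mem_insert, mem_insert] at he1
        rw [mem_insert, not_or] at he2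
        rw [mem_singleton]
        rcases he1 with h | h | h
        · exact absurd h he2.1
        · exact h
        · exact absurd h he2.2
      exact (card_le_card this).trans (by rw [card_singleton])
    omega

theorem EE_unique {n : ℕ} {F : Fam n} {S : Cen n} {lo hi H : ℕ} (hL1 : S_L1)
    (hL : Levels F lo hi) (h1 : hi + 3 ≤ H) (h2 : H + 2 ≤ n) {r' : Perm (Fin n)}
    (hpol : ¬ Pol F S r') {x x' : Fin n} {s s' : ℕ}
    (h : EE F S lo H r' x s) (h' : EE F S lo H r' x' s') : x = x' ∧ s = s' := by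
  obtain ⟨r, a, y, hA, hB, h3, h4, h5, h6⟩ := h
  obtain ⟨ρ, a', y', hA', hB', h3', h4', h5', h6'⟩ := h'
  have hxx : x = x' := by
    by_contra hne
    rcases le_total a' a with haa | haa
    · exact uniq1 hL h1 h2 hne haa hA hA' h3' h6 h6'
    · exact uniq1 hL h1 h2 (Ne.symm hne) haa hA' hA h3 h6' h6
  subst hxx
  refine ⟨rfl, ?_⟩
  rcases lt_trichotomy s s' with hlt | heq | hlt
  · exact absurd (uniq2 hL1 hL h1 h2 hlt hA hA' hB' h3 h3' h4 h4' h5 h5' h6 h6') hpol
  · exact heq
  · exact absurd (uniq2 hL1 hL h1 h2 hlt hA' hA hB h3' h3 h4' h4 h5' h5 h6' h6) hpol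

theorem sum_ind_le {ι : Type} (s : Finset ι) (p : ι → Prop) (m : Prop)
    (h1 : ∀ i ∈ s, p i → m) (h2 : ∀ i ∈ s, ∀ j ∈ s, p i → p j → i = j) :
    ∑ i ∈ s, ind (p i) ≤ ind m := by
  classical
  by_cases h : ∃ i ∈ s, p i
  · obtain ⟨i, hi, hp⟩ := h
    rw [Finset.sum_eq_single_of_mem i hi, ind_true hp, ind_true (h1 i hi hp)]
    intro j hj hne
    exact ind_false fun hpj => hne (h2 j hj i hi hpj hp)
  · push Not at h
    rw [Finset.sum_eq_zero fun i hi => ind_false (h i hi)]
    exact ind_nonneg m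

/-- one choice of `r`, positions `i`, `i'` and `s` -/
theorem G_le {n : ℕ} {F : Fam n} {S : Cen n} {lo hi H : ℕ} (hL : Levels F lo hi)
    (h1 : hi + 3 ≤ H) (h2 : H + 2 ≤ n) (z i i' : Fin n) (hz : (z : ℕ) = 0) (s : ℕ) :
    ∑ r : Perm (Fin n), ∑ a ∈ range (n + 1),
      ind (r.symm i ∉ P r H ∧ r.symm i' ∉ P r H ∧ Vld F S lo r a (r.symm i) (r.symm i') s) ≤
    ∑ r : Perm (Fin n), ind (EE F S lo H r (r.symm z) s) := by
  by_cases hcase : H ≤ (i : ℕ) ∧ H ≤ (i' : ℕ) ∧ i ≠ i' ∧ s ≤ H
  · obtain ⟨hi, hi', hne, hs⟩ := hcase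
    obtain ⟨ρ, k0, k1, k2, k3⟩ := exists_rho hs h2 i i' hi hi' hne
    rw [← sum_mul_left ρ fun r => ind (EE F S lo H r (r.symm z) s)]
    refine Finset.sum_le_sum fun r _ => ?_
    have hz' : (ρ * r).symm z = r.symm i := by
      rw [Equiv.symm_apply_eq]
      apply Fin.ext
      rw [hz]
      show 0 = (ρ (r (r.symm i)) : ℕ)
      rw [Equiv.apply_symm_apply, k0]
    rw [hz']
    refine sum_ind_le _ _ _ ?_ ?_
    · rintro a - ⟨g1, g2, g3⟩
      refine ⟨r, a, r.symm i', ?_, ?_, g1, g2, ?_, g3⟩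
      · intro k _ hk
        exact rho_A hs h2 hi hi' hne k0 k1 k2 k3 r k hk
      · intro k hk hkH
        exact rho_B hs h2 k0 k1 k2 k3 r k hk hkH
      · show (ρ (r (r.symm i')) : ℕ) = s + 1
        rw [Equiv.apply_symm_apply, k1]
    · rintro a - b - ⟨-, -, g3⟩ ⟨-, -, g3'⟩
      exact Low_unique g3.2.1 g3'.2.1
  · have hzero : ∑ r : Perm (Fin n), ∑ a ∈ range (n + 1),
        ind (r.symm i ∉ P r H ∧ r.symm i' ∉ P r H ∧
          Vld F S lo r a (r.symm i) (r.symm i') s) = 0 := by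
      refine Finset.sum_eq_zero fun r _ => Finset.sum_eq_zero fun a _ => ind_false ?_
      rintro ⟨g1, g2, g3⟩
      apply hcase
      have e1 : H ≤ (i : ℕ) := by
        by_contra hcon
        exact g1 (by rw [mem_P, Equiv.apply_symm_apply]; omega)
      have e2 : H ≤ (i' : ℕ) := by
        by_contra hcon
        exact g2 (by rw [mem_P, Equiv.apply_symm_apply]; omega)
      have e3 : i ≠ i' := by
        rintro rfl
        exact g3.2.2.1 rfl
      obtain ⟨-, -, -, -, -, -, -, -, c, g9, g10, -⟩ := g3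
      have := cx_le hL h1 h2 g1 g10
      exact ⟨e1, e2, e3, by omega⟩
    rw [hzero]
    exact Finset.sum_nonneg fun r _ => ind_nonneg _

theorem pair_le {n : ℕ} {F : Fam n} {S : Cen n} {lo hi H : ℕ} (hL1 : S_L1)
    (hL : Levels F lo hi) (h1 : hi + 3 ≤ H) (h2 : H + 2 ≤ n) (hlh : lo + 3 ≤ hi)
    (i i' : Fin n) :
    ((lo : ℝ) + 1) * ∑ s ∈ range (n + 1), ∑ r : Perm (Fin n), ∑ a ∈ range (n + 1),
      ind (r.symm i ∉ P r H ∧ r.symm i' ∉ P r H ∧ Vld F S lo r a (r.symm i) (r.symm i') s) ≤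
    ∑ r : Perm (Fin n), ind (Miss F r) + (n : ℝ) ^ 2 * ∑ r : Perm (Fin n), ind (Pol F S r) := by
  classical
  set z : Fin n := ⟨0, by omega⟩ with hz
  have hz0 : (z : ℕ) = 0 := rfl
  set JJ : Finset (Fin n) := univ.filter fun j : Fin n => (j : ℕ) ≤ lo with hJJ
  have hJcard : JJ.card = lo + 1 := by
    have : JJ = univ.filter fun j : Fin n => (j : ℕ) < lo + 1 := by
      rw [hJJ]
      exact Finset.filter_congr fun j _ => by omega
    rw [this, Fin.card_filter_val_lt]
    omega
  have step1 : ∑ s ∈ range (n + 1), ∑ r : Perm (Fin n), ∑ a ∈ range (n + 1),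
      ind (r.symm i ∉ P r H ∧ r.symm i' ∉ P r H ∧ Vld F S lo r a (r.symm i) (r.symm i') s) ≤
      ∑ s ∈ range (n + 1), ∑ r : Perm (Fin n), ind (EE F S lo H r (r.symm z) s) :=
    Finset.sum_le_sum fun s _ => G_le hL h1 h2 z i i' hz0 s
  have step2 : ∀ s, ((lo : ℝ) + 1) * ∑ r : Perm (Fin n), ind (EE F S lo H r (r.symm z) s) ≤
      ∑ r : Perm (Fin n), ∑ j ∈ JJ, ind (EE F S lo H r (r.symm j) s) := by
    intro s
    have e1 : ((lo : ℝ) + 1) * ∑ r : Perm (Fin n), ind (EE F S lo H r (r.symm z) s) =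
        ∑ j ∈ JJ, ∑ r : Perm (Fin n), ind (EE F S lo H r (r.symm z) s) := by
      rw [Finset.sum_const, hJcard, nsmul_eq_mul]
      push_cast
      ring
    rw [e1, Finset.sum_comm (s := univ)]
    refine Finset.sum_le_sum fun j hj => ?_
    rw [hJJ, mem_filter] at hj
    rw [← sum_mul_left (swap z j) fun r => ind (EE F S lo H r (r.symm z) s)]
    refine Finset.sum_le_sum fun r _ => ind_mono fun h => ?_
    have hsym : (swap z j * r).symm z = r.symm j := by
      rw [Equiv.symm_apply_eq]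
      show z = (swap z j) (r (r.symm j))
      rw [Equiv.apply_symm_apply, swap_apply_right]
    rw [hsym] at h
    exact EE_swap hL r z j _ s hz0 hj.2 h
  have step3 : ∀ r : Perm (Fin n), ∑ s ∈ range (n + 1), ∑ j ∈ JJ,
      ind (EE F S lo H r (r.symm j) s) ≤ ind (Miss F r) + (n : ℝ) ^ 2 * ind (Pol F S r) := by
    intro r
    by_cases hp : Pol F S r
    · rw [ind_true hp, mul_one]
      have e1 : ∑ s ∈ range (n + 1), ∑ j ∈ JJ, ind (EE F S lo H r (r.symm j) s) ≤
          ∑ s ∈ range (n + 1), ∑ j ∈ JJ, (1 : ℝ) :=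
        Finset.sum_le_sum fun s _ => Finset.sum_le_sum fun j _ => ind_le_one _
      have e2 : ∑ s ∈ range (n + 1), ∑ j ∈ JJ, (1 : ℝ) = (n + 1) * (lo + 1) := by
        simp only [Finset.sum_const, card_range, hJcard, nsmul_eq_mul]
        push_cast
        ring
      have e3 : ((n : ℝ) + 1) * (lo + 1) ≤ (n : ℝ) ^ 2 := by
        have h3 : (lo : ℝ) + 8 ≤ n := by exact_mod_cast (by omega : lo + 8 ≤ n)
        have h4 : (0 : ℝ) ≤ lo := Nat.cast_nonneg _
        nlinarith
      have := ind_nonneg (Miss F r)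
      linarith
    · rw [ind_false hp, mul_zero, add_zero, ← Finset.sum_product']
      refine sum_ind_le _ _ _ ?_ ?_
      · rintro ⟨s, j⟩ - h
        exact EE_miss hL h1 h2 h
      · rintro ⟨s, j⟩ - ⟨s', j'⟩ - h h'
        obtain ⟨e1, e2⟩ := EE_unique hL1 hL h1 h2 hp h h'
        have e3 : j = j' := r.symm.injective e1
        simp only at e2
        rw [e2, e3]
  calc ((lo : ℝ) + 1) * ∑ s ∈ range (n + 1), ∑ r : Perm (Fin n), ∑ a ∈ range (n + 1),
      ind (r.symm i ∉ P r H ∧ r.symm i' ∉ P r H ∧ Vld F S lo r a (r.symm i) (r.symm i') s)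
      ≤ ((lo : ℝ) + 1) * ∑ s ∈ range (n + 1),
          ∑ r : Perm (Fin n), ind (EE F S lo H r (r.symm z) s) :=
        mul_le_mul_of_nonneg_left step1 (by positivity)
    _ ≤ ∑ s ∈ range (n + 1), ∑ r : Perm (Fin n), ∑ j ∈ JJ,
          ind (EE F S lo H r (r.symm j) s) := by
        rw [Finset.mul_sum]
        exact Finset.sum_le_sum fun s _ => step2 s
    _ = ∑ r : Perm (Fin n), ∑ s ∈ range (n + 1), ∑ j ∈ JJ,
          ind (EE F S lo H r (r.symm j) s) := Finset.sum_comm
    _ ≤ ∑ r : Perm (Fin n), (ind (Miss F r) + (n : ℝ) ^ 2 * ind (Pol F S r)) :=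
        Finset.sum_le_sum fun r _ => step3 r
    _ = _ := by rw [Finset.sum_add_distrib, Finset.mul_sum]

end C4

theorem c4 (hL1 : S_L1) : S_C4 := by
  classical
  intro n F S lo hi H hL h1 h2 _
  have hR : (0 : ℝ) ≤ ∑ r : Perm (Fin n), ind (Miss F r) +
      (n : ℝ) ^ 2 * ∑ r : Perm (Fin n), ind (Pol F S r) := by
    have e1 : (0 : ℝ) ≤ ∑ r : Perm (Fin n), ind (Miss F r) :=
      Finset.sum_nonneg fun r _ => ind_nonneg _
    have e2 : (0 : ℝ) ≤ ∑ r : Perm (Fin n), ind (Pol F S r) :=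
      Finset.sum_nonneg fun r _ => ind_nonneg _
    positivity
  by_cases hlh : lo + 3 ≤ hi
  swap
  · have hzero : ∑ r : Perm (Fin n), ∑ a ∈ range (n + 1), ∑ x : Fin n, ∑ y : Fin n,
        ∑ s ∈ range (n + 1), ind (x ∉ P r H ∧ y ∉ P r H ∧ Vld F S lo r a x y s) = 0 := by
      refine Finset.sum_eq_zero fun r _ => Finset.sum_eq_zero fun a _ =>
        Finset.sum_eq_zero fun x _ => Finset.sum_eq_zero fun y _ =>
        Finset.sum_eq_zero fun s _ => ind_false ?_
      rintro ⟨-, -, g⟩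
      have := hL _ g.2.1.1
      omega
    rw [hzero, mul_zero]
    positivity
  have e0 : ∑ r : Perm (Fin n), ∑ a ∈ range (n + 1), ∑ x : Fin n, ∑ y : Fin n,
      ∑ s ∈ range (n + 1), ind (x ∉ P r H ∧ y ∉ P r H ∧ Vld F S lo r a x y s) =
      ∑ i : Fin n, ∑ i' : Fin n, ∑ s ∈ range (n + 1), ∑ r : Perm (Fin n), ∑ a ∈ range (n + 1),
        ind (r.symm i ∉ P r H ∧ r.symm i' ∉ P r H ∧
          Vld F S lo r a (r.symm i) (r.symm i') s) := by
    have e1 : ∀ (r : Perm (Fin n)) (a : ℕ), ∑ x : Fin n, ∑ y : Fin n,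
        ∑ s ∈ range (n + 1), ind (x ∉ P r H ∧ y ∉ P r H ∧ Vld F S lo r a x y s) =
        ∑ i : Fin n, ∑ i' : Fin n, ∑ s ∈ range (n + 1),
        ind (r.symm i ∉ P r H ∧ r.symm i' ∉ P r H ∧
          Vld F S lo r a (r.symm i) (r.symm i') s) := by
      intro r a
      rw [← Equiv.sum_comp r.symm]
      refine Finset.sum_congr rfl fun i _ => ?_
      rw [← Equiv.sum_comp r.symm]
    simp only [e1]
    -- now exchange the sums
    have e2 : ∀ r : Perm (Fin n), ∑ a ∈ range (n + 1), ∑ i : Fin n, ∑ i' : Fin n,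
        ∑ s ∈ range (n + 1), ind (r.symm i ∉ P r H ∧ r.symm i' ∉ P r H ∧
          Vld F S lo r a (r.symm i) (r.symm i') s) =
        ∑ i : Fin n, ∑ i' : Fin n, ∑ s ∈ range (n + 1), ∑ a ∈ range (n + 1),
          ind (r.symm i ∉ P r H ∧ r.symm i' ∉ P r H ∧
          Vld F S lo r a (r.symm i) (r.symm i') s) := by
      intro r
      rw [Finset.sum_comm]
      refine Finset.sum_congr rfl fun i _ => ?_
      rw [Finset.sum_comm]
      refine Finset.sum_congr rfl fun i' _ => ?_
      rw [Finset.sum_comm]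
    simp only [e2]
    rw [Finset.sum_comm]
    refine Finset.sum_congr rfl fun i _ => ?_
    rw [Finset.sum_comm]
    refine Finset.sum_congr rfl fun i' _ => ?_
    rw [Finset.sum_comm]
  rw [e0, Finset.mul_sum]
  calc ∑ i : Fin n, ((lo : ℝ) + 1) * ∑ i' : Fin n, ∑ s ∈ range (n + 1),
        ∑ r : Perm (Fin n), ∑ a ∈ range (n + 1),
        ind (r.symm i ∉ P r H ∧ r.symm i' ∉ P r H ∧
          Vld F S lo r a (r.symm i) (r.symm i') s)
      ≤ ∑ i : Fin n, ∑ i' : Fin n, (∑ r : Perm (Fin n), ind (Miss F r) +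
          (n : ℝ) ^ 2 * ∑ r : Perm (Fin n), ind (Pol F S r)) := by
        refine Finset.sum_le_sum fun i _ => ?_
        rw [Finset.mul_sum]
        exact Finset.sum_le_sum fun i' _ => C4.pair_le hL1 hL h1 h2 hlh i i'
    _ = _ := by
        simp only [Finset.sum_const, Finset.card_univ, Fintype.card_fin, nsmul_eq_mul]
        ring

end Pool.Agent.H710.KU
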