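import Pool.Agent.H710.KU.St

/-!
# KU TA (helper872 for helper710, MP_aadab9_co): moving the centre out of the window
-/

set_option autoImplicit false

namespace Pool.Agent.H710.KU

open Finset Equiv

namespace TA

variable {n : ℕ}

/-- the permutation `(cycleRange i)⁻¹ * r'` -/
def cr (i : Fin n) (r' : Perm (Fin n)) : Perm (Fin n) := (Fin.cycleRange i)⁻¹ * r'

theorem cycle_cr (i : Fin n) (r' : Perm (Fin n)) (e : Fin n) :
    Fin.cycleRange i (cr i r' e) = r' e := by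
  exact Equiv.apply_symm_apply (Fin.cycleRange i) (r' e)

theorem val_cr (i : Fin n) (r' : Perm (Fin n)) (e : Fin n) :
    ((cr i r' e : ℕ) < i ∧ (r' e : ℕ) = (cr i r' e : ℕ) + 1) ∨
    ((cr i r' e : ℕ) = i ∧ (r' e : ℕ) = 0) ∨
    ((i : ℕ) < (cr i r' e : ℕ) ∧ (r' e : ℕ) = (cr i r' e : ℕ)) := by
  have h := cycle_cr i r' e
  rcases lt_trichotomy (cr i r' e) i with h1 | h1 | h1
  · left
    refine ⟨h1, ?_⟩
    rw [← h, Fin.coe_cycleRange_of_lt h1]
  · right
    left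
    refine ⟨by rw [h1], ?_⟩
    rw [← h, Fin.coe_cycleRange_of_le h1.le, if_pos h1]
  · right
    right
    refine ⟨h1, ?_⟩
    rw [← h, Fin.cycleRange_of_gt h1]

theorem cr_zero (z : Fin n) (hz : (z : ℕ) = 0) (i : Fin n) (r' : Perm (Fin n)) :
    cr i r' (r'.symm z) = i := by
  apply Fin.ext
  have h := val_cr i r' (r'.symm z)
  rw [Equiv.apply_symm_apply, hz] at h
  omega

theorem symm_cr (z : Fin n) (hz : (z : ℕ) = 0) (i : Fin n) (r' : Perm (Fin n)) :
    (cr i r').symm i = r'.symm z := by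
  rw [Equiv.symm_apply_eq, cr_zero z hz]

theorem ne_iff (z : Fin n) (hz : (z : ℕ) = 0) (r' : Perm (Fin n)) (e : Fin n) :
    e ≠ r'.symm z ↔ (r' e : ℕ) ≠ 0 := by
  rw [Ne, Equiv.eq_symm_apply, Fin.ext_iff, hz]

theorem P_cr_le (z : Fin n) (hz : (z : ℕ) = 0) (i : Fin n) (r' : Perm (Fin n)) (k : ℕ)
    (hk : k ≤ (i : ℕ)) : P (cr i r') k = (P r' (k + 1)).erase (r'.symm z) := by
  ext e
  rw [mem_P, Finset.mem_erase, mem_P, ne_iff z hz]
  have h := val_cr i r' e
  omega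

theorem P_cr_gt (i : Fin n) (r' : Perm (Fin n)) (k : ℕ)
    (hk : (i : ℕ) < k) : P (cr i r') k = P r' k := by
  ext e
  rw [mem_P, mem_P]
  have h := val_cr i r' e
  omega

theorem zero_mem (z : Fin n) (hz : (z : ℕ) = 0) (r' : Perm (Fin n)) (k : ℕ) :
    r'.symm z ∈ P r' (k + 1) := by
  rw [mem_P, Equiv.apply_symm_apply, hz]
  omega

theorem insert_cr (z : Fin n) (hz : (z : ℕ) = 0) (i : Fin n) (r' : Perm (Fin n)) (c : ℕ)
    (hk : c ≤ (i : ℕ)) : insert (r'.symm z) (P (cr i r') c) = P r' (c + 1) := by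
  rw [P_cr_le z hz i r' c hk, Finset.insert_erase (zero_mem z hz r' c)]

theorem mem_iff {F : Fam n} {lo hi H : ℕ} (hL : Levels F lo hi) (hH : hi + 3 ≤ H)
    (hn : H + 2 ≤ n) (z : Fin n) (hz : (z : ℕ) = 0) (i : Fin n) (hi' : H ≤ (i : ℕ))
    (r' : Perm (Fin n)) (c : ℕ) :
    (insert (r'.symm z) (P (cr i r') c) ∈ F ↔ P r' (c + 1) ∈ F) ∧
    (P r' (c + 1) ∈ F → c ≤ (i : ℕ) ∧ insert (r'.symm z) (P (cr i r') c) = P r' (c + 1)) := by
  have h2 : P r' (c + 1) ∈ F → c ≤ (i : ℕ) ∧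
      insert (r'.symm z) (P (cr i r') c) = P r' (c + 1) := by
    intro h
    have h1 := hit_level hL (by omega) h
    have h3 : c ≤ (i : ℕ) := by omega
    exact ⟨h3, insert_cr z hz i r' c h3⟩
  refine ⟨⟨fun h => ?_, fun h => ?_⟩, h2⟩
  · by_cases hc : c ≤ (i : ℕ)
    · rwa [insert_cr z hz i r' c hc] at h
    · exfalso
      have h3 := (hL _ h).2
      have h4 : (P (cr i r') c).card ≤ (insert (r'.symm z) (P (cr i r') c)).card :=
        Finset.card_le_card (Finset.subset_insert _ _)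
      rw [card_P'] at h4
      omega
  · rw [(h2 h).2]
    exact h

/-- the condition in terms of `r'` -/
def AA (F : Fam n) (S : Cen n) (z : Fin n) (r' : Perm (Fin n)) (a k : ℕ) : Prop :=
  (P r' (a + 1)).erase (r'.symm z) ∈ F ∧ (∀ j < a, (P r' (j + 1)).erase (r'.symm z) ∉ F) ∧
    P r' k ∈ F ∧ S (P r' k) = some (r'.symm z)

theorem low_cr (F : Fam n) (z : Fin n) (hz : (z : ℕ) = 0) (i : Fin n) (r' : Perm (Fin n)) (a : ℕ)
    (ha : a ≤ (i : ℕ)) : Low F (cr i r') a ↔ (P r' (a + 1)).erase (r'.symm z) ∈ F ∧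
      (∀ j < a, (P r' (j + 1)).erase (r'.symm z) ∉ F) := by
  unfold Low
  rw [P_cr_le z hz i r' a ha]
  constructor
  · rintro ⟨h1, h2⟩
    refine ⟨h1, fun j hj => ?_⟩
    rw [← P_cr_le z hz i r' j (by omega)]
    exact h2 j hj
  · rintro ⟨h1, h2⟩
    refine ⟨h1, fun j hj => ?_⟩
    rw [P_cr_le z hz i r' j (by omega)]
    exact h2 j hj

theorem sum_ind_unique (p : Fin n → Prop) (i0 : Fin n) (h : ∀ i, i ≠ i0 → ¬ p i) :
    ∑ i, ind (p i) = ind (p i0) :=
  Finset.sum_eq_single i0 (fun i _ hi => ind_false (h i hi))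
    (fun h => absurd (Finset.mem_univ _) h)

/-- splitting according to the position of the centre -/
theorem split_centre (F : Fam n) (S : Cen n) (hS : CenOK S) (r : Perm (Fin n)) (a k : ℕ) :
    ind (Low F r a ∧ P r k ∈ F ∧ ∃ x, S (P r k) = some x ∧ x ∉ P r a) =
      ∑ i : Fin n, ind ((Low F r a ∧ P r k ∈ F ∧ S (P r k) = some (r.symm i)) ∧
        (a ≤ (i : ℕ) ∧ (i : ℕ) < k)) := by
  by_cases h : Low F r a ∧ P r k ∈ F ∧ ∃ x, S (P r k) = some x ∧ x ∉ P r a
  · obtain ⟨h1, h2, x, h3, h4⟩ := h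
    rw [ind_true ⟨h1, h2, x, h3, h4⟩, sum_ind_unique _ (r x), ind_true]
    · refine ⟨⟨h1, h2, ?_⟩, ?_, ?_⟩
      · rw [Equiv.symm_apply_apply]
        exact h3
      · rw [mem_P] at h4
        omega
      · exact mem_P.1 (hS _ _ h3)
    · rintro i hi ⟨⟨_, _, h5⟩, _⟩
      rw [h3, Option.some_inj] at h5
      apply hi
      rw [h5, Equiv.apply_symm_apply]
  · rw [ind_false h]
    symm
    apply Finset.sum_eq_zero
    rintro i -
    apply ind_false
    rintro ⟨⟨h1, h2, h3⟩, h4, _⟩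
    refine h ⟨h1, h2, _, h3, ?_⟩
    rw [mem_P, Equiv.apply_symm_apply]
    omega

theorem count_Ico (a k : ℕ) (hk : k ≤ n) :
    ∑ i : Fin n, ind (a ≤ (i : ℕ) ∧ (i : ℕ) < k) = ((k - a : ℕ) : ℝ) := by
  have h : ∀ i : Fin n, ind (a ≤ (i : ℕ) ∧ (i : ℕ) < k) =
      if (i : ℕ) ∈ Finset.Ico a k then (1 : ℝ) else 0 := by
    intro i
    by_cases h : a ≤ (i : ℕ) ∧ (i : ℕ) < k
    · rw [ind_true h, if_pos (Finset.mem_Ico.2 h)]
    · rw [ind_false h, if_neg (fun h' => h (Finset.mem_Ico.1 h'))]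
  rw [Finset.sum_congr rfl (fun i _ => h i),
    Fin.sum_univ_eq_sum_range (fun j => if j ∈ Finset.Ico a k then (1 : ℝ) else 0) n,
    Finset.sum_ite_mem, Finset.sum_const, nsmul_eq_mul, mul_one]
  congr 1
  have : Finset.range n ∩ Finset.Ico a k = Finset.Ico a k := by
    apply Finset.inter_eq_right.2
    intro j hj
    rw [Finset.mem_Ico] at hj
    rw [Finset.mem_range]
    omega
  rw [this, Nat.card_Ico]

theorem count_ge (H : ℕ) (hH : H ≤ n) :
    ∑ i : Fin n, ind (H ≤ (i : ℕ)) = (n : ℝ) - H := by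
  have h : ∀ i : Fin n, ind (H ≤ (i : ℕ)) = ind (H ≤ (i : ℕ) ∧ (i : ℕ) < n) := by
    intro i
    exact ind_congr ⟨fun h => ⟨h, i.2⟩, fun h => h.1⟩
  rw [Finset.sum_congr rfl (fun i _ => h i), count_Ico H n le_rfl, Nat.cast_sub hH]

/-- substitution of the positions -/
theorem sum_cr (i : Fin n) (f : Perm (Fin n) → ℝ) : ∑ r, f r = ∑ r', f (cr i r') :=
  (sum_mul_left (Fin.cycleRange i)⁻¹ f).symm

/-- sums over `x` at positions `≥ H` -/
theorem sum_outside (H : ℕ) (hH : H ≤ n) (z : Fin n) (hz : (z : ℕ) = 0)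
    (f : Perm (Fin n) → Fin n → ℝ) (g : Perm (Fin n) → ℝ)
    (hf0 : ∀ r x, x ∈ P r H → f r x = 0)
    (hfg : ∀ (i : Fin n), H ≤ (i : ℕ) → ∀ r', f (cr i r') (r'.symm z) = g r') :
    ∑ r, ∑ x, f r x = ((n : ℝ) - H) * ∑ r', g r' := by
  have h1 : ∀ r : Perm (Fin n), ∑ x, f r x = ∑ i, f r (r.symm i) := by
    intro r
    exact (Fintype.sum_equiv r.symm _ _ (fun _ => rfl)).symm
  rw [Finset.sum_congr rfl (fun r _ => h1 r), Finset.sum_comm]
  have h2 : ∀ i : Fin n, ∑ r : Perm (Fin n), f r (r.symm i) =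
      ind (H ≤ (i : ℕ)) * ∑ r', g r' := by
    intro i
    by_cases hi : H ≤ (i : ℕ)
    · rw [ind_true hi, one_mul, sum_cr i]
      apply Finset.sum_congr rfl
      intro r' _
      rw [symm_cr z hz]
      exact hfg i hi r'
    · rw [ind_false hi, zero_mul]
      apply Finset.sum_eq_zero
      intro r _
      apply hf0
      rw [mem_P, Equiv.apply_symm_apply]
      omega
  rw [Finset.sum_congr rfl (fun i _ => h2 i), ← Finset.sum_mul, count_ge H hH]

end TA

open TA in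
theorem ta : S_TA := by
  intro n F S lo hi H g hL hH hn hS
  let z : Fin n := ⟨0, by omega⟩
  have hz : (z : ℕ) = 0 := rfl
  have hL' : ∀ (r : Perm (Fin n)) (k : ℕ), P r k ∈ F → lo + 3 ≤ k ∧ k ≤ hi :=
    fun r k h => hit_level hL (by omega) h
  -- the common value
  have hR : ∑ r : Perm (Fin n), ∑ a ∈ range (n + 1), ∑ c ∈ range (n + 1), ∑ x : Fin n,
      g a (c + 1) * ((c : ℝ) - a + 1) * ind (Low F r a ∧ CX F S r H a c x) =
      ((n : ℝ) - H) * ∑ r' : Perm (Fin n), ∑ a ∈ range (n + 1), ∑ c ∈ range (n + 1),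
        g a (c + 1) * ((c : ℝ) - a + 1) * ind (a ≤ c ∧ AA F S z r' a (c + 1)) := by
    have e1 : ∀ r : Perm (Fin n), ∑ a ∈ range (n + 1), ∑ c ∈ range (n + 1), ∑ x : Fin n,
        g a (c + 1) * ((c : ℝ) - a + 1) * ind (Low F r a ∧ CX F S r H a c x) =
        ∑ x : Fin n, ∑ a ∈ range (n + 1), ∑ c ∈ range (n + 1),
        g a (c + 1) * ((c : ℝ) - a + 1) * ind (Low F r a ∧ CX F S r H a c x) := by
      intro r
      rw [Finset.sum_comm]
      have : ∀ a ∈ range (n + 1), ∑ c ∈ range (n + 1), ∑ x : Fin n,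
          g a (c + 1) * ((c : ℝ) - a + 1) * ind (Low F r a ∧ CX F S r H a c x) =
          ∑ x : Fin n, ∑ c ∈ range (n + 1),
          g a (c + 1) * ((c : ℝ) - a + 1) * ind (Low F r a ∧ CX F S r H a c x) :=
        fun a _ => Finset.sum_comm
      rw [Finset.sum_comm, Finset.sum_congr rfl this, Finset.sum_comm]
    rw [Finset.sum_congr rfl (fun r _ => e1 r)]
    apply sum_outside H (by omega) z hz
    · intro r x hx
      apply Finset.sum_eq_zero
      intro a _
      apply Finset.sum_eq_zero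
      intro c _
      rw [ind_false, mul_zero]
      rintro ⟨_, _, h, _⟩
      exact h hx
    · intro i hi' r'
      apply Finset.sum_congr rfl
      intro a _
      apply Finset.sum_congr rfl
      intro c _
      congr 1
      apply ind_congr
      obtain ⟨m1, m2⟩ := mem_iff hL hH hn z hz i hi' r' c
      constructor
      · rintro ⟨h1, h2, h3, h4, h5⟩
        have h6 := m1.1 h4
        have h7 := m2 h6
        rw [h7.2] at h5
        rw [low_cr F z hz i r' a (by omega)] at h1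
        exact ⟨h2, h1.1, h1.2, h6, h5⟩
      · rintro ⟨h2, h1, h1', h4, h5⟩
        have h7 := m2 h4
        refine ⟨(low_cr F z hz i r' a (by omega)).2 ⟨h1, h1'⟩, h2, ?_, m1.2 h4, ?_⟩
        · rw [mem_P, cr_zero z hz]
          omega
        · rw [h7.2]
          exact h5
  rw [hR]
  congr 1
  have e1 : ∀ r : Perm (Fin n), ∑ a ∈ range (n + 1), ∑ k ∈ range (n + 1),
      g a k * ind (Low F r a ∧ P r k ∈ F ∧ ∃ x, S (P r k) = some x ∧ x ∉ P r a) =
      ∑ i : Fin n, ∑ a ∈ range (n + 1), ∑ k ∈ range (n + 1),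
      g a k * ind ((Low F r a ∧ P r k ∈ F ∧ S (P r k) = some (r.symm i)) ∧
        (a ≤ (i : ℕ) ∧ (i : ℕ) < k)) := by
    intro r
    rw [Finset.sum_comm]
    have : ∀ k ∈ range (n + 1), ∑ a ∈ range (n + 1),
        g a k * ind (Low F r a ∧ P r k ∈ F ∧ ∃ x, S (P r k) = some x ∧ x ∉ P r a) =
        ∑ i : Fin n, ∑ a ∈ range (n + 1),
        g a k * ind ((Low F r a ∧ P r k ∈ F ∧ S (P r k) = some (r.symm i)) ∧
          (a ≤ (i : ℕ) ∧ (i : ℕ) < k)) := by
      intro k _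
      rw [Finset.sum_comm]
      apply Finset.sum_congr rfl
      intro a _
      rw [split_centre F S hS, Finset.mul_sum]
    rw [Finset.sum_congr rfl this, Finset.sum_comm]
    apply Finset.sum_congr rfl
    intro i _
    exact Finset.sum_comm
  rw [Finset.sum_congr rfl (fun r _ => e1 r), Finset.sum_comm]
  have e2 : ∀ i : Fin n, ∑ r : Perm (Fin n), ∑ a ∈ range (n + 1), ∑ k ∈ range (n + 1),
      g a k * ind ((Low F r a ∧ P r k ∈ F ∧ S (P r k) = some (r.symm i)) ∧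
        (a ≤ (i : ℕ) ∧ (i : ℕ) < k)) =
      ∑ r' : Perm (Fin n), ∑ a ∈ range (n + 1), ∑ k ∈ range (n + 1),
      g a k * (ind (AA F S z r' a k) * ind (a ≤ (i : ℕ) ∧ (i : ℕ) < k)) := by
    intro i
    rw [sum_cr i]
    apply Finset.sum_congr rfl
    intro r' _
    apply Finset.sum_congr rfl
    intro a _
    apply Finset.sum_congr rfl
    intro k _
    rw [← ind_and]
    congr 1
    apply ind_congr
    by_cases h : a ≤ (i : ℕ) ∧ (i : ℕ) < k
    · rw [low_cr F z hz i r' a h.1, P_cr_gt i r' k h.2, symm_cr z hz]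
      unfold AA
      tauto
    · constructor
      · rintro ⟨_, h'⟩
        exact absurd h' h
      · rintro ⟨_, h'⟩
        exact absurd h' h
  rw [Finset.sum_congr rfl (fun i _ => e2 i), Finset.sum_comm]
  apply Finset.sum_congr rfl
  intro r' _
  rw [Finset.sum_comm]
  apply Finset.sum_congr rfl
  intro a _
  rw [Finset.sum_comm]
  have e3 : ∀ k ∈ range (n + 1), ∑ i : Fin n,
      g a k * (ind (AA F S z r' a k) * ind (a ≤ (i : ℕ) ∧ (i : ℕ) < k)) =
      g a k * (ind (AA F S z r' a k) * ((k - a : ℕ) : ℝ)) := by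
    intro k hk
    rw [← Finset.mul_sum, ← Finset.mul_sum, count_Ico a k (by
      have := Finset.mem_range.1 hk
      omega)]
  rw [Finset.sum_congr rfl e3, Finset.sum_range_succ', Finset.sum_range_succ]
  have e4 : g a 0 * (ind (AA F S z r' a 0) * ((0 - a : ℕ) : ℝ)) = 0 := by
    rw [Nat.zero_sub, Nat.cast_zero, mul_zero, mul_zero]
  have e5 : g a (n + 1) * ((n : ℝ) - a + 1) * ind (a ≤ n ∧ AA F S z r' a (n + 1)) = 0 := by
    rw [ind_false, mul_zero]
    rintro ⟨_, _, _, h, _⟩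
    have := hL' r' _ h
    omega
  rw [e4, e5, add_zero, add_zero]
  apply Finset.sum_congr rfl
  intro c _
  by_cases hac : a ≤ c
  · have e6 : ((c + 1 - a : ℕ) : ℝ) = (c : ℝ) - a + 1 := by
      rw [Nat.cast_sub (by omega)]
      push_cast
      ring
    have e7 : ind (a ≤ c ∧ AA F S z r' a (c + 1)) = ind (AA F S z r' a (c + 1)) :=
      ind_congr ⟨fun h => h.2, fun h => ⟨hac, h⟩⟩
    rw [e6, e7]
    ring
  · have e7 : ind (a ≤ c ∧ AA F S z r' a (c + 1)) = 0 := ind_false (fun h => hac h.1)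
    have e8 : c + 1 - a = 0 := by omega
    rw [e7, e8, Nat.cast_zero, mul_zero, mul_zero, mul_zero]

end Pool.Agent.H710.KU
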