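import Pool.Agent.H710.KU.St
import Pool.Agent.H710.KU.TA

/-!
# KU C5 (helper872 for helper710, MP_aadab9_co): exchange argument for centres
-/

set_option autoImplicit false

namespace Pool.Agent.H710.KU

open Finset Equiv

namespace C5

variable {n : ℕ}

theorem P_swap (z j : Fin n) (hz : (z : ℕ) = 0) (r : Perm (Fin n)) (k : ℕ) (hk : (j : ℕ) < k) :
    P (swap z j * r) k = P r k := by
  ext e
  rw [mem_P, mem_P]
  show ((swap z j (r e) : Fin n) : ℕ) < k ↔ _
  rcases eq_or_ne (r e) z with h | h
  · rw [h, swap_apply_left]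
    constructor <;> intro _ <;> omega
  · rcases eq_or_ne (r e) j with h' | h'
    · rw [h', swap_apply_right]
      constructor <;> intro _ <;> omega
    · rw [swap_apply_of_ne_of_ne h h']

theorem symm_swap (z j : Fin n) (r : Perm (Fin n)) : (swap z j * r).symm z = r.symm j := by
  rw [Equiv.symm_apply_eq]
  show z = swap z j (r (r.symm j))
  rw [Equiv.apply_symm_apply, swap_apply_right]

theorem sum_centre_le (S : Cen n) (C : Finset (Fin n)) (q : Prop) (r : Perm (Fin n)) :
    ∑ j : Fin n, ind (q ∧ S C = some (r.symm j)) ≤ ind q := by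
  by_cases hq : q
  · rw [ind_true hq]
    by_cases h : ∃ x, S C = some x
    · obtain ⟨x, hx⟩ := h
      rw [TA.sum_ind_unique _ (r x)]
      · exact ind_le_one _
      · rintro i hi ⟨_, h⟩
        rw [hx, Option.some_inj] at h
        apply hi
        rw [h, Equiv.apply_symm_apply]
    · rw [Finset.sum_eq_zero]
      · exact zero_le_one
      · intro j _
        exact ind_false (fun h' => h ⟨_, h'.2⟩)
  · rw [Finset.sum_eq_zero]
    · exact ind_nonneg _
    · intro j _
      exact ind_false (fun h' => hq h'.1)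

end C5

open C5 TA in
theorem c5 : S_C5 := by
  intro n F S lo hi H f hL hH hn hf
  let z : Fin n := ⟨0, by omega⟩
  have hz : (z : ℕ) = 0 := rfl
  have hL' : ∀ (r : Perm (Fin n)) (k : ℕ), P r k ∈ F → lo + 3 ≤ k ∧ k ≤ hi :=
    fun r k h => hit_level hL (by omega) h
  have hR : ∑ r : Perm (Fin n), ∑ c ∈ range (n + 1), ∑ x : Fin n,
      f (c + 1) * ind (CX F S r H 0 c x) =
      ((n : ℝ) - H) * ∑ r' : Perm (Fin n), ∑ c ∈ range (n + 1),
        f (c + 1) * ind (P r' (c + 1) ∈ F ∧ S (P r' (c + 1)) = some (r'.symm z)) := by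
    have e1 : ∀ r : Perm (Fin n), ∑ c ∈ range (n + 1), ∑ x : Fin n,
        f (c + 1) * ind (CX F S r H 0 c x) =
        ∑ x : Fin n, ∑ c ∈ range (n + 1), f (c + 1) * ind (CX F S r H 0 c x) :=
      fun r => Finset.sum_comm
    rw [Finset.sum_congr rfl (fun r _ => e1 r)]
    apply sum_outside H (by omega) z hz
    · intro r x hx
      apply Finset.sum_eq_zero
      intro c _
      rw [ind_false, mul_zero]
      rintro ⟨_, h, _⟩
      exact h hx
    · intro i hi' r'
      apply Finset.sum_congr rfl
      intro c _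
      congr 1
      apply ind_congr
      obtain ⟨m1, m2⟩ := mem_iff hL hH hn z hz i hi' r' c
      constructor
      · rintro ⟨h2, h3, h4, h5⟩
        have h6 := m1.1 h4
        have h7 := m2 h6
        rw [h7.2] at h5
        exact ⟨h6, h5⟩
      · rintro ⟨h4, h5⟩
        have h7 := m2 h4
        refine ⟨Nat.zero_le _, ?_, m1.2 h4, ?_⟩
        · rw [mem_P, cr_zero z hz]
          omega
        · rw [h7.2]
          exact h5
  rw [hR, mul_left_comm]
  apply mul_le_mul_of_nonneg_left
  swap
  · have : (H : ℝ) ≤ n := by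
      have : H ≤ n := by omega
      exact_mod_cast this
    linarith
  -- shift
  have hshift : ∑ r : Perm (Fin n), ∑ c ∈ range (n + 1), f (c + 1) * ind (P r (c + 1) ∈ F) ≤
      ∑ r : Perm (Fin n), ∑ k ∈ range (n + 1), f k * ind (P r k ∈ F) := by
    apply Finset.sum_le_sum
    intro r _
    rw [Finset.sum_range_succ' (fun k => f k * ind (P r k ∈ F)), Finset.sum_range_succ]
    have e5 : f (n + 1) * ind (P r (n + 1) ∈ F) = 0 := by
      rw [ind_false, mul_zero]
      intro h
      have := hL' r _ h
      omega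
    rw [e5]
    have := mul_nonneg (hf 0) (ind_nonneg (P r 0 ∈ F))
    linarith
  refine le_trans ?_ hshift
  by_cases hlo : lo + 1 ≤ n
  · have hj : ∀ j : Fin n, ind ((0 : ℕ) ≤ (j : ℕ) ∧ (j : ℕ) < lo + 1) *
        ∑ r' : Perm (Fin n), ∑ c ∈ range (n + 1),
          f (c + 1) * ind (P r' (c + 1) ∈ F ∧ S (P r' (c + 1)) = some (r'.symm z)) ≤
        ∑ r' : Perm (Fin n), ∑ c ∈ range (n + 1),
          f (c + 1) * ind (P r' (c + 1) ∈ F ∧ S (P r' (c + 1)) = some (r'.symm j)) := by
      intro j
      by_cases hjlo : (0 : ℕ) ≤ (j : ℕ) ∧ (j : ℕ) < lo + 1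
      · rw [ind_true hjlo, one_mul]
        apply le_of_eq
        rw [← sum_mul_left (swap z j) (fun r' => ∑ c ∈ range (n + 1),
          f (c + 1) * ind (P r' (c + 1) ∈ F ∧ S (P r' (c + 1)) = some (r'.symm z)))]
        apply Finset.sum_congr rfl
        intro r' _
        apply Finset.sum_congr rfl
        intro c _
        congr 1
        apply ind_congr
        rw [symm_swap]
        by_cases hc : (j : ℕ) < c + 1
        · rw [P_swap z j hz r' (c + 1) hc]
        · constructor
          · rintro ⟨h, _⟩
            have := hL' _ _ h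
            omega
          · rintro ⟨h, _⟩
            have := hL' _ _ h
            omega
      · rw [ind_false hjlo, zero_mul]
        apply Finset.sum_nonneg
        intro r' _
        apply Finset.sum_nonneg
        intro c _
        exact mul_nonneg (hf _) (ind_nonneg _)
    have hsum := Finset.sum_le_sum (s := Finset.univ) (fun j _ => hj j)
    rw [← Finset.sum_mul, count_Ico 0 (lo + 1) hlo] at hsum
    have e6 : ((lo + 1 - 0 : ℕ) : ℝ) = (lo : ℝ) + 1 := by
      rw [Nat.sub_zero]
      push_cast
      ring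
    rw [e6] at hsum
    refine hsum.trans ?_
    rw [Finset.sum_comm]
    apply Finset.sum_le_sum
    intro r' _
    rw [Finset.sum_comm]
    apply Finset.sum_le_sum
    intro c _
    rw [← Finset.mul_sum]
    apply mul_le_mul_of_nonneg_left _ (hf _)
    exact sum_centre_le S _ _ r'
  · have e0 : ∑ r' : Perm (Fin n), ∑ c ∈ range (n + 1),
        f (c + 1) * ind (P r' (c + 1) ∈ F ∧ S (P r' (c + 1)) = some (r'.symm z)) = 0 := by
      apply Finset.sum_eq_zero
      intro r' _
      apply Finset.sum_eq_zero
      intro c _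
      rw [ind_false, mul_zero]
      rintro ⟨h, _⟩
      have := hL' _ _ h
      omega
    rw [e0, mul_zero]
    apply Finset.sum_nonneg
    intro r' _
    apply Finset.sum_nonneg
    intro c _
    exact mul_nonneg (hf _) (ind_nonneg _)

end Pool.Agent.H710.KU
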