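import Pool.Agent.H710.KU.St

/-!
KU, part CL: the dichotomy for intersecting up-sets, and the good centre assignments.
-/

set_option autoImplicit false

namespace Pool.Agent.H710.KU

open Finset Equiv

namespace CL

variable {n : ℕ}

theorem Ex_zero (G : Finset (Fin n)) (f : Finset (Fin n) → ℝ) : Ex (fun _ => 0) G f = f ∅ := by
  induction G using Finset.induction_on generalizing f with
  | empty => exact Ex_empty _ _
  | insert x G hx ih => rw [Ex_insert _ hx, ih]; ring

theorem not_empty {U : Finset (Fin n) → Prop} (hI : Isec U) : ¬ U ∅ := by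
  intro h
  obtain ⟨y, hy⟩ := hI ∅ ∅ h h
  simp at hy

/-- monotonicity in a constant bias -/
theorem mono_p (h1 : S_A1) {p p' : ℝ} (hp : 0 ≤ p) (hpp : p ≤ p') (hp' : p' ≤ 1)
    (G : Finset (Fin n)) (f : Finset (Fin n) → ℝ) (hf : ∀ D D', D ⊆ D' → f D ≤ f D') :
    Ex (fun _ => p) G f ≤ Ex (fun _ => p') G f :=
  h1 n _ _ G f (fun _ => hp) (fun _ => hpp) (fun _ => hp') hf

/-- the first case -/
theorem case1 (h1 : S_A1) (h6 : S_A6) {b : ℕ} {q : ℝ} (hq : 0 < q) (hq0 : q ≤ Real.exp (-4) / 9)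
    {U : Finset (Fin n) → Prop} {G : Finset (Fin n)} (hU : Up U) (hI : Isec U) {p : ℝ}
    (hp : 0 < p) (hpq : p ≤ 3 * q) {x : Fin n}
    (hl : 8 * (b : ℝ) * p ≤ Ex (fun _ => p) G (fun D => ind (U (insert x D)))) :
    Ex (fun _ => q) G (fun D => ind (U (D.erase x))) ≤ q ^ b := by
  have he4 : Real.exp (-4) ≤ 1 := Real.exp_le_one_iff.2 (by norm_num)
  have hq9 : 9 * q ≤ 1 := by linarith
  obtain ⟨L, hL⟩ : ∃ L : ℝ, L = -Real.log (3 * q) := ⟨_, rfl⟩
  have h3q : 0 < 3 * q := by linarith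
  have hexp : Real.exp (-L) = 3 * q := by rw [hL, neg_neg, Real.exp_log h3q]
  have hL4 : 4 ≤ L := by
    have : Real.exp (-L) ≤ Real.exp (-4) := by rw [hexp]; linarith
    have := Real.exp_le_exp.1 this
    linarith
  obtain ⟨M, hM⟩ : ∃ M : ℕ, M = ⌊L / (2 * p)⌋₊ := ⟨_, rfl⟩
  have hp2 : p ≤ 1 / 2 := by linarith
  have hM1 : (M : ℝ) * (2 * p) ≤ L := by
    have : (M : ℝ) ≤ L / (2 * p) := by
      rw [hM]; exact Nat.floor_le (by positivity)
    rwa [le_div_iff₀ (by positivity)] at this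
  have hM2 : L / 4 ≤ p * M := by
    have : L / (2 * p) < M + 1 := by rw [hM]; exact Nat.lt_floor_add_one _
    rw [div_lt_iff₀ (by positivity)] at this
    nlinarith
  have hpw : 3 * q ≤ (1 - p) ^ M := by
    have g1 : Real.exp (-(2 * p)) ≤ 1 - p := by
      rw [Real.exp_neg, inv_le_comm₀ (Real.exp_pos _) (by linarith)]
      have g2 := Real.add_one_le_exp (2 * p)
      refine le_trans ?_ g2
      rw [inv_le_iff_one_le_mul₀ (by linarith)]
      nlinarith
    calc 3 * q = Real.exp (-L) := hexp.symm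
      _ ≤ Real.exp (-(M * (2 * p))) := Real.exp_le_exp.2 (by linarith)
      _ = (Real.exp (-(2 * p))) ^ M := by rw [← Real.exp_nat_mul]; congr 1; ring
      _ ≤ (1 - p) ^ M := pow_le_pow_left₀ (Real.exp_pos _).le g1 M
  have g6 := h6 n U G p (3 * q) M x hU hI hp.le (by linarith) h3q.le hpw
  have hle1 : Ex (fun _ => p) G (fun D => ind (U (insert x D))) ≤ 1 :=
    Ex_le_one (fun _ => hp.le) (fun _ => by linarith) fun D _ => ind_le_one _
  have g7 : (1 - Ex (fun _ => p) G (fun D => ind (U (insert x D)))) ^ M ≤ q ^ b := by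
    have a1 : 1 - Ex (fun _ => p) G (fun D => ind (U (insert x D))) ≤
        Real.exp (-(8 * (b : ℝ) * p)) := by
      have := Real.add_one_le_exp (-(8 * (b : ℝ) * p))
      linarith
    calc (1 - Ex (fun _ => p) G (fun D => ind (U (insert x D)))) ^ M
        ≤ (Real.exp (-(8 * (b : ℝ) * p))) ^ M := pow_le_pow_left₀ (by linarith) a1 M
      _ = Real.exp (-(8 * b * (p * M))) := by rw [← Real.exp_nat_mul]; congr 1; ring
      _ ≤ Real.exp (((2 * b : ℕ) : ℝ) * (-L)) := by
          apply Real.exp_le_exp.2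
          push_cast
          have hb : (0 : ℝ) ≤ b := Nat.cast_nonneg b
          nlinarith [mul_le_mul_of_nonneg_left hM2 (by positivity : (0 : ℝ) ≤ 8 * b)]
      _ = (3 * q) ^ (2 * b) := by rw [Real.exp_nat_mul, hexp]
      _ = (9 * q * q) ^ b := by rw [pow_mul]; congr 1; ring
      _ ≤ q ^ b := by
          apply pow_le_pow_left₀ (by positivity)
          nlinarith
  refine (mono_p h1 hq.le (by linarith : q ≤ 3 * q) (by linarith) G _ ?_).trans (g6.trans g7)
  intro D D' h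
  exact ind_mono (hU _ _ (Finset.erase_subset_erase x h))

/-- the sequence of the biases -/
noncomputable def ps (p : ℝ) : ℕ → ℝ
  | 0 => 2 * p
  | k + 1 => ps p k * (1 - ps p k)

theorem ps_bd {p : ℝ} (hp : 0 < p) (hp6 : p ≤ 1 / 6) (k : ℕ) (hk : 4 * (k : ℝ) * p ≤ 1) :
    p ≤ ps p k ∧ ps p k ≤ 2 * p ∧ (ps p k)⁻¹ ≤ (2 * p)⁻¹ + 2 * k := by
  induction k with
  | zero =>
    refine ⟨?_, ?_, ?_⟩
    · show p ≤ 2 * p
      linarith
    · exact le_refl (2 * p)
    · show (2 * p)⁻¹ ≤ _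
      simp
  | succ k ih =>
    push_cast at hk
    obtain ⟨h1, h2, h3⟩ := ih (by nlinarith)
    have h0 : 0 < ps p k := by linarith
    have h4 : 0 < 1 - ps p k := by linarith
    have h5 : ps p (k + 1) = ps p k * (1 - ps p k) := rfl
    have h6 : 0 < ps p (k + 1) := by rw [h5]; positivity
    have h7 : (ps p (k + 1))⁻¹ ≤ (2 * p)⁻¹ + 2 * ((k + 1 : ℕ) : ℝ) := by
      have e : (ps p (k + 1))⁻¹ = (ps p k)⁻¹ + (1 - ps p k)⁻¹ := by
        rw [h5]
        field_simp
        ring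
      have e2 : (1 - ps p k)⁻¹ ≤ 2 := by
        rw [inv_le_comm₀ h4 (by norm_num)]
        linarith
      rw [e]
      push_cast
      linarith
    refine ⟨?_, ?_, h7⟩
    · have e3 : (ps p (k + 1))⁻¹ ≤ p⁻¹ := by
        refine h7.trans ?_
        have e4 : (2 * p)⁻¹ = p⁻¹ / 2 := by rw [mul_inv]; ring
        have e5 : 2 * ((k + 1 : ℕ) : ℝ) ≤ p⁻¹ / 2 := by
          rw [le_div_iff₀ (by norm_num), ← one_div, le_div_iff₀ hp]
          push_cast
          linarith
        rw [e4]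
        linarith
      exact (inv_le_inv₀ h6 hp).1 e3
    · rw [h5]
      nlinarith

/-- the second case -/
theorem case2 (h1 : S_A1) (h5 : S_A5) {κ : ℝ} (hκ : 0 < κ) {q : ℝ} (hq6 : q ≤ 1 / 6)
    {U : Finset (Fin n) → Prop} {G : Finset (Fin n)} (hU : Up U) (hI : Isec U)
    (hl : ∀ p : ℝ, 0 < p → p ≤ 3 * q → ∀ x ∈ G,
      Ex (fun _ => p) G (fun D => ind (U (insert x D))) ≤ κ * p) {p : ℝ} (hp : 0 < p) (hpq : p ≤ q) :
    Ex (fun _ => p) G (fun D => ind (U D)) ≤ 24 * κ * p ^ 2 := by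
  have hp6 : p ≤ 1 / 6 := hpq.trans hq6
  obtain ⟨m, hm⟩ : ∃ m : ℝ, m = 3 * κ * p := ⟨_, rfl⟩
  have hm0 : 0 < m := by rw [hm]; positivity
  have step : ∀ k : ℕ, 4 * (k : ℝ) * p ≤ 1 →
      (Ex (fun _ => ps p k) G (fun D => ind (U D))) ^ 2 ≤
        m * (Ex (fun _ => ps p k) G (fun D => ind (U D)) -
          Ex (fun _ => ps p (k + 1)) G (fun D => ind (U D))) := by
    intro k hk
    obtain ⟨b1, b2, -⟩ := ps_bd hp hp6 k hk
    refine h5 n U G (ps p k) m hU hI (by linarith) (by linarith) hm0.le fun x hx => ?_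
    have g1 : 2 / 3 ≤ 1 - ps p k + ps p k ^ 2 := by nlinarith
    have g2 : ps p k / (1 - ps p k + ps p k ^ 2) ≤ 3 * p := by
      rw [div_le_iff₀ (by linarith)]
      nlinarith
    have g3 : 0 < ps p k / (1 - ps p k + ps p k ^ 2) := div_pos (by linarith) (by linarith)
    refine (hl _ g3 (by linarith) x hx).trans ?_
    rw [hm]
    nlinarith [mul_le_mul_of_nonneg_left g2 hκ.le]
  have key : ∀ k : ℕ, 4 * (k : ℝ) * p ≤ 1 → (k : ℝ) * Ex (fun _ => ps p k) G (fun D => ind (U D)) ≤ m := by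
    intro k
    induction k with
    | zero => intro _; rw [Nat.cast_zero, zero_mul]; exact hm0.le
    | succ k ih =>
      intro hk
      push_cast at hk
      have hk' : 4 * (k : ℝ) * p ≤ 1 := by nlinarith
      have i1 := ih hk'
      have i2 := step k hk'
      obtain ⟨b1, b2, -⟩ := ps_bd hp hp6 k hk'
      have i3 : 0 ≤ Ex (fun _ => ps p k) G (fun D => ind (U D)) :=
        Ex_nonneg (fun _ => by linarith) (fun _ => by linarith) fun D _ => ind_nonneg _
      set μ := Ex (fun _ => ps p k) G (fun D => ind (U D)) with hμ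
      set μ' := Ex (fun _ => ps p (k + 1)) G (fun D => ind (U D)) with hμ'
      have hk0 : (0 : ℝ) ≤ k := Nat.cast_nonneg k
      have i4 : ((k : ℝ) * μ + μ) * (m - μ) ≤ m ^ 2 := by
        rcases le_total μ m with h | h
        · nlinarith
        · have : ((k : ℝ) * μ + μ) * (m - μ) ≤ 0 :=
            mul_nonpos_of_nonneg_of_nonpos (by positivity) (by linarith)
          nlinarith
      have i5 : m * (((k + 1 : ℕ) : ℝ) * μ') ≤ m * m := by
        push_cast
        have : ((k : ℝ) + 1) * (m * μ') ≤ ((k : ℝ) + 1) * (m * μ - μ ^ 2) :=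
          mul_le_mul_of_nonneg_left (by linarith) (by linarith)
        nlinarith
      exact le_of_mul_le_mul_left i5 hm0
  obtain ⟨K, hK⟩ : ∃ K : ℕ, K = ⌊1 / (4 * p)⌋₊ := ⟨_, rfl⟩
  have hK1 : 4 * (K : ℝ) * p ≤ 1 := by
    have : (K : ℝ) ≤ 1 / (4 * p) := by rw [hK]; exact Nat.floor_le (by positivity)
    rw [le_div_iff₀ (by positivity)] at this
    linarith
  have hK2 : 1 / (8 * p) ≤ K := by
    have g1 : 1 / (4 * p) < K + 1 := by rw [hK]; exact Nat.lt_floor_add_one _
    have g2 : (1 : ℝ) ≤ K := by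
      have : 1 ≤ K := by
        rw [hK]
        apply Nat.le_floor
        rw [Nat.cast_one, le_div_iff₀ (by positivity)]
        linarith
      exact_mod_cast this
    have g3 : 1 / (8 * p) = (1 / (4 * p)) / 2 := by field_simp; norm_num
    rw [g3]
    linarith
  have k1 := key K hK1
  obtain ⟨b1, b2, -⟩ := ps_bd hp hp6 K hK1
  have k2 : Ex (fun _ => p) G (fun D => ind (U D)) ≤ Ex (fun _ => ps p K) G (fun D => ind (U D)) :=
    mono_p h1 hp.le b1 (by linarith) G _ fun D D' h => ind_mono (hU _ _ h)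
  have k3 : 0 ≤ Ex (fun _ => ps p K) G (fun D => ind (U D)) :=
    Ex_nonneg (fun _ => by linarith) (fun _ => by linarith) fun D _ => ind_nonneg _
  have k4 : 1 / (8 * p) * Ex (fun _ => ps p K) G (fun D => ind (U D)) ≤ m :=
    (mul_le_mul_of_nonneg_right hK2 k3).trans k1
  rw [div_mul_eq_mul_div, one_mul, div_le_iff₀ (by positivity), hm] at k4
  refine k2.trans (k4.trans (le_of_eq ?_))
  ring

end CL

open CL in
theorem cl (h1 : S_A1) (h5 : S_A5) (h6 : S_A6) : S_CL := by
  intro B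
  have he4 : Real.exp (-4) ≤ 1 := Real.exp_le_one_iff.2 (by norm_num)
  have he0 : 0 < Real.exp (-4) := Real.exp_pos _
  refine ⟨Real.exp (-4) / 9, by positivity, by linarith, 24 * (8 * ((B + 1 : ℕ) : ℝ)),
    by positivity, ?_⟩
  intro q hq hq0 n U G hU hI
  by_cases hc : ∃ p : ℝ, 0 < p ∧ p ≤ 3 * q ∧ ∃ x ∈ G, 8 * ((B + 1 : ℕ) : ℝ) * p ≤
      Ex (fun _ => p) G (fun D => ind (U (insert x D)))
  · obtain ⟨p, hp, hpq, x, hx, hl⟩ := hc
    refine Or.inl ⟨x, hx, (case1 h1 h6 hq hq0 hU hI hp hpq hl).trans ?_⟩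
    exact pow_le_pow_of_le_one hq.le (by linarith) (Nat.le_succ B)
  · refine Or.inr fun p hp0 hpq => ?_
    rcases eq_or_lt_of_le hp0 with h | h
    · rw [← h, Ex_zero, ind_false (not_empty hI)]
      norm_num
    · refine case2 h1 h5 (κ := 8 * ((B + 1 : ℕ) : ℝ)) (by positivity) (q := q) (by linarith) hU hI
        (fun p' hp' hpq' x hx => ?_) h hpq
      by_contra hcon
      exact hc ⟨p', hp', hpq', x, hx, (not_le.1 hcon).le⟩

theorem good (h : S_CL) : S_Good := by
  classical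
  intro B
  obtain ⟨q₀, hq0, hq1, K0, hK0, hcl⟩ := h B
  refine ⟨q₀, hq0, hq1, K0, hK0, ?_⟩
  intro q hq hqq n F hF
  have hup : ∀ C, Up (UpF F C) := by
    rintro C D D' hD ⟨A, hA, hAC, hs⟩
    exact ⟨A, hA, hAC, hs.trans hD⟩
  have his : ∀ C ∈ F, Isec (UpF F C) := by
    rintro C hC D D' ⟨A, hA, hAC, hs⟩ ⟨A', hA', hAC', hs'⟩
    have hne : ((C \ A) ∩ (C \ A')).Nonempty := by
      rw [← Finset.sdiff_union_distrib, Finset.sdiff_nonempty]
      intro hsub
      have e : A ∪ A' = C := Finset.Subset.antisymm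
        (Finset.union_subset hAC.subset hAC'.subset) hsub
      by_cases hAA : A = A'
      · rw [hAA, Finset.union_self] at e
        exact hAC'.ne e
      · exact hF A hA A' hA' C hC hAA hAC.ne hAC'.ne e
    exact hne.mono (Finset.inter_subset_inter hs hs')
  refine ⟨fun C => if hC : C ∈ F ∧ ∃ x ∈ C,
    Ex (fun _ => q) C (fun D => ind (UpF F C (D.erase x))) ≤ q ^ B then some hC.2.choose else none,
    ?_, ?_, ?_⟩
  · intro C x hx
    by_cases hC : C ∈ F ∧ ∃ x ∈ C, Ex (fun _ => q) C (fun D => ind (UpF F C (D.erase x))) ≤ q ^ B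
    · simp only [dif_pos hC] at hx
      rw [← Option.some.inj hx]
      exact hC.2.choose_spec.1
    · simp only [dif_neg hC] at hx
      exact absurd hx (by simp)
  · intro C _ x hx
    by_cases hC : C ∈ F ∧ ∃ x ∈ C, Ex (fun _ => q) C (fun D => ind (UpF F C (D.erase x))) ≤ q ^ B
    · simp only [dif_pos hC] at hx
      rw [← Option.some.inj hx]
      exact hC.2.choose_spec.2
    · simp only [dif_neg hC] at hx
      exact absurd hx (by simp)
  · intro C hCF hx
    by_cases hC : C ∈ F ∧ ∃ x ∈ C, Ex (fun _ => q) C (fun D => ind (UpF F C (D.erase x))) ≤ q ^ B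
    · simp only [dif_pos hC] at hx
      exact absurd hx (by simp)
    · rcases hcl q hq hqq n (UpF F C) C (hup C) (his C hCF) with h1 | h1
      · exact absurd ⟨hCF, h1⟩ hC
      · exact h1

end Pool.Agent.H710.KU
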