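import Pool.Agent.H710.KU.St

/-!
# Deterministic analysis of one unpolluted chain
(project KU of helper710, written by helper539)
-/

set_option autoImplicit false

namespace Pool.Agent.H710.KU

open Finset Equiv

namespace D

theorem sd {α : Type} [DecidableEq α] {E X U W : Finset α} {m : ℕ} (h1 : E \ X ⊆ U)
    (h2 : X \ E ⊆ W) (hc : U.card + W.card ≤ m) : (E \ X).card + (X \ E).card ≤ m :=
  (Nat.add_le_add (card_le_card h1) (card_le_card h2)).trans hc

/-- `insert x (insert y X)` and `X` are close. -/
theorem sd2 {α : Type} [DecidableEq α] (x y : α) (X : Finset α) :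
    (insert x (insert y X) \ X).card + (X \ insert x (insert y X)).card ≤ 2 := by
  refine sd (U := {x, y}) (W := ∅) ?_ ?_ ?_
  · intro e he
    simp only [mem_sdiff, mem_insert, mem_singleton] at he ⊢
    tauto
  · intro e he
    simp only [mem_sdiff, mem_insert] at he
    tauto
  · rw [card_empty, add_zero]
    exact card_le_two

theorem sd1 {α : Type} [DecidableEq α] (x : α) (X : Finset α) :
    (insert x X \ X).card + (X \ insert x X).card ≤ 2 := by
  have h := sd2 x x X
  rwa [insert_idem] at h

/-- Two insertions and two deletions. -/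
theorem sd4 {α : Type} [DecidableEq α] (x y x' y' : α) (X : Finset α) :
    ((((insert x (insert y X)).erase x').erase y') \ X).card +
      (X \ (((insert x (insert y X)).erase x').erase y')).card ≤ 4 := by
  refine sd (U := {x, y}) (W := {x', y'}) ?_ ?_ ?_
  · intro e he
    simp only [mem_sdiff, mem_insert, mem_singleton, mem_erase] at he ⊢
    tauto
  · intro e he
    simp only [mem_sdiff, mem_insert, mem_singleton, mem_erase] at he ⊢
    tauto
  · have h1 : ({x, y} : Finset α).card ≤ 2 := card_le_two
    have h2 : ({x', y'} : Finset α).card ≤ 2 := card_le_two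
    omega

theorem sd3 {α : Type} [DecidableEq α] (x x' : α) (X : Finset α) :
    (((insert x X).erase x') \ X).card + (X \ ((insert x X).erase x')).card ≤ 4 := by
  have h := sd4 x x x' x' X
  rwa [insert_idem, erase_idem] at h

end D

open D

/-- **D.** -/
theorem d (h1 : S_L1) : S_D := by
  intro n F S lo hi H J r a c x hL hH hn hS hJ hPol hLow hCX
  obtain ⟨hac, hxH, hCF, hSC⟩ := hCX
  have hhn : hi < n := by omega
  obtain ⟨ha1, ha2⟩ := hit_level hL hhn hLow.1
  have haH : a ≤ H := by omega
  have hnot : ∀ {e : Fin n} {i : ℕ}, e ∉ P r H → i ≤ H → e ∉ P r i :=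
    fun he hi h => he (P_mono r hi h)
  -- the index `c`
  have hcH : c < H := by
    by_contra hc
    have h2 := (hL _ hCF).2
    have h3 : (P r c).card ≤ (insert x (P r c)).card := card_le_card (subset_insert _ _)
    rw [card_P'] at h3
    omega
  have hxc : x ∉ P r c := hnot hxH hcH.le
  have hcn : c ≤ n := by omega
  have hcardC : (insert x (P r c)).card = c + 1 := by
    rw [card_insert_of_notMem hxc, card_P r c hcn]
  have hchi : c + 1 ≤ hi := by
    have h2 := (hL _ hCF).2
    omega
  -- pollution
  have poll : ∀ (E C : Finset (Fin n)) (i k : ℕ) (e : Fin n), E ∈ F → C ∈ F → E ⊆ C →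
      (∃ w, w ∈ C ∧ w ∉ E) → e ∈ E → S C = some e → i ≤ n → k ≤ n →
      (E \ P r i).card + (P r i \ E).card ≤ 4 → (C \ P r k).card + (P r k \ C).card ≤ 2 →
      False := by
    intro E C i k e hE hC hEC hw he hSC' hi hk h3 h4
    obtain ⟨w, hw1, hw2⟩ := hw
    exact hPol (h1 n F S r i k E C ⟨hE, hC, ⟨hEC, fun h => hw2 (h hw1)⟩, e, he, hSC'⟩ hi hk h3 h4)
  have hLLx : LL F lo r a x := by
    refine ⟨hnot hxH haH, fun i hi z hz hE => ?_⟩
    have hzx : x ≠ z := fun h => hxH (h ▸ P_mono r (by omega) hz)
    refine poll _ _ i c x hE hCF ?_ ⟨z, ?_, ?_⟩ ?_ hSC (by omega) hcn (sd3 x z (P r i))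
      (sd1 x (P r c))
    · exact (erase_subset _ _).trans (insert_subset_insert _ (P_mono r (by omega)))
    · exact mem_insert_of_mem (P_mono r (by omega) hz)
    · exact notMem_erase _ _
    · exact mem_erase.2 ⟨hzx, mem_insert_self _ _⟩
  have h2 : ∀ k < c, insert x (P r k) ∉ F := by
    intro k hk hE
    have hkn : k < n := by omega
    refine poll _ _ k c x hE hCF (insert_subset_insert _ (P_mono r hk.le))
      ⟨r.symm ⟨k, hkn⟩, ?_, ?_⟩ (mem_insert_self _ _) hSC hkn.le hcn
      ((sd1 x (P r k)).trans (by omega)) (sd1 x (P r c))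
    · apply mem_insert_of_mem
      rw [mem_P, Equiv.apply_symm_apply]
      exact hk
    · rw [mem_insert, not_or]
      constructor
      · intro h
        apply hxH
        rw [← h, mem_P, Equiv.apply_symm_apply]
        exact lt_of_lt_of_le (lt_of_lt_of_le hk hcH.le) le_rfl
      · rw [mem_P, Equiv.apply_symm_apply]
        exact lt_irrefl k
  refine ⟨hLLx, h2, fun y hyH hyx hLLy hM2 hNS hz s has hsc => ?_⟩
  refine ⟨has, hLow, hyx.symm, hLLx, hLLy, hM2, fun k hk => h2 k (by omega),
    fun k hk hT => ?_, c, hsc, hCF, hSC⟩
  -- the set `T`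
  have hkH : k < H := by
    by_contra hc
    have h3 := (hL _ hT).2
    have h4 : (P r k).card ≤ (insert x (insert y (P r k))).card :=
      card_le_card ((subset_insert _ _).trans (subset_insert _ _))
    rw [card_P'] at h4
    omega
  have hkn : k ≤ n := by omega
  have hxk : x ∉ P r k := hnot hxH hkH.le
  have hyk : y ∉ P r k := hnot hyH hkH.le
  have hcardT : (insert x (insert y (P r k))).card = k + 2 := by
    rw [card_insert_of_notMem, card_insert_of_notMem hyk, card_P r k hkn]
    rw [mem_insert, not_or]
    exact ⟨hyx.symm, hxk⟩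
  have hkhi : k + 2 ≤ hi := by
    have h3 := (hL _ hT).2
    omega
  have hak : P r a ⊆ P r k := P_mono r (by omega)
  have hloa : P r lo ⊆ P r a := P_mono r (by omega)
  have hkT : P r k ⊆ insert x (insert y (P r k)) := (subset_insert _ _).trans (subset_insert _ _)
  have hxT : x ∈ insert x (insert y (P r k)) := mem_insert_self _ _
  have hyT : y ∈ insert x (insert y (P r k)) := mem_insert_of_mem (mem_insert_self _ _)
  rcases hST : S (insert x (insert y (P r k))) with _ | e
  · exact hNS ⟨k, by omega, by omega, hT, hST⟩
  · have heT : e ∈ insert x (insert y (P r k)) := hS _ e hST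
    by_cases hea : e ∈ P r a
    · exact poll _ _ a k e hLow.1 hT (hak.trans hkT) ⟨x, hxT, hnot hxH haH⟩ hea hST (by omega) hkn
        (by rw [Finset.sdiff_self, card_empty]; omega) (sd2 x y (P r k))
    · by_cases hexy : e = x ∨ e = y
      · -- the centre is `x` or `y`
        refine hM2 ⟨hyx.symm, hLLx, hLLy, fun i hi x' hx' y' hy' hxy' hE => ?_⟩
        have heH : e ∉ P r H := by
          rcases hexy with h | h
          · rw [h]; exact hxH
          · rw [h]; exact hyH
        have hne : ∀ w ∈ P r lo, e ≠ w := fun w hw h => heH (h ▸ P_mono r (by omega) hw)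
        refine poll _ _ i k e hE hT ?_ ⟨x', hkT (hak (hloa hx')), ?_⟩ ?_ hST (by omega) hkn
          (sd4 x y x' y' (P r i)) (sd2 x y (P r k))
        · refine (erase_subset _ _).trans ((erase_subset _ _).trans ?_)
          exact insert_subset_insert _ (insert_subset_insert _ (P_mono r (by omega)))
        · rw [mem_erase, mem_erase]
          rintro ⟨-, h, -⟩
          exact h rfl
        · refine mem_erase.2 ⟨hne y' hy', mem_erase.2 ⟨hne x' hx', ?_⟩⟩
          rcases hexy with h | h
          · rw [h]; exact mem_insert_self _ _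
          · rw [h]; exact mem_insert_of_mem (mem_insert_self _ _)
      · -- the centre is in the base
        rw [not_or] at hexy
        have hek : e ∈ P r k := by
          rw [mem_insert, mem_insert] at heT
          rcases heT with h | h | h
          · exact absurd h hexy.1
          · exact absurd h hexy.2
          · exact h
        have hne : ∀ w ∈ P r lo, e ≠ w := fun w hw h => hea (h ▸ hloa hw)
        refine hz ⟨e, P_mono r hkH.le hek, fun h => hexy.1 h.symm, hLLx, ⟨hea, ?_⟩, ?_⟩
        · intro i hi x' hx' hE
          refine poll _ _ i k e hE hT ?_ ⟨x, hxT, ?_⟩ ?_ hST (by omega) hkn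
            (sd3 e x' (P r i)) (sd2 x y (P r k))
          · refine (erase_subset _ _).trans (Subset.trans ?_ hkT)
            exact insert_subset hek (P_mono r (by omega))
          · rw [mem_erase, mem_insert]
            rintro ⟨-, h | h⟩
            · exact hexy.1 h.symm
            · exact hnot hxH (by omega) h
          · exact mem_erase.2 ⟨hne x' hx', mem_insert_self _ _⟩
        · intro i hi x' hx' y' hy' hxy' hE
          refine poll _ _ i k e hE hT ?_ ⟨y, hyT, ?_⟩ ?_ hST (by omega) hkn
            (sd4 x e x' y' (P r i)) (sd2 x y (P r k))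
          · refine (erase_subset _ _).trans ((erase_subset _ _).trans ?_)
            refine insert_subset hxT (insert_subset (hkT hek) ?_)
            exact (P_mono r (by omega)).trans hkT
          · rw [mem_erase, mem_erase, mem_insert, mem_insert]
            rintro ⟨-, -, h | h | h⟩
            · exact hyx h
            · exact hexy.2 h.symm
            · exact hnot hyH (by omega) h
          · exact mem_erase.2 ⟨hne y' hy', mem_erase.2 ⟨hne x' hx',
              mem_insert_of_mem (mem_insert_self _ _)⟩⟩

end Pool.Agent.H710.KU
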