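import Mathlib

/-!
Definitions for the proof of S10707 (MP_aadab9_co, Kleitman: families without two sets and their union).
-/

set_option autoImplicit false

namespace Pool.Agent.H710.KU

open Finset Equiv

/-- Real indicator of a proposition (always with the classical decision procedure). -/
noncomputable def ind (p : Prop) : ℝ := @ite ℝ p (Classical.propDecidable p) 1 0

theorem ind_true {p : Prop} (h : p) : ind p = 1 := by unfold ind; exact if_pos h
theorem ind_false {p : Prop} (h : ¬ p) : ind p = 0 := by unfold ind; exact if_neg h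
theorem ind_nonneg (p : Prop) : 0 ≤ ind p := by
  by_cases h : p
  · rw [ind_true h]; norm_num
  · rw [ind_false h]
theorem ind_le_one (p : Prop) : ind p ≤ 1 := by
  by_cases h : p
  · rw [ind_true h]
  · rw [ind_false h]; norm_num
theorem ind_mono {p q : Prop} (h : p → q) : ind p ≤ ind q := by
  by_cases hp : p
  · rw [ind_true hp, ind_true (h hp)]
  · rw [ind_false hp]; exact ind_nonneg q
theorem ind_congr {p q : Prop} (h : p ↔ q) : ind p = ind q :=
  le_antisymm (ind_mono h.1) (ind_mono h.2)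
theorem ind_and (p q : Prop) : ind (p ∧ q) = ind p * ind q := by
  by_cases hp : p
  · by_cases hq : q
    · rw [ind_true hp, ind_true hq, ind_true ⟨hp, hq⟩]; norm_num
    · rw [ind_false hq, ind_false (fun h => hq h.2)]; norm_num
  · rw [ind_false hp, ind_false (fun h => hp h.1)]; norm_num
theorem ind_not (p : Prop) : ind (¬ p) = 1 - ind p := by
  by_cases hp : p
  · rw [ind_true hp, ind_false (not_not.2 hp)]; norm_num
  · rw [ind_false hp, ind_true hp]; norm_num

/-- A family of subsets of `Fin n`. -/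
abbrev Fam (n : ℕ) := Finset (Finset (Fin n))

/-- union-free family: no three distinct members `A, B, C` with `A ∪ B = C`. -/
def UF {n : ℕ} (F : Fam n) : Prop :=
  ∀ A ∈ F, ∀ B ∈ F, ∀ C ∈ F, A ≠ B → A ≠ C → B ≠ C → A ∪ B ≠ C

/-- Expectation of `f D` for the random subset `D` of `G` which contains `i ∈ G` with probability
`b i`, independently. -/
noncomputable def Ex {n : ℕ} (b : Fin n → ℝ) (G : Finset (Fin n)) (f : Finset (Fin n) → ℝ) : ℝ :=
  ∑ D ∈ G.powerset, (∏ i ∈ D, b i) * (∏ i ∈ G \ D, (1 - b i)) * f D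

/-- `U` is an up-set. -/
def Up {n : ℕ} (U : Finset (Fin n) → Prop) : Prop := ∀ D D' : Finset (Fin n), D ⊆ D' → U D → U D'

/-- any two members of `U` intersect. -/
def Isec {n : ℕ} (U : Finset (Fin n) → Prop) : Prop :=
  ∀ D D' : Finset (Fin n), U D → U D' → (D ∩ D').Nonempty

/-- `UpF F C D`: `D` contains `C \ A` for some proper subset `A ∈ F` of `C`. -/
def UpF {n : ℕ} (F : Fam n) (C D : Finset (Fin n)) : Prop := ∃ A ∈ F, A ⊂ C ∧ C \ A ⊆ D

/-- The `k`-th set of the maximal chain with rank function `r`: the elements at positions `< k`. -/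
def P {n : ℕ} (r : Perm (Fin n)) (k : ℕ) : Finset (Fin n) := univ.filter (fun e => (r e : ℕ) < k)

/-- all members have size between `lo + 3` and `hi`. -/
def Levels {n : ℕ} (F : Fam n) (lo hi : ℕ) : Prop := ∀ A ∈ F, lo + 3 ≤ A.card ∧ A.card ≤ hi

/-- assignment of an (optional) centre to every set. -/
abbrev Cen (n : ℕ) := Finset (Fin n) → Option (Fin n)

/-- the centre of `C` is an element of `C`. -/
def CenOK {n : ℕ} (S : Cen n) : Prop := ∀ C x, S C = some x → x ∈ C

/-- Quality of a centre assignment: if `C ∈ F` has centre `x`, then the `q`-random subset `D` of `C`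
satisfies `UpF F C (D.erase x)` with probability at most `ε`; if `C ∈ F` has no centre, then
`UpF F C D` has probability at most `K0 * p ^ 2` for the `p`-random subset, all `p ≤ q`. -/
def Good {n : ℕ} (F : Fam n) (S : Cen n) (K0 q ε : ℝ) : Prop :=
  CenOK S ∧
  (∀ C ∈ F, ∀ x, S C = some x →
    Ex (fun _ => q) C (fun D => ind (UpF F C (D.erase x))) ≤ ε) ∧
  (∀ C ∈ F, S C = none → ∀ p : ℝ, 0 ≤ p → p ≤ q →
    Ex (fun _ => p) C (fun D => ind (UpF F C D)) ≤ K0 * p ^ 2)

/-- exceptional pair: `E ⊂ C` both in `F` and the centre of `C` belongs to `E`. -/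
def Exc {n : ℕ} (F : Fam n) (S : Cen n) (E C : Finset (Fin n)) : Prop :=
  E ∈ F ∧ C ∈ F ∧ E ⊂ C ∧ ∃ x ∈ E, S C = some x

/-- the chain `r` passes through an exceptional pair. -/
def ExcChain {n : ℕ} (F : Fam n) (S : Cen n) (r : Perm (Fin n)) : Prop :=
  ∃ i k : ℕ, Exc F S (P r i) (P r k)

/-- products of at most `t` transpositions. -/
def swaps (n : ℕ) : ℕ → Finset (Perm (Fin n))
  | 0 => {1}
  | t + 1 => (swaps n t ×ˢ (univ ×ˢ univ)).image (fun p => p.1 * swap p.2.1 p.2.2)

/-- polluted chains: some rearrangement of positions by at most 8 transpositions passes through an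
exceptional pair. -/
def Pol {n : ℕ} (F : Fam n) (S : Cen n) (r : Perm (Fin n)) : Prop :=
  ∃ ρ ∈ swaps n 8, ExcChain F S (ρ * r)

/-- `a` is the level of the lowest member of `F` on the chain `r`. -/
def Low {n : ℕ} (F : Fam n) (r : Perm (Fin n)) (a : ℕ) : Prop := P r a ∈ F ∧ ∀ k < a, P r k ∉ F

/-- the chain `r` contains no member of `F`. -/
def Miss {n : ℕ} (F : Fam n) (r : Perm (Fin n)) : Prop := ∀ k, P r k ∉ F

/-- `x` is a dead element for the chain `r` below level `a`. -/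
def LL {n : ℕ} (F : Fam n) (lo : ℕ) (r : Perm (Fin n)) (a : ℕ) (x : Fin n) : Prop :=
  x ∉ P r a ∧ ∀ i ≤ a, ∀ x' ∈ P r lo, (insert x (P r i)).erase x' ∉ F

/-- `{x, y}` is a dead pair for the chain `r` below level `a`. -/
def M2 {n : ℕ} (F : Fam n) (lo : ℕ) (r : Perm (Fin n)) (a : ℕ) (x y : Fin n) : Prop :=
  x ≠ y ∧ LL F lo r a x ∧ LL F lo r a y ∧
    ∀ i ≤ a, ∀ x' ∈ P r lo, ∀ y' ∈ P r lo, x' ≠ y' →
      ((insert x (insert y (P r i))).erase x').erase y' ∉ F

/-- the chain through `P r k ∪ {x, y}` meets a member of `F` without centre (within distance `J`). -/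
def NS {n : ℕ} (F : Fam n) (S : Cen n) (J : ℕ) (r : Perm (Fin n)) (a : ℕ) (x y : Fin n) : Prop :=
  ∃ k : ℕ, a ≤ k ∧ k + 2 ≤ a + J ∧ insert x (insert y (P r k)) ∈ F ∧
    S (insert x (insert y (P r k))) = none

/-- valid quadruples (they produce missing chains). -/
def Vld {n : ℕ} (F : Fam n) (S : Cen n) (lo : ℕ) (r : Perm (Fin n)) (a : ℕ) (x y : Fin n)
    (s : ℕ) : Prop :=
  a ≤ s ∧ Low F r a ∧ x ≠ y ∧ LL F lo r a x ∧ LL F lo r a y ∧ ¬ M2 F lo r a x y ∧
    (∀ k ≤ s, insert x (P r k) ∉ F) ∧ (∀ k, s ≤ k → insert x (insert y (P r k)) ∉ F) ∧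
    ∃ c, s < c ∧ insert x (P r c) ∈ F ∧ S (insert x (P r c)) = some x

/-- number of members of `F` on the chain. -/
noncomputable def NN {n : ℕ} (F : Fam n) (r : Perm (Fin n)) : ℝ :=
  ∑ k ∈ range (n + 1), ind (P r k ∈ F)

/-- `CX F S r H a c x`: `x` is at position `≥ H` and `P r c ∪ {x}` is a member of `F` with centre `x`,
where `c ≥ a`. -/
def CX {n : ℕ} (F : Fam n) (S : Cen n) (r : Perm (Fin n)) (H a c : ℕ) (x : Fin n) : Prop :=
  a ≤ c ∧ x ∉ P r H ∧ insert x (P r c) ∈ F ∧ S (insert x (P r c)) = some x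

/-! ### basic facts -/

theorem mem_P {n : ℕ} {r : Perm (Fin n)} {k : ℕ} {e : Fin n} : e ∈ P r k ↔ (r e : ℕ) < k := by
  simp [P]

theorem P_mono {n : ℕ} (r : Perm (Fin n)) {i k : ℕ} (h : i ≤ k) : P r i ⊆ P r k := by
  intro e he
  rw [mem_P] at he ⊢
  omega

theorem card_P {n : ℕ} (r : Perm (Fin n)) (k : ℕ) (hk : k ≤ n) : (P r k).card = k := by
  have h : (P r k).card = ((univ : Finset (Fin n)).filter (fun i : Fin n => (i : ℕ) < k)).card := by
    apply Finset.card_bij (fun e _ => r e)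
    · intro e he
      rw [mem_P] at he
      simp [he]
    · intro a _ b _ h
      exact r.injective h
    · intro b hb
      refine ⟨r.symm b, ?_, by simp⟩
      rw [mem_P]
      simpa using hb
  rw [h]
  rw [Fin.card_filter_val_lt]
  omega

theorem card_P' {n : ℕ} (r : Perm (Fin n)) (k : ℕ) : (P r k).card = min k n := by
  rcases le_total k n with h | h
  · rw [card_P r k h, min_eq_left h]
  · have : P r k = P r n := by
      ext e
      rw [mem_P, mem_P]
      have := (r e).isLt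
      constructor <;> intro _ <;> omega
    rw [this, card_P r n le_rfl, min_eq_right h]

theorem hit_level {n : ℕ} {F : Fam n} {lo hi : ℕ} (hL : Levels F lo hi) (hh : hi < n)
    {r : Perm (Fin n)} {k : ℕ} (hk : P r k ∈ F) : lo + 3 ≤ k ∧ k ≤ hi := by
  have h := hL _ hk
  rw [card_P'] at h
  omega

theorem Low_unique {n : ℕ} {F : Fam n} {r : Perm (Fin n)} {a b : ℕ} (ha : Low F r a)
    (hb : Low F r b) : a = b := by
  rcases lt_trichotomy a b with h | h | h
  · exact absurd ha.1 (hb.2 a h)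
  · exact h
  · exact absurd hb.1 (ha.2 b h)

theorem exists_Low {n : ℕ} {F : Fam n} {r : Perm (Fin n)} {k : ℕ} (hk : P r k ∈ F) :
    ∃ a ≤ k, Low F r a := by
  classical
  have hex : ∃ k, P r k ∈ F := ⟨k, hk⟩
  refine ⟨Nat.find hex, Nat.find_min' hex hk, Nat.find_spec hex, ?_⟩
  intro j hj
  exact Nat.find_min hex hj

/-- replacing `r` by `ρ * r` permutes positions. -/
theorem mem_P_mul {n : ℕ} {ρ r : Perm (Fin n)} {k : ℕ} {e : Fin n} :
    e ∈ P (ρ * r) k ↔ (ρ (r e) : ℕ) < k := by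
  rw [mem_P]; rfl

/-- invariance of sums over all chains under a rearrangement of positions. -/
theorem sum_mul_left {n : ℕ} (ρ : Perm (Fin n)) (f : Perm (Fin n) → ℝ) :
    ∑ r : Perm (Fin n), f (ρ * r) = ∑ r : Perm (Fin n), f r :=
  Fintype.sum_equiv (Equiv.mulLeft ρ) _ _ (fun _ => rfl)

/-! ### basic facts on `Ex` -/

theorem Ex_empty {n : ℕ} (b : Fin n → ℝ) (f : Finset (Fin n) → ℝ) : Ex b ∅ f = f ∅ := by
  simp [Ex]

theorem Ex_insert {n : ℕ} (b : Fin n → ℝ) {G : Finset (Fin n)} {x : Fin n} (hx : x ∉ G)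
    (f : Finset (Fin n) → ℝ) :
    Ex b (insert x G) f = (1 - b x) * Ex b G f + b x * Ex b G (fun D => f (insert x D)) := by
  unfold Ex
  rw [Finset.sum_powerset_insert hx, Finset.mul_sum, Finset.mul_sum]
  congr 1
  · apply Finset.sum_congr rfl
    intro D hD
    have hxD : x ∉ D := fun h => hx (Finset.mem_powerset.1 hD h)
    have h1 : insert x G \ D = insert x (G \ D) := by
      rw [Finset.insert_sdiff_of_notMem _ hxD]
    rw [h1, Finset.prod_insert (fun h => hx (Finset.mem_sdiff.1 h).1)]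
    ring
  · apply Finset.sum_congr rfl
    intro D hD
    have hxD : x ∉ D := fun h => hx (Finset.mem_powerset.1 hD h)
    have h1 : insert x G \ insert x D = G \ D := by
      ext y
      simp only [Finset.mem_sdiff, Finset.mem_insert, not_or]
      constructor
      · rintro ⟨h1 | h1, h2, h3⟩
        · exact absurd h1 h2
        · exact ⟨h1, h3⟩
      · rintro ⟨h1, h2⟩
        exact ⟨Or.inr h1, fun h => hx (h ▸ h1), h2⟩
    rw [h1, Finset.prod_insert hxD]
    ring

theorem Ex_mono {n : ℕ} {b : Fin n → ℝ} (h0 : ∀ i, 0 ≤ b i) (h1 : ∀ i, b i ≤ 1)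
    {G : Finset (Fin n)} {f g : Finset (Fin n) → ℝ} (h : ∀ D ⊆ G, f D ≤ g D) :
    Ex b G f ≤ Ex b G g := by
  unfold Ex
  apply Finset.sum_le_sum
  intro D hD
  apply mul_le_mul_of_nonneg_left (h D (Finset.mem_powerset.1 hD))
  apply mul_nonneg
  · exact Finset.prod_nonneg (fun i _ => h0 i)
  · exact Finset.prod_nonneg (fun i _ => by linarith [h1 i])

theorem Ex_const {n : ℕ} (b : Fin n → ℝ) (G : Finset (Fin n)) (c : ℝ) :
    Ex b G (fun _ => c) = c := by
  induction G using Finset.induction_on with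
  | empty => rw [Ex_empty]
  | insert x G hx ih => rw [Ex_insert b hx, ih]; ring

theorem Ex_nonneg {n : ℕ} {b : Fin n → ℝ} (h0 : ∀ i, 0 ≤ b i) (h1 : ∀ i, b i ≤ 1)
    {G : Finset (Fin n)} {f : Finset (Fin n) → ℝ} (h : ∀ D ⊆ G, 0 ≤ f D) : 0 ≤ Ex b G f := by
  have := Ex_mono h0 h1 (f := fun _ => 0) (g := f) h
  rwa [Ex_const] at this

theorem Ex_le_one {n : ℕ} {b : Fin n → ℝ} (h0 : ∀ i, 0 ≤ b i) (h1 : ∀ i, b i ≤ 1)
    {G : Finset (Fin n)} {f : Finset (Fin n) → ℝ} (h : ∀ D ⊆ G, f D ≤ 1) : Ex b G f ≤ 1 := by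
  have := Ex_mono h0 h1 (f := f) (g := fun _ => 1) h
  rwa [Ex_const] at this

theorem Ex_add {n : ℕ} (b : Fin n → ℝ) (G : Finset (Fin n)) (f g : Finset (Fin n) → ℝ) :
    Ex b G (fun D => f D + g D) = Ex b G f + Ex b G g := by
  unfold Ex
  rw [← Finset.sum_add_distrib]
  apply Finset.sum_congr rfl
  intro D _
  ring

theorem Ex_mul_left {n : ℕ} (b : Fin n → ℝ) (G : Finset (Fin n)) (c : ℝ)
    (f : Finset (Fin n) → ℝ) : Ex b G (fun D => c * f D) = c * Ex b G f := by
  unfold Ex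
  rw [Finset.mul_sum]
  apply Finset.sum_congr rfl
  intro D _
  ring

theorem Ex_congr {n : ℕ} (b : Fin n → ℝ) (G : Finset (Fin n)) {f g : Finset (Fin n) → ℝ}
    (h : ∀ D ⊆ G, f D = g D) : Ex b G f = Ex b G g := by
  unfold Ex
  apply Finset.sum_congr rfl
  intro D hD
  rw [h D (Finset.mem_powerset.1 hD)]

end Pool.Agent.H710.KU
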