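import Pool.Agent.H710.KU.St2

/-! KU: existence of the environment. -/

set_option autoImplicit false

namespace Pool.Agent.H710.KU

open Finset Equiv

/-- the main real inequalities, with `N = y ^ 20`. -/
theorem Env.log_bound {N y : ℝ} (hy : 1 ≤ y) (hN : N = y ^ 20) :
    Real.sqrt (N * Real.log N) ≤ 4 * y ^ 11 := by
  have hy0 : 0 < y := by linarith
  have hN0 : 0 ≤ N := by rw [hN]; positivity
  have h1 : Real.log N ≤ 10 * y ^ 2 := by
    rw [hN, Real.log_pow]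
    have h2 : Real.log (y ^ 2) ≤ y ^ 2 - 1 := Real.log_le_sub_one_of_pos (by positivity)
    rw [Real.log_pow] at h2
    push_cast at h2 ⊢
    nlinarith
  rw [show (4 : ℝ) * y ^ 11 = Real.sqrt ((4 * y ^ 11) ^ 2) from
    (Real.sqrt_sq (by positivity)).symm]
  apply Real.sqrt_le_sqrt
  calc N * Real.log N ≤ N * (10 * y ^ 2) := mul_le_mul_of_nonneg_left h1 hN0
    _ = 10 * (y ^ 22) := by rw [hN]; ring
    _ ≤ 16 * y ^ 22 := by
        have : 0 ≤ y ^ 22 := by positivity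
        linarith
    _ = (4 * y ^ 11) ^ 2 := by ring

theorem Env.big {N y : ℝ} (hy : 1000 ≤ y) (hN : N = y ^ 20) :
    1000 * y ^ 11 ≤ N ∧ 1 ≤ y ^ 11 := by
  have h1 : (1000 : ℝ) ≤ y ^ 9 := by
    calc (1000 : ℝ) ≤ y := hy
      _ = y ^ 1 := (pow_one y).symm
      _ ≤ y ^ 9 := pow_le_pow_right₀ (by linarith) (by norm_num)
  have h2 : (0 : ℝ) ≤ y ^ 11 := by positivity
  refine ⟨?_, one_le_pow₀ (by linarith)⟩
  calc 1000 * y ^ 11 ≤ y ^ 9 * y ^ 11 := mul_le_mul_of_nonneg_right h1 h2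
    _ = N := by rw [hN]; ring

theorem Env.q_eq {N y : ℝ} (hy : 0 < y) (hN : N = y ^ 20) :
    N ^ (-(2 / 5) : ℝ) = 1 / y ^ 8 := by
  rw [hN, ← Real.rpow_natCast y 20, ← Real.rpow_mul hy.le]
  rw [show (((20 : ℕ) : ℝ) * (-(2 / 5))) = -((8 : ℕ) : ℝ) by norm_num]
  rw [Real.rpow_neg hy.le, Real.rpow_natCast, one_div]

theorem env (h : S_Good) : S_Env := by
  obtain ⟨q₀, hq₀, hq₀1, K0, hK0, hG⟩ := h 75
  refine ⟨K0, hK0, ?_⟩
  have hlim : Filter.Tendsto (fun n : ℕ => ((n : ℝ)) ^ (1 / 20 : ℝ)) Filter.atTop Filter.atTop :=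
    (tendsto_rpow_atTop (by norm_num)).comp tendsto_natCast_atTop_atTop
  obtain ⟨n₀, hn₀⟩ := Filter.eventually_atTop.1
    (hlim.eventually_ge_atTop (max 1000 (max (1 / q₀) (16 * K0))))
  refine ⟨n₀, ?_⟩
  intro n hn F lo hi hF hlo hlohi hhi hL
  have hy := hn₀ n hn
  obtain ⟨y, hyn⟩ : ∃ y : ℝ, y = ((n : ℝ)) ^ (1 / 20 : ℝ) := ⟨_, rfl⟩
  rw [← hyn] at hy
  have hy1 : 1000 ≤ y := le_trans (le_max_left _ _) hy
  have hy2 : 1 / q₀ ≤ y := le_trans (le_trans (le_max_left _ _) (le_max_right _ _)) hy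
  have hy3 : 16 * K0 ≤ y := le_trans (le_trans (le_max_right _ _) (le_max_right _ _)) hy
  have hy0 : 0 < y := by linarith
  have hN : (n : ℝ) = y ^ 20 := by
    rw [hyn, ← Real.rpow_natCast, ← Real.rpow_mul (Nat.cast_nonneg n)]
    norm_num
  have hlog := Env.log_bound (by linarith) hN
  obtain ⟨hbig, hz1⟩ := Env.big hy1 hN
  have hq := Env.q_eq hy0 hN
  have hnpos : (0 : ℝ) < n := by rw [hN]; positivity
  rw [hq]
  have hlo' : (n : ℝ) / 2 - 12 * y ^ 11 ≤ lo := by linarith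
  have hhi' : (hi : ℝ) ≤ n / 2 + 12 * y ^ 11 := by linarith
  have hlohi' : (lo : ℝ) ≤ hi := by exact_mod_cast hlohi
  have hyk : ∀ k : ℕ, 1 ≤ k → y ≤ y ^ k := by
    intro k hk
    calc y = y ^ 1 := (pow_one y).symm
      _ ≤ y ^ k := pow_le_pow_right₀ (by linarith) hk
  have hqpos : (0 : ℝ) < 1 / y ^ 8 := by positivity
  have hqy : 1 / y ^ 8 ≤ 1 / y := one_div_le_one_div_of_le hy0 (hyk 8 (by norm_num))
  have hyq : 1 / y ≤ q₀ := by
    rw [div_le_iff₀ hy0]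
    rw [div_le_iff₀ hq₀] at hy2
    linarith
  obtain ⟨S, hS⟩ := hG (1 / y ^ 8) hqpos (le_trans hqy hyq) n F hF
  have hpow : (1 / y ^ 8) ^ 75 = 1 / (n : ℝ) ^ 30 := by
    rw [hN, div_pow, one_pow, ← pow_mul, ← pow_mul]
  rw [hpow] at hS
  have hy1' : 1 / y ≤ 1 / 1000 := one_div_le_one_div_of_le (by norm_num) hy1
  refine ⟨S, ?_⟩
  refine ⟨hL, rfl, ?_, hlohi, ?_, ?_, ?_, hS, hK0, by linarith, by positivity, ?_, ?_, ?_⟩
  · have : (hi : ℝ) + 3 + 2 ≤ n := by linarith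
    exact_mod_cast this
  · have : (n : ℝ) ≤ 3 * lo := by linarith
    exact_mod_cast this
  · push_cast
    linarith
  · push_cast
    linarith
  · -- small
    have he : 1 / (n : ℝ) ^ 30 ≤ 1 / y := by
      rw [hN, ← pow_mul]
      exact one_div_le_one_div_of_le hy0 (hyk (20 * 30) (by norm_num))
    have hk : K0 * (1 / y ^ 8) ^ 2 ≤ 1 / 16 := by
      have h1 : (1 / y ^ 8) ^ 2 ≤ 1 / y := by
        rw [div_pow, one_pow, ← pow_mul]
        exact one_div_le_one_div_of_le hy0 (hyk (8 * 2) (by norm_num))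
      calc K0 * (1 / y ^ 8) ^ 2 ≤ K0 * (1 / y) := mul_le_mul_of_nonneg_left h1 hK0
        _ ≤ (y / 16) * (1 / y) := mul_le_mul_of_nonneg_right (by linarith) (by positivity)
        _ = 1 / 16 := by field_simp
    linarith
  · -- hq
    have hsq : Real.sqrt (n : ℝ) = y ^ 10 := by
      rw [hN, show y ^ 20 = (y ^ 10) ^ 2 by ring, Real.sqrt_sq (by positivity)]
    rw [hsq]
    have h1 : 12 * ((hi : ℝ) - lo + 1) / n ≤ 300 * y ^ 11 / n := by
      apply div_le_div_of_nonneg_right _ hnpos.le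
      linarith
    have h2 : 300 * y ^ 11 / (n : ℝ) = 300 / y ^ 9 := by
      rw [hN, show y ^ 20 = y ^ 9 * y ^ 11 by ring]
      field_simp
    have h3 : 1 / y ^ 10 ≤ 1 / y ^ 9 := one_div_le_one_div_of_le (by positivity)
      (pow_le_pow_right₀ (by linarith) (by norm_num))
    have h4 : 301 / y ^ 9 ≤ 1 / y ^ 8 := by
      rw [div_le_div_iff₀ (by positivity) (by positivity)]
      have h5 : 0 ≤ y ^ 8 := by positivity
      calc 301 * y ^ 8 ≤ y * y ^ 8 := mul_le_mul_of_nonneg_right (by linarith) h5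
        _ = 1 * y ^ 9 := by ring
    have h5 : 300 / y ^ 9 + 1 / y ^ 9 = 301 / y ^ 9 := by
      rw [← add_div]
      norm_num
    linarith
  · -- tiny
    have h1 : (1 : ℝ) ≤ n := by linarith
    rw [mul_one_div, div_le_one (by positivity)]
    exact pow_le_pow_right₀ h1 (by norm_num)

end Pool.Agent.H710.KU
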