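import Pool.Agent.H710.KU.St2

/-!
Final assembly.
-/

set_option autoImplicit false

namespace Pool.Agent.H710.KU

open Finset Equiv

namespace FinA

theorem exp_neg_le {t : ℝ} (h0 : 0 ≤ t) (h9 : t ≤ 9) : Real.exp (-t) ≤ 1 - t / 10 := by
  have h1 : 1 + t ≤ Real.exp t := by linarith [Real.add_one_le_exp t]
  have h2 : Real.exp (-t) * Real.exp t = 1 := by rw [← Real.exp_add]; simp
  have h3 : Real.exp (-t) * (1 + t) ≤ 1 := by
    calc Real.exp (-t) * (1 + t) ≤ Real.exp (-t) * Real.exp t :=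
          mul_le_mul_of_nonneg_left h1 (Real.exp_pos _).le
      _ = 1 := h2
  have h4 : 1 ≤ (1 - t / 10) * (1 + t) := by nlinarith
  have h5 : Real.exp (-t) * (1 + t) ≤ (1 - t / 10) * (1 + t) := h3.trans h4
  exact le_of_mul_le_mul_right h5 (by linarith)

theorem exp_le_add {t : ℝ} (h0 : 0 ≤ t) (h1 : t ≤ 1 / 2) : Real.exp t ≤ 1 + 2 * t := by
  have h2 : Real.exp (-t) * Real.exp t = 1 := by rw [← Real.exp_add]; simp
  have h3 : 1 - t ≤ Real.exp (-t) := by linarith [Real.add_one_le_exp (-t)]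
  have h4 : (1 - t) * Real.exp t ≤ 1 := by
    calc (1 - t) * Real.exp t ≤ Real.exp (-t) * Real.exp t :=
          mul_le_mul_of_nonneg_right h3 (Real.exp_pos _).le
      _ = 1 := h2
  have h5 : 1 ≤ (1 - t) * (1 + 2 * t) := by nlinarith
  exact le_of_mul_le_mul_left (h4.trans h5) (by linarith)

theorem exp9 : Real.exp (-9) ≤ 1 / 16 := by
  have h1 : (4 : ℝ) ≤ Real.exp 3 := by linarith [Real.add_one_le_exp (3 : ℝ)]
  have h2 : Real.exp 9 = Real.exp 3 ^ 3 := by rw [← Real.exp_nat_mul]; norm_num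
  have h3 : (16 : ℝ) ≤ Real.exp 9 := by
    rw [h2]
    calc (16 : ℝ) ≤ 4 ^ 3 := by norm_num
      _ ≤ Real.exp 3 ^ 3 := pow_le_pow_left₀ (by norm_num) h1 3
  rw [Real.exp_neg, ← one_div]
  exact one_div_le_one_div_of_le (by norm_num) h3

/-- the weight -/
noncomputable def W (n k : ℕ) : ℝ := Real.exp (-((k : ℝ) - n / 2) ^ 2 / n)

theorem W_pos (n k : ℕ) : 0 < W n k := Real.exp_pos _

theorem W_mid {n k : ℕ} (hn : 1 ≤ n) (h : |(k : ℝ) - n / 2| ≤ 3 * √n) :
    W n k ≤ 1 - ((k : ℝ) - n / 2) ^ 2 / (10 * n) := by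
  have hn0 : (0 : ℝ) < n := by exact_mod_cast hn
  have h1 : ((k : ℝ) - n / 2) ^ 2 ≤ 9 * n := by
    have h2 : |(k : ℝ) - n / 2| ^ 2 ≤ (3 * √n) ^ 2 := pow_le_pow_left₀ (abs_nonneg _) h 2
    rw [sq_abs, mul_pow, Real.sq_sqrt hn0.le] at h2
    linarith
  have h3 : ((k : ℝ) - n / 2) ^ 2 / n ≤ 9 := by rw [div_le_iff₀ hn0]; exact h1
  have h4 := exp_neg_le (t := ((k : ℝ) - n / 2) ^ 2 / n) (by positivity) h3
  unfold W
  have e1 : -((k : ℝ) - n / 2) ^ 2 / n = -(((k : ℝ) - n / 2) ^ 2 / n) := by ring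
  have e2 : ((k : ℝ) - n / 2) ^ 2 / (10 * n) = ((k : ℝ) - n / 2) ^ 2 / n / 10 := by
    field_simp
  rw [e1, e2]
  exact h4

theorem W_far {n k : ℕ} {c : ℝ} (hn : 1 ≤ n) (hc : 0 ≤ c) (h : √(c * n) ≤ |(k : ℝ) - n / 2|) :
    W n k ≤ Real.exp (-c) := by
  have hn0 : (0 : ℝ) < n := by exact_mod_cast hn
  have h1 : c * n ≤ ((k : ℝ) - n / 2) ^ 2 := by
    have h2 : (√(c * n)) ^ 2 ≤ |(k : ℝ) - n / 2| ^ 2 := pow_le_pow_left₀ (Real.sqrt_nonneg _) h 2
    rwa [sq_abs, Real.sq_sqrt (by positivity)] at h2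
  unfold W
  apply Real.exp_le_exp.mpr
  have e1 : -((k : ℝ) - n / 2) ^ 2 / n = -(((k : ℝ) - n / 2) ^ 2 / n) := by ring
  rw [e1]
  apply neg_le_neg
  rw [le_div_iff₀ hn0]
  exact h1

theorem UF_mono {n : ℕ} {F G : Fam n} (h : UF F) (hG : G ⊆ F) : UF G :=
  fun A hA B hB C hC => h A (hG hA) B (hG hB) C (hG hC)

/-- a non-empty level of a chain -/
theorem miss_of {n : ℕ} {Fm G : Fam n} {r : Perm (Fin n)} (p : ℝ → Prop) (hs : Fm ⊆ G)
    (hp : ∀ A ∈ Fm, ¬ p A.card) (h : ∀ k : ℕ, P r k ∈ G → p k) : Miss Fm r := by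
  intro k hk
  have h1 := hp _ hk
  have h2 : P r (P r k).card = P r k := by
    rw [card_P']
    ext e
    rw [mem_P, mem_P]
    have := (r e).isLt
    constructor <;> intro _ <;> omega
  have h3 := h (P r k).card (by rw [h2]; exact hs hk)
  exact h1 h3

section

variable (n : ℕ) (F : Fam n)

/-- middle -/
noncomputable def Fm : Fam n :=
  @Finset.filter _ (fun A => |(A.card : ℝ) - n / 2| ≤ 3 * √n) (Classical.decPred _) F
/-- middle and lower -/
noncomputable def F3 : Fam n :=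
  @Finset.filter _ (fun A => (n : ℝ) / 2 - 2 * √(n * Real.log n) ≤ A.card ∧
    (A.card : ℝ) ≤ n / 2 + 3 * √n) (Classical.decPred _) F
/-- middle and upper -/
noncomputable def F2 : Fam n :=
  @Finset.filter _ (fun A => (n : ℝ) / 2 - 3 * √n ≤ A.card ∧
    (A.card : ℝ) ≤ n / 2 + 2 * √(n * Real.log n)) (Classical.decPred _) F

end

variable {n : ℕ} {F : Fam n}

theorem mem_Fm {A : Finset (Fin n)} :
    A ∈ Fm n F ↔ A ∈ F ∧ |(A.card : ℝ) - n / 2| ≤ 3 * √n := by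
  unfold Fm; exact @Finset.mem_filter _ _ (Classical.decPred _) _ _

theorem mem_F3 {A : Finset (Fin n)} : A ∈ F3 n F ↔ A ∈ F ∧
    ((n : ℝ) / 2 - 2 * √(n * Real.log n) ≤ A.card ∧ (A.card : ℝ) ≤ n / 2 + 3 * √n) := by
  unfold F3; exact @Finset.mem_filter _ _ (Classical.decPred _) _ _

theorem mem_F2 {A : Finset (Fin n)} : A ∈ F2 n F ↔ A ∈ F ∧
    ((n : ℝ) / 2 - 3 * √n ≤ A.card ∧ (A.card : ℝ) ≤ n / 2 + 2 * √(n * Real.log n)) := by
  unfold F2; exact @Finset.mem_filter _ _ (Classical.decPred _) _ _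

theorem sqrt_le_aux (hn : 16 ≤ n) : 3 * √(n : ℝ) ≤ 2 * √(n * Real.log n) := by
  have hn0 : (0 : ℝ) < n := by
    have : 0 < n := by omega
    exact_mod_cast this
  have h16 : (16 : ℝ) ≤ n := by exact_mod_cast hn
  have h1 : (9 : ℝ) / 4 ≤ Real.log n := by
    have h2 : Real.log 16 ≤ Real.log n := Real.log_le_log (by norm_num) h16
    have h3 : Real.log 16 = 4 * Real.log 2 := by
      rw [show (16 : ℝ) = 2 ^ 4 by norm_num, Real.log_pow]; norm_num
    have h4 := Real.log_two_gt_d9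
    linarith
  have h5 : 3 * √(n : ℝ) = √(9 * n) := by
    rw [Real.sqrt_mul (by norm_num), show (9 : ℝ) = 3 ^ 2 by norm_num, Real.sqrt_sq (by norm_num)]
  have h6 : 2 * √(n * Real.log n) = √(4 * (n * Real.log n)) := by
    rw [Real.sqrt_mul (by norm_num) (n * Real.log n), show (4 : ℝ) = 2 ^ 2 by norm_num,
      Real.sqrt_sq (by norm_num)]
  rw [h5, h6]
  apply Real.sqrt_le_sqrt
  nlinarith

theorem Fm_sub_F3 (hn : 16 ≤ n) : Fm n F ⊆ F3 n F := by
  intro A hA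
  rw [mem_Fm] at hA
  rw [mem_F3]
  have h1 := abs_le.mp hA.2
  have h2 := sqrt_le_aux hn
  exact ⟨hA.1, by linarith [h1.1], by linarith [h1.2]⟩

theorem Fm_sub_F2 (hn : 16 ≤ n) : Fm n F ⊆ F2 n F := by
  intro A hA
  rw [mem_Fm] at hA
  rw [mem_F2]
  have h1 := abs_le.mp hA.2
  have h2 := sqrt_le_aux hn
  exact ⟨hA.1, by linarith [h1.1], by linarith [h1.2]⟩

theorem W_out (hn : 1 ≤ n) {k : ℕ} (h : 2 * √(n * Real.log n) < |(k : ℝ) - n / 2|) :
    W n k ≤ 1 / (n : ℝ) ^ 4 := by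
  have hn0 : (0 : ℝ) < n := by exact_mod_cast hn
  have hlog : 0 ≤ Real.log n := Real.log_nonneg (by exact_mod_cast hn)
  have h1 := W_far (n := n) (k := k) (c := 4 * Real.log n) hn (by positivity) (by
    refine le_trans (le_of_eq ?_) h.le
    rw [show 4 * Real.log n * n = 4 * (n * Real.log n) by ring, Real.sqrt_mul (by norm_num),
      show (4 : ℝ) = 2 ^ 2 by norm_num, Real.sqrt_sq (by norm_num)])
  refine h1.trans (le_of_eq ?_)
  rw [Real.exp_neg, show (4 : ℝ) * Real.log n = Real.log ((n : ℝ) ^ 4) by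
    rw [Real.log_pow]; norm_num, Real.exp_log (by positivity), one_div]

theorem W_nine (hn : 1 ≤ n) {k : ℕ} (h : 3 * √(n : ℝ) < |(k : ℝ) - n / 2|) :
    W n k ≤ 1 / 16 := by
  have h1 := W_far (n := n) (k := k) (c := 9) hn (by norm_num) (by
    refine le_trans (le_of_eq ?_) h.le
    rw [Real.sqrt_mul (by norm_num), show (9 : ℝ) = 3 ^ 2 by norm_num, Real.sqrt_sq (by norm_num)])
  exact h1.trans exp9

/-- splitting of one term -/
theorem split (hn : 16 ≤ n) (r : Perm (Fin n)) {k : ℕ} (hk : k ≤ n) :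
    W n k * ind (P r k ∈ F) ≤
      (ind (P r k ∈ Fm n F) - ((k : ℝ) - n / 2) ^ 2 / (10 * n) * ind (P r k ∈ Fm n F)) +
      W n k * ind (P r k ∈ F3 n F ∧ (k : ℝ) < n / 2 - 3 * √n) +
      1 / 16 * ind (P r k ∈ F2 n F ∧ (n : ℝ) / 2 + 3 * √n < k) + 1 / (n : ℝ) ^ 4 := by
  have hn1 : 1 ≤ n := by omega
  have hn0 : (0 : ℝ) < n := by exact_mod_cast hn1
  have hW := W_pos n k
  have hcard : ((P r k).card : ℝ) = k := by rw [card_P r k hk]
  have hp4 : 0 ≤ 1 / (n : ℝ) ^ 4 := by positivity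
  have t3 : 0 ≤ W n k * ind (P r k ∈ F3 n F ∧ (k : ℝ) < n / 2 - 3 * √n) :=
    mul_nonneg hW.le (ind_nonneg _)
  have t2 : 0 ≤ 1 / 16 * ind (P r k ∈ F2 n F ∧ (n : ℝ) / 2 + 3 * √n < k) :=
    mul_nonneg (by norm_num) (ind_nonneg _)
  by_cases hF : P r k ∈ F
  · rw [ind_true hF, mul_one]
    by_cases hm : |(k : ℝ) - n / 2| ≤ 3 * √n
    · have h1 : P r k ∈ Fm n F := mem_Fm.mpr ⟨hF, by rw [hcard]; exact hm⟩
      rw [ind_true h1, mul_one]
      have := W_mid hn1 hm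
      linarith
    · have h1 : P r k ∉ Fm n F := fun h => hm (by have := (mem_Fm.mp h).2; rwa [hcard] at this)
      rw [ind_false h1, mul_zero, sub_zero, zero_add]
      push Not at hm
      by_cases hout : 2 * √(n * Real.log n) < |(k : ℝ) - n / 2|
      · have := W_out hn1 hout
        linarith
      · push Not at hout
        rcases lt_or_ge ((k : ℝ) - n / 2) 0 with hneg | hpos
        · rw [abs_of_neg hneg] at hm hout
          have h3 : P r k ∈ F3 n F ∧ (k : ℝ) < n / 2 - 3 * √n := by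
            refine ⟨mem_F3.mpr ⟨hF, ?_, ?_⟩, by linarith⟩
            · rw [hcard]; linarith
            · rw [hcard]; have := Real.sqrt_nonneg (n : ℝ); linarith
          rw [ind_true h3, mul_one]
          linarith
        · have hm' := hm
          rw [abs_of_nonneg hpos] at hm hout
          have h3 : P r k ∈ F2 n F ∧ (n : ℝ) / 2 + 3 * √n < k := by
            refine ⟨mem_F2.mpr ⟨hF, ?_, ?_⟩, by linarith⟩
            · rw [hcard]; have := Real.sqrt_nonneg (n : ℝ); linarith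
            · rw [hcard]; linarith
          rw [ind_true h3, mul_one]
          have := W_nine hn1 hm'
          linarith
  · rw [ind_false hF, mul_zero]
    have h1 : P r k ∉ Fm n F := fun h => hF (mem_Fm.mp h).1
    rw [ind_false h1, mul_zero]
    linarith

/-- the main estimate -/
theorem main (hn : 16 ≤ n) (hF : UF F) (C₁ C₃ : ℝ)
    (H1 : n * ∑ r : Perm (Fin n), (NN (Fm n F) r - 1 + ind (Miss (Fm n F) r)) ≤
      1 / 4 * (n * ∑ r : Perm (Fin n), ind (Miss (Fm n F) r)) +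
      1 / 40 * (∑ r : Perm (Fin n), ∑ k ∈ range (n + 1),
        ((k : ℝ) - n / 2) ^ 2 * ind (P r k ∈ Fm n F)) +
      C₁ * (n.factorial : ℝ))
    (H2 : ∑ r : Perm (Fin n), ∑ k ∈ range (n + 1),
        ind (P r k ∈ F2 n F ∧ (n : ℝ) / 2 + 3 * √n < k) ≤
      2 * ∑ r : Perm (Fin n), ind (∀ k : ℕ, P r k ∈ F2 n F → (n : ℝ) / 2 + 3 * √n < k))
    (H3 : n * ∑ r : Perm (Fin n), ∑ k ∈ range (n + 1), Real.exp (-((k : ℝ) - n / 2) ^ 2 / n) *
        ind (P r k ∈ F3 n F ∧ (k : ℝ) < n / 2 - 3 * √n) ≤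
      1 / 8 * (n * ∑ r : Perm (Fin n),
        ind (∀ k : ℕ, P r k ∈ F3 n F → (k : ℝ) < n / 2 - 3 * √n)) + C₃ * (n.factorial : ℝ)) :
    n * ∑ r : Perm (Fin n), ∑ k ∈ range (n + 1), W n k * ind (P r k ∈ F) ≤
      (n.factorial : ℝ) * (n + (C₁ + C₃ + 2)) := by
  have hn1 : 1 ≤ n := by omega
  have hn0 : (0 : ℝ) < n := by exact_mod_cast hn1
  set f : ℝ := (n.factorial : ℝ) with hf
  have hf0 : 0 ≤ f := Nat.cast_nonneg _
  set Z := ∑ r : Perm (Fin n), ind (Miss (Fm n F) r) with hZ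
  have hZ0 : 0 ≤ Z := Finset.sum_nonneg fun _ _ => ind_nonneg _
  set V := ∑ r : Perm (Fin n), ∑ k ∈ range (n + 1),
        ((k : ℝ) - n / 2) ^ 2 * ind (P r k ∈ Fm n F) with hV
  have hV0 : 0 ≤ V := Finset.sum_nonneg fun _ _ => Finset.sum_nonneg fun _ _ =>
    mul_nonneg (sq_nonneg _) (ind_nonneg _)
  have hcard1 : ∑ _r : Perm (Fin n), (1 : ℝ) = f := by
    rw [Finset.sum_const, Finset.card_univ, Fintype.card_perm, Fintype.card_fin,
            nsmul_eq_mul, mul_one]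
  set N := ∑ r : Perm (Fin n), NN (Fm n F) r with hN
  have h1' : n * N ≤ n * f - 3 / 4 * (n * Z) + V / 40 + C₁ * f := by
    have e1 : ∑ r : Perm (Fin n), (NN (Fm n F) r - 1 + ind (Miss (Fm n F) r)) = N - f + Z := by
      rw [Finset.sum_add_distrib, Finset.sum_sub_distrib, hcard1]
    rw [e1] at H1
    nlinarith
  have h2' : ∑ r : Perm (Fin n), ∑ k ∈ range (n + 1),
        ind (P r k ∈ F2 n F ∧ (n : ℝ) / 2 + 3 * √n < k) ≤ 2 * Z := by
    refine H2.trans ?_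
    apply mul_le_mul_of_nonneg_left _ (by norm_num)
    refine Finset.sum_le_sum fun r _ => ind_mono fun h => ?_
    refine miss_of (G := F2 n F) (fun x => (n : ℝ) / 2 + 3 * √n < x) (Fm_sub_F2 hn) ?_ h
    intro A hA h'
    have := (abs_le.mp (mem_Fm.mp hA).2).2
    linarith
  have h3' : n * ∑ r : Perm (Fin n), ∑ k ∈ range (n + 1), W n k *
        ind (P r k ∈ F3 n F ∧ (k : ℝ) < n / 2 - 3 * √n) ≤ 1 / 8 * (n * Z) + C₃ * f := by
    refine H3.trans ?_
    apply add_le_add_left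
    apply mul_le_mul_of_nonneg_left _ (by norm_num)
    apply mul_le_mul_of_nonneg_left _ hn0.le
    refine Finset.sum_le_sum fun r _ => ind_mono fun h => ?_
    refine miss_of (G := F3 n F) (fun x => x < (n : ℝ) / 2 - 3 * √n) (Fm_sub_F3 hn) ?_ h
    intro A hA h'
    have := (abs_le.mp (mem_Fm.mp hA).2).1
    linarith
  have h4 : ∑ r : Perm (Fin n), ∑ k ∈ range (n + 1), W n k * ind (P r k ∈ F) ≤
      (N - V / (10 * n)) + ∑ r : Perm (Fin n), ∑ k ∈ range (n + 1), W n k *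
        ind (P r k ∈ F3 n F ∧ (k : ℝ) < n / 2 - 3 * √n) +
      1 / 16 * ∑ r : Perm (Fin n), ∑ k ∈ range (n + 1),
        ind (P r k ∈ F2 n F ∧ (n : ℝ) / 2 + 3 * √n < k) + f * ((n + 1) * (1 / (n : ℝ) ^ 4)) := by
    have h5 : ∑ r : Perm (Fin n), ∑ k ∈ range (n + 1), W n k * ind (P r k ∈ F) ≤
        ∑ r : Perm (Fin n), ∑ k ∈ range (n + 1),
        ((ind (P r k ∈ Fm n F) - ((k : ℝ) - n / 2) ^ 2 / (10 * n) * ind (P r k ∈ Fm n F)) +
      W n k * ind (P r k ∈ F3 n F ∧ (k : ℝ) < n / 2 - 3 * √n) +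
      1 / 16 * ind (P r k ∈ F2 n F ∧ (n : ℝ) / 2 + 3 * √n < k) + 1 / (n : ℝ) ^ 4) := by
      refine Finset.sum_le_sum fun r _ => Finset.sum_le_sum fun k hk => split hn r ?_
      rw [Finset.mem_range] at hk; omega
    refine h5.trans (le_of_eq ?_)
    have e1 : ∀ r : Perm (Fin n), ∑ k ∈ range (n + 1),
        ((ind (P r k ∈ Fm n F) - ((k : ℝ) - n / 2) ^ 2 / (10 * n) * ind (P r k ∈ Fm n F)) +
      W n k * ind (P r k ∈ F3 n F ∧ (k : ℝ) < n / 2 - 3 * √n) +
      1 / 16 * ind (P r k ∈ F2 n F ∧ (n : ℝ) / 2 + 3 * √n < k) + 1 / (n : ℝ) ^ 4) =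
      (NN (Fm n F) r - (∑ k ∈ range (n + 1), ((k : ℝ) - n / 2) ^ 2 * ind (P r k ∈ Fm n F)) /
        (10 * n)) + ∑ k ∈ range (n + 1), W n k *
        ind (P r k ∈ F3 n F ∧ (k : ℝ) < n / 2 - 3 * √n) +
      1 / 16 * ∑ k ∈ range (n + 1), ind (P r k ∈ F2 n F ∧ (n : ℝ) / 2 + 3 * √n < k) +
      (n + 1) * (1 / (n : ℝ) ^ 4) := by
      intro r
      rw [Finset.sum_add_distrib, Finset.sum_add_distrib, Finset.sum_add_distrib,
        Finset.sum_sub_distrib, Finset.sum_const, Finset.card_range, nsmul_eq_mul,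
        ← Finset.mul_sum, Finset.sum_div]
      unfold NN
      push_cast
      have e2 : ∑ k ∈ range (n + 1), ((k : ℝ) - n / 2) ^ 2 / (10 * n) * ind (P r k ∈ Fm n F) =
          ∑ k ∈ range (n + 1), ((k : ℝ) - n / 2) ^ 2 * ind (P r k ∈ Fm n F) / (10 * n) :=
        Finset.sum_congr rfl fun k _ => by ring
      rw [e2]
    rw [Finset.sum_congr rfl fun r _ => e1 r, Finset.sum_add_distrib, Finset.sum_add_distrib,
      Finset.sum_add_distrib, Finset.sum_sub_distrib, ← Finset.sum_div, ← Finset.mul_sum,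
      Finset.sum_const, Finset.card_univ, Fintype.card_perm, Fintype.card_fin, nsmul_eq_mul]
  have h6 : n * (f * ((n + 1) * (1 / (n : ℝ) ^ 4))) ≤ 2 * f := by
    have h16 : (16 : ℝ) ≤ n := by exact_mod_cast hn
    have h7 : n * ((n + 1) * (1 / (n : ℝ) ^ 4)) ≤ 2 := by
      rw [show n * ((n + 1) * (1 / (n : ℝ) ^ 4)) = (n * (n + 1)) / (n : ℝ) ^ 4 by ring,
        div_le_iff₀ (by positivity)]
      have h8 : (n : ℝ) ^ 4 = n ^ 2 * n ^ 2 := by ring
      rw [h8]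
      have h9 : (n : ℝ) ≤ n ^ 2 := by nlinarith
      have h10 : (1 : ℝ) ≤ n ^ 2 := by nlinarith
      have h11 : (n : ℝ) ^ 2 * 1 ≤ n ^ 2 * n ^ 2 :=
        mul_le_mul_of_nonneg_left h10 (by positivity)
      nlinarith
    nlinarith
  have h9 : n * (V / (10 * n)) = V / 10 := by field_simp
  have h10 := mul_le_mul_of_nonneg_left h4 hn0.le
  have h11 := mul_le_mul_of_nonneg_left h2' (show (0 : ℝ) ≤ n * (1 / 16) by positivity)
  nlinarith

end FinA

open FinA in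
theorem fin (h1 : S_St1) (h2 : S_St2) (h3 : S_St3) (h5 : S_B5) (h6 : S_B6) : S_Fin := by
  obtain ⟨C₁, n₁, H1⟩ := h1
  obtain ⟨n₂, H2⟩ := h2
  obtain ⟨C₃, n₃, H3⟩ := h3
  set C : ℝ := max 0 (C₁ + C₃ + 2) with hC
  have hC0 : 0 ≤ C := le_max_left _ _
  have hC1 : C₁ + C₃ + 2 ≤ C := le_max_right _ _
  refine ⟨1 + 2 * C, max 16 (max n₁ (max n₂ n₃)), ?_⟩
  intro n hn F hF
  have hn16 : 16 ≤ n := le_trans (le_max_left _ _) hn
  have hn1' : n₁ ≤ n := le_trans (le_trans (le_max_left _ _) (le_max_right _ _)) hn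
  have hn2' : n₂ ≤ n :=
    le_trans (le_trans (le_max_left _ _) (le_trans (le_max_right _ _) (le_max_right _ _))) hn
  have hn3' : n₃ ≤ n :=
    le_trans (le_trans (le_max_right _ _) (le_trans (le_max_right _ _) (le_max_right _ _))) hn
  have hn1 : 1 ≤ n := by omega
  have hn0 : (0 : ℝ) < n := by exact_mod_cast hn1
  have hone : (1 : ℝ) ≤ n := by exact_mod_cast hn1
  have hfm : UF (Fm n F) := UF_mono hF (fun A hA => (mem_Fm.mp hA).1)
  have hf2 : UF (F2 n F) := UF_mono hF (fun A hA => (mem_F2.mp hA).1)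
  have hf3 : UF (F3 n F) := UF_mono hF (fun A hA => (mem_F3.mp hA).1)
  have hmain := main hn16 hF C₁ C₃ (H1 n hn1' _ hfm fun A hA => (mem_Fm.mp hA).2)
    (H2 n hn2' _ hf2 fun A hA => (mem_F2.mp hA).2) (H3 n hn3' _ hf3 fun A hA => (mem_F3.mp hA).2)
  set f : ℝ := (n.factorial : ℝ) with hf
  have hf0 : 0 < f := by rw [hf]; exact_mod_cast Nat.factorial_pos n
  set Y := ∑ r : Perm (Fin n), ∑ k ∈ range (n + 1), W n k * ind (P r k ∈ F) with hY
  set c : ℝ := (n.choose (n / 2) : ℝ) with hc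
  have hc0 : 0 ≤ c := Nat.cast_nonneg _
  have hY0 : 0 ≤ Y := Finset.sum_nonneg fun _ _ => Finset.sum_nonneg fun _ _ =>
    mul_nonneg (W_pos _ _).le (ind_nonneg _)
  have hexp : Real.exp (1 / (4 * n)) ≤ 1 + 1 / n := by
    have h7 := exp_le_add (t := 1 / (4 * (n : ℝ))) (by positivity) (by
      rw [div_le_div_iff₀ (by positivity) (by norm_num)]; linarith)
    refine h7.trans ?_
    have h8 : 2 * (1 / (4 * (n : ℝ))) ≤ 1 / n := by
      rw [show 2 * (1 / (4 * (n : ℝ))) = 1 / 2 * (1 / n) by ring]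
      have : 0 ≤ 1 / (n : ℝ) := by positivity
      linarith
    linarith
  have hB : (F.card : ℝ) * f ≤ c * (Real.exp (1 / (4 * n)) * Y) := by
    rw [h5 n F, hY, Finset.mul_sum, Finset.mul_sum]
    refine Finset.sum_le_sum fun r _ => ?_
    rw [Finset.mul_sum, Finset.mul_sum]
    refine Finset.sum_le_sum fun k hk => ?_
    rw [Finset.mem_range] at hk
    have h7 := h6 n k hn1 (by omega)
    have e1 : Real.exp (-((((k : ℝ) - n / 2) ^ 2 - 1 / 4) / n)) =
        Real.exp (1 / (4 * n)) * W n k := by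
      unfold W
      rw [← Real.exp_add]
      congr 1
      field_simp
      ring
    rw [e1] at h7
    calc (n.choose k : ℝ) * ind (P r k ∈ F)
        ≤ (c * (Real.exp (1 / (4 * n)) * W n k)) * ind (P r k ∈ F) :=
          mul_le_mul_of_nonneg_right h7 (ind_nonneg _)
      _ = _ := by ring
  have hY1 : Y ≤ f * (1 + C / n) := by
    have h7 : n * Y ≤ n * (f * (1 + C / n)) := by
      refine hmain.trans ?_
      have h8 : n * (f * (1 + C / n)) = f * (n + C) := by field_simp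
      rw [h8]
      apply mul_le_mul_of_nonneg_left _ hf0.le
      linarith
    exact le_of_mul_le_mul_left h7 hn0
  have hfin : (F.card : ℝ) * f ≤ (c * (1 + (1 + 2 * C) / n)) * f := by
    refine hB.trans ?_
    have h7 : Real.exp (1 / (4 * n)) * Y ≤ (1 + 1 / n) * (f * (1 + C / n)) :=
      mul_le_mul hexp hY1 hY0 (by positivity)
    have h8 : (1 + 1 / (n : ℝ)) * (1 + C / n) ≤ 1 + (1 + 2 * C) / n := by
      have h9 : (1 + 1 / (n : ℝ)) * (1 + C / n) = 1 + 1 / n + C / n + C / n * (1 / n) := by ring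
      have h10 : C / n * (1 / (n : ℝ)) ≤ C / n * 1 := by
        apply mul_le_mul_of_nonneg_left _ (by positivity)
        rw [div_le_one hn0]; exact hone
      have h11 : (1 + 2 * C) / (n : ℝ) = 1 / n + C / n + C / n := by ring
      rw [h9, h11]
      linarith
    calc c * (Real.exp (1 / (4 * n)) * Y) ≤ c * ((1 + 1 / n) * (f * (1 + C / n))) :=
          mul_le_mul_of_nonneg_left h7 hc0
      _ = c * f * ((1 + 1 / (n : ℝ)) * (1 + C / n)) := by ring
      _ ≤ c * f * (1 + (1 + 2 * C) / n) := mul_le_mul_of_nonneg_left h8 (by positivity)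
      _ = _ := by ring
  exact le_of_mul_le_mul_right hfin hf0

end Pool.Agent.H710.KU
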