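import Pool.Agent.H710.KU.St2

set_option autoImplicit false

namespace Pool.Agent.H710.KU

open Finset

/-- from large `n` to all `n`. -/
theorem final (h : S_Fin) : ∃ c : ℝ, ∀ n : ℕ, ∀ F : Finset (Finset (Fin n)),
      (∀ A ∈ F, ∀ B ∈ F, ∀ C ∈ F, A ≠ B → A ≠ C → B ≠ C → A ∪ B ≠ C) →
      (F.card : ℝ) ≤ (n.choose (n / 2) : ℝ) * (1 + c / (n : ℝ)) := by
  obtain ⟨C₁, n₀, hC⟩ := h
  refine ⟨max C₁ 0 + (n₀ : ℝ) * 2 ^ n₀, ?_⟩
  intro n F hF
  have hchoose : (1 : ℝ) ≤ (n.choose (n / 2) : ℝ) := by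
    exact_mod_cast Nat.choose_pos (Nat.div_le_self n 2)
  have hc0 : (0 : ℝ) ≤ max C₁ 0 := le_max_right _ _
  have hc1 : (0 : ℝ) ≤ (n₀ : ℝ) * 2 ^ n₀ := by positivity
  rcases Nat.eq_zero_or_pos n with hn | hn
  · subst hn
    have h1 : F.card ≤ 1 := by
      have := Finset.card_le_univ F
      simpa using this
    have h2 : (F.card : ℝ) ≤ 1 := by exact_mod_cast h1
    simpa using h2
  · have hnR : (0 : ℝ) < n := by exact_mod_cast hn
    by_cases hlt : n₀ ≤ n
    · refine le_trans (hC n hlt F hF) ?_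
      apply mul_le_mul_of_nonneg_left _ (by linarith)
      have h1 : C₁ / n ≤ (max C₁ 0 + (n₀ : ℝ) * 2 ^ n₀) / n := by
        apply div_le_div_of_nonneg_right _ hnR.le
        have := le_max_left C₁ 0
        linarith
      linarith
    · push Not at hlt
      have h1 : F.card ≤ 2 ^ n := by
        have := Finset.card_le_univ F
        simpa using this
      have h2 : (F.card : ℝ) ≤ 2 ^ n := by exact_mod_cast h1
      have h3 : (2 : ℝ) ^ n ≤ 2 ^ n₀ := pow_le_pow_right₀ (by norm_num) hlt.le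
      have h4 : (2 : ℝ) ^ n₀ ≤ (max C₁ 0 + (n₀ : ℝ) * 2 ^ n₀) / n := by
        rw [le_div_iff₀ hnR]
        have h5 : (n : ℝ) ≤ n₀ := by exact_mod_cast hlt.le
        have h6 : (0 : ℝ) ≤ 2 ^ n₀ := by positivity
        have h7 := mul_le_mul_of_nonneg_left h5 h6
        linarith
      have h5 : (1 : ℝ) * (1 + (max C₁ 0 + (n₀ : ℝ) * 2 ^ n₀) / n) ≤
          (n.choose (n / 2) : ℝ) * (1 + (max C₁ 0 + (n₀ : ℝ) * 2 ^ n₀) / n) := by
        apply mul_le_mul_of_nonneg_right hchoose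
        have : 0 ≤ (max C₁ 0 + (n₀ : ℝ) * 2 ^ n₀) / n := by positivity
        linarith
      linarith

end Pool.Agent.H710.KU
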