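import Pool.Agent.H710.KU.St2

/-! KU: G1 (total number of hits) and G2 (dead elements). -/

set_option autoImplicit false

namespace Pool.Agent.H710.KU

open Finset Equiv

theorem G12.sum_ind_le_one {s : Finset ℕ} {p : ℕ → Prop} (h : ∀ a b, p a → p b → a = b) :
    ∑ k ∈ s, ind (p k) ≤ 1 := by
  by_cases hex : ∃ a ∈ s, p a
  · obtain ⟨a, ha, hpa⟩ := hex
    rw [Finset.sum_eq_single a]
    · exact ind_le_one _
    · intro b _ hb
      exact ind_false fun hpb => hb (h b a hpb hpa)
    · intro h'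
      exact absurd ha h'
  · have : ∀ a ∈ s, ind (p a) = 0 := fun a ha => ind_false fun hpa => hex ⟨a, ha, hpa⟩
    rw [Finset.sum_eq_zero this]
    exact zero_le_one

theorem G12.sum_one (n : ℕ) : ∑ _r : Perm (Fin n), (1 : ℝ) = (n.factorial : ℝ) := by
  rw [Finset.sum_const, Finset.card_univ, Fintype.card_perm, Fintype.card_fin, nsmul_eq_mul, mul_one]

theorem g1 (h : S_Kl) : S_G1 := by
  intro n F S lo hi H K0 q ε hE
  have hlohi := hE.lohi
  have hhn : hi < n := by have := hE.hHn; have := hE.hH; omega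
  have hJ : (((hi - lo : ℕ) : ℝ)) = (hi : ℝ) - lo := by
    rw [Nat.cast_sub hlohi]
  have hnpos : (0 : ℝ) < n := by
    have : 0 < n := by omega
    exact_mod_cast this
  set p : ℝ := 12 * (((hi - lo : ℕ) : ℝ) + 1) / n with hp
  have hp0 : 0 ≤ p := by positivity
  have hpq : p ≤ q := by
    have h1 := hE.hq
    rw [← hJ] at h1
    have h2 : 0 ≤ 1 / Real.sqrt n := by positivity
    linarith
  have hKl := h n F S lo hi (hi - lo) K0 q ε (fun _ => 1) hE.lev hhn hE.n3 hE.good hE.K0nn hE.εnn hE.q1 hpq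
    (fun _ => zero_le_one)
  simp only [one_mul] at hKl
  have hsmall : p + ε + K0 * p ^ 2 ≤ 1 / 4 := by
    refine le_trans ?_ hE.small
    have : K0 * p ^ 2 ≤ K0 * q ^ 2 := mul_le_mul_of_nonneg_left (pow_le_pow_left₀ hp0 hpq 2) hE.K0nn
    linarith
  -- the pointwise inequality
  have hpt : ∀ r : Perm (Fin n), NN F r ≤ 1 + ∑ k ∈ range (n + 1),
      ind (P r k ∈ F ∧ ∃ a < k, k ≤ a + (hi - lo) ∧ P r a ∈ F) := by
    intro r
    have h1 : NN F r ≤ ∑ k ∈ range (n + 1), (ind (Low F r k) +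
        ind (P r k ∈ F ∧ ∃ a < k, k ≤ a + (hi - lo) ∧ P r a ∈ F)) := by
      unfold NN
      apply Finset.sum_le_sum
      intro k _
      by_cases hk : P r k ∈ F
      · by_cases hL : Low F r k
        · rw [ind_true hk, ind_true hL]
          linarith [ind_nonneg (P r k ∈ F ∧ ∃ a < k, k ≤ a + (hi - lo) ∧ P r a ∈ F)]
        · have hex : ∃ a < k, P r a ∈ F := by
            by_contra hno
            push Not at hno
            exact hL ⟨hk, hno⟩
          obtain ⟨a, hak, ha⟩ := hex
          have l1 := hit_level hE.lev hhn hk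
          have l2 := hit_level hE.lev hhn ha
          have h3 : P r k ∈ F ∧ ∃ a < k, k ≤ a + (hi - lo) ∧ P r a ∈ F := ⟨hk, a, hak, by omega, ha⟩
          rw [ind_true hk, ind_true h3]
          linarith [ind_nonneg (Low F r k)]
      · rw [ind_false hk]
        exact add_nonneg (ind_nonneg _) (ind_nonneg _)
    rw [Finset.sum_add_distrib] at h1
    have h2 := G12.sum_ind_le_one (s := range (n + 1)) (p := fun k => Low F r k) fun a b ha hb => Low_unique ha hb
    linarith
  have hsum := Finset.sum_le_sum (s := (univ : Finset (Perm (Fin n)))) fun r _ => hpt r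
  rw [Finset.sum_add_distrib, G12.sum_one] at hsum
  have hNN : ∑ r : Perm (Fin n), ∑ k ∈ range (n + 1), ind (P r k ∈ F) = ∑ r : Perm (Fin n), NN F r := rfl
  rw [hNN] at hKl
  have hNN0 : 0 ≤ ∑ r : Perm (Fin n), NN F r :=
    Finset.sum_nonneg fun r _ => Finset.sum_nonneg fun k _ => ind_nonneg _
  have hfin : 2 * (p + ε + K0 * p ^ 2) * ∑ r : Perm (Fin n), NN F r ≤
      1 / 2 * ∑ r : Perm (Fin n), NN F r := mul_le_mul_of_nonneg_right (by linarith) hNN0
  linarith

theorem g2 (h : S_C1) : S_G2 := by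
  intro n F S lo hi H K0 q ε hE
  have hlohi := hE.lohi
  have hH := hE.hH
  have hHn := hE.hHn
  have hhn : hi < n := by omega
  -- reindex by positions
  have h1 : ∀ r : Perm (Fin n), ∑ a ∈ range (n + 1), ∑ x : Fin n, ind (Low F r a ∧ x ∉ P r H ∧ LL F lo r a x) ≤
      ∑ i : Fin n, ind (H ≤ (i : ℕ)) * ∑ a ∈ range ((i : ℕ) + 1), ind (Low F r a ∧ LL F lo r a (r.symm i)) := by
    intro r
    rw [Finset.sum_comm]
    rw [← Equiv.sum_comp r.symm fun x => ∑ a ∈ range (n + 1), ind (Low F r a ∧ x ∉ P r H ∧ LL F lo r a x)]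
    apply Finset.sum_le_sum
    intro i _
    have hmem : r.symm i ∉ P r H ↔ H ≤ (i : ℕ) := by
      rw [mem_P, Equiv.apply_symm_apply, not_lt]
    by_cases hi' : H ≤ (i : ℕ)
    · rw [ind_true hi', one_mul]
      have hsub : range ((i : ℕ) + 1) ⊆ range (n + 1) := by
        apply Finset.range_subset_range.2
        have := i.isLt
        omega
      rw [← Finset.sum_subset hsub]
      · apply Finset.sum_le_sum
        intro a _
        exact ind_mono fun h => ⟨h.1, h.2.2⟩
      · intro a _ ha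
        apply ind_false
        rintro ⟨hL, -, -⟩
        have := hit_level hE.lev hhn hL.1
        rw [Finset.mem_range] at ha
        omega
    · rw [ind_false hi', zero_mul]
      apply le_of_eq
      apply Finset.sum_eq_zero
      intro a _
      exact ind_false fun h => hi' (hmem.1 h.2.1)
  have h2 := Finset.sum_le_sum (s := (univ : Finset (Perm (Fin n)))) fun r _ => h1 r
  refine h2.trans ?_
  rw [Finset.sum_comm]
  have hlo0 : (0 : ℝ) < (lo : ℝ) + 1 := by positivity
  have hfac : (0 : ℝ) ≤ (n.factorial : ℝ) := by positivity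
  have h3 : ∀ i : Fin n, ∑ r : Perm (Fin n), ind (H ≤ (i : ℕ)) *
      ∑ a ∈ range ((i : ℕ) + 1), ind (Low F r a ∧ LL F lo r a (r.symm i)) ≤
      ind (H ≤ (i : ℕ)) * ((n.factorial : ℝ) / (lo + 1)) := by
    intro i
    rw [← Finset.mul_sum]
    by_cases hi' : H ≤ (i : ℕ)
    · apply mul_le_mul_of_nonneg_left _ (ind_nonneg _)
      rw [le_div_iff₀ hlo0, mul_comm]
      exact h n F lo i (fun A hA => (hE.lev A hA).1) (by omega)
    · rw [ind_false hi', zero_mul, zero_mul]
  refine (Finset.sum_le_sum fun i _ => h3 i).trans ?_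
  rw [← Finset.sum_mul]
  have h4 : ∑ i : Fin n, ind (H ≤ (i : ℕ)) = (n : ℝ) - H := by
    have e1 : ∑ i : Fin n, ind (H ≤ (i : ℕ)) = ∑ i ∈ range n, ind (H ≤ i) := Fin.sum_univ_eq_sum_range (fun i => ind (H ≤ i)) n
    rw [e1]
    have e2 : ∑ i ∈ range n, ind (H ≤ i) = ∑ i ∈ Finset.Ico H n, (1 : ℝ) := by
      rw [← Finset.sum_subset (s₁ := Finset.Ico H n) (s₂ := range n)]
      · apply Finset.sum_congr rfl
        intro i hi'
        exact ind_true (Finset.mem_Ico.1 hi').1
      · intro i hi'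
        rw [Finset.mem_Ico] at hi'
        rw [Finset.mem_range]
        exact hi'.2
      · intro i hi1 hi2
        apply ind_false
        intro h5
        exact hi2 (Finset.mem_Ico.2 ⟨h5, Finset.mem_range.1 hi1⟩)
    rw [e2, Finset.sum_const, Nat.card_Ico, nsmul_eq_mul, mul_one, Nat.cast_sub (by omega)]
  rw [h4]
  have h5 : ((n : ℝ) - H) / (lo + 1) ≤ 3 / 2 := by
    rw [div_le_iff₀ hlo0]
    have := hE.r1
    linarith
  calc ((n : ℝ) - H) * ((n.factorial : ℝ) / (lo + 1)) = ((n : ℝ) - H) / (lo + 1) * (n.factorial : ℝ) := by ring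
    _ ≤ 3 / 2 * (n.factorial : ℝ) := mul_le_mul_of_nonneg_right h5 hfac

end Pool.Agent.H710.KU
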