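import Pool.Agent.H710.KU.St2
import Pool.Agent.H710.KU.TA

/-!
# KU G3, G4 (helper872 for helper710, MP_aadab9_co): sums over dead pairs
-/

set_option autoImplicit false

namespace Pool.Agent.H710.KU

open Finset Equiv

namespace G34

variable {n : ℕ}

theorem sum_positions (f : Perm (Fin n) → ℕ → Fin n → Fin n → ℝ) :
    ∑ r : Perm (Fin n), ∑ a ∈ range (n + 1), ∑ x : Fin n, ∑ z : Fin n, f r a x z =
    ∑ i : Fin n, ∑ t : Fin n, ∑ r : Perm (Fin n), ∑ a ∈ range (n + 1),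
      f r a (r.symm i) (r.symm t) := by
  have e1 : ∀ r : Perm (Fin n), ∑ a ∈ range (n + 1), ∑ x : Fin n, ∑ z : Fin n, f r a x z =
      ∑ i : Fin n, ∑ t : Fin n, ∑ a ∈ range (n + 1), f r a (r.symm i) (r.symm t) := by
    intro r
    have e2 : ∀ a ∈ range (n + 1), ∑ x : Fin n, ∑ z : Fin n, f r a x z =
        ∑ i : Fin n, ∑ t : Fin n, f r a (r.symm i) (r.symm t) := by
      intro a _
      have e3 : ∀ x : Fin n, ∑ z : Fin n, f r a x z = ∑ t : Fin n, f r a x (r.symm t) :=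
        fun x => (Fintype.sum_equiv r.symm _ _ (fun _ => rfl)).symm
      rw [Finset.sum_congr rfl (fun x _ => e3 x)]
      exact (Fintype.sum_equiv r.symm _ _ (fun _ => rfl)).symm
    rw [Finset.sum_congr rfl e2, Finset.sum_comm]
    apply Finset.sum_congr rfl
    intro i _
    exact Finset.sum_comm
  rw [Finset.sum_congr rfl (fun r _ => e1 r), Finset.sum_comm]
  apply Finset.sum_congr rfl
  intro i _
  exact Finset.sum_comm

theorem c2_le (h : S_C2) {F : Fam n} {lo : ℕ} (hF : ∀ A ∈ F, lo + 3 ≤ A.card)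
    (i i' : Fin n) (hi : lo ≤ (i : ℕ)) (hi' : lo ≤ (i' : ℕ)) (hii : i ≠ i')
    (p : Perm (Fin n) → ℕ → Prop)
    (hp : ∀ r a, p r a → a ≤ (i : ℕ) ∧ a ≤ (i' : ℕ) ∧ Low F r a ∧
      M2 F lo r a (r.symm i) (r.symm i')) :
    ∑ r : Perm (Fin n), ∑ a ∈ range (n + 1), ind (p r a) ≤
      2 / (((lo : ℝ) + 2) * (lo + 1)) * (n.factorial : ℝ) := by
  have h1 := h n F lo i i' hF hi hi' hii
  have h2 : ∑ r : Perm (Fin n), ∑ a ∈ range (n + 1), ind (p r a) ≤
      ∑ r : Perm (Fin n), ∑ a ∈ range (min (i : ℕ) (i' : ℕ) + 1),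
        ind (Low F r a ∧ M2 F lo r a (r.symm i) (r.symm i')) := by
    apply Finset.sum_le_sum
    intro r _
    have hsub : range (min (i : ℕ) (i' : ℕ) + 1) ⊆ range (n + 1) := by
      intro a ha
      rw [Finset.mem_range] at ha ⊢
      have := i.2
      omega
    rw [← Finset.sum_subset hsub (f := fun a => ind (p r a))]
    · apply Finset.sum_le_sum
      intro a _
      exact ind_mono (fun h => ⟨(hp r a h).2.2.1, (hp r a h).2.2.2⟩)
    · intro a _ ha
      apply ind_false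
      intro h3
      have h4 := hp r a h3
      rw [Finset.mem_range] at ha
      omega
  refine h2.trans ?_
  have h5 : (0 : ℝ) < ((lo : ℝ) + 2) * (lo + 1) := by positivity
  rw [div_mul_eq_mul_div, le_div_iff₀ h5]
  linarith

theorem const_le {lo : ℕ} (hn : 0 < n) (h3 : n ≤ 3 * lo) :
    2 / (((lo : ℝ) + 2) * (lo + 1)) ≤ 18 / (n : ℝ) ^ 2 := by
  have h5 : (0 : ℝ) < ((lo : ℝ) + 2) * (lo + 1) := by positivity
  have h6 : (0 : ℝ) < (n : ℝ) ^ 2 := by positivity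
  rw [div_le_div_iff₀ h5 h6]
  have h7 : (n : ℝ) ≤ 3 * lo := by exact_mod_cast h3
  have h8 : (0 : ℝ) ≤ n := Nat.cast_nonneg n
  have h9 : (0 : ℝ) ≤ lo := Nat.cast_nonneg lo
  nlinarith

end G34

open G34 TA in
theorem g3 (h : S_C2) : S_G3 := by
  intro n F S lo hi H J K0 q ε hE hJ
  have hH := hE.hH
  have hHn := hE.hHn
  have hL := hE.lev
  have hlohi := hE.lohi
  have hn : 0 < n := by omega
  have hF : ∀ A ∈ F, lo + 3 ≤ A.card := fun A hA => (hL A hA).1
  rw [sum_positions (fun r a x z =>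
    ind (hi ≤ a + J ∧ Low F r a ∧ x ∉ P r H ∧ z ∈ P r H ∧ M2 F lo r a x z))]
  have hb : ∀ i t : Fin n, ∑ r : Perm (Fin n), ∑ a ∈ range (n + 1),
      ind (hi ≤ a + J ∧ Low F r a ∧ r.symm i ∉ P r H ∧ r.symm t ∈ P r H ∧
        M2 F lo r a (r.symm i) (r.symm t)) ≤
      ind (hi - J ≤ (t : ℕ) ∧ (t : ℕ) < H) *
        (2 / (((lo : ℝ) + 2) * (lo + 1)) * (n.factorial : ℝ)) := by
    intro i t
    have hc : (0 : ℝ) ≤ 2 / (((lo : ℝ) + 2) * (lo + 1)) * (n.factorial : ℝ) := by positivity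
    have key : ∀ (r : Perm (Fin n)) (a : ℕ), (hi ≤ a + J ∧ Low F r a ∧ r.symm i ∉ P r H ∧
        r.symm t ∈ P r H ∧ M2 F lo r a (r.symm i) (r.symm t)) →
        H ≤ (i : ℕ) ∧ (t : ℕ) < H ∧ a ≤ (t : ℕ) ∧ lo + 3 ≤ a ∧ a ≤ hi ∧ hi ≤ a + J := by
      rintro r a ⟨h1, h2, h3, h4, h5⟩
      rw [mem_P, Equiv.apply_symm_apply] at h3 h4
      have h6 := hit_level hL (by omega) h2.1
      have h7 := h5.2.2.1.1
      rw [mem_P, Equiv.apply_symm_apply] at h7
      exact ⟨by omega, h4, by omega, h6.1, h6.2, h1⟩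
    by_cases h0 : (H ≤ (i : ℕ) ∧ (t : ℕ) < H ∧ lo ≤ (t : ℕ)) ∧ hi - J ≤ (t : ℕ)
    · rw [ind_true ⟨h0.2, h0.1.2.1⟩, one_mul]
      apply c2_le h hF i t (by omega) h0.1.2.2
      · intro h'
        rw [h'] at h0
        omega
      · rintro r a h1
        have h2 := key r a h1
        exact ⟨by omega, h2.2.2.1, h1.2.1, h1.2.2.2.2⟩
    · have h1 : ∑ r : Perm (Fin n), ∑ a ∈ range (n + 1),
          ind (hi ≤ a + J ∧ Low F r a ∧ r.symm i ∉ P r H ∧ r.symm t ∈ P r H ∧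
            M2 F lo r a (r.symm i) (r.symm t)) = 0 := by
        apply Finset.sum_eq_zero
        intro r _
        apply Finset.sum_eq_zero
        intro a _
        apply ind_false
        intro h1
        have h2 := key r a h1
        omega
      rw [h1]
      exact mul_nonneg (ind_nonneg _) hc
  refine (Finset.sum_le_sum fun i _ => Finset.sum_le_sum fun t _ => hb i t).trans ?_
  have h1 : ∀ i : Fin n, ∑ t : Fin n, ind (hi - J ≤ (t : ℕ) ∧ (t : ℕ) < H) *
      (2 / (((lo : ℝ) + 2) * (lo + 1)) * (n.factorial : ℝ)) =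
      ((J : ℝ) + 3) * (2 / (((lo : ℝ) + 2) * (lo + 1)) * (n.factorial : ℝ)) := by
    intro i
    rw [← Finset.sum_mul, count_Ico (hi - J) H (by omega)]
    congr 1
    have : H - (hi - J) = J + 3 := by omega
    rw [this]
    push_cast
    ring
  rw [Finset.sum_congr rfl (fun i _ => h1 i), Finset.sum_const, Finset.card_univ, Fintype.card_fin,
    nsmul_eq_mul]
  have h2 := const_le (lo := lo) hn hE.n3
  have hn' : (0 : ℝ) < n := Nat.cast_pos.2 hn
  have h3 : (0 : ℝ) ≤ (n : ℝ) * (((J : ℝ) + 3) * (n.factorial : ℝ)) := by positivity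
  calc (n : ℝ) * (((J : ℝ) + 3) * (2 / (((lo : ℝ) + 2) * (lo + 1)) * (n.factorial : ℝ)))
      = 2 / (((lo : ℝ) + 2) * (lo + 1)) * ((n : ℝ) * (((J : ℝ) + 3) * (n.factorial : ℝ))) := by ring
    _ ≤ 18 / (n : ℝ) ^ 2 * ((n : ℝ) * (((J : ℝ) + 3) * (n.factorial : ℝ))) :=
        mul_le_mul_of_nonneg_right h2 h3
    _ = 18 * ((J : ℝ) + 3) / n * (n.factorial : ℝ) := by
        field_simp

open G34 TA in
theorem g4 (h : S_C2) : S_G4 := by
  intro n F S lo hi H K0 q ε hE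
  have hH := hE.hH
  have hHn := hE.hHn
  have hL := hE.lev
  have hlohi := hE.lohi
  have hn : 0 < n := by omega
  have hF : ∀ A ∈ F, lo + 3 ≤ A.card := fun A hA => (hL A hA).1
  rw [sum_positions (fun r a x y => ind (PairD F lo H r a x y ∧ M2 F lo r a x y))]
  have hb : ∀ i t : Fin n, ∑ r : Perm (Fin n), ∑ a ∈ range (n + 1),
      ind (PairD F lo H r a (r.symm i) (r.symm t) ∧ M2 F lo r a (r.symm i) (r.symm t)) ≤
        2 / (((lo : ℝ) + 2) * (lo + 1)) * (n.factorial : ℝ) := by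
    intro i t
    have hc : (0 : ℝ) ≤ 2 / (((lo : ℝ) + 2) * (lo + 1)) * (n.factorial : ℝ) := by positivity
    have key : ∀ (r : Perm (Fin n)) (a : ℕ), (PairD F lo H r a (r.symm i) (r.symm t) ∧
        M2 F lo r a (r.symm i) (r.symm t)) →
        H ≤ (i : ℕ) ∧ H ≤ (t : ℕ) ∧ i ≠ t ∧ lo + 3 ≤ a ∧ a ≤ hi := by
      rintro r a ⟨⟨h1, h2, h3, h4, _⟩, h5⟩
      rw [mem_P, Equiv.apply_symm_apply] at h3 h2
      have h6 := hit_level hL (by omega) h4.1
      refine ⟨by omega, by omega, ?_, h6.1, h6.2⟩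
      intro h7
      rw [h7] at h1
      exact h1 rfl
    by_cases h0 : H ≤ (i : ℕ) ∧ H ≤ (t : ℕ) ∧ i ≠ t
    · apply c2_le h hF i t (by omega) (by omega) h0.2.2
      rintro r a h1
      have h2 := key r a h1
      exact ⟨by omega, by omega, h1.1.2.2.2.1, h1.2⟩
    · have h1 : ∑ r : Perm (Fin n), ∑ a ∈ range (n + 1),
          ind (PairD F lo H r a (r.symm i) (r.symm t) ∧ M2 F lo r a (r.symm i) (r.symm t)) = 0 := by
        apply Finset.sum_eq_zero
        intro r _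
        apply Finset.sum_eq_zero
        intro a _
        apply ind_false
        intro h1
        have h2 := key r a h1
        exact h0 ⟨h2.1, h2.2.1, h2.2.2.1⟩
      rw [h1]
      exact hc
  refine (Finset.sum_le_sum fun i _ => Finset.sum_le_sum fun t _ => hb i t).trans ?_
  rw [Finset.sum_const, Finset.sum_const, Finset.card_univ, Fintype.card_fin,
    nsmul_eq_mul, nsmul_eq_mul]
  have h2 := const_le (lo := lo) hn hE.n3
  have hn' : (0 : ℝ) < n := Nat.cast_pos.2 hn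
  have h3 : (0 : ℝ) ≤ (n : ℝ) ^ 2 * (n.factorial : ℝ) := by positivity
  calc (n : ℝ) * ((n : ℝ) * (2 / (((lo : ℝ) + 2) * (lo + 1)) * (n.factorial : ℝ)))
      = 2 / (((lo : ℝ) + 2) * (lo + 1)) * ((n : ℝ) ^ 2 * (n.factorial : ℝ)) := by ring
    _ ≤ 18 / (n : ℝ) ^ 2 * ((n : ℝ) ^ 2 * (n.factorial : ℝ)) :=
        mul_le_mul_of_nonneg_right h2 h3
    _ = 18 * (n.factorial : ℝ) := by
        field_simp

end Pool.Agent.H710.KU
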