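import Pool.Agent.H710.KU.St2

set_option autoImplicit false

/-! Weighted sums. -/

namespace Pool.Agent.H710.KU

open Finset Equiv

namespace G57

variable {n : ℕ}

/-- an indicator sum with at most one nonzero term -/
theorem sum_ind_le {s : Finset ℕ} {p : ℕ → Prop} {R : Prop} (h1 : ∀ i j, p i → p j → i = j)
    (h2 : ∀ i, p i → R) : ∑ i ∈ s, ind (p i) ≤ ind R := by
  by_cases h : ∃ i ∈ s, p i
  · obtain ⟨i, hi, hp⟩ := h
    rw [sum_eq_single i]
    · exact ind_mono (h2 i)
    · intro j _ hj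
      exact ind_false fun hpj => hj (h1 j i hpj hp)
    · intro h
      exact absurd hi h
  · push Not at h
    rw [sum_eq_zero fun i hi => ind_false (h i hi)]
    exact ind_nonneg R

theorem n_pos {F : Fam n} {S : Cen n} {lo hi H : ℕ} {K0 q ε : ℝ} (E : Env n F S lo hi H K0 q ε) :
    (4 : ℝ) ≤ n := by
  have h1 := E.hH
  have h2 := E.hHn
  have : 4 ≤ n := by omega
  exact_mod_cast this

theorem Jq {F : Fam n} {S : Cen n} {lo hi H : ℕ} {K0 q ε : ℝ} (E : Env n F S lo hi H K0 q ε)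
    {J : ℕ} (hJ : J ≤ hi - lo) : 12 * ((J : ℝ) + 1) / n ≤ q := by
  have hn := n_pos E
  have h1 : (J : ℝ) ≤ (hi : ℝ) - lo := by
    have h2 := E.lohi
    have : ((hi - lo : ℕ) : ℝ) = (hi : ℝ) - lo := Nat.cast_sub h2
    rw [← this]
    exact_mod_cast hJ
  have h2 : 12 * ((J : ℝ) + 1) / n ≤ 12 * ((hi : ℝ) - lo + 1) / n := by
    apply div_le_div_of_nonneg_right _ (by linarith)
    linarith
  have h3 : 0 ≤ 1 / Real.sqrt n := by positivity
  have h4 := E.hq
  linarith

end G57

theorem g5 (h3 : S_G3) : S_G5 := by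
  intro n F S lo hi H K0 q ε A φ E hφ hD
  obtain ⟨m, α, J, hα, hJ, hdec, hA⟩ := hD
  have hn := G57.n_pos E
  have hsn : 2 ≤ Real.sqrt n := by
    rw [show (2 : ℝ) = Real.sqrt 4 by rw [show (4 : ℝ) = 2 ^ 2 by norm_num]; simp]
    exact Real.sqrt_le_sqrt hn
  have hsq : Real.sqrt n * Real.sqrt n = n := Real.mul_self_sqrt (by linarith)
  have hhi : hi < n := by
    have h1 := E.hH
    have h2 := E.hHn
    omega
  have hpt : ∀ (r : Perm (Fin n)) (a : ℕ) (x z : Fin n),
      φ a * ((hi : ℝ) - a) * ind (Low F r a ∧ x ∉ P r H ∧ z ∈ P r H ∧ M2 F lo r a x z) ≤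
      ∑ l ∈ range m, Real.sqrt n * α l *
        ind (hi ≤ a + J l ∧ Low F r a ∧ x ∉ P r H ∧ z ∈ P r H ∧ M2 F lo r a x z) := by
    intro r a x z
    by_cases hI : Low F r a ∧ x ∉ P r H ∧ z ∈ P r H ∧ M2 F lo r a x z
    · have h1 := hit_level E.lev hhi hI.1.1
      have h2 := hdec a h1.1 h1.2
      rw [ind_true hI, mul_one]
      have h4 : ∀ l, ind (hi ≤ a + J l ∧ Low F r a ∧ x ∉ P r H ∧ z ∈ P r H ∧ M2 F lo r a x z) =
          ind (hi ≤ a + J l) := fun l => ind_congr ⟨fun h => h.1, fun h => ⟨h, hI⟩⟩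
      simp only [h4]
      have h5 : ∑ l ∈ range m, Real.sqrt n * α l * ind (hi ≤ a + J l) =
          Real.sqrt n * ∑ l ∈ range m, α l * ind (hi ≤ a + J l) := by
        rw [mul_sum]
        exact sum_congr rfl fun l _ => by ring
      rw [h5]
      have h6 : φ a * ((hi : ℝ) - a) ≤ Real.sqrt n * (φ a * (1 + ((hi : ℝ) - a) ^ 2 / n)) := by
        have h7 : (hi : ℝ) - a ≤ Real.sqrt n * (1 + ((hi : ℝ) - a) ^ 2 / n) := by
          set t := (hi : ℝ) - a with ht
          have h8 : t ^ 2 / n = (t / Real.sqrt n) ^ 2 := by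
            rw [div_pow, Real.sq_sqrt (by linarith)]
          have h9 : t = Real.sqrt n * (t / Real.sqrt n) := by
            field_simp
          rw [h8]
          set u := t / Real.sqrt n with hu
          rw [h9]
          apply mul_le_mul_of_nonneg_left _ (by linarith)
          nlinarith [sq_nonneg (u - 1 / 2)]
        have := mul_le_mul_of_nonneg_left h7 (hφ a)
        calc _ ≤ _ := this
          _ = _ := by ring
      exact h6.trans (mul_le_mul_of_nonneg_left h2 (by linarith))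
    · rw [ind_false hI, mul_zero]
      refine sum_nonneg fun l _ => mul_nonneg (mul_nonneg (by linarith) (hα l)) (ind_nonneg _)
  calc ∑ r : Perm (Fin n), ∑ a ∈ range (n + 1), ∑ x : Fin n, ∑ z : Fin n,
        φ a * ((hi : ℝ) - a) * ind (Low F r a ∧ x ∉ P r H ∧ z ∈ P r H ∧ M2 F lo r a x z)
      ≤ ∑ r : Perm (Fin n), ∑ a ∈ range (n + 1), ∑ x : Fin n, ∑ z : Fin n,
        ∑ l ∈ range m, Real.sqrt n * α l *
        ind (hi ≤ a + J l ∧ Low F r a ∧ x ∉ P r H ∧ z ∈ P r H ∧ M2 F lo r a x z) :=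
        sum_le_sum fun r _ => sum_le_sum fun a _ => sum_le_sum fun x _ => sum_le_sum fun z _ =>
          hpt r a x z
    _ = ∑ l ∈ range m, Real.sqrt n * α l * ∑ r : Perm (Fin n), ∑ a ∈ range (n + 1),
        ∑ x : Fin n, ∑ z : Fin n,
        ind (hi ≤ a + J l ∧ Low F r a ∧ x ∉ P r H ∧ z ∈ P r H ∧ M2 F lo r a x z) := by
        simp only [mul_sum]
        symm
        rw [sum_comm]
        refine sum_congr rfl fun r _ => ?_
        rw [sum_comm]
        refine sum_congr rfl fun a _ => ?_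
        rw [sum_comm]
        refine sum_congr rfl fun x _ => ?_
        rw [sum_comm]
    _ ≤ ∑ l ∈ range m, Real.sqrt n * α l * (18 * ((J l : ℝ) + 3) / n * (n.factorial : ℝ)) := by
        refine sum_le_sum fun l _ => mul_le_mul_of_nonneg_left ?_
          (mul_nonneg (by linarith) (hα l))
        exact h3 n F S lo hi H (J l) K0 q ε E (by have := hJ l; omega)
    _ ≤ ∑ l ∈ range m, 36 * (n.factorial : ℝ) * (α l * (1 + ((J l : ℝ) + 1) ^ 2 / n)) := by
        refine sum_le_sum fun l _ => ?_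
        have h1 : Real.sqrt n * ((J l : ℝ) + 3) / n ≤ 2 * (1 + ((J l : ℝ) + 1) ^ 2 / n) := by
          have h2 : Real.sqrt n * ((J l : ℝ) + 3) / n = ((J l : ℝ) + 3) / Real.sqrt n := by
            rw [div_eq_div_iff (by linarith) (by linarith)]
            calc Real.sqrt n * ((J l : ℝ) + 3) * Real.sqrt n =
              ((J l : ℝ) + 3) * (Real.sqrt n * Real.sqrt n) := by ring
              _ = _ := by rw [hsq]
          have h3 : ((J l : ℝ) + 1) ^ 2 / n = (((J l : ℝ) + 1) / Real.sqrt n) ^ 2 := by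
            rw [div_pow, Real.sq_sqrt (by linarith)]
          have h4 : ((J l : ℝ) + 3) / Real.sqrt n = ((J l : ℝ) + 1) / Real.sqrt n +
            2 / Real.sqrt n := by
            rw [← add_div]; congr 1; ring
          have h5 : 2 / Real.sqrt n ≤ 1 := by
            rw [div_le_one (by linarith)]
            exact hsn
          rw [h2, h3, h4]
          set u := ((J l : ℝ) + 1) / Real.sqrt n
          nlinarith [sq_nonneg (u - 1 / 2)]
        have hf : (0 : ℝ) ≤ n.factorial := Nat.cast_nonneg _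
        have h6 := mul_le_mul_of_nonneg_left h1 (mul_nonneg (mul_nonneg (by norm_num : (0 : ℝ) ≤ 18)
          hf) (hα l))
        calc Real.sqrt n * α l * (18 * ((J l : ℝ) + 3) / n * (n.factorial : ℝ))
            = 18 * (n.factorial : ℝ) * α l * (Real.sqrt n * ((J l : ℝ) + 3) / n) := by ring
          _ ≤ _ := h6
          _ = _ := by ring
    _ = 36 * (n.factorial : ℝ) * ∑ l ∈ range m, (α l * (1 + ((J l : ℝ) + 1) ^ 2 / n)) := by
        rw [mul_sum]
    _ ≤ 36 * (n.factorial : ℝ) * A := mul_le_mul_of_nonneg_left hA (by positivity)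
    _ = 36 * A * (n.factorial : ℝ) := by ring

theorem g7 (h1 : S_G1) (hn : S_N1) : S_G7 := by
  intro n F S lo hi H K0 q ε A φ κ E hφ hκ hκ1 hD
  obtain ⟨m, α, J, hα, hJ, hdec, hA⟩ := hD
  have hn4 := G57.n_pos E
  have hhi : hi < n := by
    have h1 := E.hH
    have h2 := E.hHn
    omega
  have hpt : ∀ (r : Perm (Fin n)) (k : ℕ),
      ∑ a ∈ range (n + 1), φ a * κ k * ind (Low F r a ∧ P r k ∈ F ∧ a < k ∧ S (P r k) = none) ≤
      ∑ l ∈ range m, α l *
        ind (P r k ∈ F ∧ S (P r k) = none ∧ ∃ a < k, k ≤ a + J l ∧ P r a ∈ F) := by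
    intro r k
    have hnn : 0 ≤ ∑ l ∈ range m, α l *
        ind (P r k ∈ F ∧ S (P r k) = none ∧ ∃ a < k, k ≤ a + J l ∧ P r a ∈ F) :=
      sum_nonneg fun l _ => mul_nonneg (hα l) (ind_nonneg _)
    by_cases hex : ∃ a ∈ range (n + 1), Low F r a ∧ P r k ∈ F ∧ a < k ∧ S (P r k) = none
    · obtain ⟨a, ha, hI⟩ := hex
      rw [sum_eq_single a]
      · rw [ind_true hI, mul_one]
        have h2 := hit_level E.lev hhi hI.1.1
        have h3 := hdec a h2.1 h2.2
        have h4 : φ a * κ k ≤ φ a * (1 + ((hi : ℝ) - a) ^ 2 / n) := by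
          apply mul_le_mul_of_nonneg_left _ (hφ a)
          have : 0 ≤ ((hi : ℝ) - a) ^ 2 / n := by positivity
          linarith [hκ1 k]
        refine h4.trans (h3.trans (sum_le_sum fun l _ => mul_le_mul_of_nonneg_left
          (ind_mono fun h => ?_) (hα l)))
        have h5 := hit_level E.lev hhi hI.2.1
        exact ⟨hI.2.1, hI.2.2.2, a, hI.2.2.1, by omega, hI.1.1⟩
      · intro b _ hb
        rw [ind_false, mul_zero]
        intro h
        exact hb (Low_unique h.1 hI.1)
      · intro h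
        exact absurd ha h
    · push Not at hex
      rw [sum_eq_zero fun a ha => ?_]
      · exact hnn
      · rw [ind_false, mul_zero]
        rintro ⟨h1, h2, h3, h4⟩
        exact hex a ha h1 h2 h3 h4
  have hG := h1 n F S lo hi H K0 q ε E
  have hNN0 : 0 ≤ ∑ r : Perm (Fin n), NN F r :=
    sum_nonneg fun r _ => sum_nonneg fun k _ => ind_nonneg _
  have hf : (0 : ℝ) ≤ n.factorial := Nat.cast_nonneg _
  have hmain : ∑ r : Perm (Fin n), ∑ a ∈ range (n + 1), ∑ k ∈ range (n + 1),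
      φ a * κ k * ind (Low F r a ∧ P r k ∈ F ∧ a < k ∧ S (P r k) = none) ≤
      ∑ l ∈ range m, α l * (2 * K0 * (12 * ((J l : ℝ) + 1) / n) ^ 2 * (2 * (n.factorial : ℝ))) := by
    calc ∑ r : Perm (Fin n), ∑ a ∈ range (n + 1), ∑ k ∈ range (n + 1),
        φ a * κ k * ind (Low F r a ∧ P r k ∈ F ∧ a < k ∧ S (P r k) = none)
        = ∑ r : Perm (Fin n), ∑ k ∈ range (n + 1), ∑ a ∈ range (n + 1),
        φ a * κ k * ind (Low F r a ∧ P r k ∈ F ∧ a < k ∧ S (P r k) = none) :=
          sum_congr rfl fun r _ => sum_comm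
      _ ≤ ∑ r : Perm (Fin n), ∑ k ∈ range (n + 1), ∑ l ∈ range m, α l *
        ind (P r k ∈ F ∧ S (P r k) = none ∧ ∃ a < k, k ≤ a + J l ∧ P r a ∈ F) :=
          sum_le_sum fun r _ => sum_le_sum fun k _ => hpt r k
      _ = ∑ l ∈ range m, α l * ∑ r : Perm (Fin n), ∑ k ∈ range (n + 1),
        ind (P r k ∈ F ∧ S (P r k) = none ∧ ∃ a < k, k ≤ a + J l ∧ P r a ∈ F) := by
          simp only [mul_sum]
          symm
          rw [sum_comm]
          refine sum_congr rfl fun r _ => ?_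
          rw [sum_comm]
      _ ≤ _ := by
          refine sum_le_sum fun l _ => mul_le_mul_of_nonneg_left ?_ (hα l)
          have h2 := hn n F S lo hi (J l) K0 q ε E.lev hhi E.n3 E.good E.K0nn E.q1
            (G57.Jq E (hJ l))
          refine h2.trans (mul_le_mul_of_nonneg_left hG ?_)
          have := E.K0nn
          positivity
  have hn0 : (0 : ℝ) ≤ n := by linarith
  calc (n : ℝ) * ∑ r : Perm (Fin n), ∑ a ∈ range (n + 1), ∑ k ∈ range (n + 1),
      φ a * κ k * ind (Low F r a ∧ P r k ∈ F ∧ a < k ∧ S (P r k) = none)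
      ≤ n * ∑ l ∈ range m, α l *
        (2 * K0 * (12 * ((J l : ℝ) + 1) / n) ^ 2 * (2 * (n.factorial : ℝ))) :=
        mul_le_mul_of_nonneg_left hmain hn0
    _ = ∑ l ∈ range m, 576 * K0 * (n.factorial : ℝ) * (α l * (((J l : ℝ) + 1) ^ 2 / n)) := by
        rw [mul_sum]
        refine sum_congr rfl fun l _ => ?_
        have : (n : ℝ) ≠ 0 := by linarith
        field_simp
        ring
    _ ≤ ∑ l ∈ range m, 576 * K0 * (n.factorial : ℝ) * (α l * (1 + ((J l : ℝ) + 1) ^ 2 / n)) := by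
        have := E.K0nn
        refine sum_le_sum fun l _ => mul_le_mul_of_nonneg_left
          (mul_le_mul_of_nonneg_left (by linarith) (hα l)) (by positivity)
    _ = 576 * K0 * (n.factorial : ℝ) * ∑ l ∈ range m, (α l * (1 + ((J l : ℝ) + 1) ^ 2 / n)) := by
        rw [mul_sum]
    _ ≤ 576 * K0 * (n.factorial : ℝ) * A := by
        have := E.K0nn
        exact mul_le_mul_of_nonneg_left hA (by positivity)
    _ = 576 * K0 * A * (n.factorial : ℝ) := by ring

end Pool.Agent.H710.KU
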