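import Pool.Agent.H710.KU.St2

/-!
G6: weighted bound for dead elements and bad pairs.
-/

set_option autoImplicit false

namespace Pool.Agent.H710.KU

open Finset Equiv

namespace G6

theorem one_le_fac {n J : ℕ} : (1 : ℝ) ≤ 1 + ((J : ℝ) + 1) ^ 2 / n := by
  have : 0 ≤ ((J : ℝ) + 1) ^ 2 / n := by positivity
  linarith

/-- pointwise bound for one chain and one level. -/
theorem pointwise {n : ℕ} {F : Fam n} {S : Cen n} {lo hi H M : ℕ} {r : Perm (Fin n)} {a m : ℕ}
    {w : ℝ} {α : ℕ → ℝ} {J : ℕ → ℕ} (hα : ∀ l, 0 ≤ α l)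
    (hw : Low F r a → w ≤ ∑ l ∈ range m, α l * ind (hi ≤ a + J l)) :
    w * ind (Low F r a) *
      (M * (∑ x : Fin n, ind (x ∉ P r H ∧ LL F lo r a x)) +
        2 * ∑ x : Fin n, ∑ y : Fin n, ind (PairD F lo H r a x y ∧
          (M2 F lo r a x y ∨ NS F S (hi - a) r a x y))) ≤
    ∑ l ∈ range m, α l * (M * (∑ x : Fin n, ind (Low F r a ∧ x ∉ P r H ∧ LL F lo r a x)) +
        2 * (∑ x : Fin n, ∑ y : Fin n, ind (PairD F lo H r a x y ∧ M2 F lo r a x y)) +
        2 * (∑ x : Fin n, ∑ y : Fin n, ind (PairD F lo H r a x y ∧ NS F S (J l) r a x y))) := by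
  have hX0 : ∀ (f : Fin n → Prop), 0 ≤ ∑ x : Fin n, ind (f x) :=
    fun f => Finset.sum_nonneg (fun x _ => ind_nonneg _)
  have hY0 : ∀ (f : Fin n → Fin n → Prop), 0 ≤ ∑ x : Fin n, ∑ y : Fin n, ind (f x y) :=
    fun f => Finset.sum_nonneg (fun x _ => Finset.sum_nonneg (fun y _ => ind_nonneg _))
  by_cases hlow : Low F r a
  · rw [ind_true hlow, mul_one]
    have hXe : ∑ x : Fin n, ind (Low F r a ∧ x ∉ P r H ∧ LL F lo r a x) =
        ∑ x : Fin n, ind (x ∉ P r H ∧ LL F lo r a x) :=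
      Finset.sum_congr rfl (fun x _ => ind_congr ⟨fun h => h.2, fun h => ⟨hlow, h⟩⟩)
    rw [hXe]
    have hnn : 0 ≤ (M : ℝ) * (∑ x : Fin n, ind (x ∉ P r H ∧ LL F lo r a x)) +
        2 * ∑ x : Fin n, ∑ y : Fin n, ind (PairD F lo H r a x y ∧
          (M2 F lo r a x y ∨ NS F S (hi - a) r a x y)) := by
      have h1 := hX0 (fun x => x ∉ P r H ∧ LL F lo r a x)
      have h2 := hY0 (fun x y => PairD F lo H r a x y ∧
          (M2 F lo r a x y ∨ NS F S (hi - a) r a x y))
      have h3 : (0 : ℝ) ≤ M := Nat.cast_nonneg M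
      positivity
    refine le_trans (mul_le_mul_of_nonneg_right (hw hlow) hnn) ?_
    rw [Finset.sum_mul]
    apply Finset.sum_le_sum
    intro l _
    by_cases hl : hi ≤ a + J l
    · rw [ind_true hl, mul_one]
      apply mul_le_mul_of_nonneg_left _ (hα l)
      have hb : ∑ x : Fin n, ∑ y : Fin n, ind (PairD F lo H r a x y ∧
          (M2 F lo r a x y ∨ NS F S (hi - a) r a x y)) ≤
          (∑ x : Fin n, ∑ y : Fin n, ind (PairD F lo H r a x y ∧ M2 F lo r a x y)) +
          (∑ x : Fin n, ∑ y : Fin n, ind (PairD F lo H r a x y ∧ NS F S (J l) r a x y)) := by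
        rw [← Finset.sum_add_distrib]
        apply Finset.sum_le_sum
        intro x _
        rw [← Finset.sum_add_distrib]
        apply Finset.sum_le_sum
        intro y _
        by_cases h1 : PairD F lo H r a x y ∧ M2 F lo r a x y
        · rw [ind_true h1]
          have h2 := ind_le_one (PairD F lo H r a x y ∧
            (M2 F lo r a x y ∨ NS F S (hi - a) r a x y))
          have h3 := ind_nonneg (PairD F lo H r a x y ∧ NS F S (J l) r a x y)
          linarith
        · rw [ind_false h1, zero_add]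
          apply ind_mono
          rintro ⟨hp, hM | ⟨k, hk1, hk2, hk3⟩⟩
          · exact absurd ⟨hp, hM⟩ h1
          · refine ⟨hp, k, hk1, ?_, hk3⟩
            omega
      linarith
    · rw [ind_false hl, mul_zero, zero_mul]
      apply mul_nonneg (hα l)
      have h1 := hX0 (fun x => x ∉ P r H ∧ LL F lo r a x)
      have h2 := hY0 (fun x y => PairD F lo H r a x y ∧ M2 F lo r a x y)
      have h3 := hY0 (fun x y => PairD F lo H r a x y ∧ NS F S (J l) r a x y)
      have h4 : (0 : ℝ) ≤ M := Nat.cast_nonneg M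
      positivity
  · rw [ind_false hlow, mul_zero, zero_mul]
    apply Finset.sum_nonneg
    intro l _
    apply mul_nonneg (hα l)
    have h1 := hX0 (fun x => Low F r a ∧ x ∉ P r H ∧ LL F lo r a x)
    have h2 := hY0 (fun x y => PairD F lo H r a x y ∧ M2 F lo r a x y)
    have h3 := hY0 (fun x y => PairD F lo H r a x y ∧ NS F S (J l) r a x y)
    have h4 : (0 : ℝ) ≤ M := Nat.cast_nonneg M
    positivity

end G6

theorem g6 (h1 : S_G1) (h2 : S_G2) (h4 : S_G4) (hc : S_C3) : S_G6 := by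
  intro n F S lo hi H M K0 q ε A φ hE hφ hD
  obtain ⟨m, α, J, hα, hJ, hdec, hA⟩ := hD
  have hhn : hi < n := by
    have h1 := hE.hH
    have h2 := hE.hHn
    omega
  -- pointwise
  have hpt : ∀ r : Perm (Fin n), ∀ a ∈ range (n + 1),
      φ a * (1 + ((hi : ℝ) - a) ^ 2 / n) * ind (Low F r a) *
      (M * (∑ x : Fin n, ind (x ∉ P r H ∧ LL F lo r a x)) +
        2 * ∑ x : Fin n, ∑ y : Fin n, ind (PairD F lo H r a x y ∧
          (M2 F lo r a x y ∨ NS F S (hi - a) r a x y))) ≤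
      ∑ l ∈ range m, α l * (M * (∑ x : Fin n, ind (Low F r a ∧ x ∉ P r H ∧ LL F lo r a x)) +
        2 * (∑ x : Fin n, ∑ y : Fin n, ind (PairD F lo H r a x y ∧ M2 F lo r a x y)) +
        2 * (∑ x : Fin n, ∑ y : Fin n, ind (PairD F lo H r a x y ∧ NS F S (J l) r a x y))) := by
    intro r a _
    apply G6.pointwise hα
    intro hlow
    have h3 := hit_level hE.lev hhn hlow.1
    exact hdec a h3.1 h3.2
  refine le_trans (Finset.sum_le_sum (fun r _ => Finset.sum_le_sum (hpt r))) ?_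
  -- exchange the sums
  have hex : ∑ r : Perm (Fin n), ∑ a ∈ range (n + 1),
      ∑ l ∈ range m, α l * (M * (∑ x : Fin n, ind (Low F r a ∧ x ∉ P r H ∧ LL F lo r a x)) +
        2 * (∑ x : Fin n, ∑ y : Fin n, ind (PairD F lo H r a x y ∧ M2 F lo r a x y)) +
        2 * (∑ x : Fin n, ∑ y : Fin n, ind (PairD F lo H r a x y ∧ NS F S (J l) r a x y))) =
      ∑ l ∈ range m, α l * (M * (∑ r : Perm (Fin n), ∑ a ∈ range (n + 1),
          ∑ x : Fin n, ind (Low F r a ∧ x ∉ P r H ∧ LL F lo r a x)) +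
        2 * (∑ r : Perm (Fin n), ∑ a ∈ range (n + 1),
          ∑ x : Fin n, ∑ y : Fin n, ind (PairD F lo H r a x y ∧ M2 F lo r a x y)) +
        2 * (∑ r : Perm (Fin n), ∑ a ∈ range (n + 1),
          ∑ x : Fin n, ∑ y : Fin n, ind (PairD F lo H r a x y ∧ NS F S (J l) r a x y))) := by
    have e1 : ∀ r : Perm (Fin n), ∑ a ∈ range (n + 1),
      ∑ l ∈ range m, α l * (M * (∑ x : Fin n, ind (Low F r a ∧ x ∉ P r H ∧ LL F lo r a x)) +
        2 * (∑ x : Fin n, ∑ y : Fin n, ind (PairD F lo H r a x y ∧ M2 F lo r a x y)) +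
        2 * (∑ x : Fin n, ∑ y : Fin n, ind (PairD F lo H r a x y ∧ NS F S (J l) r a x y))) =
      ∑ l ∈ range m, α l * (M * (∑ a ∈ range (n + 1),
          ∑ x : Fin n, ind (Low F r a ∧ x ∉ P r H ∧ LL F lo r a x)) +
        2 * (∑ a ∈ range (n + 1),
          ∑ x : Fin n, ∑ y : Fin n, ind (PairD F lo H r a x y ∧ M2 F lo r a x y)) +
        2 * (∑ a ∈ range (n + 1),
          ∑ x : Fin n, ∑ y : Fin n, ind (PairD F lo H r a x y ∧ NS F S (J l) r a x y))) := by
      intro r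
      rw [Finset.sum_comm]
      apply Finset.sum_congr rfl
      intro l _
      rw [← Finset.mul_sum, Finset.sum_add_distrib, Finset.sum_add_distrib, ← Finset.mul_sum,
        ← Finset.mul_sum, ← Finset.mul_sum]
    rw [Finset.sum_congr rfl (fun r _ => e1 r), Finset.sum_comm]
    apply Finset.sum_congr rfl
    intro l _
    rw [← Finset.mul_sum, Finset.sum_add_distrib, Finset.sum_add_distrib, ← Finset.mul_sum,
      ← Finset.mul_sum, ← Finset.mul_sum]
  rw [hex]
  have hG1 := h1 n F S lo hi H K0 q ε hE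
  have hG2 := h2 n F S lo hi H K0 q ε hE
  have hG4 := h4 n F S lo hi H K0 q ε hE
  have hf0 : (0 : ℝ) ≤ n.factorial := Nat.cast_nonneg _
  have hM0 : (0 : ℝ) ≤ M := Nat.cast_nonneg M
  have hK0 := hE.K0nn
  have hbound : ∀ l ∈ range m, α l * (M * (∑ r : Perm (Fin n), ∑ a ∈ range (n + 1),
          ∑ x : Fin n, ind (Low F r a ∧ x ∉ P r H ∧ LL F lo r a x)) +
        2 * (∑ r : Perm (Fin n), ∑ a ∈ range (n + 1),
          ∑ x : Fin n, ∑ y : Fin n, ind (PairD F lo H r a x y ∧ M2 F lo r a x y)) +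
        2 * (∑ r : Perm (Fin n), ∑ a ∈ range (n + 1),
          ∑ x : Fin n, ∑ y : Fin n, ind (PairD F lo H r a x y ∧ NS F S (J l) r a x y))) ≤
      (α l * (1 + ((J l : ℝ) + 1) ^ 2 / n)) * ((2 * M + 36 + 4 * 10 ^ 4 * K0) *
        (n.factorial : ℝ)) := by
    intro l _
    have hq : 12 * ((J l : ℝ) + 1) / n + 1 / Real.sqrt n ≤ q := by
      refine le_trans ?_ hE.hq
      have h5 : ((J l : ℝ)) ≤ (hi : ℝ) - lo := by
        have h6 : ((J l : ℕ) : ℝ) ≤ ((hi - lo : ℕ) : ℝ) := by exact_mod_cast hJ l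
        rw [Nat.cast_sub hE.lohi] at h6
        exact h6
      have h7 : 12 * ((J l : ℝ) + 1) / n ≤ 12 * ((hi : ℝ) - lo + 1) / n := by
        apply div_le_div_of_nonneg_right _ (Nat.cast_nonneg n)
        linarith
      linarith
    have hC3 := hc n F S lo hi H (J l) K0 q ε hE.lev (le_of_eq hE.hH.symm) hE.hHn hE.n3 hE.good
      hK0 hE.q1 hq
    set f : ℝ := 1 + ((J l : ℝ) + 1) ^ 2 / n with hf
    have hf1 : 1 ≤ f := G6.one_le_fac
    rw [mul_assoc]
    apply mul_le_mul_of_nonneg_left _ (hα l)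
    have hb1 : (M : ℝ) * (∑ r : Perm (Fin n), ∑ a ∈ range (n + 1),
          ∑ x : Fin n, ind (Low F r a ∧ x ∉ P r H ∧ LL F lo r a x)) ≤
          M * (3 / 2 * (n.factorial : ℝ)) := mul_le_mul_of_nonneg_left hG2 hM0
    have hb3 : ∑ r : Perm (Fin n), ∑ a ∈ range (n + 1),
          ∑ x : Fin n, ∑ y : Fin n, ind (PairD F lo H r a x y ∧ NS F S (J l) r a x y) ≤
          10 ^ 4 * K0 * f * (2 * (n.factorial : ℝ)) := by
      refine le_trans hC3 ?_
      apply mul_le_mul_of_nonneg_left hG1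
      positivity
    have hg1 : (M : ℝ) * (3 / 2 * (n.factorial : ℝ)) ≤ f * (2 * M * (n.factorial : ℝ)) := by
      have h8 : 0 ≤ (M : ℝ) * (n.factorial : ℝ) := mul_nonneg hM0 hf0
      nlinarith
    have hg2 : 36 * (n.factorial : ℝ) ≤ f * (36 * (n.factorial : ℝ)) := by
      nlinarith
    nlinarith
  refine le_trans (Finset.sum_le_sum hbound) ?_
  rw [← Finset.sum_mul]
  have hc0 : 0 ≤ (2 * M + 36 + 4 * 10 ^ 4 * K0) * (n.factorial : ℝ) := by positivity
  have := mul_le_mul_of_nonneg_right hA hc0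
  linarith

end Pool.Agent.H710.KU
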