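import Pool.Agent.H710.KU.St2

set_option autoImplicit false

namespace Pool.Agent.H710.KU

open Finset Equiv

namespace GI

theorem sum_Low_le {n : ℕ} (F : Fam n) (r : Perm (Fin n)) (v : ℕ → ℝ) (B : ℝ) (hB : 0 ≤ B)
    (hv : ∀ a, Low F r a → v a ≤ B) :
    ∑ a ∈ range (n + 1), ind (Low F r a) * v a ≤ B := by
  by_cases h : ∃ a ∈ range (n + 1), Low F r a
  · obtain ⟨a, ha, hla⟩ := h
    rw [Finset.sum_eq_single_of_mem a ha]
    · rw [ind_true hla, one_mul]; exact hv a hla
    · intro b _ hb
      rw [ind_false (fun hlb => hb (Low_unique hlb hla)), zero_mul]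
  · apply le_trans _ hB
    apply Finset.sum_nonpos
    intro a ha
    rw [ind_false (fun hl => h ⟨a, ha, hl⟩), zero_mul]

theorem cx_level {n : ℕ} {F : Fam n} {S : Cen n} {lo hi H : ℕ} (hL : Levels F lo hi)
    (hH : hi + 3 ≤ H) (hHn : H + 2 ≤ n) {r : Perm (Fin n)} {a c : ℕ} {x : Fin n}
    (h : CX F S r H a c x) : lo + 2 ≤ c ∧ c + 1 ≤ hi := by
  obtain ⟨_, hx, hF, _⟩ := h
  have hlev := hL _ hF
  by_cases hc : c ≤ H
  · have hxc : x ∉ P r c := fun h' => hx (P_mono r hc h')
    rw [Finset.card_insert_of_notMem hxc, card_P'] at hlev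
    omega
  · have h1 : (P r c).card ≤ (insert x (P r c)).card := Finset.card_le_card (Finset.subset_insert _ _)
    rw [card_P'] at h1
    omega

theorem low_level {n : ℕ} {F : Fam n} {lo hi H : ℕ} (hL : Levels F lo hi)
    (hH : hi + 3 ≤ H) (hHn : H + 2 ≤ n) {r : Perm (Fin n)} {a : ℕ}
    (h : Low F r a) : lo + 3 ≤ a ∧ a ≤ hi := hit_level hL (by omega) h.1

theorem mul_sum4 {n : ℕ} (v : ℝ) (s : Finset ℕ) (f : ℕ → Fin n → ℝ) :
    v * ∑ c ∈ s, ∑ x : Fin n, f c x = ∑ c ∈ s, ∑ x : Fin n, v * f c x := by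
  rw [Finset.mul_sum]
  apply Finset.sum_congr rfl
  intro c _
  rw [Finset.mul_sum]

theorem num1 (x : ℝ) (hx : 5 ≤ x) : 2 * (x + 1) * x ^ 2 ≤ 4 * x ^ 3 := by
  have h : 0 ≤ x ^ 2 * (x - 1) := mul_nonneg (by positivity) (by linarith)
  nlinarith [h]

theorem num2 (x : ℝ) (hx : 5 ≤ x) : (x + 1) * (x * (x + 1)) ≤ 4 * x ^ 3 := by
  have h : 0 ≤ x * (x - 1) := mul_nonneg (by linarith) (by linarith)
  have h2 : 0 ≤ x * (x * (x - 1)) := mul_nonneg (by linarith) h
  nlinarith [h, h2]

theorem fin_arith (a1 a2 a3 R zp y2 y5 yt ye yv EE mz f af c1 : ℝ)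
    (h1 : a1 ≤ c1) (h2 : a2 ≤ 4 * f) (h3 : a3 ≤ 3 * R)
    (hR : R ≤ 4 * zp + y2 + y5 + yt + ye + yv) (q2 : y2 ≤ 3 / 2 * f) (q5 : y5 ≤ 36 * af)
    (qE : ye ≤ 3 / 2 * EE) (v1 : yv ≤ mz + 9 / 6 * zp) (hz : zp ≤ 2 * f) (hEE : 0 ≤ EE)
    (hf : 0 ≤ f) :
    a1 + a2 + a3 ≤ 3 * yt + 9 * EE + 3 * mz + (100 * f + 108 * af + c1) := by
  linarith

end GI

open GI in
theorem gi (hTA : S_TA) (hPC : S_PC) (hD : S_D) (hC4 : S_C4) (hC5 : S_C5) (hL2 : S_L2)
    (hL3 : S_L3) (hG2 : S_G2) (hG5 : S_G5) (hG6 : S_G6) (hG7 : S_G7) : S_GI := by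
  intro n F S lo hi H M K0 q ε A φ κ hE hM hA hφ0 hφ1 hκ0 hκ1 hDec
  have hlev := hE.lev
  have hH3 : hi + 3 ≤ H := hE.hH.ge
  have hHn := hE.hHn
  have hcen : CenOK S := hE.good.1
  have hn5 : 5 ≤ n := by omega
  have hnR : (5 : ℝ) ≤ n := by exact_mod_cast hn5
  have hMR : (6 : ℝ) ≤ M := by exact_mod_cast hM
  have hεn := hE.εnn
  have hfac : (0 : ℝ) < (n.factorial : ℝ) := by exact_mod_cast n.factorial_pos
  -- the sets T
  have hT : ∀ (r : Perm (Fin n)) (a : ℕ), ∃ T : Finset (Fin n),
      ((¬ Pol F S r ∧ Low F r a) →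
        ((T.card : ℝ) ^ 2 ≤ M * (∑ x : Fin n, ind (x ∉ P r H ∧ LL F lo r a x)) +
          2 * ∑ x : Fin n, ∑ y : Fin n, ind (PairD F lo H r a x y ∧
            (M2 F lo r a x y ∨ NS F S (hi - a) r a x y)) ∧
        ∑ c ∈ range (n + 1), ∑ x : Fin n, κ (c + 1) * ((c : ℝ) - a + 1) * ind (CX F S r H a c x) ≤
          (∑ x : Fin n, ind (x ∉ P r H ∧ LL F lo r a x)) +
          ((hi - a : ℕ) : ℝ) * (∑ x : Fin n, ∑ z : Fin n, ind (x ∉ P r H ∧ z ∈ P r H ∧ M2 F lo r a x z)) +
          (∑ x ∈ T, ∑ c ∈ range (n + 1), κ (c + 1) * ((c : ℝ) - a) * ind (CX F S r H a c x)) +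
          3 / M * ∑ x : Fin n, ∑ y : Fin n, ∑ s ∈ range (n + 1),
            ind (x ∉ P r H ∧ y ∉ P r H ∧ Vld F S lo r a x y s))) ∧
      (¬ (¬ Pol F S r ∧ Low F r a) → T = ∅) := by
    intro r a
    by_cases h : ¬ Pol F S r ∧ Low F r a
    · obtain ⟨T, h1, h2⟩ := hPC n F S lo hi H (hi - a) M r a κ hlev hH3 hHn hcen (by omega) h.1 h.2
        hM hκ0 hκ1
      exact ⟨T, fun _ => ⟨h1, h2⟩, fun h' => absurd h h'⟩
    · exact ⟨∅, fun h' => absurd h' h, fun _ => rfl⟩
  choose T hT1 hT2 using hT
  refine ⟨T, ?_, ?_⟩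
  · -- part (a)
    refine le_trans ?_ (hG6 n F S lo hi H M K0 q ε A φ hE hφ0 hDec)
    apply Finset.sum_le_sum
    intro r _
    apply Finset.sum_le_sum
    intro a _
    have hw : 0 ≤ φ a * (1 + ((hi : ℝ) - a) ^ 2 / n) * ind (Low F r a) := by
      have := hφ0 a
      have := ind_nonneg (Low F r a)
      positivity
    apply mul_le_mul_of_nonneg_left _ hw
    by_cases h : ¬ Pol F S r ∧ Low F r a
    · exact (hT1 r a h).1
    · rw [hT2 r a h]
      have h1 : 0 ≤ ∑ x : Fin n, ind (x ∉ P r H ∧ LL F lo r a x) :=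
        Finset.sum_nonneg (fun _ _ => ind_nonneg _)
      have h2 : 0 ≤ ∑ x : Fin n, ∑ y : Fin n, ind (PairD F lo H r a x y ∧
            (M2 F lo r a x y ∨ NS F S (hi - a) r a x y)) :=
        Finset.sum_nonneg (fun _ _ => Finset.sum_nonneg (fun _ _ => ind_nonneg _))
      have h3 : (((∅ : Finset (Fin n)).card : ℝ)) ^ 2 = 0 := by simp
      rw [h3]
      have h4 : (0 : ℝ) ≤ M * ∑ x : Fin n, ind (x ∉ P r H ∧ LL F lo r a x) :=
        mul_nonneg (by linarith) h1
      linarith
  · intro h e hh he hhe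
    -- numeric facts
    have hfac1 : (1 : ℝ) ≤ (n.factorial : ℝ) := by exact_mod_cast n.factorial_pos
    have hnH : (0 : ℝ) < (n : ℝ) - H := by
      have : (H : ℝ) + 2 ≤ n := by exact_mod_cast hHn
      linarith
    have hq0 : 0 ≤ q := by
      refine le_trans ?_ hE.hq
      have : (lo : ℝ) ≤ hi := by exact_mod_cast hE.lohi
      have h1 : 0 ≤ 12 * ((hi : ℝ) - lo + 1) / n := by
        apply div_nonneg _ (by linarith)
        linarith
      have h2 : 0 ≤ 1 / Real.sqrt n := by positivity
      linarith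
    have hEC : ∑ r : Perm (Fin n), ind (ExcChain F S r) ≤ 2 * n * ε * (n.factorial : ℝ) := by
      apply hL3 n F S lo hi K0 q ε hlev hE.lohi (by omega) hE.n3 hE.good hεn hq0 hE.q1
      have h1 : 12 * ((hi : ℝ) - lo + 1) / n ≤ q := by
        have h2 : 0 ≤ 1 / Real.sqrt n := by positivity
        linarith [hE.hq]
      rwa [div_le_iff₀ (by linarith)] at h1
    have hPol : ∑ r : Perm (Fin n), ind (Pol F S r) ≤ 2 * (n : ℝ) ^ 17 * ε * (n.factorial : ℝ) := by
      refine le_trans (hL2 n F S) ?_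
      calc (n : ℝ) ^ 16 * ∑ r : Perm (Fin n), ind (ExcChain F S r)
          ≤ (n : ℝ) ^ 16 * (2 * n * ε * (n.factorial : ℝ)) := by
            apply mul_le_mul_of_nonneg_left hEC (by positivity)
        _ = 2 * (n : ℝ) ^ 17 * ε * (n.factorial : ℝ) := by ring
    have htiny20 : (n : ℝ) ^ 20 * ε ≤ 1 := by
      refine le_trans ?_ hE.tiny
      apply mul_le_mul_of_nonneg_right _ hεn
      exact pow_le_pow_right₀ (by linarith) (by norm_num)
    have htiny3 : (n : ℝ) ^ 3 * ε ≤ 1 := by
      refine le_trans ?_ hE.tiny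
      apply mul_le_mul_of_nonneg_right _ hεn
      exact pow_le_pow_right₀ (by linarith) (by norm_num)
    -- splitting X
    set X1 : ℝ := ∑ r : Perm (Fin n), ∑ a ∈ range (n + 1), ∑ k ∈ range (n + 1),
      φ a * κ k * ind (Low F r a ∧ P r k ∈ F ∧ a < k ∧ S (P r k) = none) with hX1
    set X3 : ℝ := ∑ r : Perm (Fin n), ∑ a ∈ range (n + 1), ∑ k ∈ range (n + 1),
      (φ a * κ k) * ind (Low F r a ∧ P r k ∈ F ∧ ∃ x, S (P r k) = some x ∧ x ∉ P r a) with hX3
    have hX : ∑ r : Perm (Fin n), ∑ a ∈ range (n + 1), ∑ k ∈ range (n + 1),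
          φ a * κ k * ind (Low F r a ∧ P r k ∈ F ∧ a < k) ≤
        X1 + (n + 1) * ∑ r : Perm (Fin n), ind (ExcChain F S r) + X3 := by
      rw [hX1, hX3, Finset.mul_sum, ← Finset.sum_add_distrib, ← Finset.sum_add_distrib]
      apply Finset.sum_le_sum
      intro r _
      have hstep : ∀ a ∈ range (n + 1), ∑ k ∈ range (n + 1),
          φ a * κ k * ind (Low F r a ∧ P r k ∈ F ∧ a < k) ≤
          ∑ k ∈ range (n + 1), φ a * κ k * ind (Low F r a ∧ P r k ∈ F ∧ a < k ∧ S (P r k) = none) +
          ind (Low F r a) * ((n + 1) * ind (ExcChain F S r)) +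
          ∑ k ∈ range (n + 1), (φ a * κ k) *
            ind (Low F r a ∧ P r k ∈ F ∧ ∃ x, S (P r k) = some x ∧ x ∉ P r a) := by
        intro a _
        have hs : ind (Low F r a) * (((n : ℝ) + 1) * ind (ExcChain F S r)) =
            ∑ k ∈ range (n + 1), ind (Low F r a) * ind (ExcChain F S r) := by
          rw [Finset.sum_const, Finset.card_range, nsmul_eq_mul]
          push_cast; ring
        rw [hs, ← Finset.sum_add_distrib, ← Finset.sum_add_distrib]
        apply Finset.sum_le_sum
        intro k _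
        have hw0 : 0 ≤ φ a * κ k := mul_nonneg (hφ0 a) (hκ0 k)
        have hw1 : φ a * κ k ≤ 1 := mul_le_one₀ (hφ1 a) (hκ0 k) (hκ1 k)
        have i1 := ind_nonneg (Low F r a ∧ P r k ∈ F ∧ a < k ∧ S (P r k) = none)
        have i2 := mul_nonneg (ind_nonneg (Low F r a)) (ind_nonneg (ExcChain F S r))
        have i3 := ind_nonneg (Low F r a ∧ P r k ∈ F ∧ ∃ x, S (P r k) = some x ∧ x ∉ P r a)
        have j1 := mul_nonneg hw0 i1
        have j3 := mul_nonneg hw0 i3
        by_cases hc : Low F r a ∧ P r k ∈ F ∧ a < k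
        · obtain ⟨c1, c2, c3⟩ := hc
          rw [ind_true ⟨c1, c2, c3⟩, mul_one]
          rcases hS : S (P r k) with _ | x
          · rw [ind_true ⟨c1, c2, c3, rfl⟩, mul_one]
            rw [hS] at j3
            linarith
          · by_cases hx : x ∈ P r a
            · have hexc : ExcChain F S r := by
                refine ⟨a, k, c1.1, c2, ?_, x, hx, hS⟩
                refine ⟨P_mono r c3.le, fun hsub => ?_⟩
                have h1 := Finset.card_le_card hsub
                rw [card_P', card_P'] at h1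
                have h2 := hit_level hlev (by omega) c2
                omega
              rw [ind_true c1, ind_true hexc]
              rw [hS] at j1 j3
              linarith
            · rw [ind_true (p := Low F r a ∧ P r k ∈ F ∧ ∃ x_1, some x = some x_1 ∧ x_1 ∉ P r a)
                ⟨c1, c2, x, rfl, hx⟩, mul_one]
              rw [hS] at j1
              linarith
        · rw [ind_false hc, mul_zero]
          linarith
      refine le_trans (Finset.sum_le_sum hstep) ?_
      rw [Finset.sum_add_distrib, Finset.sum_add_distrib]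
      have := sum_Low_le F r (fun _ => ((n : ℝ) + 1) * ind (ExcChain F S r))
        (((n : ℝ) + 1) * ind (ExcChain F S r))
        (mul_nonneg (by positivity) (ind_nonneg _)) (fun _ _ => le_rfl)
      linarith
    have hX1b : n * X1 ≤ 576 * K0 * A * (n.factorial : ℝ) :=
      hG7 n F S lo hi H K0 q ε A φ κ hE hφ0 hκ0 hκ1 hDec
    -- the sum R
    set R : ℝ := ∑ r : Perm (Fin n), ∑ a ∈ range (n + 1), ∑ c ∈ range (n + 1), ∑ x : Fin n,
      (φ a * κ (c + 1)) * ((c : ℝ) - a + 1) * ind (Low F r a ∧ CX F S r H a c x) with hR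
    have hTA' : ((n : ℝ) - H) * X3 = R :=
      hTA n F S lo hi H (fun a k => φ a * κ k) hlev hH3 hHn hcen
    have hX30 : 0 ≤ X3 := by
      rw [hX3]
      refine Finset.sum_nonneg (fun r _ => Finset.sum_nonneg (fun a _ => Finset.sum_nonneg
        (fun k _ => ?_)))
      exact mul_nonneg (mul_nonneg (hφ0 a) (hκ0 k)) (ind_nonneg _)
    have hnX3 : n * X3 ≤ 3 * R := by
      rw [← hTA']
      have := mul_le_mul_of_nonneg_right hE.r2 hX30
      linarith
    -- bound for each r
    set Y2 : Perm (Fin n) → ℝ := fun r => ∑ a ∈ range (n + 1), ∑ x : Fin n,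
      ind (Low F r a ∧ x ∉ P r H ∧ LL F lo r a x) with hY2
    set Y5 : Perm (Fin n) → ℝ := fun r => ∑ a ∈ range (n + 1), ∑ x : Fin n, ∑ z : Fin n,
      φ a * ((hi : ℝ) - a) * ind (Low F r a ∧ x ∉ P r H ∧ z ∈ P r H ∧ M2 F lo r a x z) with hY5
    set YT : Perm (Fin n) → ℝ := fun r => ∑ a ∈ range (n + 1),
      ind (Low F r a) * h a * ((T r a).card : ℝ) with hYT
    set YE : Perm (Fin n) → ℝ := fun r => ∑ c ∈ range (n + 1), ∑ x : Fin n,
      e (c + 1) * ind (CX F S r H 0 c x) with hYE
    set YV : Perm (Fin n) → ℝ := fun r => ∑ a ∈ range (n + 1), ∑ x : Fin n, ∑ y : Fin n,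
      ∑ s ∈ range (n + 1), ind (x ∉ P r H ∧ y ∉ P r H ∧ Vld F S lo r a x y s) with hYV
    have hY20 : ∀ r, 0 ≤ Y2 r := fun r => Finset.sum_nonneg (fun a _ => Finset.sum_nonneg
      (fun k _ => ind_nonneg _))
    have hY50 : ∀ r, 0 ≤ Y5 r := by
      intro r
      refine Finset.sum_nonneg (fun a _ => Finset.sum_nonneg (fun x _ => Finset.sum_nonneg
        (fun z _ => ?_)))
      by_cases hl : Low F r a ∧ x ∉ P r H ∧ z ∈ P r H ∧ M2 F lo r a x z
      · have hb := (low_level hlev hH3 hHn hl.1).2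
        have hbR : (a : ℝ) ≤ hi := by exact_mod_cast hb
        have := hφ0 a
        have := ind_nonneg (Low F r a ∧ x ∉ P r H ∧ z ∈ P r H ∧ M2 F lo r a x z)
        apply mul_nonneg (mul_nonneg (hφ0 a) (by linarith)) this
      · rw [ind_false hl, mul_zero]
    have hYT0 : ∀ r, 0 ≤ YT r := by
      intro r
      refine Finset.sum_nonneg (fun a _ => ?_)
      have := hh a
      have := ind_nonneg (Low F r a)
      positivity
    have hYE0 : ∀ r, 0 ≤ YE r := by
      intro r
      refine Finset.sum_nonneg (fun a _ => Finset.sum_nonneg (fun x _ => ?_))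
      exact mul_nonneg (he _) (ind_nonneg _)
    have hYV0 : ∀ r, 0 ≤ YV r := by
      intro r
      exact Finset.sum_nonneg (fun a _ => Finset.sum_nonneg (fun x _ => Finset.sum_nonneg
        (fun y _ => Finset.sum_nonneg (fun s _ => ind_nonneg _))))
    have hRr : ∀ r : Perm (Fin n), ∑ a ∈ range (n + 1), ∑ c ∈ range (n + 1), ∑ x : Fin n,
        (φ a * κ (c + 1)) * ((c : ℝ) - a + 1) * ind (Low F r a ∧ CX F S r H a c x) ≤
        4 * (n : ℝ) ^ 3 * ind (Pol F S r) + Y2 r + Y5 r + YT r + YE r + 3 / M * YV r := by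
      intro r
      have hrew : ∀ a, ∑ c ∈ range (n + 1), ∑ x : Fin n,
          (φ a * κ (c + 1)) * ((c : ℝ) - a + 1) * ind (Low F r a ∧ CX F S r H a c x) =
          ind (Low F r a) * (φ a * ∑ c ∈ range (n + 1), ∑ x : Fin n,
            κ (c + 1) * ((c : ℝ) - a + 1) * ind (CX F S r H a c x)) := by
        intro a
        rw [mul_sum4, mul_sum4]
        apply Finset.sum_congr rfl; intro c _
        apply Finset.sum_congr rfl; intro x _
        rw [ind_and]; ring
      simp_rw [hrew]
      have h3M : 0 ≤ 3 / (M : ℝ) * YV r := mul_nonneg (by positivity) (hYV0 r)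
      by_cases hpol : Pol F S r
      · have hb : ∑ a ∈ range (n + 1), ind (Low F r a) * (φ a * ∑ c ∈ range (n + 1), ∑ x : Fin n,
            κ (c + 1) * ((c : ℝ) - a + 1) * ind (CX F S r H a c x)) ≤ 4 * (n : ℝ) ^ 3 := by
          apply sum_Low_le F r _ _ (by positivity)
          intro a _
          have h1 : ∑ c ∈ range (n + 1), ∑ x : Fin n,
            κ (c + 1) * ((c : ℝ) - a + 1) * ind (CX F S r H a c x) ≤
            ∑ c ∈ range (n + 1), ∑ x : Fin n, ((n : ℝ) + 1) := by
            apply Finset.sum_le_sum; intro c hc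
            apply Finset.sum_le_sum; intro x _
            have hcn : (c : ℝ) ≤ n := by
              have := Finset.mem_range.1 hc
              exact_mod_cast (by omega : c ≤ n)
            have ha0 : (0 : ℝ) ≤ a := by positivity
            by_cases hcx : CX F S r H a c x
            · rw [ind_true hcx, mul_one]
              have hac : (a : ℝ) ≤ c := by exact_mod_cast hcx.1
              calc κ (c + 1) * ((c : ℝ) - a + 1) ≤ 1 * ((c : ℝ) - a + 1) := by
                    apply mul_le_mul_of_nonneg_right (hκ1 _); linarith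
                _ ≤ (n : ℝ) + 1 := by linarith
            · rw [ind_false hcx, mul_zero]; positivity
          have h2 : 0 ≤ ∑ c ∈ range (n + 1), ∑ x : Fin n,
            κ (c + 1) * ((c : ℝ) - a + 1) * ind (CX F S r H a c x) := by
            refine Finset.sum_nonneg (fun c _ => Finset.sum_nonneg (fun x _ => ?_))
            by_cases hcx : CX F S r H a c x
            · rw [ind_true hcx, mul_one]
              have hac : (a : ℝ) ≤ c := by exact_mod_cast hcx.1
              exact mul_nonneg (hκ0 _) (by linarith)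
            · rw [ind_false hcx, mul_zero]
          have h3 : ∑ c ∈ range (n + 1), ∑ x : Fin n, ((n : ℝ) + 1) = (n + 1) * (n * (n + 1)) := by
            simp only [Finset.sum_const, Finset.card_univ, Fintype.card_fin, Finset.card_range,
              nsmul_eq_mul]
            push_cast; ring
          have h4 : ((n : ℝ) + 1) * (n * (n + 1)) ≤ 4 * (n : ℝ) ^ 3 := num2 _ hnR
          have h5 := hφ1 a
          have h6 := mul_le_mul_of_nonneg_right h5 h2
          rw [one_mul] at h6
          linarith [h1, h3, h4]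
        rw [ind_true hpol]
        linarith [hY20 r, hY50 r, hYT0 r, hYE0 r, h3M, hb]
      · rw [ind_false hpol, mul_zero]
        -- for each a
        have hterm : ∀ a ∈ range (n + 1), ind (Low F r a) * (φ a * ∑ c ∈ range (n + 1),
            ∑ x : Fin n, κ (c + 1) * ((c : ℝ) - a + 1) * ind (CX F S r H a c x)) ≤
            (∑ x : Fin n, ind (Low F r a ∧ x ∉ P r H ∧ LL F lo r a x)) +
            (∑ x : Fin n, ∑ z : Fin n,
              φ a * ((hi : ℝ) - a) * ind (Low F r a ∧ x ∉ P r H ∧ z ∈ P r H ∧ M2 F lo r a x z)) +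
            ind (Low F r a) * h a * ((T r a).card : ℝ) +
            ind (Low F r a) * YE r +
            3 / M * (∑ x : Fin n, ∑ y : Fin n, ∑ s ∈ range (n + 1),
              ind (x ∉ P r H ∧ y ∉ P r H ∧ Vld F S lo r a x y s)) := by
          intro a _
          by_cases hl : Low F r a
          · have hll := low_level hlev hH3 hHn hl
            have hcast : ((hi - a : ℕ) : ℝ) = (hi : ℝ) - a := by
              rw [Nat.cast_sub hll.2]
            have hmain := (hT1 r a ⟨hpol, hl⟩).2
            rw [hcast] at hmain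
            rw [ind_true hl, one_mul, one_mul, one_mul]
            -- rewrite inds
            have e1 : ∑ x : Fin n, ind (Low F r a ∧ x ∉ P r H ∧ LL F lo r a x) =
                ∑ x : Fin n, ind (x ∉ P r H ∧ LL F lo r a x) := by
              apply Finset.sum_congr rfl; intro x _
              exact ind_congr ⟨fun hx => hx.2, fun hx => ⟨hl, hx⟩⟩
            have e2 : ∑ x : Fin n, ∑ z : Fin n,
                φ a * ((hi : ℝ) - a) * ind (Low F r a ∧ x ∉ P r H ∧ z ∈ P r H ∧ M2 F lo r a x z) =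
                φ a * (((hi : ℝ) - a) *
                  ∑ x : Fin n, ∑ z : Fin n, ind (x ∉ P r H ∧ z ∈ P r H ∧ M2 F lo r a x z)) := by
              rw [Finset.mul_sum, Finset.mul_sum]
              apply Finset.sum_congr rfl; intro x _
              rw [Finset.mul_sum, Finset.mul_sum]
              apply Finset.sum_congr rfl; intro z _
              rw [ind_congr (p := Low F r a ∧ x ∉ P r H ∧ z ∈ P r H ∧ M2 F lo r a x z)
                (q := x ∉ P r H ∧ z ∈ P r H ∧ M2 F lo r a x z)
                ⟨fun hx => hx.2, fun hx => ⟨hl, hx⟩⟩]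
              ring
            rw [e1, e2]
            set Lc := ∑ x : Fin n, ind (x ∉ P r H ∧ LL F lo r a x) with hLc
            set Dc := ∑ x : Fin n, ∑ z : Fin n, ind (x ∉ P r H ∧ z ∈ P r H ∧ M2 F lo r a x z)
              with hDc
            set Vc := ∑ x : Fin n, ∑ y : Fin n, ∑ s ∈ range (n + 1),
              ind (x ∉ P r H ∧ y ∉ P r H ∧ Vld F S lo r a x y s) with hVc
            have hLc0 : 0 ≤ Lc := Finset.sum_nonneg (fun _ _ => ind_nonneg _)
            have hVc0 : 0 ≤ Vc := Finset.sum_nonneg (fun _ _ => Finset.sum_nonneg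
              (fun _ _ => Finset.sum_nonneg (fun _ _ => ind_nonneg _)))
            -- the T term
            have hTt : φ a * ∑ x ∈ T r a, ∑ c ∈ range (n + 1),
                κ (c + 1) * ((c : ℝ) - a) * ind (CX F S r H a c x) ≤
                h a * ((T r a).card : ℝ) + YE r := by
              have s1 : φ a * ∑ x ∈ T r a, ∑ c ∈ range (n + 1),
                κ (c + 1) * ((c : ℝ) - a) * ind (CX F S r H a c x) ≤
                ∑ x ∈ T r a, (h a * ∑ c ∈ range (n + 1), ind (CX F S r H a c x) +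
                  ∑ c ∈ range (n + 1), e (c + 1) * ind (CX F S r H 0 c x)) := by
                rw [Finset.mul_sum]
                apply Finset.sum_le_sum; intro x _
                rw [Finset.mul_sum, Finset.mul_sum, ← Finset.sum_add_distrib]
                apply Finset.sum_le_sum; intro c _
                by_cases hcx : CX F S r H a c x
                · have hcx0 : CX F S r H 0 c x := ⟨Nat.zero_le _, hcx.2⟩
                  rw [ind_true hcx, ind_true hcx0, mul_one, mul_one, mul_one]
                  have := hhe a c hcx.1 (cx_level hlev hH3 hHn hcx).2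
                  linarith
                · rw [ind_false hcx, mul_zero, mul_zero, mul_zero, zero_add]
                  exact mul_nonneg (he _) (ind_nonneg _)
              have s2 : ∀ x, ∑ c ∈ range (n + 1), ind (CX F S r H a c x) ≤ 1 := by
                intro x
                by_cases hex : ∃ c ∈ range (n + 1), CX F S r H a c x
                · obtain ⟨c, hc, hcx⟩ := hex
                  rw [Finset.sum_eq_single_of_mem c hc]
                  · exact ind_le_one _
                  · intro b _ hb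
                    apply ind_false
                    intro hbx
                    rcases Nat.lt_or_gt_of_ne hb with hlt | hlt
                    · have := (hD n F S lo hi H (hi - a) r a c x hlev hH3 hHn hcen (by omega)
                        hpol hl hcx).2.1 b hlt
                      exact this hbx.2.2.1
                    · have := (hD n F S lo hi H (hi - a) r a b x hlev hH3 hHn hcen (by omega)
                        hpol hl hbx).2.1 c hlt
                      exact this hcx.2.2.1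
                · have : ∑ c ∈ range (n + 1), ind (CX F S r H a c x) = 0 := by
                    apply Finset.sum_eq_zero
                    intro c hc
                    exact ind_false (fun hcx => hex ⟨c, hc, hcx⟩)
                  rw [this]; norm_num
              refine le_trans s1 ?_
              rw [Finset.sum_add_distrib]
              have s3 : ∑ x ∈ T r a, h a * ∑ c ∈ range (n + 1), ind (CX F S r H a c x) ≤
                  h a * ((T r a).card : ℝ) := by
                calc ∑ x ∈ T r a, h a * ∑ c ∈ range (n + 1), ind (CX F S r H a c x)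
                    ≤ ∑ x ∈ T r a, h a * 1 := by
                      apply Finset.sum_le_sum; intro x _
                      exact mul_le_mul_of_nonneg_left (s2 x) (hh a)
                  _ = h a * ((T r a).card : ℝ) := by
                      rw [Finset.sum_const, nsmul_eq_mul]; ring
              have s4 : ∑ x ∈ T r a, ∑ c ∈ range (n + 1), e (c + 1) * ind (CX F S r H 0 c x) ≤
                  YE r := by
                calc ∑ x ∈ T r a, ∑ c ∈ range (n + 1), e (c + 1) * ind (CX F S r H 0 c x)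
                    ≤ ∑ x : Fin n, ∑ c ∈ range (n + 1), e (c + 1) * ind (CX F S r H 0 c x) := by
                      apply Finset.sum_le_univ_sum_of_nonneg
                      intro x
                      exact Finset.sum_nonneg (fun c _ => mul_nonneg (he _) (ind_nonneg _))
                  _ = YE r := by rw [Finset.sum_comm]
              linarith
            have hφm := mul_le_mul_of_nonneg_left hmain (hφ0 a)
            have b1 : φ a * Lc ≤ Lc := by
              calc φ a * Lc ≤ 1 * Lc := mul_le_mul_of_nonneg_right (hφ1 a) hLc0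
                _ = Lc := one_mul _
            have b2 : φ a * (3 / M * Vc) ≤ 3 / M * Vc := by
              have : 0 ≤ 3 / (M : ℝ) * Vc := mul_nonneg (by positivity) hVc0
              calc φ a * (3 / M * Vc) ≤ 1 * (3 / M * Vc) := mul_le_mul_of_nonneg_right (hφ1 a) this
                _ = 3 / M * Vc := one_mul _
            rw [mul_add, mul_add, mul_add] at hφm
            linarith
          · rw [ind_false hl, zero_mul, zero_mul, zero_mul, zero_mul]
            have t1 : 0 ≤ ∑ x : Fin n, ind (Low F r a ∧ x ∉ P r H ∧ LL F lo r a x) :=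
              Finset.sum_nonneg (fun _ _ => ind_nonneg _)
            have t2 : ∑ x : Fin n, ∑ z : Fin n,
              φ a * ((hi : ℝ) - a) * ind (Low F r a ∧ x ∉ P r H ∧ z ∈ P r H ∧ M2 F lo r a x z) = 0 := by
              apply Finset.sum_eq_zero; intro x _
              apply Finset.sum_eq_zero; intro z _
              rw [ind_false (fun hx => hl hx.1), mul_zero]
            have t3 : 0 ≤ ∑ x : Fin n, ∑ y : Fin n, ∑ s ∈ range (n + 1),
              ind (x ∉ P r H ∧ y ∉ P r H ∧ Vld F S lo r a x y s) :=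
              Finset.sum_nonneg (fun _ _ => Finset.sum_nonneg
                (fun _ _ => Finset.sum_nonneg (fun _ _ => ind_nonneg _)))
            have t4 : 0 ≤ 3 / (M : ℝ) * ∑ x : Fin n, ∑ y : Fin n, ∑ s ∈ range (n + 1),
              ind (x ∉ P r H ∧ y ∉ P r H ∧ Vld F S lo r a x y s) :=
              mul_nonneg (by positivity) t3
            rw [t2]
            linarith
        refine le_trans (Finset.sum_le_sum hterm) ?_
        rw [Finset.sum_add_distrib, Finset.sum_add_distrib, Finset.sum_add_distrib,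
          Finset.sum_add_distrib, ← Finset.mul_sum]
        have u4 := sum_Low_le F r (fun _ => YE r) (YE r) (hYE0 r) (fun _ _ => le_rfl)
        simp only [hY2, hY5, hYT, hYV]
        linarith
    -- sum over r
    have hRsum : R ≤ 4 * (n : ℝ) ^ 3 * ∑ r : Perm (Fin n), ind (Pol F S r) +
        ∑ r : Perm (Fin n), Y2 r + ∑ r : Perm (Fin n), Y5 r + ∑ r : Perm (Fin n), YT r +
        ∑ r : Perm (Fin n), YE r + 3 / M * ∑ r : Perm (Fin n), YV r := by
      rw [hR]
      refine le_trans (Finset.sum_le_sum (fun r _ => hRr r)) ?_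
      rw [Finset.sum_add_distrib, Finset.sum_add_distrib, Finset.sum_add_distrib,
          Finset.sum_add_distrib, Finset.sum_add_distrib, ← Finset.mul_sum, ← Finset.mul_sum]
    have q2 : ∑ r : Perm (Fin n), Y2 r ≤ 3 / 2 * (n.factorial : ℝ) :=
      hG2 n F S lo hi H K0 q ε hE
    have q5 : ∑ r : Perm (Fin n), Y5 r ≤ 36 * A * (n.factorial : ℝ) :=
      hG5 n F S lo hi H K0 q ε A φ hE hφ0 hDec
    set EE : ℝ := ∑ r : Perm (Fin n), ∑ k ∈ range (n + 1), e k * ind (P r k ∈ F) with hEE
    have hEE0 : 0 ≤ EE := Finset.sum_nonneg (fun r _ => Finset.sum_nonneg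
      (fun k _ => mul_nonneg (he _) (ind_nonneg _)))
    have qE : ∑ r : Perm (Fin n), YE r ≤ 3 / 2 * EE := by
      have h5 := hC5 n F S lo hi H e hlev hH3 hHn he
      have hlo : (0 : ℝ) < (lo : ℝ) + 1 := by positivity
      have h6 : ((n : ℝ) - H) * EE ≤ 3 / 2 * ((lo : ℝ) + 1) * EE := by
        apply mul_le_mul_of_nonneg_right _ hEE0
        linarith [hE.r1]
      have h7 : ((lo : ℝ) + 1) * ∑ r : Perm (Fin n), YE r ≤ ((lo : ℝ) + 1) * (3 / 2 * EE) := by
        calc ((lo : ℝ) + 1) * ∑ r : Perm (Fin n), YE r ≤ ((n : ℝ) - H) * EE := h5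
          _ ≤ 3 / 2 * ((lo : ℝ) + 1) * EE := h6
          _ = ((lo : ℝ) + 1) * (3 / 2 * EE) := by ring
      exact le_of_mul_le_mul_left h7 hlo
    set ZM : ℝ := ∑ r : Perm (Fin n), ind (Miss F r) with hZM
    set ZP : ℝ := ∑ r : Perm (Fin n), ind (Pol F S r) with hZP
    have hZM0 : 0 ≤ ZM := Finset.sum_nonneg (fun _ _ => ind_nonneg _)
    have hZP0 : 0 ≤ ZP := Finset.sum_nonneg (fun _ _ => ind_nonneg _)
    have qV : ∑ r : Perm (Fin n), YV r ≤ 3 * n * (ZM + (n : ℝ) ^ 2 * ZP) := by
      have h5 := hC4 n F S lo hi H hlev hH3 hHn hcen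
      have hlo : (0 : ℝ) < (lo : ℝ) + 1 := by positivity
      have hn3 : (n : ℝ) ≤ 3 * ((lo : ℝ) + 1) := by
        have : (n : ℝ) ≤ 3 * lo := by exact_mod_cast hE.n3
        linarith
      have h6 : (n : ℝ) ^ 2 * (ZM + (n : ℝ) ^ 2 * ZP) ≤
          ((lo : ℝ) + 1) * (3 * n * (ZM + (n : ℝ) ^ 2 * ZP)) := by
        have hz : 0 ≤ n * (ZM + (n : ℝ) ^ 2 * ZP) := by positivity
        calc (n : ℝ) ^ 2 * (ZM + (n : ℝ) ^ 2 * ZP) = n * (n * (ZM + (n : ℝ) ^ 2 * ZP)) := by ring
          _ ≤ (3 * ((lo : ℝ) + 1)) * (n * (ZM + (n : ℝ) ^ 2 * ZP)) :=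
              mul_le_mul_of_nonneg_right hn3 hz
          _ = ((lo : ℝ) + 1) * (3 * n * (ZM + (n : ℝ) ^ 2 * ZP)) := by ring
      exact le_of_mul_le_mul_left (le_trans h5 h6) hlo
    -- conclude
    have hM0 : (0 : ℝ) < M := by linarith
    have v1 : 3 / (M : ℝ) * ∑ r : Perm (Fin n), YV r ≤
        9 / M * (n * ZM) + 9 / 6 * ((n : ℝ) ^ 3 * ZP) := by
      calc 3 / (M : ℝ) * ∑ r : Perm (Fin n), YV r
          ≤ 3 / (M : ℝ) * (3 * n * (ZM + (n : ℝ) ^ 2 * ZP)) :=
            mul_le_mul_of_nonneg_left qV (by positivity)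
        _ = 9 / M * (n * ZM) + 9 / M * ((n : ℝ) ^ 3 * ZP) := by ring
        _ ≤ 9 / M * (n * ZM) + 9 / 6 * ((n : ℝ) ^ 3 * ZP) := by
            have : 9 / (M : ℝ) ≤ 9 / 6 := by
              apply div_le_div_of_nonneg_left (by norm_num) (by norm_num) hMR
            have h0 : 0 ≤ (n : ℝ) ^ 3 * ZP := by positivity
            have := mul_le_mul_of_nonneg_right this h0
            linarith
    have hP3 : (n : ℝ) ^ 3 * ZP ≤ 2 * (n.factorial : ℝ) := by
      calc (n : ℝ) ^ 3 * ZP ≤ (n : ℝ) ^ 3 * (2 * (n : ℝ) ^ 17 * ε * (n.factorial : ℝ)) :=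
            mul_le_mul_of_nonneg_left hPol (by positivity)
        _ = 2 * ((n : ℝ) ^ 20 * ε) * (n.factorial : ℝ) := by ring
        _ ≤ 2 * 1 * (n.factorial : ℝ) := by
            apply mul_le_mul_of_nonneg_right _ hfac.le
            linarith
        _ = 2 * (n.factorial : ℝ) := by ring
    have hEx3 : n * (((n : ℝ) + 1) * ∑ r : Perm (Fin n), ind (ExcChain F S r)) ≤
        4 * (n.factorial : ℝ) := by
      calc n * (((n : ℝ) + 1) * ∑ r : Perm (Fin n), ind (ExcChain F S r))
          ≤ n * (((n : ℝ) + 1) * (2 * n * ε * (n.factorial : ℝ))) := by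
            apply mul_le_mul_of_nonneg_left _ (by positivity)
            exact mul_le_mul_of_nonneg_left hEC (by positivity)
        _ = 2 * ((n : ℝ) + 1) * n ^ 2 * ε * (n.factorial : ℝ) := by ring
        _ ≤ 4 * ((n : ℝ) ^ 3 * ε) * (n.factorial : ℝ) := by
            apply mul_le_mul_of_nonneg_right _ hfac.le
            have : 2 * ((n : ℝ) + 1) * n ^ 2 ≤ 4 * (n : ℝ) ^ 3 := num1 _ hnR
            calc 2 * ((n : ℝ) + 1) * n ^ 2 * ε ≤ 4 * (n : ℝ) ^ 3 * ε :=
                  mul_le_mul_of_nonneg_right this hεn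
              _ = 4 * ((n : ℝ) ^ 3 * ε) := by ring
        _ ≤ 4 * 1 * (n.factorial : ℝ) := by
            apply mul_le_mul_of_nonneg_right _ hfac.le
            linarith
        _ = 4 * (n.factorial : ℝ) := by ring
    have hfinal : n * ∑ r : Perm (Fin n), ∑ a ∈ range (n + 1), ∑ k ∈ range (n + 1),
          φ a * κ k * ind (Low F r a ∧ P r k ∈ F ∧ a < k) ≤
        n * (X1 + (n + 1) * ∑ r : Perm (Fin n), ind (ExcChain F S r) + X3) :=
      mul_le_mul_of_nonneg_left hX (by positivity)
    have hYTs : ∑ r : Perm (Fin n), YT r = ∑ r : Perm (Fin n), ∑ a ∈ range (n + 1),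
        ind (Low F r a) * h a * ((T r a).card : ℝ) := rfl
    rw [← hYTs]
    have hYTs0 : 0 ≤ ∑ r : Perm (Fin n), YT r := Finset.sum_nonneg (fun r _ => hYT0 r)
    have e27 : 27 / (M : ℝ) * (n * ZM) = 3 * (9 / M * (n * ZM)) := by ring
    rw [e27]
    have hAf : 0 ≤ A * (n.factorial : ℝ) := by positivity
    have hgoal : (100 + (108 + 576 * K0) * A) * (n.factorial : ℝ) =
      100 * (n.factorial : ℝ) + 108 * (A * (n.factorial : ℝ)) + 576 * K0 * A * (n.factorial : ℝ) := by
      ring
    rw [hgoal]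
    have hexp : (n : ℝ) * (X1 + (n + 1) * ∑ r : Perm (Fin n), ind (ExcChain F S r) + X3) =
        n * X1 + n * (((n : ℝ) + 1) * ∑ r : Perm (Fin n), ind (ExcChain F S r)) + n * X3 := by ring
    rw [hexp] at hfinal
    have hR4 : 4 * (n : ℝ) ^ 3 * ZP = 4 * ((n : ℝ) ^ 3 * ZP) := by ring
    rw [hR4] at hRsum
    have h36 : 36 * A * (n.factorial : ℝ) = 36 * (A * (n.factorial : ℝ)) := by ring
    rw [h36] at q5
    refine le_trans hfinal ?_
    exact fin_arith _ _ _ _ _ _ _ _ _ _ _ _ _ _ _ hX1b hEx3 hnX3 hRsum q2 q5 qE v1 hP3 hEE0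
      hfac.le

end Pool.Agent.H710.KU
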