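import Pool.Agent.H710.KU.St

/-!
L1: a chain close to an exceptional pair is polluted.
-/

set_option autoImplicit false

namespace Pool.Agent.H710.KU

open Finset Equiv

namespace L1

variable {n : ℕ}

theorem swaps_succ {t : ℕ} {ρ : Perm (Fin n)} (h : ρ ∈ swaps n t) (u v : Fin n) :
    ρ * swap u v ∈ swaps n (t + 1) := by
  rw [swaps, Finset.mem_image]
  exact ⟨(ρ, (u, v)), Finset.mem_product.2 ⟨h, Finset.mem_univ _⟩, rfl⟩

theorem swaps_mul {s : ℕ} {ρ : Perm (Fin n)} (h : ρ ∈ swaps n s) :
    ∀ (t : ℕ) (τ : Perm (Fin n)), τ ∈ swaps n t → ρ * τ ∈ swaps n (s + t) := by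
  intro t
  induction t with
  | zero =>
    intro τ hτ
    rw [swaps, Finset.mem_singleton] at hτ
    rw [hτ, mul_one]
    exact h
  | succ t ih =>
    intro τ hτ
    rw [swaps, Finset.mem_image] at hτ
    obtain ⟨⟨τ', u, v⟩, hp, rfl⟩ := hτ
    have h1 := ih τ' (Finset.mem_product.1 hp).1
    have h2 := swaps_succ h1 u v
    rw [mul_assoc] at h2
    exact h2

/-- a transposition of two positions on the same side of `k` does not change the `k`-th set -/
theorem P_swap_same (r : Perm (Fin n)) (u v : Fin n) (k : ℕ)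
    (h : ((u : ℕ) < k ↔ (v : ℕ) < k)) : P (swap u v * r) k = P r k := by
  ext e
  rw [mem_P_mul, mem_P]
  by_cases h1 : r e = u
  · rw [h1, swap_apply_left]; exact h.symm
  · by_cases h2 : r e = v
    · rw [h2, swap_apply_right]; exact h
    · rw [swap_apply_of_ne_of_ne h1 h2]

theorem card_sdiff_tri (A B D : Finset (Fin n)) :
    (A \ D).card ≤ (A \ B).card + (B \ D).card := by
  refine le_trans (Finset.card_le_card ?_) (Finset.card_union_le _ _)
  intro e he
  rw [Finset.mem_sdiff] at he
  rw [Finset.mem_union, Finset.mem_sdiff, Finset.mem_sdiff]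
  by_cases hB : e ∈ B
  · exact Or.inr ⟨hB, he.2⟩
  · exact Or.inl ⟨he.1, hB⟩

theorem P_sdiff_swap (r : Perm (Fin n)) (u v : Fin n) (k : ℕ) :
    (P r k \ P (swap u v * r) k).card ≤ 1 := by
  by_cases h : ((u : ℕ) < k ↔ (v : ℕ) < k)
  · rw [P_swap_same r u v k h, Finset.sdiff_self]
    simp
  · rw [Finset.card_le_one]
    have key : ∀ e ∈ P r k \ P (swap u v * r) k,
        (((u : ℕ) < k ∧ r e = u) ∨ ((v : ℕ) < k ∧ r e = v)) := by
      intro e he
      rw [Finset.mem_sdiff, mem_P_mul, mem_P] at he
      by_cases h1 : r e = u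
      · left
        rw [h1] at he
        exact ⟨he.1, h1⟩
      · by_cases h2 : r e = v
        · right
          rw [h2] at he
          exact ⟨he.1, h2⟩
        · rw [swap_apply_of_ne_of_ne h1 h2] at he
          exact absurd he.1 he.2
    intro e he e' he'
    rcases key e he with ⟨h1, h2⟩ | ⟨h1, h2⟩ <;> rcases key e' he' with ⟨h3, h4⟩ | ⟨h3, h4⟩
    · exact r.injective (h2.trans h4.symm)
    · exact absurd ⟨fun _ => h3, fun _ => h1⟩ h
    · exact absurd ⟨fun _ => h1, fun _ => h3⟩ h
    · exact r.injective (h2.trans h4.symm)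

theorem P_sdiff_swaps (k : ℕ) : ∀ (t : ℕ) (r ρ : Perm (Fin n)), ρ ∈ swaps n t →
    (P r k \ P (ρ * r) k).card ≤ t := by
  intro t
  induction t with
  | zero =>
    intro r ρ hρ
    rw [swaps, Finset.mem_singleton] at hρ
    rw [hρ, one_mul, Finset.sdiff_self]
    simp
  | succ t ih =>
    intro r ρ hρ
    rw [swaps, Finset.mem_image] at hρ
    obtain ⟨⟨τ, u, v⟩, hp, rfl⟩ := hρ
    have h1 := ih (swap u v * r) τ (Finset.mem_product.1 hp).1
    have h2 := P_sdiff_swap r u v k
    have h3 := card_sdiff_tri (P r k) (P (swap u v * r) k) (P (τ * (swap u v * r)) k)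
    have h4 : τ * (swap u v * r) = τ * swap u v * r := (mul_assoc _ _ _).symm
    rw [h4] at h1 h3
    show (P r k \ P (τ * swap u v * r) k).card ≤ t + 1
    omega

/-- every set close to `P r j` is the `j`-th set of a rearrangement -/
theorem reach (i0 : Fin n) : ∀ (t : ℕ) (r : Perm (Fin n)) (X : Finset (Fin n)),
    (X \ P r X.card).card ≤ t →
    ∃ ρ ∈ swaps n t, P (ρ * r) X.card = X ∧
      ∀ k, X.card ≤ k → X ⊆ P r k → P (ρ * r) k = P r k := by
  intro t
  induction t with
  | zero =>
    intro r X hX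
    have h1 : X ⊆ P r X.card := by
      rw [← Finset.sdiff_eq_empty_iff_subset, ← Finset.card_eq_zero]
      omega
    have hn : X.card ≤ n := by
      have := Finset.card_le_univ X
      rwa [Fintype.card_fin] at this
    have h2 : X = P r X.card := Finset.eq_of_subset_of_card_le h1 (by rw [card_P r _ hn])
    refine ⟨1, by rw [swaps]; exact Finset.mem_singleton_self _, ?_, ?_⟩
    · rw [one_mul]; exact h2.symm
    · intro k _ _
      rw [one_mul]
  | succ t ih =>
    intro r X hX
    have hn : X.card ≤ n := by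
      have := Finset.card_le_univ X
      rwa [Fintype.card_fin] at this
    by_cases h0 : (X \ P r X.card).card = 0
    · obtain ⟨ρ, hρ, h1, h2⟩ := ih r X (by omega)
      refine ⟨ρ * swap i0 i0, swaps_succ hρ _ _, ?_, ?_⟩
      · rw [swap_self, ← Equiv.Perm.one_def, mul_one]; exact h1
      · rw [swap_self, ← Equiv.Perm.one_def, mul_one]; exact h2
    · have hc1 := Finset.card_sdiff_add_card_inter X (P r X.card)
      have hc2 := Finset.card_sdiff_add_card_inter (P r X.card) X
      rw [card_P r _ hn, Finset.inter_comm] at hc2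
      obtain ⟨e, he⟩ := Finset.card_pos.1 (Nat.pos_of_ne_zero h0)
      have h0' : 0 < (P r X.card \ X).card := by omega
      obtain ⟨e', he'⟩ := Finset.card_pos.1 h0'
      rw [Finset.mem_sdiff] at he he'
      have hre : ¬ ((r e : ℕ) < X.card) := fun h => he.2 (mem_P.2 h)
      have hre' : (r e' : ℕ) < X.card := mem_P.1 he'.1
      have hne : e ≠ e' := by
        rintro rfl
        exact he.2 he'.1
      have hsub : X \ P (swap (r e) (r e') * r) X.card ⊆ (X \ P r X.card).erase e := by
        intro z hz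
        rw [Finset.mem_sdiff, mem_P_mul] at hz
        rw [Finset.mem_erase, Finset.mem_sdiff, mem_P]
        have hze : z ≠ e := by
          rintro rfl
          rw [swap_apply_left] at hz
          exact hz.2 hre'
        have hze' : z ≠ e' := by
          rintro rfl
          exact he'.2 hz.1
        rw [swap_apply_of_ne_of_ne (fun h => hze (r.injective h))
          (fun h => hze' (r.injective h))] at hz
        exact ⟨hze, hz⟩
      have hcard : (X \ P (swap (r e) (r e') * r) X.card).card ≤ t := by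
        have h1 := Finset.card_le_card hsub
        rw [Finset.card_erase_of_mem (Finset.mem_sdiff.2 he)] at h1
        omega
      obtain ⟨ρ, hρ, h1, h2⟩ := ih (swap (r e) (r e') * r) X hcard
      refine ⟨ρ * swap (r e) (r e'), swaps_succ hρ _ _, ?_, ?_⟩
      · rw [mul_assoc]; exact h1
      · intro k hk hXk
        have h3 : P (swap (r e) (r e') * r) k = P r k := by
          apply P_swap_same
          have h4 : (r e : ℕ) < k := mem_P.1 (hXk he.1)
          constructor
          · intro _; omega
          · intro _; exact h4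
        rw [mul_assoc, h2 k hk (by rw [h3]; exact hXk), h3]

theorem dist_card (r : Perm (Fin n)) (X : Finset (Fin n)) (k m : ℕ) (hk : k ≤ n)
    (h : (X \ P r k).card + (P r k \ X).card ≤ m) : (X \ P r X.card).card ≤ m := by
  have hc1 := Finset.card_sdiff_add_card_inter X (P r k)
  have hc2 := Finset.card_sdiff_add_card_inter (P r k) X
  have hn : X.card ≤ n := by
    have := Finset.card_le_univ X
    rwa [Fintype.card_fin] at this
  rw [card_P r _ hk, Finset.inter_comm] at hc2
  rcases le_total k X.card with h1 | h1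
  · have h2 : X \ P r X.card ⊆ X \ P r k := Finset.sdiff_subset_sdiff Finset.Subset.rfl (P_mono r h1)
    have h3 := Finset.card_le_card h2
    omega
  · have h2 := card_sdiff_tri X (P r k) (P r X.card)
    have h3 := Finset.card_sdiff_of_subset (P_mono r h1)
    rw [card_P r _ hk, card_P r _ hn] at h3
    omega

end L1

theorem l1 : S_L1 := by
  intro n F S r i k E C hexc hi hk hE hC
  obtain ⟨hEF, hCF, hEC, x, hxE, hSx⟩ := hexc
  obtain ⟨ρ₁, hρ₁, h1, -⟩ := L1.reach x 2 r C (L1.dist_card r C k 2 hk hC)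
  have h2 := L1.dist_card r E i 4 hi hE
  have h3 := L1.P_sdiff_swaps E.card 2 r ρ₁ hρ₁
  have h4 := L1.card_sdiff_tri E (P r E.card) (P (ρ₁ * r) E.card)
  obtain ⟨ρ₂, hρ₂, h5, h6⟩ := L1.reach x 6 (ρ₁ * r) E (by omega)
  have h7 := h6 C.card (Finset.card_le_card hEC.1) (by rw [h1]; exact hEC.1)
  refine ⟨ρ₂ * ρ₁, L1.swaps_mul hρ₂ 2 ρ₁ hρ₁, E.card, C.card, ?_⟩
  rw [mul_assoc, h5, h7, h1]
  exact ⟨hEF, hCF, hEC, x, hxE, hSx⟩

end Pool.Agent.H710.KU

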