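import Pool.Agent.H710.KU.St

/-!
L2: union bound over the products of at most eight transpositions.
-/

set_option autoImplicit false

namespace Pool.Agent.H710.KU

open Finset Equiv

namespace L2

theorem card_swaps (n t : ℕ) : (swaps n t).card ≤ n ^ (2 * t) := by
  induction t with
  | zero => simp [swaps]
  | succ t ih =>
    rw [swaps]
    refine le_trans Finset.card_image_le ?_
    rw [Finset.card_product, Finset.card_product, Finset.card_univ, Fintype.card_fin]
    have h : n ^ (2 * (t + 1)) = n ^ (2 * t) * (n * n) := by ring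
    rw [h]
    exact Nat.mul_le_mul_right _ ih

theorem ind_pol {n : ℕ} (F : Fam n) (S : Cen n) (r : Perm (Fin n)) :
    ind (Pol F S r) ≤ ∑ ρ ∈ swaps n 8, ind (ExcChain F S (ρ * r)) := by
  by_cases h : Pol F S r
  · obtain ⟨ρ, hρ, hex⟩ := h
    have h1 : ind (Pol F S r) ≤ ind (ExcChain F S (ρ * r)) := by
      rw [ind_true hex]
      exact ind_le_one _
    refine le_trans h1 ?_
    exact Finset.single_le_sum (f := fun ρ => ind (ExcChain F S (ρ * r)))
      (fun ρ _ => ind_nonneg _) hρ
  · rw [ind_false h]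
    exact Finset.sum_nonneg fun ρ _ => ind_nonneg _

end L2

theorem l2 : S_L2 := by
  intro n F S
  have h0 : 0 ≤ ∑ r : Perm (Fin n), ind (ExcChain F S r) :=
    Finset.sum_nonneg fun r _ => ind_nonneg _
  calc ∑ r : Perm (Fin n), ind (Pol F S r)
      ≤ ∑ r : Perm (Fin n), ∑ ρ ∈ swaps n 8, ind (ExcChain F S (ρ * r)) :=
        Finset.sum_le_sum fun r _ => L2.ind_pol F S r
    _ = ∑ ρ ∈ swaps n 8, ∑ r : Perm (Fin n), ind (ExcChain F S (ρ * r)) := Finset.sum_comm
    _ = ∑ ρ ∈ swaps n 8, ∑ r : Perm (Fin n), ind (ExcChain F S r) :=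
        Finset.sum_congr rfl fun ρ _ => sum_mul_left ρ fun r => ind (ExcChain F S r)
    _ = ((swaps n 8).card : ℝ) * ∑ r : Perm (Fin n), ind (ExcChain F S r) := by
        rw [Finset.sum_const, nsmul_eq_mul]
    _ ≤ (n : ℝ) ^ 16 * ∑ r : Perm (Fin n), ind (ExcChain F S r) := by
        apply mul_le_mul_of_nonneg_right _ h0
        have h := L2.card_swaps n 8
        exact_mod_cast h

end Pool.Agent.H710.KU

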