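import Pool.Agent.H710.KU.St

/-!
N1 and Kl from B4.
-/

set_option autoImplicit false

namespace Pool.Agent.H710.KU

open Finset Equiv

namespace N1

variable {n : ℕ}

theorem count (F : Fam n) (r : Perm (Fin n)) (X : ℕ → Finset (Fin n) → ℝ) :
    ∑ k ∈ range (n + 1), ind (P r k ∈ F) * X k (P r k) =
      ∑ C ∈ F, ind (P r C.card = C) * X C.card C := by
  have h1 : ∀ k ∈ range (n + 1), ind (P r k ∈ F) * X k (P r k) =
      ∑ C ∈ F, ind (k = C.card) * (ind (P r k = C) * X k C) := by
    intro k hk
    have hk' : k ≤ n := by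
      have := Finset.mem_range.1 hk
      omega
    by_cases hF : P r k ∈ F
    · rw [Finset.sum_eq_single (P r k)]
      · rw [ind_true hF, ind_true (card_P r k hk').symm, ind_true rfl]
        ring
      · intro C _ hC
        rw [ind_false (fun h => hC h.symm : ¬ P r k = C)]
        ring
      · intro h
        exact absurd hF h
    · rw [ind_false hF, Finset.sum_eq_zero]
      · ring
      · intro C hC
        have : ¬ P r k = C := fun h => hF (h ▸ hC)
        rw [ind_false this]
        ring
  rw [Finset.sum_congr rfl h1, Finset.sum_comm]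
  apply Finset.sum_congr rfl
  intro C _
  rw [Finset.sum_eq_single C.card]
  · rw [ind_true rfl, one_mul]
  · intro k _ hk
    rw [ind_false hk, zero_mul]
  · intro h
    exfalso
    apply h
    rw [Finset.mem_range]
    have := Finset.card_le_univ C
    rw [Fintype.card_fin] at this
    omega

theorem upF_mono (F : Fam n) (C : Finset (Fin n)) {D D' : Finset (Fin n)} (h : D ⊆ D')
    (hD : UpF F C D) : UpF F C D' := by
  obtain ⟨A, h1, h2, h3⟩ := hD
  exact ⟨A, h1, h2, h3.trans h⟩

theorem upF_of {F : Fam n} {r : Perm (Fin n)} {k a J : ℕ} (hk : k ≤ n) (ha : a < k)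
    (hJ : k ≤ a + J) (haF : P r a ∈ F) : UpF F (P r k) (P r k \ P r (k - J)) := by
  refine ⟨P r a, haF, ?_, ?_⟩
  · rw [Finset.ssubset_iff_subset_ne]
    refine ⟨P_mono r ha.le, fun h => ?_⟩
    have h1 := congrArg Finset.card h
    rw [card_P r a (by omega), card_P r k hk] at h1
    omega
  · exact Finset.sdiff_subset_sdiff (Finset.Subset.refl _) (P_mono r (by omega))

/-- the common part -/
theorem main (h : S_B4) (F : Fam n) (lo hi J : ℕ) (W : Finset (Fin n) → Prop) (q B : ℝ) (f : ℕ → ℝ)
    (hL : Levels F lo hi) (hn : hi < n) (hlo : n ≤ 3 * lo) (hq : 12 * ((J : ℝ) + 1) / n = q)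
    (hq1 : q ≤ 1) (hB : ∀ C ∈ F, W C → Ex (fun _ => q) C (fun D => ind (UpF F C D)) ≤ B)
    (hB0 : 0 ≤ B) (hf : ∀ k, 0 ≤ f k) :
    ∑ r : Perm (Fin n), ∑ k ∈ range (n + 1),
      f k * ind (P r k ∈ F ∧ W (P r k) ∧ ∃ a < k, k ≤ a + J ∧ P r a ∈ F) ≤
    2 * B * ∑ r : Perm (Fin n), ∑ k ∈ range (n + 1), f k * ind (P r k ∈ F) := by
  have hn0 : (0 : ℝ) < n := by
    have : 0 < n := by omega
    exact_mod_cast this
  have hq0 : 0 ≤ q := by
    rw [← hq]
    positivity
  have e1 : ∀ r : Perm (Fin n), ∑ k ∈ range (n + 1),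
      f k * ind (P r k ∈ F ∧ W (P r k) ∧ ∃ a < k, k ≤ a + J ∧ P r a ∈ F) ≤
      ∑ C ∈ F, ind (P r C.card = C) *
        (f C.card * (ind (W C) * ind (UpF F C (C \ P r (C.card - J))))) := by
    intro r
    rw [← count F r (fun k C => f k * (ind (W C) * ind (UpF F C (C \ P r (k - J)))))]
    apply Finset.sum_le_sum
    intro k hk
    have hk' : k ≤ n := by
      have := Finset.mem_range.1 hk
      omega
    have h2 : ind (P r k ∈ F ∧ W (P r k) ∧ ∃ a < k, k ≤ a + J ∧ P r a ∈ F) ≤
        ind (P r k ∈ F) * (ind (W (P r k)) * ind (UpF F (P r k) (P r k \ P r (k - J)))) := by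
      rw [← ind_and, ← ind_and]
      apply ind_mono
      rintro ⟨a1, a2, a, a3, a4, a5⟩
      exact ⟨a1, a2, upF_of hk' a3 a4 a5⟩
    have h3 := mul_le_mul_of_nonneg_left h2 (hf k)
    linarith
  have e2 : ∑ r : Perm (Fin n), ∑ C ∈ F, ind (P r C.card = C) *
        (f C.card * (ind (W C) * ind (UpF F C (C \ P r (C.card - J))))) =
      ∑ C ∈ F, f C.card * ind (W C) * ∑ r : Perm (Fin n),
        ind (P r C.card = C) * ind (UpF F C (C \ P r (C.card - J))) := by
    rw [Finset.sum_comm]
    apply Finset.sum_congr rfl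
    intro C _
    rw [Finset.mul_sum]
    apply Finset.sum_congr rfl
    intro r _
    ring
  have e3 : ∀ C ∈ F, f C.card * ind (W C) * ∑ r : Perm (Fin n),
        ind (P r C.card = C) * ind (UpF F C (C \ P r (C.card - J))) ≤
      f C.card * (2 * B * ∑ r : Perm (Fin n), ind (P r C.card = C)) := by
    intro C hC
    have hs : 0 ≤ ∑ r : Perm (Fin n), ind (P r C.card = C) :=
      Finset.sum_nonneg (fun r _ => ind_nonneg _)
    rw [mul_assoc]
    apply mul_le_mul_of_nonneg_left _ (hf _)
    by_cases hW : W C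
    · rw [ind_true hW, one_mul]
      have hc := hL C hC
      have hcn : (n : ℝ) ≤ 3 * C.card := by
        have : n ≤ 3 * C.card := by omega
        exact_mod_cast this
      have hi : (C.card : ℝ) - ((C.card - J : ℕ) : ℝ) ≤ J := by
        have : C.card ≤ J + (C.card - J) := by omega
        have h5 : (C.card : ℝ) ≤ ((J + (C.card - J) : ℕ) : ℝ) := by exact_mod_cast this
        rw [Nat.cast_add] at h5
        linarith
      have h6 := h n C (C.card - J) q (fun D => ind (UpF F C D)) hq0 hq1 (Nat.sub_le _ _) (by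
          rw [← hq]
          have h7 : 4 * ((J : ℝ) + 1) ≤ 12 * ((J : ℝ) + 1) / n * C.card := by
            rw [div_mul_eq_mul_div, le_div_iff₀ hn0]
            have hJ : (0 : ℝ) ≤ (J : ℝ) + 1 := by positivity
            nlinarith
          linarith)
        (fun D D' hD => ind_mono (upF_mono F C hD)) (fun D => ind_nonneg _)
      refine h6.trans ?_
      apply mul_le_mul_of_nonneg_right _ hs
      have := hB C hC hW
      linarith
    · rw [ind_false hW, zero_mul]
      positivity
  have e4 : ∑ C ∈ F, f C.card * (2 * B * ∑ r : Perm (Fin n), ind (P r C.card = C)) =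
      2 * B * ∑ r : Perm (Fin n), ∑ k ∈ range (n + 1), f k * ind (P r k ∈ F) := by
    have e5 : ∀ r : Perm (Fin n), ∑ k ∈ range (n + 1), f k * ind (P r k ∈ F) =
        ∑ C ∈ F, ind (P r C.card = C) * f C.card := by
      intro r
      rw [← count F r (fun k _ => f k)]
      apply Finset.sum_congr rfl
      intro k _
      ring
    simp only [e5]
    rw [Finset.sum_comm, Finset.mul_sum]
    apply Finset.sum_congr rfl
    intro C _
    rw [← Finset.sum_mul]
    ring
  calc _ ≤ _ := Finset.sum_le_sum (fun r _ => e1 r)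
    _ = _ := e2
    _ ≤ _ := Finset.sum_le_sum e3
    _ = _ := e4

end N1

theorem n1 (h : S_B4) : S_N1 := by
  intro n F S lo hi J K0 q ε hL hn hlo hG hK hq hJ
  have h1 := N1.main h F lo hi J (fun C => S C = none) (12 * ((J : ℝ) + 1) / n)
    (K0 * (12 * ((J : ℝ) + 1) / n) ^ 2) (fun _ => 1) hL hn hlo rfl (hJ.trans hq)
    (fun C hC hS => hG.2.2 C hC hS _ (by positivity) hJ) (by positivity) (fun _ => zero_le_one)
  simp only [one_mul] at h1
  unfold NN
  have e : 2 * K0 * (12 * ((J : ℝ) + 1) / n) ^ 2 = 2 * (K0 * (12 * ((J : ℝ) + 1) / n) ^ 2) := by ring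
  rw [e]
  exact h1

theorem kl (h0 : S_A0) (h1 : S_A1) (h : S_B4) : S_Kl := by
  intro n F S lo hi J K0 q ε f hL hn hlo hG hK hε hq hJ hf
  set p : ℝ := 12 * ((J : ℝ) + 1) / n with hp
  have hp0 : 0 ≤ p := by positivity
  have hp1 : p ≤ 1 := hJ.trans hq
  have hpK : 0 ≤ K0 * p ^ 2 := by positivity
  have h2 := N1.main h F lo hi J (fun _ => True) p (p + ε + K0 * p ^ 2) f hL hn hlo rfl hp1
    (by
      intro C hC _
      cases hS : S C with
      | none =>
        have := hG.2.2 C hC hS p hp0 hJ
        linarith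
      | some x =>
        have hx : x ∈ C := hG.1 C x hS
        rw [h0 n (fun _ => p) C x (fun D => ind (UpF F C D)) hx]
        have a1 : Ex (fun _ => p) C (fun D => ind (UpF F C (insert x D))) ≤ 1 :=
          Ex_le_one (fun _ => hp0) (fun _ => hp1) (fun D _ => ind_le_one _)
        have a2 : 0 ≤ Ex (fun _ => p) C (fun D => ind (UpF F C (D.erase x))) :=
          Ex_nonneg (fun _ => hp0) (fun _ => hp1) (fun D _ => ind_nonneg _)
        have a3 : Ex (fun _ => p) C (fun D => ind (UpF F C (D.erase x))) ≤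
            Ex (fun _ => q) C (fun D => ind (UpF F C (D.erase x))) := by
          apply h1 n _ _ C _ (fun _ => hp0) (fun _ => hJ) (fun _ => hq)
          intro D D' hD
          exact ind_mono (N1.upF_mono F C (Finset.erase_subset_erase x hD))
        have a4 := hG.2.1 C hC x hS
        have a5 := mul_le_mul_of_nonneg_left a1 hp0
        have a6 : 0 ≤ p * Ex (fun _ => p) C (fun D => ind (UpF F C (D.erase x))) := mul_nonneg hp0 a2
        linarith)
    (by positivity) hf
  simp only [true_and] at h2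
  exact h2

end Pool.Agent.H710.KU
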