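import Pool.Agent.H710.KU.St

set_option autoImplicit false

namespace Pool.Agent.H710.KU

open Finset Equiv

namespace PC

theorem ind_sum {n : ℕ} (p : Fin n → Prop) [DecidablePred p] :
    ∑ x, ind (p x) = ((univ.filter p).card : ℝ) := by
  rw [Finset.card_filter, Nat.cast_sum]
  refine Finset.sum_congr rfl fun x _ => ?_
  by_cases h : p x
  · rw [ind_true h, if_pos h, Nat.cast_one]
  · rw [ind_false h, if_neg h, Nat.cast_zero]

/-- a set all of whose members are in `F` has to be small -/
theorem cx_le {n : ℕ} {F : Fam n} {S : Cen n} {lo hi H : ℕ} {r : Perm (Fin n)} {a c : ℕ}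
    {x : Fin n} (hL : Levels F lo hi) (h1 : hi + 3 ≤ H) (h2 : H + 2 ≤ n)
    (h : CX F S r H a c x) : c + 1 ≤ hi := by
  obtain ⟨-, hx, hF, -⟩ := h
  have hcard := (hL _ hF).2
  rcases le_total c H with hc | hc
  · have hx' : x ∉ P r c := fun h' => hx (P_mono r hc h')
    rw [card_insert_of_notMem hx', card_P r c (by omega)] at hcard
    exact hcard
  · have h3 : (P r H).card ≤ (insert x (P r c)).card :=
      card_le_card ((P_mono r hc).trans (subset_insert _ _))
    rw [card_P r H (by omega)] at h3
    omega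

end PC

theorem pc (h : S_D) : S_PC := by
  classical
  intro n F S lo hi H J M r a κ hL h1 h2 hcen hJ hpol hlow hM hκ0 hκ1
  have hD : ∀ c x, CX F S r H a c x → _ := fun c x hcx =>
    h n F S lo hi H J r a c x hL h1 h2 hcen hJ hpol hlow hcx
  have hle : ∀ c x, CX F S r H a c x → c + 1 ≤ hi := fun c x hcx => PC.cx_le hL h1 h2 hcx
  have huniq : ∀ c c' x, CX F S r H a c x → CX F S r H a c' x → c = c' := by
    intro c c' x hc hc'
    rcases lt_trichotomy c c' with hlt | heq | hlt
    · exact absurd hc.2.2.1 ((hD c' x hc').2.1 c hlt)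
    · exact heq
    · exact absurd hc'.2.2.1 ((hD c x hc).2.1 c' hlt)
  -- per element quantities
  set A : Fin n → ℝ := fun x => ∑ c ∈ range (n + 1), κ (c + 1) * ((c : ℝ) - a) *
    ind (CX F S r H a c x) with hA
  set B : Fin n → ℝ := fun x => ∑ c ∈ range (n + 1), κ (c + 1) * ind (CX F S r H a c x) with hB
  set Lc : ℝ := ∑ x : Fin n, ind (x ∉ P r H ∧ LL F lo r a x) with hLc
  set LS : Finset (Fin n) := univ.filter fun x => x ∉ P r H ∧ LL F lo r a x with hLS
  have hLc' : Lc = (LS.card : ℝ) := PC.ind_sum _
  set U : Finset (Fin n) := univ.filter fun x => ∃ c, CX F S r H a c x with hU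
  have hAval : ∀ c x, CX F S r H a c x → A x = κ (c + 1) * ((c : ℝ) - a) := by
    intro c x hc
    have hcn : c ∈ range (n + 1) := by
      have := hle c x hc
      rw [mem_range]; omega
    rw [hA]
    simp only
    rw [Finset.sum_eq_single c]
    · rw [ind_true hc, mul_one]
    · intro c' _ hne
      rw [ind_false, mul_zero]
      intro hc'
      exact hne (huniq _ _ _ hc' hc)
    · intro hnot; exact absurd hcn hnot
  have hBval : ∀ c x, CX F S r H a c x → B x = κ (c + 1) := by
    intro c x hc
    have hcn : c ∈ range (n + 1) := by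
      have := hle c x hc
      rw [mem_range]; omega
    rw [hB]
    simp only
    rw [Finset.sum_eq_single c]
    · rw [ind_true hc, mul_one]
    · intro c' _ hne
      rw [ind_false, mul_zero]
      intro hc'
      exact hne (huniq _ _ _ hc' hc)
    · intro hnot; exact absurd hcn hnot
  have hA0 : ∀ x, x ∉ U → A x = 0 := by
    intro x hx
    rw [hA]
    simp only
    refine Finset.sum_eq_zero fun c _ => ?_
    rw [ind_false, mul_zero]
    intro hc
    exact hx (by rw [hU, mem_filter]; exact ⟨mem_univ _, c, hc⟩)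
  have hB0 : ∀ x, x ∉ U → B x = 0 := by
    intro x hx
    rw [hB]
    simp only
    refine Finset.sum_eq_zero fun c _ => ?_
    rw [ind_false, mul_zero]
    intro hc
    exact hx (by rw [hU, mem_filter]; exact ⟨mem_univ _, c, hc⟩)
  have hUL : ∀ x, x ∈ U → x ∉ P r H ∧ LL F lo r a x := by
    intro x hx
    rw [hU, mem_filter] at hx
    obtain ⟨-, c, hc⟩ := hx
    exact ⟨hc.2.1, (hD c x hc).1⟩
  have hAnn : ∀ x, 0 ≤ A x := by
    intro x
    by_cases hx : x ∈ U
    · have hx' := hx
      rw [hU, mem_filter] at hx'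
      obtain ⟨-, c, hc⟩ := hx'
      rw [hAval c x hc]
      have : (a : ℝ) ≤ c := by exact_mod_cast hc.1
      exact mul_nonneg (hκ0 _) (by linarith)
    · rw [hA0 x hx]
  have hAJ : ∀ x, A x ≤ J := by
    intro x
    by_cases hx : x ∈ U
    · have hx' := hx
      rw [hU, mem_filter] at hx'
      obtain ⟨-, c, hc⟩ := hx'
      rw [hAval c x hc]
      have h3 : (a : ℝ) ≤ c := by exact_mod_cast hc.1
      have h4 : (c : ℝ) ≤ a + J := by
        have := hle c x hc
        exact_mod_cast (by omega : c ≤ a + J)
      have h5 := hκ1 (c + 1)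
      have h6 := hκ0 (c + 1)
      nlinarith
    · rw [hA0 x hx]; exact Nat.cast_nonneg _
  -- the left side
  have hleft : ∑ c ∈ range (n + 1), ∑ x : Fin n,
      κ (c + 1) * ((c : ℝ) - a + 1) * ind (CX F S r H a c x) = ∑ x, A x + ∑ x, B x := by
    rw [Finset.sum_comm, ← Finset.sum_add_distrib]
    refine Finset.sum_congr rfl fun x _ => ?_
    rw [hA, hB]
    simp only
    rw [← Finset.sum_add_distrib]
    refine Finset.sum_congr rfl fun c _ => ?_
    ring
  have hBle : ∑ x, B x ≤ Lc := by
    refine Finset.sum_le_sum fun x _ => ?_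
    by_cases hx : x ∈ U
    · rw [ind_true (hUL x hx)]
      rw [hU, mem_filter] at hx
      obtain ⟨-, c, hc⟩ := hx
      rw [hBval c x hc]
      exact hκ1 _
    · rw [hB0 x hx]; exact ind_nonneg _
  -- the elements with a direct partner
  set Dir : Finset (Fin n) := U.filter fun x => ∃ z ∈ P r H, M2 F lo r a x z with hDir
  have hDirle : ∑ x ∈ Dir, A x ≤ J * (∑ x : Fin n, ∑ z : Fin n,
      ind (x ∉ P r H ∧ z ∈ P r H ∧ M2 F lo r a x z)) := by
    rw [Finset.mul_sum]
    calc ∑ x ∈ Dir, A x ≤ ∑ x ∈ Dir, (J : ℝ) * ∑ z : Fin n,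
          ind (x ∉ P r H ∧ z ∈ P r H ∧ M2 F lo r a x z) := by
          refine Finset.sum_le_sum fun x hx => ?_
          rw [hDir, mem_filter] at hx
          obtain ⟨hx1, z, hz, hz'⟩ := hx
          have h3 : (1 : ℝ) ≤ ∑ z : Fin n, ind (x ∉ P r H ∧ z ∈ P r H ∧ M2 F lo r a x z) := by
            have := Finset.single_le_sum
              (f := fun z : Fin n => ind (x ∉ P r H ∧ z ∈ P r H ∧ M2 F lo r a x z))
              (fun z _ => ind_nonneg _) (mem_univ z)
            rwa [ind_true ⟨(hUL x hx1).1, hz, hz'⟩] at this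
          have h4 : (0 : ℝ) ≤ J := Nat.cast_nonneg _
          nlinarith [hAJ x]
      _ ≤ ∑ x : Fin n, (J : ℝ) * ∑ z : Fin n,
          ind (x ∉ P r H ∧ z ∈ P r H ∧ M2 F lo r a x z) := by
          refine Finset.sum_le_sum_of_subset_of_nonneg (subset_univ _) fun x _ _ => ?_
          exact mul_nonneg (Nat.cast_nonneg _) (Finset.sum_nonneg fun z _ => ind_nonneg _)
  set E : ℝ := ∑ x : Fin n, ∑ y : Fin n, ind (PairD F lo H r a x y ∧
        (M2 F lo r a x y ∨ NS F S J r a x y)) with hE
  have hE0 : 0 ≤ E := Finset.sum_nonneg fun x _ => Finset.sum_nonneg fun y _ => ind_nonneg _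
  set V : Fin n → ℝ := fun x => ∑ y : Fin n, ∑ s ∈ range (n + 1),
        ind (x ∉ P r H ∧ y ∉ P r H ∧ Vld F S lo r a x y s) with hV
  have hV0 : ∀ x, 0 ≤ V x := fun x =>
    Finset.sum_nonneg fun y _ => Finset.sum_nonneg fun s _ => ind_nonneg _
  have hMpos : (0 : ℝ) < M := by exact_mod_cast (by omega : 0 < M)
  have hsplit : ∀ T : Finset (Fin n), T ⊆ U \ Dir →
      (∀ x ∈ (U \ Dir) \ T, A x ≤ 3 / M * V x) →
      ∑ x, A x ≤ ∑ x ∈ Dir, A x + ∑ x ∈ T, A x + 3 / M * ∑ x, V x := by
    intro T hT hrest
    have e1 : ∑ x, A x = ∑ x ∈ U, A x := by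
      rw [Finset.sum_subset (subset_univ U)]
      intro x _ hx
      exact hA0 x hx
    have hDU : Dir ⊆ U := filter_subset _ _
    have e2 : ∑ x ∈ U, A x = ∑ x ∈ Dir, A x + ∑ x ∈ U \ Dir, A x := by
      rw [add_comm]
      exact (Finset.sum_sdiff hDU).symm
    have e3 : ∑ x ∈ U \ Dir, A x = ∑ x ∈ T, A x + ∑ x ∈ (U \ Dir) \ T, A x := by
      rw [add_comm]
      exact (Finset.sum_sdiff hT).symm
    have e4 : ∑ x ∈ (U \ Dir) \ T, A x ≤ 3 / M * ∑ x, V x := by
      rw [Finset.mul_sum]
      refine (Finset.sum_le_sum hrest).trans ?_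
      refine Finset.sum_le_sum_of_subset_of_nonneg (subset_univ _) fun x _ _ => ?_
      exact mul_nonneg (by positivity) (hV0 x)
    rw [e1, e2, e3]
    linarith
  have hVtot : 0 ≤ 3 / (M : ℝ) * ∑ x, V x :=
    mul_nonneg (by positivity) (Finset.sum_nonneg fun x _ => hV0 x)
  by_cases hcase : Lc ≤ M
  · refine ⟨U \ Dir, ?_, ?_⟩
    · have h3 : (U \ Dir).card ≤ LS.card := by
        refine card_le_card fun x hx => ?_
        rw [hLS, mem_filter]
        exact ⟨mem_univ _, hUL x (mem_sdiff.1 hx).1⟩
      have h4 : ((U \ Dir).card : ℝ) ≤ Lc := by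
        rw [hLc']
        exact_mod_cast h3
      have h5 : (0 : ℝ) ≤ (U \ Dir).card := Nat.cast_nonneg _
      nlinarith
    · rw [hleft]
      have := hsplit (U \ Dir) (Subset.refl _) (by simp)
      linarith
  · push Not at hcase
    set deg : Fin n → ℝ := fun x => ∑ y : Fin n, ind (PairD F lo H r a x y ∧
        (M2 F lo r a x y ∨ NS F S J r a x y)) with hdeg
    have hdeg0 : ∀ x, 0 ≤ deg x := fun x => Finset.sum_nonneg fun y _ => ind_nonneg _
    refine ⟨(U \ Dir).filter fun x => Lc ≤ 2 * deg x, ?_, ?_⟩
    · set T := (U \ Dir).filter fun x => Lc ≤ 2 * deg x with hT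
      have h3 : T.card ≤ LS.card := by
        refine card_le_card fun x hx => ?_
        rw [hLS, mem_filter]
        rw [hT, mem_filter] at hx
        exact ⟨mem_univ _, hUL x (mem_sdiff.1 hx.1).1⟩
      have h4 : (T.card : ℝ) ≤ Lc := by
        rw [hLc']
        exact_mod_cast h3
      have h5 : (0 : ℝ) ≤ T.card := Nat.cast_nonneg _
      have h6 : (T.card : ℝ) * Lc ≤ 2 * E := by
        have h7 : ∑ x ∈ T, Lc ≤ ∑ x ∈ T, 2 * deg x := by
          refine Finset.sum_le_sum fun x hx => ?_
          rw [hT, mem_filter] at hx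
          exact hx.2
        have h8 : ∑ x ∈ T, 2 * deg x ≤ ∑ x, 2 * deg x :=
          Finset.sum_le_sum_of_subset_of_nonneg (subset_univ _) fun x _ _ => by
            have := hdeg0 x; linarith
        have h9 : ∑ x, 2 * deg x = 2 * E := by
          rw [← Finset.mul_sum]
        rw [Finset.sum_const, nsmul_eq_mul] at h7
        linarith
      have h10 : 0 ≤ (M : ℝ) * Lc := by
        have : 0 ≤ Lc := by linarith
        positivity
      nlinarith
    · rw [hleft]
      have := hsplit ((U \ Dir).filter fun x => Lc ≤ 2 * deg x) (filter_subset _ _) (by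
        intro x hx
        rw [mem_sdiff, mem_filter, not_and] at hx
        obtain ⟨hx1, hx2⟩ := hx
        have hx3 := hx2 hx1
        push Not at hx3
        obtain ⟨hxU, hxD⟩ := mem_sdiff.1 hx1
        have hxD' : ¬ ∃ z ∈ P r H, M2 F lo r a x z := by
          intro hz
          exact hxD (by rw [hDir, mem_filter]; exact ⟨hxU, hz⟩)
        have hxL := hUL x hxU
        rw [hU, mem_filter] at hxU
        obtain ⟨-, c, hc⟩ := hxU
        have hc' := hD c x hc
        rw [hAval c x hc]
        set Y : Finset (Fin n) := univ.filter fun y => (y ∉ P r H ∧ LL F lo r a y) ∧ y ≠ x ∧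
          ¬ (M2 F lo r a x y ∨ NS F S J r a x y) with hY
        -- counting
        set N : Finset (Fin n) := univ.filter fun y => PairD F lo H r a x y ∧
          (M2 F lo r a x y ∨ NS F S J r a x y) with hN
        have hdegN : deg x = (N.card : ℝ) := PC.ind_sum _
        have hunion : LS ⊆ insert x (N ∪ Y) := by
          intro y hy
          rw [hLS, mem_filter] at hy
          by_cases hyx : y = x
          · rw [hyx]; exact mem_insert_self _ _
          · apply mem_insert_of_mem
            rw [mem_union, hN, hY, mem_filter, mem_filter]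
            by_cases hb : M2 F lo r a x y ∨ NS F S J r a x y
            · exact Or.inl ⟨mem_univ _, ⟨Ne.symm hyx, hxL.1, hy.2.1, hlow, hxL.2, hy.2.2⟩, hb⟩
            · exact Or.inr ⟨mem_univ _, hy.2, hyx, hb⟩
        have hcount : LS.card ≤ 1 + (N.card + Y.card) := by
          calc LS.card ≤ (insert x (N ∪ Y)).card := card_le_card hunion
            _ ≤ (N ∪ Y).card + 1 := card_insert_le _ _
            _ ≤ 1 + (N.card + Y.card) := by have := card_union_le N Y; omega
        have hNlt : 2 * N.card < LS.card := by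
          have : 2 * (N.card : ℝ) < LS.card := by rw [← hdegN, ← hLc']; exact hx3
          exact_mod_cast this
        have hLM : M < LS.card := by
          have : (M : ℝ) < LS.card := by rw [← hLc']; exact hcase
          exact_mod_cast this
        have hYge : M ≤ 3 * Y.card := by omega
        have hVge : (Y.card : ℝ) * ((c : ℝ) - a) ≤ V x := by
          have hac : a ≤ c := hc.1
          calc (Y.card : ℝ) * ((c : ℝ) - a) = ∑ y ∈ Y, ((c : ℝ) - a) := by
                rw [Finset.sum_const, nsmul_eq_mul]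
            _ ≤ ∑ y ∈ Y, ∑ s ∈ range (n + 1),
                ind (x ∉ P r H ∧ y ∉ P r H ∧ Vld F S lo r a x y s) := by
                refine Finset.sum_le_sum fun y hy => ?_
                rw [hY, mem_filter] at hy
                obtain ⟨-, ⟨hy1, hy2⟩, hy3, hy4⟩ := hy
                push Not at hy4
                have hcn : c ≤ n := by
                  have := hle c x hc; omega
                calc ((c : ℝ) - a) = ∑ s ∈ Finset.Ico a c, (1 : ℝ) := by
                      rw [Finset.sum_const, Nat.card_Ico, nsmul_eq_mul, mul_one,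
                        Nat.cast_sub hac]
                  _ ≤ ∑ s ∈ Finset.Ico a c,
                      ind (x ∉ P r H ∧ y ∉ P r H ∧ Vld F S lo r a x y s) := by
                      refine Finset.sum_le_sum fun s hs => ?_
                      rw [mem_Ico] at hs
                      rw [ind_true ⟨hxL.1, hy1, hc'.2.2 y hy1 hy3 hy2 hy4.1 hy4.2 hxD' s hs.1 hs.2⟩]
                  _ ≤ ∑ s ∈ range (n + 1),
                      ind (x ∉ P r H ∧ y ∉ P r H ∧ Vld F S lo r a x y s) := by
                      refine Finset.sum_le_sum_of_subset_of_nonneg ?_ fun _ _ _ => ind_nonneg _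
                      intro s hs
                      rw [mem_Ico] at hs
                      rw [mem_range]
                      omega
            _ ≤ V x := by
                refine Finset.sum_le_sum_of_subset_of_nonneg (subset_univ _) fun y _ _ => ?_
                exact Finset.sum_nonneg fun s _ => ind_nonneg _
        have h3 : (a : ℝ) ≤ c := by exact_mod_cast hc.1
        have h4 : κ (c + 1) * ((c : ℝ) - a) ≤ (c : ℝ) - a := by
          have := hκ1 (c + 1)
          nlinarith
        have h5 : (M : ℝ) ≤ 3 * Y.card := by exact_mod_cast hYge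
        rw [div_mul_eq_mul_div, le_div_iff₀ hMpos]
        have h6 : ((c : ℝ) - a) * M ≤ ((c : ℝ) - a) * (3 * Y.card) :=
          mul_le_mul_of_nonneg_left h5 (by linarith)
        have h7 : κ (c + 1) * ((c : ℝ) - a) * M ≤ ((c : ℝ) - a) * M :=
          mul_le_mul_of_nonneg_right h4 hMpos.le
        linarith)
      linarith

end Pool.Agent.H710.KU
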