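import Pool.Agent.H710.KU.Defs

/-!
Statements (with complete paper proofs) of the lemmas for S10707.
Notation: `E_p f` is `Ex (fun _ => p) G f`.
-/

set_option autoImplicit false

namespace Pool.Agent.H710.KU

open Finset Equiv

/-! ## Group A: product measures -/

/-- A0: splitting off one coordinate `x ∈ G`.
PROOF. Write `G = insert x (G.erase x)`; `Ex_insert` gives
`Ex b G h = (1 - b x) Ex b (G.erase x) h + b x Ex b (G.erase x) (h ∘ insert x)`. Apply this to `h = f`, to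
`h = f ∘ (erase x)` and to `h = f ∘ (insert x)`; for `D ⊆ G.erase x` one has `D.erase x = D`,
`(insert x D).erase x = D`, `insert x (insert x D) = insert x D` (use `Ex_congr`). -/
def S_A0 : Prop := ∀ (n : ℕ) (b : Fin n → ℝ) (G : Finset (Fin n)) (x : Fin n)
  (f : Finset (Fin n) → ℝ), x ∈ G →
  Ex b G f = (1 - b x) * Ex b G (fun D => f (D.erase x)) + b x * Ex b G (fun D => f (insert x D))

/-- A1: monotonicity in the bias.
PROOF. Induction on `G` (`Finset.induction_on`, generalizing `f`) with `Ex_insert`: with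
`F0 = Ex b G f ≤ F0' = Ex b' G f`, `F1 = Ex b G (f ∘ insert x) ≤ F1' = Ex b' G (f ∘ insert x)` (induction)
and `F0' ≤ F1'` (`Ex_mono`, `f D ≤ f (insert x D)`):
`(1-b)F0 + b F1 ≤ (1-b)F0' + b F1' ≤ (1-b')F0' + b' F1'`. -/
def S_A1 : Prop := ∀ (n : ℕ) (b b' : Fin n → ℝ) (G : Finset (Fin n)) (f : Finset (Fin n) → ℝ),
  (∀ i, 0 ≤ b i) → (∀ i, b i ≤ b' i) → (∀ i, b' i ≤ 1) →
  (∀ D D', D ⊆ D' → f D ≤ f D') → Ex b G f ≤ Ex b' G f

/-- A2: the union of an independent `p`-random and `r`-random subset is `1-(1-p)(1-r)`-random.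
PROOF. Induction on `G` generalizing `f`, with `Ex_insert`, `Ex_add`, `Ex_mul_left`: the four terms are
`(1-p)(1-r) f0 + (p + r(1-p)) f1` (both `insert x D ∪ E`, `D ∪ insert x E`, `insert x D ∪ insert x E` equal
`insert x (D ∪ E)`). -/
def S_A2 : Prop := ∀ (n : ℕ) (p r : ℝ) (G : Finset (Fin n)) (f : Finset (Fin n) → ℝ),
  Ex (fun _ => p) G (fun D => Ex (fun _ => r) G (fun E => f (D ∪ E)))
    = Ex (fun _ => 1 - (1 - p) * (1 - r)) G f

/-- A3: complement.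
PROOF. Reindex the sum over `G.powerset` by `D ↦ G \ D` (`Finset.sum_bij'`/`Finset.sum_nbij'`), using
`G \ (G \ D) = D`. -/
def S_A3 : Prop := ∀ (n : ℕ) (p : ℝ) (G : Finset (Fin n)) (f : Finset (Fin n) → ℝ),
  Ex (fun _ => p) G (fun D => f (G \ D)) = Ex (fun _ => 1 - p) G f

/-- A4: correlation inequality. `D, D'` independent `p`-random subsets of `G`; `F` monotone, `H ≥ 0`;
then `E[F(D) H(D' \ (D ∩ S))] ≤ E_{p⁺}[F] · E_{b_S}[H]` with `p⁺ = p/(1-p+p²)`, `b_S = p(1-p)` on `S` and `p`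
off `S`.
PROOF. Induction on `G` generalizing `F, H` (`S` fixed). For `G' = insert y G`, expand both expectations with
`Ex_insert` (and linearity `Ex_add`, `Ex_mul_left`): with `F0 = F`, `F1 = F ∘ insert y`, `H0 = H`,
`H1 = H ∘ insert y` and `e i j = E[F_i(D) H_j(D' \ (D ∩ S))]` (over `G`), `a_i = E_{p⁺}[F_i]`,
`h_j = E_{b_S}[H_j] ≥ 0` (over `G`), the induction hypothesis is `e i j ≤ a_i h_j`, and `a_0 ≤ a_1`.
Case `y ∈ S`: (membership of `y` in `(D, D')`) `(0,0) ↦ e 0 0`, `(0,1) ↦ e 0 1`, `(1,0) ↦ e 1 0`,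
`(1,1) ↦ e 1 0` (as `y` is deleted from `D'`), so LHS `= (1-p)² e00 + (1-p)p e01 + (p(1-p)+p²) e10
≤ (1-p)² a0 h0 + p(1-p) a0 h1 + p a1 h0`, and RHS `= ((1-p⁺)a0 + p⁺ a1) ((1-p(1-p)) h0 + p(1-p) h1)`. Since
`p⁺ (1-p+p²) = p`, the coefficient of `h0` agrees on both sides, and
`RHS - LHS ≥ p(1-p) p⁺ (a1-a0) h1 ≥ 0`.
Case `y ∉ S`: LHS `≤ ((1-p)a0 + p a1) ((1-p) h0 + p h1) ≤ ((1-p⁺)a0 + p⁺ a1) ((1-p) h0 + p h1)` as
`p ≤ p⁺` and `a0 ≤ a1`. (Note `0 ≤ p⁺ ≤ 1`.) -/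
def S_A4 : Prop := ∀ (n : ℕ) (p : ℝ) (S G : Finset (Fin n)) (F H : Finset (Fin n) → ℝ),
  0 ≤ p → p ≤ 1 → (∀ D D', D ⊆ D' → F D ≤ F D') → (∀ D, 0 ≤ H D) →
  Ex (fun _ => p) G (fun D => Ex (fun _ => p) G (fun D' => F D * H (D' \ (D ∩ S))))
    ≤ Ex (fun _ => p / (1 - p + p ^ 2)) G F
      * Ex (fun i => @ite ℝ (i ∈ S) (Classical.propDecidable _) (p * (1 - p)) p) G H

/-- A5: the differential inequality for intersecting up-sets `U`: if
`E_{p⁺}[U (insert x D)] ≤ m` for all `x ∈ G` then `(E_p U)² ≤ m (E_p U - E_{p(1-p)} U)`.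
PROOF. For `S ⊆ G` put `Ψ(S) = E_{D,D' ~ p}[U(D) U(D' \ (D ∩ S))]` and `Φ(S) = Ex b_S G (ind U)`
(`b_S = p(1-p)` on `S`, `p` off `S`). Then `Ψ(∅) = (E_p U)²`, `Ψ(G) = 0` (`D ∩ (D' \ D) = ∅`, `U` is
intersecting), `Φ(∅) = E_p U`, `Φ(G) = E_{p(1-p)} U`. CLAIM: for `x ∈ G \ S`,
`Ψ(S) - Ψ(insert x S) ≤ m (Φ(S) - Φ(insert x S))`. Then induct over `S` (Finset.induction_on for subsets of
`G`) to get `Ψ(∅) - Ψ(G) ≤ m (Φ(∅) - Φ(G))`.
PROOF OF CLAIM. Let `H(E) = ind U(insert x E) - ind U(E.erase x) ≥ 0` (does not depend on `x ∈ E` or not).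
`ind U(D' \ (D∩S)) - ind U(D' \ (D ∩ insert x S))` is nonzero only if `x ∈ D` and `x ∈ D'`, and then it equals
`H(D' \ (D∩S))`. Also `U(D) ≤ U(insert x D)`. Hence
`Ψ(S) - Ψ(insert x S) ≤ E[1_{x∈D} 1_{x∈D'} F(D) H(D' \ (D∩S))]`, `F(D) = ind U(insert x D)`. As `F` and
(because `x ∉ S`) `H(D' \ (D∩S))` do not depend on whether `x ∈ D`, `x ∈ D'`, splitting off the coordinate `x`
in `D` and in `D'` shows that this is `p² E[F(D) H(D' \ (D∩S))] ≤ p² E_{p⁺}[F] Ex b_S G H ≤ m p² Ex b_S G H`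
by A4 (it is convenient to apply A4 over the ground set `G.erase x`, or over `G`; both are fine because
`Ex b G K = Ex b (G.erase x) K` when `K` ignores `x`). Finally splitting off `x` in
`Φ(S) - Φ(insert x S)` gives `(p - p(1-p)) Ex b_S G H = p² Ex b_S G H`. -/
def S_A5 : Prop := ∀ (n : ℕ) (U : Finset (Fin n) → Prop) (G : Finset (Fin n)) (p m : ℝ),
  Up U → Isec U → 0 ≤ p → p ≤ 1 → 0 ≤ m →
  (∀ x ∈ G, Ex (fun _ => p / (1 - p + p ^ 2)) G (fun D => ind (U (insert x D))) ≤ m) →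
  (Ex (fun _ => p) G (fun D => ind (U D))) ^ 2 ≤
    m * (Ex (fun _ => p) G (fun D => ind (U D)) - Ex (fun _ => p * (1 - p)) G (fun D => ind (U D)))

/-- A6: cross lemma.
PROOF. Let `h(E) = 1 - ind U(insert x E)` (decreasing in `E`, values 0/1, `h(D ∪ E) ≤ h(D) h(E)`). By A2 and
induction on `M`, `E_{1-(1-p)^M}[h] ≤ (E_p[h])^M` (for `M = 0`: `E_0[h] = h(∅) ≤ 1`; step:
`E_{1-(1-p)^{M+1}}[h] = E_{D ~ 1-(1-p)^M, E ~ p} h(D ∪ E) ≤ E[h(D)] E[h(E)]`). For `D ⊆ G`,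
`U(D.erase x)` implies not `U(insert x (G \ D))` because `D.erase x` and `insert x (G \ D)` are disjoint and `U`
is intersecting; so `ind U(D.erase x) ≤ h(G \ D)` and
`E_{p'}[ind U(D.erase x)] ≤ E_{p'}[h(G \ D)] = E_{1-p'}[h]` (A3) `≤ E_{1-(1-p)^M}[h]` (A1 applied to `-h`,
because `1-p' ≥ 1-(1-p)^M`) `≤ (E_p h)^M = (1 - E_p[ind U(insert x D)])^M`. -/
def S_A6 : Prop := ∀ (n : ℕ) (U : Finset (Fin n) → Prop) (G : Finset (Fin n)) (p p' : ℝ) (M : ℕ)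
  (x : Fin n), Up U → Isec U → 0 ≤ p → p ≤ 1 → 0 ≤ p' → p' ≤ (1 - p) ^ M →
  Ex (fun _ => p') G (fun D => ind (U (D.erase x))) ≤
    (1 - Ex (fun _ => p) G (fun D => ind (U (insert x D)))) ^ M

/-- CL: dichotomy for intersecting up-sets: star up to `q^B` or measure `O(p²)` for all `p ≤ q`.
PROOF (`B = 0` is trivial, the first alternative needs `x ∈ G`; if `G = ∅` then the second alternative holds
because `U ∅` fails; so let `B ≥ 1`, `κ = 8B`, `K0 = 24 κ`, `q₀ = exp(-4)/9` or any smaller constant). Write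
`λ_p(x) = E_p[ind U(insert x D)]`.
CASE 1: there are `p ∈ (0, 3q]`, `x ∈ G` with `λ_p(x) ≥ κ p`. Put `p' = 3q ≥ p`, `M = ⌊log(1/p')/(2p)⌋`. As
`1-p ≥ exp(-2p)` for `p ≤ 1/2`, `(1-p)^M ≥ exp(-2pM) ≥ p'`. A6 gives
`E_{p'}[ind U(D.erase x)] ≤ (1-κp)^M ≤ exp(-κ p M)`, and `pM ≥ log(1/p')/2 - p ≥ log(1/p')/4`
(because `log(1/p') ≥ 4 ≥ 4p`), so this is `≤ p'^(κ/4) = (3q)^(2B) = (9q²)^B ≤ q^B`; and
`E_q ≤ E_{p'}` by A1. So the first alternative holds.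
CASE 2: `λ_p(x) < κ p` for all `p ∈ (0, 3q]`, `x ∈ G`. Let `0 < p ≤ q` (for `p = 0`,
`Ex 0 G (ind U) = ind (U ∅) = 0`). Let `p_0 = 2p`, `p_{k+1} = p_k (1-p_k)`, `μ_k = E_{p_k}[ind U]`,
`K = ⌊1/(4p)⌋`. As `1/p_{k+1} = 1/p_k + 1/(1-p_k) ≤ 1/p_k + 2`, we get `1/p_k ≤ 1/(2p) + 2k ≤ 1/p` for
`k ≤ K`, so `p ≤ p_k ≤ 2p` for `k ≤ K`. `p_k⁺ = p_k/(1-p_k+p_k²) ≤ 2p/(1-2p) ≤ 3p ≤ 3q`, so
`λ_{p_k⁺}(x) ≤ κ p_k⁺ ≤ m := 3κp`, and A5 gives `μ_k² ≤ m(μ_k - μ_{k+1})` for `k < K`. By induction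
`k μ_k ≤ m` for `k ≤ K`: with `t = μ_k/m ∈ [0, 1/k]` one has
`(k+1) μ_{k+1}/m ≤ (k+1)(t - t²) ≤ 1` (for `k ≤ 2` as `t - t² ≤ 1/4`; for `k ≥ 2` because `t - t²` is
increasing on `[0,1/2]`, so `≤ (k+1)(1/k - 1/k²) = (k²-1)/k²`). Hence `E_p[ind U] ≤ μ_K ≤ m/K ≤ 3κp · 8p`
(`⌊y⌋ ≥ y/2` for `y ≥ 1`), by A1. -/
def S_CL : Prop := ∀ B : ℕ, ∃ q₀ : ℝ, 0 < q₀ ∧ q₀ ≤ 1 ∧ ∃ K0 : ℝ, 0 ≤ K0 ∧
  ∀ q : ℝ, 0 < q → q ≤ q₀ → ∀ (n : ℕ) (U : Finset (Fin n) → Prop) (G : Finset (Fin n)),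
    Up U → Isec U →
    (∃ x ∈ G, Ex (fun _ => q) G (fun D => ind (U (D.erase x))) ≤ q ^ B) ∨
    (∀ p : ℝ, 0 ≤ p → p ≤ q → Ex (fun _ => p) G (fun D => ind (U D)) ≤ K0 * p ^ 2)

/-- Good centre assignments exist.
PROOF. Same constants as CL. Let `F` be union-free. For every `C`, `UpF F C` is an up-set and intersecting: if
`C \ A ⊆ D`, `C \ A' ⊆ D'` with `A, A' ∈ F` proper subsets of `C ∈ F`, then `(C\A) ∩ (C\A') ≠ ∅` (if `A = A'`
because `A ≠ C`; otherwise `A ∪ A' ≠ C` and `A ∪ A' ⊆ C`). For `C ∈ F` apply CL to `G = C`, `U = UpF F C`: if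
the first alternative holds put `S C = some x` for such an `x ∈ C`, otherwise `S C = none`; for `C ∉ F` put
`S C = none`. -/
def S_Good : Prop := ∀ B : ℕ, ∃ q₀ : ℝ, 0 < q₀ ∧ q₀ ≤ 1 ∧ ∃ K0 : ℝ, 0 ≤ K0 ∧
  ∀ q : ℝ, 0 < q → q ≤ q₀ → ∀ (n : ℕ) (F : Fam n), UF F → ∃ S : Cen n, Good F S K0 q (q ^ B)

/-! ## Group B: maximal chains (permutations) -/

/-- B1: the law of `P r k`.
PROOF. `∑_A ind (P r k = A)` over all `A` with `|A| = k` is `1` for each `r` (`card_P`), so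
`∑_{A : |A| = k} N(A) = n!` with `N(A) = ∑_r ind (P r k = A)`; and `N(A) = N(A')` for `|A| = |A'|`: choose
`τ : Perm (Fin n)` with `A.map τ = A'` (e.g. `Finset.card_eq` / `Equiv.extendSubtype`, or
`Fintype.equivOfCardEq` on the subtypes and complements); then `P (r * τ⁻¹) k = (P r k).map τ` and
`r ↦ r * τ⁻¹` is a bijection of `Perm (Fin n)`. There are `n.choose k` sets. -/
def S_B1 : Prop := ∀ (n : ℕ) (A : Finset (Fin n)),
  (n.choose A.card : ℝ) * ∑ r : Perm (Fin n), ind (P r A.card = A) = (n.factorial : ℝ)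

/-- B5: size of a family in terms of random chains. PROOF. Sum B1 over `A ∈ F`:
`∑_{A∈F} n! = ∑_{A∈F} choose(n,|A|) ∑_r ind(P r |A| = A)`, exchange sums; for fixed `r`,
`∑_{A∈F} choose(n,|A|) ind(P r |A| = A) = ∑_{k ≤ n} choose(n,k) ind(P r k ∈ F)` because `P r k` has size `k`. -/
def S_B5 : Prop := ∀ (n : ℕ) (F : Fam n),
  (F.card : ℝ) * (n.factorial : ℝ) =
    ∑ r : Perm (Fin n), ∑ k ∈ range (n + 1), (n.choose k : ℝ) * ind (P r k ∈ F)

/-- B2: given `P r |C| = C`, the set `C \ P r i` is a uniformly random subset of `C` of size `|C| - i`.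
PROOF. For `Y ⊆ C` with `|Y| = |C| - i` let `N(Y) = ∑_r ind (P r |C| = C) ind (C \ P r i = Y)`. For another
such `Y'` there is a permutation `τ` of `Fin n` with `τ(C) = C`, `τ(Y) = Y'`; replacing `r` by `r * τ⁻¹`
(`P (r * τ⁻¹) k = (P r k).map τ`) shows `N(Y) = N(Y')`. So `N(Y)` is constant on
`powersetCard (|C|-i) C` and `∑_Y N(Y) = ∑_r ind (P r |C| = C)` (for such `r`, `P r i ⊆ C` has size `i`).
Multiply by `g` and sum: `∑_r ind(..) g(C \ P r i) = ∑_Y N(Y) g(Y)`, and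
`(|C|.choose i) N(Y) = ∑_r ind (P r |C| = C)` since `card (powersetCard (|C|-i) C) = |C|.choose i`. -/
def S_B2 : Prop := ∀ (n : ℕ) (C : Finset (Fin n)) (i : ℕ) (g : Finset (Fin n) → ℝ), i ≤ C.card →
  (C.card.choose i : ℝ) * ∑ r : Perm (Fin n), ind (P r C.card = C) * g (C \ P r i) =
    (∑ r : Perm (Fin n), ind (P r C.card = C)) * ∑ Y ∈ powersetCard (C.card - i) C, g Y

/-- B3: uniform `J`-subset versus `q`-random subset, for monotone `g ≥ 0`.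
PROOF. Let `N = |C|`, `a_j = (∑_{Y ∈ powersetCard j C} g Y) / choose(N,j)` for `j ≤ N`. (i) `a_j ≤ a_{j+1}` for
`j < N`: double count pairs `Y ⊂ Y'`, `|Y| = j`, `|Y'| = j+1`: `(N-j) ∑_Y g Y ≤ (j+1) ∑_{Y'} g Y'` and
`(N-j) choose(N,j) = (j+1) choose(N,j+1)`. (ii) `Ex q C g = ∑_j choose(N,j) q^j (1-q)^(N-j) a_j` (group the
powerset by cardinality) `≥ a_J ∑_{j ≥ J} choose(N,j) q^j (1-q)^(N-j)`. (iii) Chebyshev:
`∑_{j<J} choose(N,j) q^j(1-q)^(N-j) ≤ N q (1-q)/(Nq - J)² ≤ 1/2` because `Nq ≥ 4(J+1)`, so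
`(Nq-J)² ≥ (9/16)(Nq)²` and `Nq ≥ 4`; the second moment identity
`∑_j (Nq - j)² choose(N,j) q^j(1-q)^(N-j) = N q (1-q)` is Mathlib's `bernsteinPolynomial.variance`
(evaluate at `q`), or prove it by induction on `C` with `Ex_insert`. -/
def S_B3 : Prop := ∀ (n : ℕ) (C : Finset (Fin n)) (J : ℕ) (q : ℝ) (g : Finset (Fin n) → ℝ),
  0 ≤ q → q ≤ 1 → J ≤ C.card → 4 * ((J : ℝ) + 1) ≤ q * C.card →
  (∀ D D', D ⊆ D' → g D ≤ g D') → (∀ D, 0 ≤ g D) →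
  ∑ Y ∈ powersetCard J C, g Y ≤ 2 * (C.card.choose J : ℝ) * Ex (fun _ => q) C g

/-- B4: consequence of B2 and B3 (`J = |C| - i`; `choose(|C|, i) = choose(|C|, |C|-i) > 0`). -/
def S_B4 : Prop := ∀ (n : ℕ) (C : Finset (Fin n)) (i : ℕ) (q : ℝ) (g : Finset (Fin n) → ℝ),
  0 ≤ q → q ≤ 1 → i ≤ C.card → 4 * ((C.card : ℝ) - i + 1) ≤ q * C.card →
  (∀ D D', D ⊆ D' → g D ≤ g D') → (∀ D, 0 ≤ g D) →
  ∑ r : Perm (Fin n), ind (P r C.card = C) * g (C \ P r i) ≤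
    2 * Ex (fun _ => q) C g * ∑ r : Perm (Fin n), ind (P r C.card = C)

/-- B6: Gaussian bound for binomial coefficients.
PROOF. By symmetry (`Nat.choose_symm`) it suffices to treat `k ≥ n/2`.
`n = 2h`, `k = h + j`, `0 ≤ j ≤ h`: `choose(2h,h+j)/choose(2h,h) = ∏_{i=1}^{j} (h-i+1)/(h+i)`
`= ∏ (1 - (2i-1)/(h+i)) ≤ exp(-∑ (2i-1)/(2h)) = exp(-j²/n)` (as `h+i ≤ 2h`).
`n = 2h+1`, `k = h+1+j`, `0 ≤ j ≤ h`, `choose(n,h) = choose(n,h+1)`:
`choose(n,h+1+j)/choose(n,h+1) = ∏_{i=1}^{j} (h+1-i)/(h+1+i) = ∏ (1 - 2i/(h+1+i)) ≤ exp(-j(j+1)/n)`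
(as `h+1+i ≤ 2h+1`) and `(k-n/2)² - 1/4 = j² + j`. Induction on `j` with
`Nat.choose_succ_right_eq`/`Nat.succ_mul_choose_eq` is convenient. -/
def S_B6 : Prop := ∀ (n k : ℕ), 1 ≤ n → k ≤ n →
  (n.choose k : ℝ) ≤ (n.choose (n / 2) : ℝ) *
    Real.exp (-((((k : ℝ) - n / 2) ^ 2 - 1 / 4) / n))

/-! ## Group C: exceptional pairs and pollution -/

/-- L1: if an exceptional pair `(E, C)` is close to `(P r i, P r k)`, then `r` is polluted.
PROOF. (a) If `|X| = j ≤ n` and `|X \ P r j| ≤ t`, then there is `ρ` a product of at most `t` transpositions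
(`ρ ∈ swaps n t`; note `swaps n s ⊆ swaps n t` for `s ≤ t` because `swap i i = 1`) with
`P (ρ * r) j = X`: induction on `t`: if `X ≠ P r j` pick `e ∈ X \ P r j`, `e' ∈ P r j \ X` (same cardinality)
and replace `r` by `swap (r e) (r e') * r`, whose `j`-th set is `(P r j).erase e' ∪ {e}`. If moreover
`X ⊆ P r k'` with `j ≤ k'`, all these transpositions exchange positions `< k'`, so `P (ρ * r) k' = P r k'`.
Each single transposition of positions changes `P r j` by replacing at most one element.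
(b) Let `k' = |C|`, `i' = |E|` (`i', k' ≤ n`). `||C| - |P r k|| ≤ 2` so
`|C \ P r k'| ≤ |C \ P r k| + |P r k \ P r k'| ≤ 4`, and even
`|C \ P r k'| + |P r k' \ C| ≤ 4`, both are equal, so each is `≤ 2`. By (a) some `ρ₁ ∈ swaps n 2` has
`P (ρ₁ * r) k' = C`. Then `|E \ P r i'| + |P r i' \ E| ≤ 4 + 4` and each transposition changes `P · i'` by
symmetric difference at most `2`, so `|E \ P r₁ i'| + |P r₁ i' \ E| ≤ 12`, each `≤ 6`
(`r₁ = ρ₁ * r`), and by (a) with `X = E ⊆ C = P r₁ k'` some `ρ₂ ∈ swaps n 6` has `P (ρ₂ * r₁) i' = E`,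
`P (ρ₂ * r₁) k' = C`. Finally `ρ₂ * ρ₁ ∈ swaps n 8` (closure of `swaps` under products:
`swaps n s * swaps n t ⊆ swaps n (s+t)`, since `swaps n t` is the set of products of `t` transpositions). -/
def S_L1 : Prop := ∀ (n : ℕ) (F : Fam n) (S : Cen n) (r : Perm (Fin n)) (i k : ℕ)
  (E C : Finset (Fin n)), Exc F S E C → i ≤ n → k ≤ n →
  (E \ P r i).card + (P r i \ E).card ≤ 4 → (C \ P r k).card + (P r k \ C).card ≤ 2 → Pol F S r

/-- L2: union bound. PROOF. `ind (Pol F S r) ≤ ∑_{ρ ∈ swaps n 8} ind (ExcChain F S (ρ * r))`, sum over `r` with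
`sum_mul_left`, and `card (swaps n t) ≤ n^(2t)`. -/
def S_L2 : Prop := ∀ (n : ℕ) (F : Fam n) (S : Cen n),
  ∑ r : Perm (Fin n), ind (Pol F S r) ≤ (n : ℝ) ^ 16 * ∑ r : Perm (Fin n), ind (ExcChain F S r)

/-- L3: exceptional pairs are rare.
PROOF. If `ExcChain F S r`, there are `i`, `k` with `P r i ⊂ P r k` both in `F`, `S (P r k) = some x`,
`x ∈ P r i`. By `hit_level`, `lo + 3 ≤ i, k ≤ hi < n`, so `P r lo ⊆ P r i`, hence with `C = P r k`
(`|C| = k`), `UpF F C ((C \ P r lo).erase x)` (because `C \ P r i ⊆ C \ P r lo` does not contain `x`). So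
`ind (ExcChain F S r) ≤ ∑_{C ∈ F, S C = some x} ind (P r |C| = C) ind (UpF F C ((C \ P r lo).erase x))`. Sum over
`r` and use B4 with `i = lo`, `g(Y) = ind (UpF F C (Y.erase x))` (monotone):
`4(|C| - lo + 1) ≤ 4(hi - lo + 1) ≤ q n/3 ≤ q |C|`. Get
`≤ ∑_{C∈F} 2 ε ∑_r ind (P r |C| = C) = 2ε ∑_r #{C ∈ F : P r |C| = C} ≤ 2 ε n n!` (the members of `F` on a chain
have distinct sizes in `[1, n]`). -/
def S_L3 : Prop := ∀ (n : ℕ) (F : Fam n) (S : Cen n) (lo hi : ℕ) (K0 q ε : ℝ),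
  Levels F lo hi → lo ≤ hi → hi < n → n ≤ 3 * lo → Good F S K0 q ε → 0 ≤ ε → 0 ≤ q → q ≤ 1 →
  12 * ((hi : ℝ) - lo + 1) ≤ q * n →
  ∑ r : Perm (Fin n), ind (ExcChain F S r) ≤ 2 * n * ε * (n.factorial : ℝ)

/-! ## Group D: exchange arguments -/

/-- C1. PROOF. For `j` a position with `j < lo` or `j = i` let `r_j = swap i j * r` (so `r_i = r`) and let `E_j(r)`
be the event `∃ a ≤ i, Low F r_j a ∧ LL F lo r_j a (r_j.symm i)`. For `lo ≤ k ≤ i` and `Q k = insert (r.symm i) (P r k)`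
one has `insert (r_j.symm i) (P r_j k) = Q k` and `P r_j k = (Q k).erase (r_j.symm i)`,
`r_j.symm i = r.symm j`. The events `E_j(r)`, `E_{j'}(r)`, `j ≠ j'`, are disjoint: let `a, a' ≤ i` be the
levels, w.l.o.g. `a' ≤ a`. Members of `F` have size `≥ lo+3` so `a, a' ≥ lo + 3`. `P r_{j'} a' ∈ F`; but
`P r_{j'} a' = (Q a').erase (r.symm j') = (insert (r_j.symm i) (P r_j a')).erase (r.symm j')` and
`r.symm j' ∈ P r_j lo` (it is at a position `< lo` in `r_j`: position `j'` if `j' ≠ i`, position `j` if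
`j' = i`), contradicting `LL F lo r_j a (r_j.symm i)`. So `∑_j ind E_j(r) ≤ 1` for every `r`. Summing over `r`
and using `sum_mul_left (swap i j)`, `(lo+1) ∑_r ind E_i(r) ≤ n!`. For each `r` the inner sum over `a` has at most
one non-zero term (`Low_unique`). -/
def S_C1 : Prop := ∀ (n : ℕ) (F : Fam n) (lo : ℕ) (i : Fin n),
  (∀ A ∈ F, lo + 3 ≤ A.card) → lo ≤ (i : ℕ) →
  ((lo : ℝ) + 1) * ∑ r : Perm (Fin n), ∑ a ∈ range ((i : ℕ) + 1),
    ind (Low F r a ∧ LL F lo r a (r.symm i)) ≤ (n.factorial : ℝ)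

/-- C2. PROOF. Same as C1 with pairs of positions. Let `B = {j : j < lo} ∪ {i, i'}` (`lo + 2` positions,
`lo ≤ i, i'`). For an unordered pair `J = {j, j'} ⊆ B` choose a permutation `ρ_J` of positions, moving only
elements of `B`, with `ρ_J {j,j'} = {i,i'}`, `ρ_{ {i,i'} } = 1`, and let `r_J = ρ_J * r`, `E_J(r)` the event
`∃ a ≤ min i i', Low F r_J a ∧ M2 F lo r_J a (r_J.symm i) (r_J.symm i')`. (`M2` is symmetric in `x, y`.) For
`lo ≤ k ≤ min i i'` put `Q k = P r k ∪ {r.symm i, r.symm i'}`; then `P r_J k = Q k \ {r.symm j, r.symm j'}`,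
`{r_J.symm i, r_J.symm i'} = {r.symm j, r.symm j'}`, and the elements at positions `< lo` in `r_J` are
`r.symm (B \ J)`. Disjointness of `E_J(r)`, `E_{J'}(r)` for `J ≠ J'`: levels `a' ≤ a` (w.l.o.g.), both `≥ lo+3`;
write `J = {j1, j2}`, `x = r.symm j1`, `y = r.symm j2`, and `X' = r.symm J'`. Then
`P r_{J'} a' = Q a' \ X' ∈ F` and `Q a' = insert x (insert y (P r_J a'))`. If `J' ∩ J = ∅` this contradicts the
last clause of `M2` for `r_J` (`x', y'` the two elements of `X'`, which lie in `P r_J lo`). If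
`J' = {j1, j3}`, `j3 ∉ J`: `Q a' \ X' = (insert y (P r_J a')).erase (r.symm j3)`, contradicting
`LL F lo r_J a y`; similarly if `J' = {j2, j3}`. So `∑_J ind E_J(r) ≤ 1`; sum over `r`
(`sum_mul_left`) to get `choose(lo+2, 2) ∑_r ind E_{ {i,i'} }(r) ≤ n!`. -/
def S_C2 : Prop := ∀ (n : ℕ) (F : Fam n) (lo : ℕ) (i i' : Fin n),
  (∀ A ∈ F, lo + 3 ≤ A.card) → lo ≤ (i : ℕ) → lo ≤ (i' : ℕ) → i ≠ i' →
  (((lo : ℝ) + 2) * (lo + 1) / 2) * ∑ r : Perm (Fin n), ∑ a ∈ range (min (i : ℕ) (i' : ℕ) + 1),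
    ind (Low F r a ∧ M2 F lo r a (r.symm i) (r.symm i')) ≤ (n.factorial : ℝ)

/-- TA: moving the centre out of the window.
PROOF. `Fin.cycleRange i` sends `i` to `0` and `j < i` to `j+1`. For `r'` let `x = r'.symm 0`,
`ω k = (P r' (k+1)).erase x`, and for a position `i` let `r = (Fin.cycleRange i)⁻¹ * r'`; then `r x = i`,
`P r k = ω k` for `k ≤ i` and `P r k = P r' k = insert x (ω (k-1))` for `k > i`.
LEFT SIDE: since `S C = some x → x ∈ C`, the condition says that the centre `x` of `P r k` is at a position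
`i` with `a ≤ i < k` (so `a < k`). Sum over `i : Fin n` and substitute `r = (cycleRange i)⁻¹ * r'`
(`sum_mul_left`): the left sum (without the factor `n - H`) is
`∑_{r'} ∑_a ∑_k ∑_{i : a ≤ i < k} g a k ind(ω a ∈ F ∧ (∀ j<a, ω j ∉ F) ∧ insert x (ω (k-1)) ∈ F ∧ S(..) = some x)`,
and with `c = k-1 ≥ a` the number of `i` is `c - a + 1`.
RIGHT SIDE: `x ∉ P r H` means that `x` is at a position `i ≥ H`; substitute again
`r = (cycleRange i)⁻¹ * r'` for each of the `n - H` positions `i ∈ [H, n)`. If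
`insert x (P r c) ∈ F` then `c + 1 ≤ hi` (if `c ≤ H` its size is `c+1`; if `c > H` its size is `≥ H > hi`), so
`P r c = ω c`, and all levels involved are `≤ i`. So each `i` contributes
`∑_{r'} ∑_a ∑_{c ≥ a} g a (c+1) (c-a+1) ind(ω a ∈ F ∧ (∀ j<a, ω j ∉ F) ∧ insert x (ω c) ∈ F ∧ S(..) = some x)`,
the same number as the left side. -/
def S_TA : Prop := ∀ (n : ℕ) (F : Fam n) (S : Cen n) (lo hi H : ℕ) (g : ℕ → ℕ → ℝ),
  Levels F lo hi → hi + 3 ≤ H → H + 2 ≤ n → CenOK S →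
  ((n : ℝ) - H) * ∑ r : Perm (Fin n), ∑ a ∈ range (n + 1), ∑ k ∈ range (n + 1),
      g a k * ind (Low F r a ∧ P r k ∈ F ∧ ∃ x, S (P r k) = some x ∧ x ∉ P r a) =
    ∑ r : Perm (Fin n), ∑ a ∈ range (n + 1), ∑ c ∈ range (n + 1), ∑ x : Fin n,
      g a (c + 1) * ((c : ℝ) - a + 1) * ind (Low F r a ∧ CX F S r H a c x)

/-- C5. PROOF. For a position `i ≥ H` substitute `r = (Fin.cycleRange i)⁻¹ * r'` as in TA, `x = r'.symm 0`: if
`insert x (P r c) ∈ F` then `c + 1 ≤ hi < i` and `insert x (P r c) = P r' (c+1)`. So the left sum is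
`(n - H)` times `∑_{r'} ∑_c f (c+1) ind (P r' (c+1) ∈ F ∧ S (P r' (c+1)) = some (r'.symm 0))`. For a position
`j ≤ lo` substitute `r' → swap 0 j * r'`, which does not change `P r' (c+1)` when `c + 1 ≥ lo + 3 > j`
(members of `F` have size `≥ lo+3`); hence `(lo+1)` times this sum is
`∑_{r'} ∑_c f (c+1) ∑_{j ≤ lo} ind (P r' (c+1) ∈ F ∧ S (P r' (c+1)) = some (r'.symm j))`
`≤ ∑_{r'} ∑_c f (c+1) ind (P r' (c+1) ∈ F)` because the centre is unique. -/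
def S_C5 : Prop := ∀ (n : ℕ) (F : Fam n) (S : Cen n) (lo hi H : ℕ) (f : ℕ → ℝ),
  Levels F lo hi → hi + 3 ≤ H → H + 2 ≤ n → (∀ k, 0 ≤ f k) →
  ((lo : ℝ) + 1) * ∑ r : Perm (Fin n), ∑ c ∈ range (n + 1), ∑ x : Fin n,
      f (c + 1) * ind (CX F S r H 0 c x) ≤
    ((n : ℝ) - H) * ∑ r : Perm (Fin n), ∑ k ∈ range (n + 1), f k * ind (P r k ∈ F)

/-- C4: valid quadruples give missing chains.
PROOF. Write `x`, `y` in terms of their positions `i ≠ i' ≥ H`. By a permutation of positions fixing all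
positions `< H` (which changes neither `P r k`, `k ≤ H`, nor the position `≥ H` property; all levels of
members of `F` are `≤ hi < H`, and `insert x (insert y (P r k)) ∈ F` etc. is only possible for `k ≤ hi`) every
pair `(i, i')` contributes the same as `(n-1, n-2)`. So the left sum is
`(n-H)(n-H-1) ≤ n²` times `T = ∑_s ∑_r ∑_a ind (Vld F S lo r a (r.symm (n-1)) (r.symm (n-2)) s)`.
Fix `s` (`lo + 3 ≤ a ≤ s`, `s < c ≤ hi`, otherwise no contribution). Let `ρ_s` be the permutation of positions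
moving `n-1` to `0`, `n-2` to `s+1`, and keeping the order of the others (positions `p < s` go to `p+1`,
positions `s ≤ p < n-2` go to `p+2`), `r' = ρ_s * r`. With `x, y` the elements at positions `n-1, n-2` of `r`:
`P r' (k+1) = insert x (P r k)` for `k ≤ s`, `P r' (k+2) = insert x (insert y (P r k))` for `s ≤ k ≤ n-2`.
So if `Vld` holds then `Miss F r'`. Conversely `P r k = (P r' (k+1)).erase x` for `k ≤ s`,
`P r k = (P r' (k+2)) \ {x, y}` for `k ≥ s`; write `V(r', x, s, a)` for the property `Vld` expressed in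
`r'`, with `x` and `y = r'.symm (s+1)`. It depends on `r'` only through the sets `P r' k`, `k ≥ lo+1`, and on
`x ∈ P r' (lo+1)`. Exchanging positions `0` and `j ≤ lo` in `r'` does not change `P r' k`, `k ≥ lo+1`; so
`(lo+1) T = ∑_{r'} #{(s, j, a) : j ≤ lo, V(r', r'.symm j, s, a)}`. It remains to show: if `r'` is not
polluted there is at most one pair `(s, x)`, `x ∈ P r' (lo+1)`, with `∃ a, V(r', x, s, a)` (and then `r'` is
missing; `a` is unique given `(s,x)`); for polluted `r'` use the trivial bound: at most one `a` for each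
`(s, x)`, at most `(n+1)(lo+1) ≤ n²` pairs.
UNIQUENESS. Let `(x, s, a)`, `(x', s', a')` be valid for `r'`, `r, y` resp. `r̂, y'` the data. Write
`Q k = P r' k`. `P r a = (Q (a+1)).erase x ∈ F` and `(Q (k+1)).erase x ∉ F` for `k < a` (as `a ≤ s`), similarly
for the other triple; `x, x' ∈ Q (lo+1)`, `a, a' ≥ lo+3`.
Case `x ≠ x'`: w.l.o.g. `a' ≤ a`. `(Q (a'+1)).erase x' ∈ F`, but `Q (a'+1) = insert x (P r a')` (`a' ≤ a ≤ s`) and
`x' ∈ P r lo = (Q (lo+1)).erase x`, contradicting `LL F lo r a x`.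
Case `x = x'`, `s ≠ s'`, w.l.o.g. `s < s'`: `a` and `a'` are both the least `k` with `(Q (k+1)).erase x ∈ F`, so
`a = a'`. `y = r'.symm (s+1)`, `y' = r'.symm (s'+1)`. Let `c' > s'` with
`C' = insert x (P r̂ c') ∈ F`, `S C' = some x`; `C' = (Q (c'+2)).erase y'` contains `y` (position
`s+1 < s'+1`). We claim `M2 F lo r a x y`, contradicting `Vld` for `(x, s)`: `x ≠ y`, `LL x`, `LL y` are part of
`Vld`. Let `i ≤ a`, `x'' ≠ y''` in `P r lo`, and suppose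
`E = ((insert x (insert y (P r i))).erase x'').erase y'' ∈ F`. Then `x ∈ E` (`x ∉ P r lo`), `E ⊂ C'` strictly
(`insert x (P r i) = Q (i+1) ⊆ C'`, `y ∈ C'`, and `x'' ∈ C' \ E`; `i ≥ lo` because `|E| ≥ lo + 3`), so `(E, C')` is
exceptional. `E` and `Q (i+1)` differ in at most `3` elements, `C'` and `Q (c'+2)` in one: by L1 `r'` is
polluted (all indices are `≤ n`). -/
def S_C4 : Prop := ∀ (n : ℕ) (F : Fam n) (S : Cen n) (lo hi H : ℕ),
  Levels F lo hi → hi + 3 ≤ H → H + 2 ≤ n → CenOK S →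
  ((lo : ℝ) + 1) * ∑ r : Perm (Fin n), ∑ a ∈ range (n + 1), ∑ x : Fin n, ∑ y : Fin n,
      ∑ s ∈ range (n + 1), ind (x ∉ P r H ∧ y ∉ P r H ∧ Vld F S lo r a x y s) ≤
    (n : ℝ) ^ 2 * (∑ r : Perm (Fin n), ind (Miss F r) +
      (n : ℝ) ^ 2 * ∑ r : Perm (Fin n), ind (Pol F S r))

/-- `x, y` at positions `≥ H`, distinct, both dead, `a` the lowest level. -/
def PairD {n : ℕ} (F : Fam n) (lo H : ℕ) (r : Perm (Fin n)) (a : ℕ) (x y : Fin n) : Prop :=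
  x ≠ y ∧ x ∉ P r H ∧ y ∉ P r H ∧ Low F r a ∧ LL F lo r a x ∧ LL F lo r a y

/-- `special` pairs of a chain `r` (for level `k`): `x ≠ y` among the first `lo + 2` elements, with
`A = P r (a+2) \ {x,y} ∈ F`, `a + 2 ≤ k ≤ a + J`, and `(P r (i+2)) \ {y, z}`, `(P r (i+2)) \ {x, z}` not in `F`
for all `i ≤ a` and all `z ≠ x, y` among the first `lo + 2` elements. -/
def Spec {n : ℕ} (F : Fam n) (lo J k : ℕ) (r : Perm (Fin n)) (x y : Fin n) : Prop :=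
  x ≠ y ∧ x ∈ P r (lo + 2) ∧ y ∈ P r (lo + 2) ∧ ∃ a, lo ≤ a ∧ a + 2 ≤ k ∧ k ≤ a + J ∧
    ((P r (a + 2)).erase x).erase y ∈ F ∧
    ∀ i ≤ a, ∀ z ∈ P r (lo + 2), z ≠ x → z ≠ y →
      ((P r (i + 2)).erase y).erase z ∉ F ∧ ((P r (i + 2)).erase x).erase z ∉ F

/-- C3a: transfer of NS-pairs into the base.
PROOF. Write `x, y` in terms of positions `i ≠ i'` in `[H, n)`. Permuting positions `≥ H` and `< H` separately
does not matter, so every pair `(i,i')` contributes the same as `(n-1, n-2)` (the sets `P r k`, `k ≤ H`, do not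
change under a permutation of positions fixing all positions `< H`): the left sum is
`(n-H)(n-H-1) T`, `T = ∑_r ∑_a ind(PairD .. (r.symm (n-1)) (r.symm (n-2)) ∧ NS ..)`. Let `ρ` move position
`n-1` to `0`, `n-2` to `1` and `p < n-2` to `p+2`; `r' = ρ * r`, `x = r'.symm 0`, `y = r'.symm 1`,
`P r' (k+2) = insert x (insert y (P r k))` and `P r k = ((P r' (k+2)).erase x).erase y` for `k ≤ n-2`.
`LL F lo r a x` says: for `i ≤ a`, `z ∈ P r lo = P r' (lo+2) \ {x,y}`,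
`(insert x (P r i)).erase z = ((P r' (i+2)).erase y).erase z ∉ F`; similarly for `y`. `NS` gives `k₀ ≥ a`,
`k = k₀+2 ≤ a + J`, `P r' k ∈ F`, `S (P r' k) = none`. So (using `Levels`: the levels are `≥ lo+3`, `≤ hi`)
`T ≤ ∑_{r'} ∑_k ind (P r' k ∈ F ∧ S (P r' k) = none ∧ Spec F lo J k r' (r'.symm 0) (r'.symm 1))`. For positions
`j ≠ j' < lo+2`, permuting positions `< lo+2` (mapping `j ↦ 0`, `j' ↦ 1`) does not change `P r' k`, `k ≥ lo+2`, so
`(lo+2)(lo+1)` times the right side is `∑_{r'} ∑_k ∑_{x ≠ y ∈ P r' (lo+2)} ind(..)`. Finally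
`(n-H)(n-H-1) ≤ 4 (lo+2)(lo+1)` since `n - H ≤ n - lo ≤ 2 lo`. -/
def S_C3a : Prop := ∀ (n : ℕ) (F : Fam n) (S : Cen n) (lo hi H J : ℕ),
  Levels F lo hi → hi + 3 ≤ H → H + 2 ≤ n → n ≤ 3 * lo → CenOK S →
  ∑ r : Perm (Fin n), ∑ a ∈ range (n + 1), ∑ x : Fin n, ∑ y : Fin n,
      ind (PairD F lo H r a x y ∧ NS F S J r a x y) ≤
    4 * ∑ r : Perm (Fin n), ∑ k ∈ range (n + 1), ∑ x : Fin n, ∑ y : Fin n,
      ind (P r k ∈ F ∧ S (P r k) = none ∧ Spec F lo J k r x y)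

/-- C3b: for a fixed `r` and `k` with `C = P r k ∈ F`, `|C| = k`, the ordered special pairs number at most
`4 n` times the probability that `(C \ P r i₀) ∪ Z` is in `UpF F C`, where `Z` is a `1/√n`-random subset of
`C` and `i₀ = max (k - J) (lo + 2)`.
PROOF. (i) The unordered special pairs form a matching: if `{x,y}` and `{x,z}`, `y ≠ z`, are both special with
levels `a`, `a'`, w.l.o.g. `a' ≤ a`, then `((P r (a'+2)).erase x).erase z ∈ F` contradicts the last clause of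
`Spec .. x y` (with `i = a'`). So their number `m` satisfies `2m ≤ lo + 2 ≤ n`. (`Spec` is symmetric in `x, y`.)
(ii) If `{x,y}` is special and `x, y ∈ Z ⊆ C`, then `UpF F C ((C \ P r i₀) ∪ Z)`: take
`A = ((P r (a+2)).erase x).erase y ∈ F`; `A ⊂ C` (`a+2 ≤ k`, `x ∈ C \ A`), and `C \ A ⊆ (C \ P r (a+2)) ∪ {x,y}`,
`P r i₀ ⊆ P r (a+2)` as `i₀ ≤ a+2` (`k - J ≤ a`). (iii) Bonferroni for `Z` `p`-random, `p² = 1/n`: with `X` the
number of special unordered pairs inside `Z`, `1_{X≥1} ≥ X - X(X-1)/2`,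
`E X = m p²`, `E X(X-1)/2 ≤ m² p⁴/2` (two different pairs are disjoint; `E_p[1_{T ⊆ Z}] = p^|T|`), so
`Pr[X ≥ 1] ≥ m p² (1 - m p²/2) ≥ m p²/2 = m/(2n)`. Hence `2m ≤ 4 n Pr[X ≥ 1]`. -/
def S_C3b : Prop := ∀ (n : ℕ) (F : Fam n) (lo J k : ℕ) (r : Perm (Fin n)),
  lo + 3 ≤ k → k ≤ n → P r k ∈ F →
  ∑ x : Fin n, ∑ y : Fin n, ind (Spec F lo J k r x y) ≤
    4 * n * Ex (fun _ => 1 / Real.sqrt n) (P r k)
      (fun Z => ind (UpF F (P r k) ((P r k \ P r (max (k - J) (lo + 2))) ∪ Z)))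

/-- C3: the bound for NS-pairs. PROOF from C3a, C3b, B4, A2, A1. By C3a and C3b the left side is at most
`16 n ∑_{C ∈ F, S C = none} ∑_r ind (P r |C| = C) g_C (C \ P r i₀)` with
`g_C(Y) = Ex p' C (fun Z => ind (UpF F C (Y ∪ Z)))`, `p' = 1/√n`, `i₀ = max (|C|-J) (lo+2)`, `|C| - i₀ ≤ J`. (For
fixed `r` the sum over `k` of terms with `P r k ∈ F`, `S (P r k) = none` is the sum over those `C ∈ F`,
`S C = none` with `P r |C| = C`.) With `q₁ = 12(J+1)/n ≤ 1` and `|C| ≥ n/3`: `4(|C|-i₀+1) ≤ 4(J+1) ≤ q₁|C|`, so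
by B4 the sum over `r` is `≤ 2 Ex q₁ C g_C ∑_r ind(P r |C| = C)`, and by A2
`Ex q₁ C g_C = Ex p C (ind UpF F C)` with `p = 1-(1-q₁)(1-p') ≤ q₁ + p' ≤ q`, so it is
`≤ K0 p² ≤ K0 (2 q₁² + 2/n) = K0 (288 (J+1)²/n² + 2/n)`. Total
`≤ 16 n · 2 K0 (288 (J+1)²/n² + 2/n) ∑_r NN F r ≤ 10^4 K0 (1 + (J+1)²/n) ∑_r NN F r`. -/
def S_C3 : Prop := ∀ (n : ℕ) (F : Fam n) (S : Cen n) (lo hi H J : ℕ) (K0 q ε : ℝ),
  Levels F lo hi → hi + 3 ≤ H → H + 2 ≤ n → n ≤ 3 * lo → Good F S K0 q ε → 0 ≤ K0 → q ≤ 1 →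
  12 * ((J : ℝ) + 1) / n + 1 / Real.sqrt n ≤ q →
  ∑ r : Perm (Fin n), ∑ a ∈ range (n + 1), ∑ x : Fin n, ∑ y : Fin n,
      ind (PairD F lo H r a x y ∧ NS F S J r a x y) ≤
    10 ^ 4 * K0 * (1 + ((J : ℝ) + 1) ^ 2 / n) * ∑ r : Perm (Fin n), NN F r

/-- N1: members without centre are rarely above another member.
PROOF. The left side is at most
`∑_{C ∈ F, S C = none} ∑_r ind (P r |C| = C) ind (UpF F C (C \ P r i₀))`, `i₀ = |C| - J` (natural
subtraction; if `P r k = C`, `P r a ∈ F`, `k ≤ a + J`, `a < k`, then `P r a ⊂ C` and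
`C \ P r a ⊆ C \ P r i₀`). Apply B4 with `q₁ = 12(J+1)/n` (`|C| ≥ n/3`, `|C| - i₀ ≤ J`) and
`Good` (`q₁ ≤ q`): `≤ 2 K0 q₁² ∑_{C∈F} ∑_r ind (P r |C| = C) ≤ 2 K0 q₁² ∑_r NN F r`. -/
def S_N1 : Prop := ∀ (n : ℕ) (F : Fam n) (S : Cen n) (lo hi J : ℕ) (K0 q ε : ℝ),
  Levels F lo hi → hi < n → n ≤ 3 * lo → Good F S K0 q ε → 0 ≤ K0 → q ≤ 1 →
  12 * ((J : ℝ) + 1) / n ≤ q →
  ∑ r : Perm (Fin n), ∑ k ∈ range (n + 1),
      ind (P r k ∈ F ∧ S (P r k) = none ∧ ∃ a < k, k ≤ a + J ∧ P r a ∈ F) ≤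
    2 * K0 * (12 * ((J : ℝ) + 1) / n) ^ 2 * ∑ r : Perm (Fin n), NN F r

/-- Kl: Kleitman-type bound. PROOF. As N1, with a weight `f k ≥ 0` (`k = |C|`), using for every `C ∈ F`:
`Ex p C (ind UpF F C) ≤ p + ε + K0 p²`, `p = 12(J+1)/n ≤ q`. If `S C = none` this is part of `Good`. If
`S C = some x` (`x ∈ C`): by A0, `Ex p C (ind UpF) = (1-p) Ex p C (ind UpF(D.erase x)) + p Ex p C (ind UpF(insert x D))
≤ Ex p C (ind UpF(D.erase x)) + p ≤ Ex q C (ind UpF(D.erase x)) + p ≤ ε + p` by A1. -/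
def S_Kl : Prop := ∀ (n : ℕ) (F : Fam n) (S : Cen n) (lo hi J : ℕ) (K0 q ε : ℝ) (f : ℕ → ℝ),
  Levels F lo hi → hi < n → n ≤ 3 * lo → Good F S K0 q ε → 0 ≤ K0 → 0 ≤ ε → q ≤ 1 →
  12 * ((J : ℝ) + 1) / n ≤ q → (∀ k, 0 ≤ f k) →
  ∑ r : Perm (Fin n), ∑ k ∈ range (n + 1),
      f k * ind (P r k ∈ F ∧ ∃ a < k, k ≤ a + J ∧ P r a ∈ F) ≤
    2 * (12 * ((J : ℝ) + 1) / n + ε + K0 * (12 * ((J : ℝ) + 1) / n) ^ 2) *
      ∑ r : Perm (Fin n), ∑ k ∈ range (n + 1), f k * ind (P r k ∈ F)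

/-! ## Group E: the deterministic analysis of one unpolluted chain -/

/-- D: PROOF. All indices below are `≤ n`; `a ≥ lo+3`, `a ≤ hi` and `c + 1 ≤ hi` by `Levels` (`P r H` contains
`P r k` for `k ≤ H`; `x ∉ P r H`). Write `C = insert x (P r c)`. Polluted always means: by L1 (hypothesis),
contradicting `¬ Pol F S r`.
(1) `LL F lo r a x`: `x ∉ P r a`. Let `i ≤ a`, `z ∈ P r lo`, `E = (insert x (P r i)).erase z`; if `E ∈ F`: `x ∈ E`
(`x ≠ z`), `E ⊂ C` strictly (`z ∈ P r lo ⊆ C`), so `(E, C)` is exceptional and differs from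
`(P r i, P r c)` by at most `2` and `1` elements: polluted.
(2) if `k < c` and `E = insert x (P r k) ∈ F` then `(E, C)` is exceptional: polluted.
(3) Let `y` be as stated and `a ≤ s < c`. `Vld F S lo r a x y s`: everything is clear (`∀ k ≤ s` by (2)) except
`insert x (insert y (P r k)) ∉ F` for `k ≥ s`. Suppose `T = insert x (insert y (P r k)) ∈ F`, `k ≥ s ≥ a`; then
`k + 2 ≤ hi` (if `k ≥ H` then `|T| ≥ H > hi`). If `S T = none` then `NS F S J r a x y` (`k + 2 ≤ hi ≤ a + J`),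
excluded. So `S T = some e`, `e ∈ T`.
 - `e ∈ P r a`: `(P r a, T)` is exceptional (`x ∈ T \ P r a`): polluted.
 - `e = x` or `e = y`: then `M2 F lo r a x y` (excluded): `x ≠ y`, `LL x`, `LL y` hold; if `i ≤ a`, `x' ≠ y'` in
   `P r lo`, `E = ((insert x (insert y (P r i))).erase x').erase y' ∈ F`, then `e ∈ E` (`x, y ∉ P r lo`), `E ⊂ T`
   strictly (`x' ∈ T \ E`), exceptional, `E` and `P r i` differ by at most `4`: polluted.
 - otherwise `z = e ∈ P r k \ P r a ⊆ P r H`, `z ≠ x, y`. Then `M2 F lo r a x z` (excluded): `x ≠ z`, `LL x`;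
   `LL z`: `z ∉ P r a`; for `i ≤ a`, `x' ∈ P r lo`: if `E = (insert z (P r i)).erase x' ∈ F` then `z ∈ E`
   (`x' ∈ P r lo ⊆ P r a`, so `x' ≠ z`), `E ⊆ P r k ⊂ T`, strictly since `x ∉ E`, exceptional, polluted. Last
   clause: `x' ≠ y' ∈ P r lo`, `E = ((insert x (insert z (P r i))).erase x').erase y' ∈ F`: `z ∈ E`, `E ⊂ T`
   strictly (`y ∈ T \ E`), exceptional, difference at most `4`: polluted. -/
def S_D : Prop := ∀ (n : ℕ) (F : Fam n) (S : Cen n) (lo hi H J : ℕ) (r : Perm (Fin n)) (a c : ℕ)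
  (x : Fin n), Levels F lo hi → hi + 3 ≤ H → H + 2 ≤ n → CenOK S → hi ≤ a + J → ¬ Pol F S r →
  Low F r a → CX F S r H a c x →
  LL F lo r a x ∧ (∀ k < c, insert x (P r k) ∉ F) ∧
    ∀ y, y ∉ P r H → y ≠ x → LL F lo r a y → ¬ M2 F lo r a x y → ¬ NS F S J r a x y →
      ¬ (∃ z ∈ P r H, M2 F lo r a x z) → ∀ s, a ≤ s → s < c → Vld F S lo r a x y s

/-- PC: the inequality for one unpolluted chain. Notation: `Lc` = number of dead `x` at positions `≥ H`, `Ec` =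
number of ordered pairs `(x,y)` of dead elements at positions `≥ H` with `M2` or `NS`, `Dc` = number of pairs
`(x,z)`, `x ∉ P r H`, `z ∈ P r H`, with `M2`, `Vc` = number of valid `(x,y,s)`.
PROOF from D. Let `U°` be the set of `x` for which there is `c` with `CX F S r H a c x`; by D each `x ∈ U°` is dead
(`LL`) and has exactly one such `c =: c_x` (by (2) of D applied to the larger one), `a ≤ c_x`, `c_x + 1 ≤ hi`, so
`0 ≤ c_x - a ≤ J`. The left side is `∑_{x∈U°} κ(c_x+1)(c_x - a + 1) ≤ |U°| + ∑_{x∈U°} κ(c_x+1)(c_x - a)` and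
`|U°| ≤ Lc`. Let `Dir` be the set of `x ∈ U°` with `∃ z ∈ P r H, M2 F lo r a x z`; `|Dir| ≤ Dc`, and it contributes
`≤ J Dc`. If `Lc ≤ M` let `T = U° \ Dir`: `|T|² ≤ Lc² ≤ M Lc`, done. If `Lc > M` let `T` be the set of
`x ∈ U° \ Dir` whose degree `deg x` (number of dead `y ≠ x` at positions `≥ H` with `M2 x y` or `NS x y`) satisfies
`2 deg x ≥ Lc`; then `|T| Lc ≤ 2 ∑_{x∈T} deg x ≤ 2 Ec` and `|T|² ≤ |T| Lc ≤ 2 Ec`. For the remaining `x` (in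
`U° \ Dir \ T`) there are at least `Lc - 1 - deg x ≥ Lc/2 - 1 ≥ Lc/3` (as `Lc > M ≥ 6`) elements `y` which are dead,
at positions `≥ H`, `≠ x`, with neither `M2` nor `NS`; for each of them and each `s ∈ [a, c_x)` the quadruple is
valid by D (3). So `∑_x (c_x - a) Lc/3 ≤ Vc`, i.e. `∑_x κ(c_x+1)(c_x-a) ≤ (3/Lc) Vc ≤ (3/M) Vc`. -/
def S_PC : Prop := ∀ (n : ℕ) (F : Fam n) (S : Cen n) (lo hi H J M : ℕ) (r : Perm (Fin n)) (a : ℕ)
  (κ : ℕ → ℝ), Levels F lo hi → hi + 3 ≤ H → H + 2 ≤ n → CenOK S → hi ≤ a + J → ¬ Pol F S r →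
  Low F r a → 6 ≤ M → (∀ k, 0 ≤ κ k) → (∀ k, κ k ≤ 1) →
  ∃ T : Finset (Fin n),
    (T.card : ℝ) ^ 2 ≤ M * (∑ x : Fin n, ind (x ∉ P r H ∧ LL F lo r a x)) +
      2 * ∑ x : Fin n, ∑ y : Fin n, ind (PairD F lo H r a x y ∧
        (M2 F lo r a x y ∨ NS F S J r a x y)) ∧
    ∑ c ∈ range (n + 1), ∑ x : Fin n, κ (c + 1) * ((c : ℝ) - a + 1) * ind (CX F S r H a c x) ≤
      (∑ x : Fin n, ind (x ∉ P r H ∧ LL F lo r a x)) +
      J * (∑ x : Fin n, ∑ z : Fin n, ind (x ∉ P r H ∧ z ∈ P r H ∧ M2 F lo r a x z)) +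
      (∑ x ∈ T, ∑ c ∈ range (n + 1), κ (c + 1) * ((c : ℝ) - a) * ind (CX F S r H a c x)) +
      3 / M * ∑ x : Fin n, ∑ y : Fin n, ∑ s ∈ range (n + 1),
        ind (x ∉ P r H ∧ y ∉ P r H ∧ Vld F S lo r a x y s)

end Pool.Agent.H710.KU
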