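import Pool.Agent.H710.KU.St2

/-!
St1: the middle window.
-/

set_option autoImplicit false

namespace Pool.Agent.H710.KU

open Finset Equiv

namespace St1

theorem amgm1 (h t : ℝ) : 3 * (h * t) ≤ 1 / 80 * h ^ 2 + 180 * t ^ 2 := by
  nlinarith [sq_nonneg (h - 120 * t)]

theorem amgm2 (x : ℝ) : 9 * x ≤ 1 / 80 * x ^ 2 + 1620 := by
  nlinarith [sq_nonneg (x - 360)]

theorem fin_arith (L B X Y M Q N f K0 : ℝ) (h1 : L ≤ B)
    (h2 : B ≤ 3 * X + 9 * Y + 1 / 4 * M + (100 + (108 + 576 * K0) * 2500) * f)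
    (h3 : 3 * X ≤ 1 / 80 * Q + 180 * ((2 * 108 + 36 + 4 * 10 ^ 4 * K0) * 2500 * f))
    (h4 : 9 * Y ≤ 1 / 80 * Q + 1620 * N) (h5 : N ≤ 2 * f) :
    L ≤ 1 / 4 * M + 1 / 40 * Q + (180 * ((2 * 108 + 36 + 4 * 10 ^ 4 * K0) * 2500) + 3240 +
      (100 + (108 + 576 * K0) * 2500)) * f := by
  linarith

/-- hits above the lowest one -/
theorem count {n : ℕ} {F : Fam n} {lo hi : ℕ} (hL : Levels F lo hi) (hh : hi < n)
    (r : Perm (Fin n)) :
    NN F r - 1 + ind (Miss F r) ≤ ∑ a ∈ range (n + 1), ∑ k ∈ range (n + 1),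
      ind (Low F r a ∧ P r k ∈ F ∧ a < k) := by
  by_cases hm : Miss F r
  · rw [ind_true hm]
    have h0 : NN F r = 0 := by
      unfold NN
      exact Finset.sum_eq_zero fun k _ => ind_false (hm k)
    rw [h0]
    have : 0 ≤ ∑ a ∈ range (n + 1), ∑ k ∈ range (n + 1), ind (Low F r a ∧ P r k ∈ F ∧ a < k) :=
      Finset.sum_nonneg fun a _ => Finset.sum_nonneg fun k _ => ind_nonneg _
    linarith
  · rw [ind_false hm]
    have hex : ∃ k, P r k ∈ F := by
      by_contra hno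
      exact hm fun k hk => hno ⟨k, hk⟩
    obtain ⟨k, hk⟩ := hex
    obtain ⟨a, -, ha⟩ := exists_Low hk
    have hal := hit_level hL hh ha.1
    have har : a ∈ range (n + 1) := Finset.mem_range.2 (by omega)
    have h1 : ∑ k ∈ range (n + 1), ind (Low F r a ∧ P r k ∈ F ∧ a < k) ≤
        ∑ a ∈ range (n + 1), ∑ k ∈ range (n + 1), ind (Low F r a ∧ P r k ∈ F ∧ a < k) :=
      Finset.single_le_sum
        (f := fun a => ∑ k ∈ range (n + 1), ind (Low F r a ∧ P r k ∈ F ∧ a < k))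
        (fun a _ => Finset.sum_nonneg fun k _ => ind_nonneg _) har
    have h2 : NN F r ≤ ∑ k ∈ range (n + 1),
        (ind (Low F r a ∧ P r k ∈ F ∧ a < k) + if k = a then 1 else 0) := by
      unfold NN
      apply Finset.sum_le_sum
      intro k _
      rcases lt_trichotomy k a with h | h | h
      · rw [ind_false (ha.2 k h), if_neg (by omega)]
        have := ind_nonneg (Low F r a ∧ P r k ∈ F ∧ a < k)
        linarith
      · rw [if_pos h]
        have h3 := ind_nonneg (Low F r a ∧ P r k ∈ F ∧ a < k)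
        have h4 := ind_le_one (P r k ∈ F)
        linarith
      · rw [if_neg (by omega), add_zero]
        exact ind_mono fun h5 => ⟨ha, h5, h⟩
    rw [Finset.sum_add_distrib, Finset.sum_ite_eq' (range (n + 1)) a, if_pos har] at h2
    linarith

end St1

open St1 in
theorem st1 (he : S_Env) (h1 : S_G1) (h : S_GI) : S_St1 := by
  obtain ⟨K0, hK0, n₁, hn₁⟩ := he
  refine ⟨180 * ((2 * 108 + 36 + 4 * 10 ^ 4 * K0) * 2500) + 3240 +
    (100 + (108 + 576 * K0) * 2500), max n₁ 400, ?_⟩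
  intro n hn F hUF hsize
  have hnn₁ : n₁ ≤ n := le_trans (le_max_left _ _) hn
  have hn400 : 400 ≤ n := le_trans (le_max_right _ _) hn
  have hnR : (400 : ℝ) ≤ n := by exact_mod_cast hn400
  have hnpos : (0 : ℝ) < n := by linarith
  set s := Real.sqrt n with hs
  have hs2 : s ^ 2 = n := Real.sq_sqrt hnpos.le
  have hs20 : 20 ≤ s := by
    rw [hs]
    apply Real.le_sqrt_of_sq_le
    norm_num
    exact hn400
  have hlog : 4 ≤ Real.log n := by
    rw [Real.le_log_iff_exp_le hnpos]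
    have h4 : Real.exp 4 = Real.exp 1 ^ 4 := by
      rw [← Real.exp_nat_mul]; norm_num
    have h5 := Real.exp_one_lt_d9
    have h6 : Real.exp 1 ^ 4 ≤ (2.7182818286 : ℝ) ^ 4 :=
      pow_le_pow_left₀ (Real.exp_pos 1).le h5.le 4
    rw [h4]
    have h7 : (2.7182818286 : ℝ) ^ 4 ≤ 400 := by norm_num
    linarith
  have hsl : 2 * s ≤ Real.sqrt (n * Real.log n) := by
    apply Real.le_sqrt_of_sq_le
    have : (2 * s) ^ 2 = n * 4 := by rw [mul_pow, hs2]; ring
    rw [this]
    exact mul_le_mul_of_nonneg_left hlog hnpos.le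
  have hlow3 : (3 : ℝ) ≤ n / 2 - 3 * s := by
    rw [← hs2]; nlinarith
  set c := ⌈(n : ℝ) / 2 - 3 * s⌉₊ with hc
  have hcge : (n : ℝ) / 2 - 3 * s ≤ c := Nat.le_ceil _
  have hclt : (c : ℝ) < n / 2 - 3 * s + 1 := Nat.ceil_lt_add_one (by linarith)
  have hc3 : 3 ≤ c := by
    have : (3 : ℝ) ≤ c := le_trans hlow3 hcge
    exact_mod_cast this
  obtain ⟨lo, hlo⟩ : ∃ lo, c = lo + 3 := ⟨c - 3, by omega⟩
  have hloR : (c : ℝ) = lo + 3 := by rw [hlo]; push_cast; ring
  set hi := ⌊(n : ℝ) / 2 + 3 * s⌋₊ with hhi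
  have hhile : (hi : ℝ) ≤ n / 2 + 3 * s := Nat.floor_le (by linarith)
  have hhilt : (n : ℝ) / 2 + 3 * s < hi + 1 := Nat.lt_floor_add_one _
  have hlohi : lo ≤ hi := by
    have : (lo : ℝ) ≤ hi := by linarith
    exact_mod_cast this
  have hlev : Levels F lo hi := by
    intro A hA
    have h2 := abs_le.1 (hsize A hA)
    constructor
    · rw [← hlo]
      apply Nat.ceil_le.2
      linarith [h2.1]
    · apply Nat.le_floor
      linarith [h2.2]
  obtain ⟨S, hS⟩ := hn₁ n hnn₁ F lo hi hUF (by linarith) hlohi (by linarith) hlev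
  have hhn : hi < n := by have := hS.hHn; omega
  have hdiff : ((hi - lo : ℕ) : ℝ) = hi - lo := Nat.cast_sub hlohi
  have hdec : Dec n lo hi (fun _ => 1) 2500 := by
    refine ⟨1, fun _ => 50, fun _ => hi - lo, fun _ => by norm_num, fun _ => le_rfl, ?_, ?_⟩
    · intro a ha1 ha2
      have hj : hi ≤ a + (hi - lo) := by omega
      simp only [Finset.sum_range_one]
      rw [ind_true hj]
      have ha1R : (lo : ℝ) + 3 ≤ a := by exact_mod_cast ha1
      have ha2R : (a : ℝ) ≤ hi := by exact_mod_cast ha2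
      have h3 : ((hi : ℝ) - a) ^ 2 / n ≤ 49 := by
        rw [div_le_iff₀ hnpos, ← hs2]
        have h4 : (hi : ℝ) - a ≤ 7 * s := by linarith
        have h5 : 0 ≤ (hi : ℝ) - a := by linarith
        have h6 := pow_le_pow_left₀ h5 h4 2
        have h7 : (7 * s) ^ 2 = 49 * s ^ 2 := by ring
        linarith
      linarith
    · simp only [Finset.sum_range_one]
      rw [hdiff]
      have h3 : ((hi : ℝ) - lo + 1) ^ 2 / n ≤ 49 := by
        rw [div_le_iff₀ hnpos, ← hs2]
        have h4 : (hi : ℝ) - lo + 1 ≤ 7 * s := by linarith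
        have h5 : 0 ≤ (hi : ℝ) - lo + 1 := by
          have : (lo : ℝ) ≤ hi := by exact_mod_cast hlohi
          linarith
        have h6 := pow_le_pow_left₀ h5 h4 2
        have h7 : (7 * s) ^ 2 = 49 * s ^ 2 := by ring
        linarith
      linarith
  obtain ⟨T, hT1, hT2⟩ := h n F S lo hi (hi + 3) 108 K0 _ _ 2500 (fun _ => 1) (fun _ => 1) hS
    (by norm_num) (by norm_num) (fun _ => zero_le_one) (fun _ => le_rfl) (fun _ => zero_le_one)
    (fun _ => le_rfl) hdec
  have hT3 := hT2 (fun a => |(a : ℝ) - n / 2|) (fun k => |(k : ℝ) - n / 2|) (fun a => abs_nonneg _)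
    (fun k => abs_nonneg _) (by
      intro a c hac hch
      have h3 := le_abs_self (((c + 1 : ℕ) : ℝ) - n / 2)
      have h4 := neg_abs_le ((a : ℝ) - n / 2)
      push_cast at h3 ⊢
      linarith)
  have hNN := h1 n F S lo hi (hi + 3) K0 _ _ hS
  have hf0 : (0 : ℝ) < n.factorial := by exact_mod_cast n.factorial_pos
  -- the left side
  have hleft : (n : ℝ) * ∑ r : Perm (Fin n), (NN F r - 1 + ind (Miss F r)) ≤
      n * ∑ r : Perm (Fin n), ∑ a ∈ range (n + 1), ∑ k ∈ range (n + 1),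
        (1 : ℝ) * 1 * ind (Low F r a ∧ P r k ∈ F ∧ a < k) := by
    apply mul_le_mul_of_nonneg_left _ hnpos.le
    apply Finset.sum_le_sum
    intro r _
    refine le_trans (count hlev hhn r) (le_of_eq ?_)
    refine Finset.sum_congr rfl fun a _ => Finset.sum_congr rfl fun k _ => ?_
    ring
  -- first sum
  set Q : ℝ := ∑ r : Perm (Fin n), ∑ k ∈ range (n + 1),
    ((k : ℝ) - n / 2) ^ 2 * ind (P r k ∈ F) with hQ
  have hs1 : 3 * (∑ r : Perm (Fin n), ∑ a ∈ range (n + 1), ind (Low F r a) *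
      |(a : ℝ) - n / 2| * ((T r a).card : ℝ)) ≤ 1 / 80 * Q + 180 *
      ((2 * (108 : ℕ) + 36 + 4 * 10 ^ 4 * K0) * 2500 * (n.factorial : ℝ)) := by
    have h3 : 3 * (∑ r : Perm (Fin n), ∑ a ∈ range (n + 1), ind (Low F r a) *
        |(a : ℝ) - n / 2| * ((T r a).card : ℝ)) ≤
        1 / 80 * Q + 180 * ∑ r : Perm (Fin n), ∑ a ∈ range (n + 1),
          (1 : ℝ) * (1 + ((hi : ℝ) - a) ^ 2 / n) * ind (Low F r a) * ((T r a).card : ℝ) ^ 2 := by
      rw [hQ, Finset.mul_sum, Finset.mul_sum, Finset.mul_sum, ← Finset.sum_add_distrib]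
      apply Finset.sum_le_sum
      intro r _
      rw [Finset.mul_sum, Finset.mul_sum, Finset.mul_sum, ← Finset.sum_add_distrib]
      apply Finset.sum_le_sum
      intro a _
      by_cases hl : Low F r a
      · rw [ind_true hl, ind_true hl.1]
        have h4 := amgm1 |(a : ℝ) - n / 2| ((T r a).card : ℝ)
        rw [sq_abs] at h4
        have h5 : 0 ≤ ((hi : ℝ) - a) ^ 2 / n := by positivity
        have h6 : 0 ≤ ((T r a).card : ℝ) ^ 2 := by positivity
        have h7 := mul_nonneg h5 h6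
        linarith
      · rw [ind_false hl]
        have h5 := ind_nonneg (P r a ∈ F)
        have h6 : 0 ≤ ((a : ℝ) - n / 2) ^ 2 * ind (P r a ∈ F) := mul_nonneg (sq_nonneg _) h5
        linarith
    linarith
  have hs3 : 9 * (∑ r : Perm (Fin n), ∑ k ∈ range (n + 1), |(k : ℝ) - n / 2| *
      ind (P r k ∈ F)) ≤ 1 / 80 * Q + 1620 * ∑ r : Perm (Fin n), NN F r := by
    rw [hQ, Finset.mul_sum, Finset.mul_sum, Finset.mul_sum, ← Finset.sum_add_distrib]
    apply Finset.sum_le_sum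
    intro r _
    unfold NN
    rw [Finset.mul_sum, Finset.mul_sum, Finset.mul_sum, ← Finset.sum_add_distrib]
    apply Finset.sum_le_sum
    intro k _
    have h4 := amgm2 |(k : ℝ) - n / 2|
    rw [sq_abs] at h4
    have h5 := mul_le_mul_of_nonneg_right h4 (ind_nonneg (P r k ∈ F))
    linarith
  have h27 : (27 : ℝ) / ((108 : ℕ) : ℝ) = 1 / 4 := by norm_num
  rw [h27] at hT3
  push_cast at hs1
  exact fin_arith _ _ _ _ _ _ _ _ _ hleft hT3 hs1 hs3 hNN

end Pool.Agent.H710.KU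

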