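import Pool.Agent.H710.KU.St

/-!
Second part of the statements (with complete paper proofs) for S10707: summation and final assembly.
-/

set_option autoImplicit false

namespace Pool.Agent.H710.KU

open Finset Equiv

/-- Environment: a family inside the window `[lo+3, hi]`, with a good centre assignment and all numerical
inequalities which hold for large `n`. -/
structure Env (n : ℕ) (F : Fam n) (S : Cen n) (lo hi H : ℕ) (K0 q ε : ℝ) : Prop where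
  lev : Levels F lo hi
  hH : H = hi + 3
  hHn : H + 2 ≤ n
  lohi : lo ≤ hi
  n3 : n ≤ 3 * lo
  r1 : 2 * ((n : ℝ) - H) ≤ 3 * (lo + 1)
  r2 : (n : ℝ) ≤ 3 * (n - H)
  good : Good F S K0 q ε
  K0nn : 0 ≤ K0
  q1 : q ≤ 1
  εnn : 0 ≤ ε
  small : q + ε + K0 * q ^ 2 ≤ 1 / 4
  hq : 12 * ((hi : ℝ) - lo + 1) / n + 1 / Real.sqrt n ≤ q
  tiny : (n : ℝ) ^ 24 * ε ≤ 1

/-- existence of the environment. PROOF. Take `q₀, K0` from `S_Good` with `B = 75`, `q = n^(-2/5)`,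
`ε = 1/n^30 = q^75`. For `n ≥ n₀`: `q ≤ q₀`; `S` from `S_Good`; `hi - lo ≤ 6 √(n log n)`,
`72 √(log n / n) + 12/n + 1/√n ≤ n^(-2/5)`; `n ≤ 3 lo`, `hi + 5 ≤ n` etc. because `√(n log n) = o(n)`. -/
def S_Env : Prop := ∃ K0 : ℝ, 0 ≤ K0 ∧ ∃ n₀ : ℕ, ∀ n : ℕ, n₀ ≤ n → ∀ (F : Fam n) (lo hi : ℕ), UF F →
  (n : ℝ) / 2 - 3 * Real.sqrt (n * Real.log n) ≤ lo → lo ≤ hi →
  (hi : ℝ) ≤ n / 2 + 3 * Real.sqrt (n * Real.log n) → Levels F lo hi →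
  ∃ S : Cen n, Env n F S lo hi (hi + 3) K0 ((n : ℝ) ^ (-(2 / 5) : ℝ)) (1 / (n : ℝ) ^ 30)

/-- G1. PROOF. `NN F r ≤ 1 + ∑_k ind (P r k ∈ F ∧ ∃ a < k, P r a ∈ F)` (all hits but the lowest one), and
`P r k, P r a ∈ F` imply `k ≤ a + (hi - lo)`. Sum over `r`, use Kl with `f = 1`, `J = hi - lo`,
`p = 12(J+1)/n ≤ q`: `∑ NN ≤ n! + 2(p + ε + K0 p²) ∑ NN ≤ n! + (1/2) ∑ NN`. -/
def S_G1 : Prop := ∀ (n : ℕ) (F : Fam n) (S : Cen n) (lo hi H : ℕ) (K0 q ε : ℝ),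
  Env n F S lo hi H K0 q ε → ∑ r : Perm (Fin n), NN F r ≤ 2 * (n.factorial : ℝ)

/-- G2. PROOF. `x` is at a position `i ≥ H` (`x = r.symm i`); `Low F r a` implies `a ≤ hi < i`; C1 for each of the
`n - H` positions and `r1`. -/
def S_G2 : Prop := ∀ (n : ℕ) (F : Fam n) (S : Cen n) (lo hi H : ℕ) (K0 q ε : ℝ),
  Env n F S lo hi H K0 q ε →
  ∑ r : Perm (Fin n), ∑ a ∈ range (n + 1), ∑ x : Fin n,
    ind (Low F r a ∧ x ∉ P r H ∧ LL F lo r a x) ≤ 3 / 2 * (n.factorial : ℝ)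

/-- G3. PROOF. `x = r.symm i`, `i ≥ H`, `z = r.symm t`, `t < H`; `M2 F lo r a x z` implies `z ∉ P r a`, so
`t ≥ a ≥ hi - J`, and `a ≥ lo + 3`; so `t` takes at most `J + 3` values and `lo ≤ t`, `a ≤ min i t`. C2 for each
pair `(i, t)`, with `2/((lo+2)(lo+1)) ≤ 18/n²` and at most `n` values of `i`. -/
def S_G3 : Prop := ∀ (n : ℕ) (F : Fam n) (S : Cen n) (lo hi H J : ℕ) (K0 q ε : ℝ),
  Env n F S lo hi H K0 q ε → J ≤ hi →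
  ∑ r : Perm (Fin n), ∑ a ∈ range (n + 1), ∑ x : Fin n, ∑ z : Fin n,
    ind (hi ≤ a + J ∧ Low F r a ∧ x ∉ P r H ∧ z ∈ P r H ∧ M2 F lo r a x z) ≤
    18 * ((J : ℝ) + 3) / n * (n.factorial : ℝ)

/-- G4. PROOF. As G3 with two positions `i ≠ i' ≥ H` (`a ≤ hi < min i i'`): at most `n²` pairs. -/
def S_G4 : Prop := ∀ (n : ℕ) (F : Fam n) (S : Cen n) (lo hi H : ℕ) (K0 q ε : ℝ),
  Env n F S lo hi H K0 q ε →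
  ∑ r : Perm (Fin n), ∑ a ∈ range (n + 1), ∑ x : Fin n, ∑ y : Fin n,
    ind (PairD F lo H r a x y ∧ M2 F lo r a x y) ≤ 18 * (n.factorial : ℝ)

/-- Decomposition hypothesis on a weight `φ`. -/
def Dec (n lo hi : ℕ) (φ : ℕ → ℝ) (A : ℝ) : Prop :=
  ∃ (m : ℕ) (α : ℕ → ℝ) (J : ℕ → ℕ), (∀ l, 0 ≤ α l) ∧ (∀ l, J l ≤ hi - lo) ∧
    (∀ a, lo + 3 ≤ a → a ≤ hi →
      φ a * (1 + ((hi : ℝ) - a) ^ 2 / n) ≤ ∑ l ∈ range m, α l * ind (hi ≤ a + J l)) ∧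
    ∑ l ∈ range m, α l * (1 + ((J l : ℝ) + 1) ^ 2 / n) ≤ A

/-- G5: weighted version of G3. PROOF. For `lo + 3 ≤ a ≤ hi` (implied by `Low`),
`φ a (hi - a) ≤ √n φ a (1 + (hi-a)²/n) ≤ √n ∑_l α_l ind (hi ≤ a + J_l)` (`t ≤ 1 + t²`, `φ a ≥ 0`); G3 gives
`≤ √n ∑_l α_l 18 (J_l+3)/n · n!`, and `(J+3)/√n ≤ 2 (1 + (J+1)²/n)`. -/
def S_G5 : Prop := ∀ (n : ℕ) (F : Fam n) (S : Cen n) (lo hi H : ℕ) (K0 q ε A : ℝ) (φ : ℕ → ℝ),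
  Env n F S lo hi H K0 q ε → (∀ a, 0 ≤ φ a) → Dec n lo hi φ A →
  ∑ r : Perm (Fin n), ∑ a ∈ range (n + 1), ∑ x : Fin n, ∑ z : Fin n,
    φ a * ((hi : ℝ) - a) * ind (Low F r a ∧ x ∉ P r H ∧ z ∈ P r H ∧ M2 F lo r a x z) ≤
    36 * A * (n.factorial : ℝ)

/-- G6: weighted bound for dead elements and bad pairs (`J = hi - a`).
PROOF. For `lo + 3 ≤ a ≤ hi`, `φ a (1 + (hi-a)²/n) ≤ ∑_l α_l ind (hi ≤ a + J_l) ≤ ∑_l α_l ≤ A`. First sum by G2: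
`≤ (3/2) A n!`, `M2` part by G4: `≤ 18 A n!`. `NS` part: if `hi ≤ a + J_l` then `NS F S (hi-a) r a x y` implies
`NS F S J_l r a x y`; so by C3 (`J_l ≤ hi - lo`, so `12(J_l+1)/n + 1/√n ≤ q`) and G1 it is
`≤ ∑_l α_l 10^4 K0 (1 + (J_l+1)²/n) · 2 n! ≤ 2·10^4 K0 A n!`. -/
def S_G6 : Prop := ∀ (n : ℕ) (F : Fam n) (S : Cen n) (lo hi H M : ℕ) (K0 q ε A : ℝ) (φ : ℕ → ℝ),
  Env n F S lo hi H K0 q ε → (∀ a, 0 ≤ φ a) → Dec n lo hi φ A →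
  ∑ r : Perm (Fin n), ∑ a ∈ range (n + 1), φ a * (1 + ((hi : ℝ) - a) ^ 2 / n) * ind (Low F r a) *
    (M * (∑ x : Fin n, ind (x ∉ P r H ∧ LL F lo r a x)) +
      2 * ∑ x : Fin n, ∑ y : Fin n, ind (PairD F lo H r a x y ∧
        (M2 F lo r a x y ∨ NS F S (hi - a) r a x y))) ≤
    (2 * M + 36 + 4 * 10 ^ 4 * K0) * A * (n.factorial : ℝ)

/-- G7: members without centre above the lowest member, weighted.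
PROOF. For `a` the lowest level, `φ a ≤ φ a (1 + (hi-a)²/n) ≤ ∑_l α_l ind (hi ≤ a + J_l)`; `hi ≤ a + J_l` implies
`k ≤ a + J_l`. So the sum over `a, k` (one `a` only) is at most
`∑_l α_l ∑_k ind (P r k ∈ F ∧ S (P r k) = none ∧ ∃ a < k, k ≤ a + J_l ∧ P r a ∈ F)`; N1 and G1 give
`≤ ∑_l α_l 2 K0 144 (J_l+1)²/n² · 2 n!`, and `n α_l (J_l+1)²/n² ≤ α_l (1 + (J_l+1)²/n)`. -/
def S_G7 : Prop := ∀ (n : ℕ) (F : Fam n) (S : Cen n) (lo hi H : ℕ) (K0 q ε A : ℝ) (φ κ : ℕ → ℝ),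
  Env n F S lo hi H K0 q ε → (∀ a, 0 ≤ φ a) → (∀ k, 0 ≤ κ k) → (∀ k, κ k ≤ 1) → Dec n lo hi φ A →
  n * ∑ r : Perm (Fin n), ∑ a ∈ range (n + 1), ∑ k ∈ range (n + 1),
    φ a * κ k * ind (Low F r a ∧ P r k ∈ F ∧ a < k ∧ S (P r k) = none) ≤
    576 * K0 * A * (n.factorial : ℝ)

/-- GI: the general inequality. -/
def S_GI : Prop := ∀ (n : ℕ) (F : Fam n) (S : Cen n) (lo hi H M : ℕ) (K0 q ε A : ℝ) (φ κ : ℕ → ℝ),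
  Env n F S lo hi H K0 q ε → 6 ≤ M → 0 ≤ A → (∀ a, 0 ≤ φ a) → (∀ a, φ a ≤ 1) → (∀ k, 0 ≤ κ k) →
  (∀ k, κ k ≤ 1) → Dec n lo hi φ A →
  ∃ T : Perm (Fin n) → ℕ → Finset (Fin n),
    (∑ r : Perm (Fin n), ∑ a ∈ range (n + 1), φ a * (1 + ((hi : ℝ) - a) ^ 2 / n) *
        ind (Low F r a) * ((T r a).card : ℝ) ^ 2 ≤
      (2 * M + 36 + 4 * 10 ^ 4 * K0) * A * (n.factorial : ℝ)) ∧
    ∀ h e : ℕ → ℝ, (∀ a, 0 ≤ h a) → (∀ k, 0 ≤ e k) →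
      (∀ a c, a ≤ c → c + 1 ≤ hi → φ a * κ (c + 1) * ((c : ℝ) - a) ≤ h a + e (c + 1)) →
      n * ∑ r : Perm (Fin n), ∑ a ∈ range (n + 1), ∑ k ∈ range (n + 1),
          φ a * κ k * ind (Low F r a ∧ P r k ∈ F ∧ a < k) ≤
        3 * (∑ r : Perm (Fin n), ∑ a ∈ range (n + 1), ind (Low F r a) * h a * ((T r a).card : ℝ)) +
        9 * (∑ r : Perm (Fin n), ∑ k ∈ range (n + 1), e k * ind (P r k ∈ F)) +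
        27 / M * (n * ∑ r : Perm (Fin n), ind (Miss F r)) +
        (100 + (108 + 576 * K0) * A) * (n.factorial : ℝ)

/-- St1: the middle window.
PROOF. Choose `lo = ⌈n/2 - 3√n⌉ - 3`, `hi = ⌊n/2 + 3√n⌋` (naturals; `n ≥ n₀`); all sizes are in `[lo+3, hi]`.
`Env` from `S_Env` (fixed `K0`). Apply GI with `φ = κ = 1`, `M = 108`. `Dec` with `m = 1`, `J 0 = hi - lo ≤ 6√n + 4`,
`α 0 = 50` (`(hi-a)² /n ≤ (6√n+4)²/n ≤ 49`), `A = 50 · 50`. `h a = |a - n/2|`, `e k = |k - n/2|`: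
`c - a ≤ |c+1-n/2| + |a-n/2|`. `3 h |T| ≤ 180 |T|² + (a-n/2)²/80` and `∑ ind(Low) |T|² ≤ C n!` (first part of GI,
as `1 + (hi-a)²/n ≥ 1`), `∑_a ind(Low F r a)(a-n/2)² ≤ ∑_k (k-n/2)² ind(P r k ∈ F)`;
`9 |k-n/2| ≤ (k-n/2)²/80 + 1620` and `∑ NN ≤ 2 n!` (G1); `27/M = 1/4`. Finally
`NN F r - 1 + ind (Miss F r) = ∑_a ∑_k ind (Low F r a ∧ P r k ∈ F ∧ a < k)`. -/
def S_St1 : Prop := ∃ C₁ : ℝ, ∃ n₀ : ℕ, ∀ n : ℕ, n₀ ≤ n → ∀ F : Fam n, UF F →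
  (∀ A ∈ F, |(A.card : ℝ) - n / 2| ≤ 3 * Real.sqrt n) →
  n * ∑ r : Perm (Fin n), (NN F r - 1 + ind (Miss F r)) ≤
    1 / 4 * (n * ∑ r : Perm (Fin n), ind (Miss F r)) +
    1 / 40 * (∑ r : Perm (Fin n), ∑ k ∈ range (n + 1), ((k : ℝ) - n / 2) ^ 2 * ind (P r k ∈ F)) +
    C₁ * (n.factorial : ℝ)

/-- St2: the upper part of the window. PROOF. `Env` from `S_Env` with
`lo = ⌈n/2 - 3√n⌉ - 3`, `hi = ⌊n/2 + 2√(n log n)⌋`. With `f k = ind (fu k)`,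
`fu k :⇔ n/2 + 3√n < k`, `X = ∑_r ∑_k ind (P r k ∈ F ∧ fu k)`: by Kl (`J = hi - lo`),
`∑_r ∑_k ind (P r k ∈ F ∧ fu k ∧ ∃ a < k, P r a ∈ F) ≤ X/2`. The other terms have `Low F r k`, `fu k`, so all members
on the chain are in the upper part; there is at most one such `k` for each `r`. So
`X ≤ X/2 + ∑_r ind (∀ k, P r k ∈ F → fu k)`. -/
def S_St2 : Prop := ∃ n₀ : ℕ, ∀ n : ℕ, n₀ ≤ n → ∀ F : Fam n, UF F →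
  (∀ A ∈ F, (n : ℝ) / 2 - 3 * Real.sqrt n ≤ A.card ∧
    (A.card : ℝ) ≤ n / 2 + 2 * Real.sqrt (n * Real.log n)) →
  ∑ r : Perm (Fin n), ∑ k ∈ range (n + 1), ind (P r k ∈ F ∧ (n : ℝ) / 2 + 3 * Real.sqrt n < k) ≤
    2 * ∑ r : Perm (Fin n), ind (∀ k : ℕ, P r k ∈ F → (n : ℝ) / 2 + 3 * Real.sqrt n < k)

/-- St3: the lower part of the window.
PROOF. Write `fl k :⇔ k < n/2 - 3√n`, `W k = exp(-(k-n/2)²/n)`. `lo = ⌊n/2 - 2√(n log n)⌋ - 4`,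
`hi = ⌊n/2 + 3√n⌋`, `Env` from `S_Env`.
(1) `X0 = ∑_r ∑_k W k ind(P r k ∈ F ∧ fl k)`, `X1 = ∑_r ∑_a W a ind(Low F r a ∧ fl a)`. By Kl with
`f k = W k ind(fl k)`, `J = hi - lo`: `X0 ≤ X1 + X0/2`, so `X0 ≤ 2 X1`.
(2) `X1 ≤ ∑_r ∑_a W a ind(Low F r a ∧ fl a ∧ ∀ k, P r k ∈ F → fl k) + ∑_r ∑_a ∑_k φ a κ k ind(Low F r a ∧ P r k ∈ F ∧ a < k)`
with `φ a = W a ind(fl a)`, `κ k = ind(¬ fl k)`. The first sum is `≤ exp(-9) ∑_r ind(∀ k, P r k ∈ F → fl k)`.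
(3) `Dec`: `m = n`, `α_i = (1 + 4(i+1)²) exp(-i²)`, `J_i = min ⌈2(i+1)√n⌉ (hi - lo)`: for `fl a`, `d = n/2 - a > 3√n`,
`hi - a ≤ d + 3√n ≤ 2d`; with `i = ⌊d/√n⌋ < n`: `φ a (1+(hi-a)²/n) ≤ exp(-d²/n)(1+4d²/n) ≤ α_i`, and
`hi - a ≤ 2d ≤ 2(i+1)√n`, `hi - a ≤ hi - lo`. `∑_i α_i (1 + (J_i+1)²/n) ≤ ∑_i (1+4(i+1)²)(1+(2i+4)²) exp(-i²) ≤ 2000`
(each term is `≤ 1000 · 2^(-i)`). So `A = 2000`.
(4) GI with `M = 1728`, `h a = 2 φ a · max(n/2 - a) 0`, `e = 0`: if `fl a`, `a ≤ c`, `c + 1 ≤ hi`: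
`c - a ≤ n/2 + 3√n - a ≤ 2(n/2 - a)`. With `d = n/2 - a ≤ hi - a`: `3 h |T| = 6 φ d|T| ≤ 48 φ |T|² d²/n + (3/16) n φ`
and the first part of GI bounds the first term; the second sums to `(3/16) n X1`. So
`n X1 ≤ (exp(-9) + 27/1728) n ∑_r ind(∀ k, P r k ∈ F → fl k) + (3/16) n X1 + C n!` (`Miss F r` implies
`∀ k, P r k ∈ F → fl k`). Hence `n X0 ≤ 2 n X1 ≤ (1/8) n ∑ + C' n!`. -/
def S_St3 : Prop := ∃ C₁ : ℝ, ∃ n₀ : ℕ, ∀ n : ℕ, n₀ ≤ n → ∀ F : Fam n, UF F →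
  (∀ A ∈ F, (n : ℝ) / 2 - 2 * Real.sqrt (n * Real.log n) ≤ A.card ∧
    (A.card : ℝ) ≤ n / 2 + 3 * Real.sqrt n) →
  n * ∑ r : Perm (Fin n), ∑ k ∈ range (n + 1), Real.exp (-((k : ℝ) - n / 2) ^ 2 / n) *
      ind (P r k ∈ F ∧ (k : ℝ) < n / 2 - 3 * Real.sqrt n) ≤
    1 / 8 * (n * ∑ r : Perm (Fin n), ind (∀ k : ℕ, P r k ∈ F → (k : ℝ) < n / 2 - 3 * Real.sqrt n)) +
    C₁ * (n.factorial : ℝ)

/-- the final statement (for large `n`). PROOF. B5 and B6: `|F| n! ≤ choose(n,n/2) exp(1/(4n)) ∑_r ∑_k W k ind(P r k ∈ F)`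
with `W k = exp(-(k-n/2)²/n)`, and `exp(1/(4n)) ≤ 1 + 1/n`. It remains to bound
`Y = ∑_r ∑_k W k ind(P r k ∈ F) ≤ n! (1 + C/n)`. Split the levels `k` into
mid: `|k-n/2| ≤ 3√n`; fl: `n/2 - 2√(n log n) ≤ k < n/2 - 3√n`; fu: `n/2 + 3√n < k ≤ n/2 + 2√(n log n)`; and
far: `|k-n/2| > 2√(n log n)`, where `W k ≤ exp(-4 log n) = n^(-4)`, so far contributes `≤ (n+1) n^(-4) n! ≤ n!/n`.
Let `Fm, Fl, Fu` be the corresponding subfamilies (all union-free), `Z = ∑_r ind(Miss Fm r)`. St3 for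
`Fm ∪ Fl`: fl contributes `≤ Z/8 + C n!/n`. St2 for `Fm ∪ Fu` and `W ≤ exp(-9)` on fu: fu contributes
`≤ 2 exp(-9) Z ≤ Z/8`. mid: with `V = ∑_r ∑_k (k-n/2)² ind(P r k ∈ Fm)`,
`1 - exp(-t) ≥ t/10` for `0 ≤ t ≤ 9`, so `∑_r ∑_k W k ind(P r k ∈ Fm) ≤ ∑_r NN Fm r - V/(10 n)`, and by St1
`∑_r NN Fm r ≤ n! - Z + Z/4 + V/(40 n) + C n!/n`. The sum is
`≤ n! - (3/4 - 1/8 - 1/8) Z + C n!/n ≤ n! + C n!/n`. -/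
def S_Fin : Prop := ∃ C₁ : ℝ, ∃ n₀ : ℕ, ∀ n : ℕ, n₀ ≤ n → ∀ F : Fam n, UF F →
  (F.card : ℝ) ≤ (n.choose (n / 2) : ℝ) * (1 + C₁ / n)

end Pool.Agent.H710.KU
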