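import Pool.Agent.H710.KU.St2

set_option autoImplicit false

/-! The upper part of the window. -/

namespace Pool.Agent.H710.KU

open Finset Equiv

namespace St2x

variable {n : ℕ}

/-- an indicator sum with at most one nonzero term -/
theorem sum_ind_le {s : Finset ℕ} {p : ℕ → Prop} {R : Prop} (h1 : ∀ i j, p i → p j → i = j)
    (h2 : ∀ i, p i → R) : ∑ i ∈ s, ind (p i) ≤ ind R := by
  by_cases h : ∃ i ∈ s, p i
  · obtain ⟨i, hi, hp⟩ := h
    rw [sum_eq_single i]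
    · exact ind_mono (h2 i)
    · intro j _ hj
      exact ind_false fun hpj => hj (h1 j i hpj hp)
    · intro h
      exact absurd hi h
  · push Not at h
    rw [sum_eq_zero fun i hi => ind_false (h i hi)]
    exact ind_nonneg R

end St2x

theorem st2 (he : S_Env) (hKl : S_Kl) : S_St2 := by
  obtain ⟨K0, hK0, n₀, hE⟩ := he
  refine ⟨max n₀ (max 100 ⌈Real.exp 4⌉₊), fun n hn F hF hlev => ?_⟩
  have hn0 : n₀ ≤ n := le_trans (le_max_left _ _) hn
  have hn100 : 100 ≤ n := le_trans (le_trans (le_max_left _ _) (le_max_right _ _)) hn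
  have hne : Real.exp 4 ≤ n := by
    have h1 : ⌈Real.exp 4⌉₊ ≤ n := le_trans (le_trans (le_max_right _ _) (le_max_right _ _)) hn
    exact (Nat.le_ceil _).trans (by exact_mod_cast h1)
  have hnR : (100 : ℝ) ≤ n := by exact_mod_cast hn100
  have hlog : 4 ≤ Real.log n := by
    rw [Real.le_log_iff_exp_le (by linarith)]
    exact hne
  have hs10 : 10 ≤ Real.sqrt n := by
    rw [show (10 : ℝ) = Real.sqrt 100 by rw [show (100 : ℝ) = 10 ^ 2 by norm_num]; simp]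
    exact Real.sqrt_le_sqrt hnR
  have hss : Real.sqrt n * Real.sqrt n = n := Real.mul_self_sqrt (by linarith)
  have hsl : 2 * Real.sqrt n ≤ Real.sqrt (n * Real.log n) := by
    rw [Real.sqrt_mul (by linarith)]
    have : 2 ≤ Real.sqrt (Real.log n) := by
      rw [show (2 : ℝ) = Real.sqrt 4 by rw [show (4 : ℝ) = 2 ^ 2 by norm_num]; simp]
      exact Real.sqrt_le_sqrt hlog
    nlinarith
  set s := Real.sqrt n with hs
  set L := Real.sqrt (n * Real.log n) with hL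
  have hL0 : 0 ≤ L := Real.sqrt_nonneg _
  have hlow : 20 ≤ (n : ℝ) / 2 - 3 * s := by nlinarith
  set lo := ⌈(n : ℝ) / 2 - 3 * s⌉₊ - 3 with hlo
  set hi := ⌊(n : ℝ) / 2 + 2 * L⌋₊ with hhi
  have hc1 : (n : ℝ) / 2 - 3 * s ≤ (⌈(n : ℝ) / 2 - 3 * s⌉₊ : ℝ) := Nat.le_ceil _
  have hc2 : (⌈(n : ℝ) / 2 - 3 * s⌉₊ : ℝ) < (n : ℝ) / 2 - 3 * s + 1 :=
    Nat.ceil_lt_add_one (by linarith)
  have hc3 : 3 ≤ ⌈(n : ℝ) / 2 - 3 * s⌉₊ := by
    have : (3 : ℝ) ≤ (⌈(n : ℝ) / 2 - 3 * s⌉₊ : ℝ) := by linarith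
    exact_mod_cast this
  have hloR : (lo : ℝ) = (⌈(n : ℝ) / 2 - 3 * s⌉₊ : ℝ) - 3 := by
    rw [hlo, Nat.cast_sub hc3]
    norm_num
  have hf1 : (hi : ℝ) ≤ (n : ℝ) / 2 + 2 * L := Nat.floor_le (by positivity)
  have hf2 : (n : ℝ) / 2 + 2 * L < hi + 1 := Nat.lt_floor_add_one _
  have hLev : Levels F lo hi := by
    intro A hA
    obtain ⟨h1, h2⟩ := hlev A hA
    constructor
    · have h3 : ⌈(n : ℝ) / 2 - 3 * s⌉₊ ≤ A.card := Nat.ceil_le.2 h1
      omega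
    · exact Nat.le_floor h2
  obtain ⟨S, E⟩ := hE n hn0 F lo hi hF (by rw [hloR]; linarith)
    (by
      have : (lo : ℝ) ≤ hi := by rw [hloR]; linarith
      exact_mod_cast this) (by linarith) hLev
  have hhn : hi < n := by
    have := E.hHn
    omega
  set q : ℝ := (n : ℝ) ^ (-(2 / 5) : ℝ) with hq
  set ε : ℝ := 1 / (n : ℝ) ^ 30 with hε
  set J := hi - lo with hJ
  have hJR : (J : ℝ) = (hi : ℝ) - lo := by rw [hJ, Nat.cast_sub E.lohi]
  have hp : 12 * ((J : ℝ) + 1) / n ≤ q := by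
    rw [hJR]
    have h1 := E.hq
    have h2 : 0 ≤ 1 / Real.sqrt n := by positivity
    linarith
  have hp0 : 0 ≤ 12 * ((J : ℝ) + 1) / n := by positivity
  have hkl := hKl n F S lo hi J K0 q ε (fun k => ind ((n : ℝ) / 2 + 3 * s < k)) E.lev hhn E.n3
    E.good E.K0nn E.εnn E.q1 hp (fun k => ind_nonneg _)
  set X := ∑ r : Perm (Fin n), ∑ k ∈ range (n + 1),
    ind ((n : ℝ) / 2 + 3 * s < k) * ind (P r k ∈ F) with hX
  have hX0 : 0 ≤ X := sum_nonneg fun r _ => sum_nonneg fun k _ =>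
    mul_nonneg (ind_nonneg _) (ind_nonneg _)
  have hcoef : 2 * (12 * ((J : ℝ) + 1) / n + ε + K0 * (12 * ((J : ℝ) + 1) / n) ^ 2) ≤ 1 / 2 := by
    have h1 := E.small
    have h2 : (12 * ((J : ℝ) + 1) / n) ^ 2 ≤ q ^ 2 := pow_le_pow_left₀ hp0 hp 2
    have h3 := mul_le_mul_of_nonneg_left h2 E.K0nn
    linarith
  have hkl2 : ∑ r : Perm (Fin n), ∑ k ∈ range (n + 1), ind ((n : ℝ) / 2 + 3 * s < k) *
      ind (P r k ∈ F ∧ ∃ a < k, k ≤ a + J ∧ P r a ∈ F) ≤ 1 / 2 * X :=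
    hkl.trans (mul_le_mul_of_nonneg_right hcoef hX0)
  have hXeq : ∑ r : Perm (Fin n), ∑ k ∈ range (n + 1),
      ind (P r k ∈ F ∧ (n : ℝ) / 2 + 3 * s < k) = X := by
    rw [hX]
    refine sum_congr rfl fun r _ => sum_congr rfl fun k _ => ?_
    rw [ind_and, mul_comm]
  have hpt : ∀ r : Perm (Fin n), ∑ k ∈ range (n + 1),
      ind ((n : ℝ) / 2 + 3 * s < k) * ind (P r k ∈ F) ≤
      ∑ k ∈ range (n + 1), ind ((n : ℝ) / 2 + 3 * s < k) *
        ind (P r k ∈ F ∧ ∃ a < k, k ≤ a + J ∧ P r a ∈ F) +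
      ind (∀ k : ℕ, P r k ∈ F → (n : ℝ) / 2 + 3 * s < k) := by
    intro r
    have h1 : ∑ k ∈ range (n + 1), ind (Low F r k ∧ (n : ℝ) / 2 + 3 * s < k) ≤
        ind (∀ k : ℕ, P r k ∈ F → (n : ℝ) / 2 + 3 * s < k) := by
      refine St2x.sum_ind_le (fun i j h h' => Low_unique h.1 h'.1) fun i h k hk => ?_
      have h2 : i ≤ k := by
        by_contra hc
        exact h.1.2 k (by omega) hk
      have h3 : (i : ℝ) ≤ k := by exact_mod_cast h2
      linarith [h.2]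
    refine le_trans ?_ (add_le_add_right h1 _)
    rw [← sum_add_distrib]
    refine sum_le_sum fun k _ => ?_
    by_cases hfu : (n : ℝ) / 2 + 3 * s < k
    · by_cases hk : P r k ∈ F
      · by_cases hex : ∃ a < k, P r a ∈ F
        · obtain ⟨a, ha, haF⟩ := hex
          have h2 := hit_level E.lev hhn hk
          have h3 := hit_level E.lev hhn haF
          rw [ind_true (p := P r k ∈ F ∧ ∃ a < k, k ≤ a + J ∧ P r a ∈ F)
            ⟨hk, a, ha, by omega, haF⟩, ind_true hk]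
          linarith [ind_nonneg (Low F r k ∧ (n : ℝ) / 2 + 3 * s < k)]
        · push Not at hex
          rw [ind_true (p := Low F r k ∧ (n : ℝ) / 2 + 3 * s < k) ⟨⟨hk, hex⟩, hfu⟩, ind_true hfu,
            ind_true hk]
          linarith [ind_nonneg (P r k ∈ F ∧ ∃ a < k, k ≤ a + J ∧ P r a ∈ F)]
      · rw [ind_false hk, mul_zero]
        exact add_nonneg (mul_nonneg (ind_nonneg _) (ind_nonneg _)) (ind_nonneg _)
    · rw [ind_false hfu, zero_mul]
      exact add_nonneg (mul_nonneg le_rfl (ind_nonneg _)) (ind_nonneg _)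
  have hXle : X ≤ 1 / 2 * X +
      ∑ r : Perm (Fin n), ind (∀ k : ℕ, P r k ∈ F → (n : ℝ) / 2 + 3 * s < k) := by
    calc X ≤ ∑ r : Perm (Fin n), (∑ k ∈ range (n + 1), ind ((n : ℝ) / 2 + 3 * s < k) *
          ind (P r k ∈ F ∧ ∃ a < k, k ≤ a + J ∧ P r a ∈ F) +
          ind (∀ k : ℕ, P r k ∈ F → (n : ℝ) / 2 + 3 * s < k)) := sum_le_sum fun r _ => hpt r
      _ = ∑ r : Perm (Fin n), ∑ k ∈ range (n + 1), ind ((n : ℝ) / 2 + 3 * s < k) *
          ind (P r k ∈ F ∧ ∃ a < k, k ≤ a + J ∧ P r a ∈ F) +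
          ∑ r : Perm (Fin n), ind (∀ k : ℕ, P r k ∈ F → (n : ℝ) / 2 + 3 * s < k) :=
          sum_add_distrib
      _ ≤ _ := by linarith
  rw [hXeq]
  linarith

end Pool.Agent.H710.KU
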