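import Pool.Agent.H710.KU.St2

/-!
The lower part of the window: St3.
-/

set_option autoImplicit false

namespace Pool.Agent.H710.KU

open Finset Equiv

namespace St3A

/-- the weight -/
noncomputable def W (n k : ℕ) : ℝ := Real.exp (-((k : ℝ) - n / 2) ^ 2 / n)

/-- lower part -/
def fl (n k : ℕ) : Prop := (k : ℝ) < n / 2 - 3 * √n

/-- the weight on the lower part -/
noncomputable def φ (n a : ℕ) : ℝ := W n a * ind (fl n a)

/-- the weight above the lower part -/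
noncomputable def κ (n k : ℕ) : ℝ := ind (¬ fl n k)

theorem W_pos (n k : ℕ) : 0 < W n k := Real.exp_pos _

theorem W_le_one (n k : ℕ) : W n k ≤ 1 := by
  unfold W
  rw [Real.exp_le_one_iff]
  have h1 : 0 ≤ ((k : ℝ) - n / 2) ^ 2 / n := by positivity
  have h2 : -((k : ℝ) - n / 2) ^ 2 / n = -(((k : ℝ) - n / 2) ^ 2 / n) := by ring
  linarith

theorem phi_nonneg (n a : ℕ) : 0 ≤ φ n a := mul_nonneg (W_pos _ _).le (ind_nonneg _)

theorem phi_le_one (n a : ℕ) : φ n a ≤ 1 := by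
  unfold φ
  calc W n a * ind (fl n a) ≤ 1 * 1 :=
        mul_le_mul (W_le_one _ _) (ind_le_one _) (ind_nonneg _) (by norm_num)
    _ = 1 := by norm_num

theorem exp9 : Real.exp (-9) ≤ 1 / 64 := by
  have h1 : (4 : ℝ) ≤ Real.exp 3 := by linarith [Real.add_one_le_exp (3 : ℝ)]
  have h2 : Real.exp 9 = Real.exp 3 ^ 3 := by rw [← Real.exp_nat_mul]; norm_num
  have h3 : (64 : ℝ) ≤ Real.exp 9 := by
    rw [h2]
    calc (64 : ℝ) = 4 ^ 3 := by norm_num
      _ ≤ Real.exp 3 ^ 3 := pow_le_pow_left₀ (by norm_num) h1 3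
  rw [Real.exp_neg, ← one_div]
  exact one_div_le_one_div_of_le (by norm_num) h3

theorem phi_le {n a : ℕ} (hn : 1 ≤ n) : φ n a ≤ 1 / 64 := by
  by_cases h : fl n a
  · unfold φ
    rw [ind_true h, mul_one]
    refine le_trans ?_ exp9
    unfold W
    rw [Real.exp_le_exp]
    have hn0 : (0 : ℝ) < n := by exact_mod_cast hn
    rw [div_le_iff₀ hn0]
    unfold fl at h
    have h1 : √(n : ℝ) ^ 2 = n := Real.sq_sqrt hn0.le
    have h2 : 0 ≤ √(n : ℝ) := Real.sqrt_nonneg _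
    nlinarith
  · unfold φ
    rw [ind_false h, mul_zero]
    norm_num

theorem poly_le (i : ℕ) : (1 + 4 * ((i : ℝ) + 1) ^ 2) * (1 + (2 * i + 4) ^ 2) ≤ 360 * 3 ^ i := by
  have h : ∀ j : ℕ, (1 + 4 * (((j + 2 : ℕ) : ℝ) + 1) ^ 2) * (1 + (2 * ((j + 2 : ℕ) : ℝ) + 4) ^ 2) ≤
      360 * 3 ^ (j + 2) := by
    intro j
    induction j with
    | zero => norm_num
    | succ j ih =>
      have h1 : (3 : ℝ) ^ (j + 1 + 2) = 3 * 3 ^ (j + 2) := by rw [← pow_succ']
      rw [h1]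
      have h2 : (0 : ℝ) ≤ j := Nat.cast_nonneg j
      have h3 : (1 + 4 * (((j + 1 + 2 : ℕ) : ℝ) + 1) ^ 2) *
          (1 + (2 * ((j + 1 + 2 : ℕ) : ℝ) + 4) ^ 2) ≤
          3 * ((1 + 4 * (((j + 2 : ℕ) : ℝ) + 1) ^ 2) * (1 + (2 * ((j + 2 : ℕ) : ℝ) + 4) ^ 2)) := by
        push_cast
        have h4 : 0 ≤ (j : ℝ) ^ 2 := by positivity
        have h5 : 0 ≤ (j : ℝ) ^ 3 := by positivity
        have h6 : 0 ≤ (j : ℝ) ^ 4 := by positivity
        nlinarith
      linarith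
  match i with
  | 0 => norm_num
  | 1 => norm_num
  | (j + 2) => exact h j

theorem term_le (i : ℕ) : (1 + 4 * ((i : ℝ) + 1) ^ 2) * Real.exp (-(i : ℝ) ^ 2) *
    (1 + (2 * i + 4) ^ 2) ≤ 1000 * (1 / 2) ^ i := by
  have h1 : Real.exp (-(i : ℝ) ^ 2) ≤ Real.exp 1 * Real.exp (-2) ^ i := by
    rw [← Real.exp_nat_mul, ← Real.exp_add, Real.exp_le_exp]
    nlinarith [sq_nonneg ((i : ℝ) - 1)]
  have h2 : Real.exp (-2) ≤ 1 / 6 := by
    rw [Real.exp_neg, ← one_div]
    apply one_div_le_one_div_of_le (by norm_num)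
    have h3 : Real.exp 2 = Real.exp 1 ^ 2 := by rw [← Real.exp_nat_mul]; norm_num
    rw [h3]
    have h4 := Real.exp_one_gt_d9
    nlinarith
  have h3 : Real.exp 1 ≤ 2.72 := by have := Real.exp_one_lt_d9; linarith
  have h4 : Real.exp (-2) ^ i ≤ (1 / 6) ^ i := pow_le_pow_left₀ (Real.exp_pos _).le h2 i
  have h5 : Real.exp (-(i : ℝ) ^ 2) ≤ 2.72 * (1 / 6) ^ i :=
    h1.trans (mul_le_mul h3 h4 (pow_nonneg (Real.exp_pos _).le _) (by norm_num))
  calc (1 + 4 * ((i : ℝ) + 1) ^ 2) * Real.exp (-(i : ℝ) ^ 2) * (1 + (2 * i + 4) ^ 2)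
      = ((1 + 4 * ((i : ℝ) + 1) ^ 2) * (1 + (2 * i + 4) ^ 2)) * Real.exp (-(i : ℝ) ^ 2) := by ring
    _ ≤ (360 * 3 ^ i) * (2.72 * (1 / 6) ^ i) :=
        mul_le_mul (poly_le i) h5 (Real.exp_pos _).le (by positivity)
    _ = 979.2 * (3 * (1 / 6)) ^ i := by rw [mul_pow]; ring
    _ = 979.2 * (1 / 2) ^ i := by norm_num
    _ ≤ 1000 * (1 / 2) ^ i := by
        apply mul_le_mul_of_nonneg_right (by norm_num) (by positivity)

theorem dec {n lo hi : ℕ} (hn : 1 ≤ n) (hhi : (hi : ℝ) ≤ n / 2 + 3 * √n) :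
    Dec n lo hi (φ n) 2000 := by
  have hn0 : (0 : ℝ) < n := by exact_mod_cast hn
  have hone : (1 : ℝ) ≤ n := by exact_mod_cast hn
  set s : ℝ := √(n : ℝ) with hs
  have hs2 : s ^ 2 = n := Real.sq_sqrt hn0.le
  have hs1 : 1 ≤ s := by rw [hs]; exact Real.one_le_sqrt.mpr hone
  have hs0 : 0 < s := by linarith
  refine ⟨n, fun i => (1 + 4 * ((i : ℝ) + 1) ^ 2) * Real.exp (-(i : ℝ) ^ 2),
    fun i => min ⌈2 * ((i : ℝ) + 1) * s⌉₊ (hi - lo), ?_, ?_, ?_, ?_⟩
  · intro l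
    positivity
  · intro l
    exact min_le_right _ _
  · intro a ha1 ha2
    have hnn : ∀ l ∈ range n, 0 ≤ (1 + 4 * ((l : ℝ) + 1) ^ 2) * Real.exp (-(l : ℝ) ^ 2) *
        ind (hi ≤ a + min ⌈2 * ((l : ℝ) + 1) * s⌉₊ (hi - lo)) := by
      intro l _
      have := ind_nonneg (hi ≤ a + min ⌈2 * ((l : ℝ) + 1) * s⌉₊ (hi - lo))
      positivity
    by_cases h : fl n a
    · have hfl : (a : ℝ) < n / 2 - 3 * s := h
      set d : ℝ := n / 2 - a with hd
      have hd3 : 3 * s < d := by rw [hd]; linarith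
      have hd0 : 0 < d := by linarith
      have hda : (hi : ℝ) - a ≤ 2 * d := by rw [hd] at hd3 ⊢; linarith
      have ha2' : (a : ℝ) ≤ hi := by exact_mod_cast ha2
      set i : ℕ := ⌊d / s⌋₊ with hi'
      have hi1 : (i : ℝ) ≤ d / s := Nat.floor_le (by positivity)
      have hi2 : d / s < i + 1 := Nat.lt_floor_add_one _
      have hi1' : (i : ℝ) * s ≤ d := by rwa [le_div_iff₀ hs0] at hi1
      have hi2' : d < (i + 1) * s := by rwa [div_lt_iff₀ hs0] at hi2
      have hin : i < n := by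
        have h1 : (i : ℝ) < n := by
          have h2 : d ≤ n / 2 := by
            rw [hd]
            have : (0 : ℝ) ≤ a := Nat.cast_nonneg a
            linarith
          have h3 : (i : ℝ) ≤ i * s := by
            have : (0 : ℝ) ≤ i := Nat.cast_nonneg i
            nlinarith
          linarith
        exact_mod_cast h1
      have hle : φ n a * (1 + ((hi : ℝ) - a) ^ 2 / n) ≤
          (1 + 4 * ((i : ℝ) + 1) ^ 2) * Real.exp (-(i : ℝ) ^ 2) := by
        have h1 : φ n a ≤ Real.exp (-(i : ℝ) ^ 2) := by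
          unfold φ
          rw [ind_true h, mul_one]
          unfold W
          rw [Real.exp_le_exp, div_le_iff₀ hn0]
          have h2 : ((i : ℝ) * s) ^ 2 ≤ d ^ 2 := pow_le_pow_left₀ (by positivity) hi1' 2
          rw [mul_pow, hs2] at h2
          have h3 : ((a : ℝ) - n / 2) ^ 2 = d ^ 2 := by rw [hd]; ring
          rw [h3]
          linarith
        have h4 : 1 + ((hi : ℝ) - a) ^ 2 / n ≤ 1 + 4 * ((i : ℝ) + 1) ^ 2 := by
          have h5 : ((hi : ℝ) - a) ^ 2 ≤ (2 * ((i + 1) * s)) ^ 2 :=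
            pow_le_pow_left₀ (by linarith) (by linarith) 2
          have h6 : (2 * (((i : ℝ) + 1) * s)) ^ 2 = 4 * ((i : ℝ) + 1) ^ 2 * n := by
            rw [mul_pow, mul_pow, hs2]; ring
          rw [h6] at h5
          have h7 := (div_le_iff₀ hn0).mpr h5
          linarith
        calc φ n a * (1 + ((hi : ℝ) - a) ^ 2 / n)
            ≤ Real.exp (-(i : ℝ) ^ 2) * (1 + 4 * ((i : ℝ) + 1) ^ 2) :=
              mul_le_mul h1 h4 (by positivity) (Real.exp_pos _).le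
          _ = _ := mul_comm _ _
      have hJ : hi ≤ a + min ⌈2 * ((i : ℝ) + 1) * s⌉₊ (hi - lo) := by
        rcases min_choice ⌈2 * ((i : ℝ) + 1) * s⌉₊ (hi - lo) with h1 | h1
        · rw [h1]
          have h2 : 2 * ((i : ℝ) + 1) * s ≤ (⌈2 * ((i : ℝ) + 1) * s⌉₊ : ℝ) := Nat.le_ceil _
          have h3 : (hi : ℝ) ≤ a + (⌈2 * ((i : ℝ) + 1) * s⌉₊ : ℝ) := by nlinarith
          exact_mod_cast h3
        · rw [h1]; omega
      refine hle.trans ?_
      calc (1 + 4 * ((i : ℝ) + 1) ^ 2) * Real.exp (-(i : ℝ) ^ 2)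
          = (1 + 4 * ((i : ℝ) + 1) ^ 2) * Real.exp (-(i : ℝ) ^ 2) *
            ind (hi ≤ a + min ⌈2 * ((i : ℝ) + 1) * s⌉₊ (hi - lo)) := by
            rw [ind_true hJ, mul_one]
        _ ≤ _ := Finset.single_le_sum hnn (Finset.mem_range.mpr hin)
    · unfold φ
      rw [ind_false h, mul_zero, zero_mul]
      exact Finset.sum_nonneg hnn
  · calc ∑ l ∈ range n, (1 + 4 * ((l : ℝ) + 1) ^ 2) * Real.exp (-(l : ℝ) ^ 2) *
          (1 + (((min ⌈2 * ((l : ℝ) + 1) * s⌉₊ (hi - lo) : ℕ) : ℝ) + 1) ^ 2 / n)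
        ≤ ∑ l ∈ range n, 1000 * (1 / 2 : ℝ) ^ l := by
          refine Finset.sum_le_sum fun l _ => ?_
          refine le_trans ?_ (term_le l)
          apply mul_le_mul_of_nonneg_left _ (by positivity)
          have h1 : ((min ⌈2 * ((l : ℝ) + 1) * s⌉₊ (hi - lo) : ℕ) : ℝ) ≤
              2 * ((l : ℝ) + 1) * s + 1 := by
            have h2 : ((min ⌈2 * ((l : ℝ) + 1) * s⌉₊ (hi - lo) : ℕ) : ℝ) ≤
                (⌈2 * ((l : ℝ) + 1) * s⌉₊ : ℝ) := by exact_mod_cast min_le_left _ _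
            have h3 := (Nat.ceil_lt_add_one (show 0 ≤ 2 * ((l : ℝ) + 1) * s by positivity)).le
            linarith
          have h4 : (((min ⌈2 * ((l : ℝ) + 1) * s⌉₊ (hi - lo) : ℕ) : ℝ) + 1) ≤
              (2 * l + 4) * s := by nlinarith
          have h5 := pow_le_pow_left₀ (by positivity) h4 2
          rw [mul_pow, hs2] at h5
          have h6 := (div_le_iff₀ hn0).mpr h5
          linarith
      _ = 1000 * ∑ l ∈ range n, (1 / 2 : ℝ) ^ l := by rw [Finset.mul_sum]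
      _ ≤ 1000 * 2 := by
          apply mul_le_mul_of_nonneg_left (sum_geometric_two_le n) (by norm_num)
      _ = 2000 := by norm_num

/-- all members on the chain but the lowest one are rare. -/
theorem step1 {n : ℕ} {F : Fam n} {S : Cen n} {lo hi H : ℕ} {K0 q ε : ℝ} (hk : S_Kl)
    (hE : Env n F S lo hi H K0 q ε) (f : ℕ → ℝ) (hf : ∀ k, 0 ≤ f k) :
    ∑ r : Perm (Fin n), ∑ k ∈ range (n + 1), f k * ind (P r k ∈ F) ≤
      2 * ∑ r : Perm (Fin n), ∑ a ∈ range (n + 1), f a * ind (Low F r a) := by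
  have hhn : hi < n := by have := hE.hH; have := hE.hHn; omega
  have hnpos : 0 < n := by omega
  have hn0 : (0 : ℝ) < n := by exact_mod_cast hnpos
  have hJc : ((hi - lo : ℕ) : ℝ) = (hi : ℝ) - lo := by
    rw [Nat.cast_sub hE.lohi]
  have hq1 : 12 * (((hi - lo : ℕ) : ℝ) + 1) / n ≤ q := by
    rw [hJc]
    have h1 := hE.hq
    have h2 : 0 ≤ 1 / √(n : ℝ) := by positivity
    linarith
  have h1 := hk n F S lo hi (hi - lo) K0 q ε f hE.lev hhn hE.n3 hE.good hE.K0nn hE.εnn hE.q1 hq1 hf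
  set p : ℝ := 12 * (((hi - lo : ℕ) : ℝ) + 1) / n with hp
  have hp0 : 0 ≤ p := by rw [hp]; positivity
  have h2 : 2 * (p + ε + K0 * p ^ 2) ≤ 1 / 2 := by
    have h3 : p ^ 2 ≤ q ^ 2 := pow_le_pow_left₀ hp0 hq1 2
    have h4 := mul_le_mul_of_nonneg_left h3 hE.K0nn
    have h5 := hE.small
    linarith
  set X0 : ℝ := ∑ r : Perm (Fin n), ∑ k ∈ range (n + 1), f k * ind (P r k ∈ F) with hX0
  have hX0n : 0 ≤ X0 := Finset.sum_nonneg fun _ _ => Finset.sum_nonneg fun k _ =>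
    mul_nonneg (hf k) (ind_nonneg _)
  have h3 : X0 ≤ (∑ r : Perm (Fin n), ∑ k ∈ range (n + 1),
      f k * ind (P r k ∈ F ∧ ∃ a < k, k ≤ a + (hi - lo) ∧ P r a ∈ F)) +
      ∑ r : Perm (Fin n), ∑ a ∈ range (n + 1), f a * ind (Low F r a) := by
    rw [hX0, ← Finset.sum_add_distrib]
    refine Finset.sum_le_sum fun r _ => ?_
    rw [← Finset.sum_add_distrib]
    refine Finset.sum_le_sum fun k _ => ?_
    rw [← mul_add]
    apply mul_le_mul_of_nonneg_left _ (hf k)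
    by_cases hm : P r k ∈ F
    · rw [ind_true hm]
      by_cases hL : ∃ a < k, P r a ∈ F
      · obtain ⟨a, hak, ha⟩ := hL
        have hla := hit_level hE.lev hhn ha
        have hlk := hit_level hE.lev hhn hm
        rw [ind_true (show P r k ∈ F ∧ ∃ a < k, k ≤ a + (hi - lo) ∧ P r a ∈ F from
          ⟨hm, a, hak, by omega, ha⟩)]
        have := ind_nonneg (Low F r k)
        linarith
      · have hlow : Low F r k := ⟨hm, fun a hak ha => hL ⟨a, hak, ha⟩⟩
        rw [ind_true hlow]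
        have := ind_nonneg (P r k ∈ F ∧ ∃ a < k, k ≤ a + (hi - lo) ∧ P r a ∈ F)
        linarith
    · rw [ind_false hm]
      have := ind_nonneg (Low F r k)
      have := ind_nonneg (P r k ∈ F ∧ ∃ a < k, k ≤ a + (hi - lo) ∧ P r a ∈ F)
      linarith
  have h4 := mul_le_mul_of_nonneg_right h2 hX0n
  linarith

theorem sum_low_le {n : ℕ} {F : Fam n} (r : Perm (Fin n)) (g : ℕ → ℝ) {c : ℝ} (hc : 0 ≤ c)
    (hg : ∀ a, g a ≤ c) (m : ℕ) (Q : Prop) :
    ∑ a ∈ range m, g a * ind (Low F r a ∧ Q) ≤ c * ind Q := by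
  by_cases hQ : Q
  · rw [ind_true hQ, mul_one]
    by_cases hex : ∃ a ∈ range m, Low F r a
    · obtain ⟨a, ha, hL⟩ := hex
      rw [Finset.sum_eq_single_of_mem a ha]
      · rw [ind_true (show Low F r a ∧ Q from ⟨hL, hQ⟩), mul_one]; exact hg a
      · intro b _ hba
        rw [ind_false (fun h => hba (Low_unique h.1 hL)), mul_zero]
    · rw [Finset.sum_eq_zero]
      · exact hc
      · intro a ha
        rw [ind_false (fun h => hex ⟨a, ha, h.1⟩), mul_zero]
  · rw [ind_false hQ, mul_zero]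
    apply le_of_eq
    apply Finset.sum_eq_zero
    intro a _
    rw [ind_false (fun h => hQ h.2), mul_zero]

/-- splitting of the sum over lowest members. -/
theorem step2 {n : ℕ} {F : Fam n} {S : Cen n} {lo hi H : ℕ} {K0 q ε : ℝ}
    (hE : Env n F S lo hi H K0 q ε) :
    ∑ r : Perm (Fin n), ∑ a ∈ range (n + 1), φ n a * ind (Low F r a) ≤
      1 / 64 * ∑ r : Perm (Fin n), ind (∀ k : ℕ, P r k ∈ F → fl n k) +
      ∑ r : Perm (Fin n), ∑ a ∈ range (n + 1), ∑ k ∈ range (n + 1),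
        φ n a * κ n k * ind (Low F r a ∧ P r k ∈ F ∧ a < k) := by
  have hhn : hi < n := by have := hE.hH; have := hE.hHn; omega
  have hn : 1 ≤ n := by omega
  rw [Finset.mul_sum, ← Finset.sum_add_distrib]
  refine Finset.sum_le_sum fun r _ => ?_
  refine le_trans ?_ (add_le_add_left (sum_low_le (F := F) r (φ n)
    (show (0 : ℝ) ≤ 1 / 64 by norm_num) (fun a => phi_le hn) (n + 1)
      (∀ k : ℕ, P r k ∈ F → fl n k)) _)
  rw [← Finset.sum_add_distrib]
  refine Finset.sum_le_sum fun a _ => ?_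
  have hnn : ∀ k ∈ range (n + 1), 0 ≤ φ n a * κ n k * ind (Low F r a ∧ P r k ∈ F ∧ a < k) :=
    fun k _ => mul_nonneg (mul_nonneg (phi_nonneg _ _) (ind_nonneg _)) (ind_nonneg _)
  have hS0 := Finset.sum_nonneg hnn
  by_cases hL : Low F r a
  · by_cases hall : ∀ k : ℕ, P r k ∈ F → fl n k
    · rw [ind_true hL, ind_true (show Low F r a ∧ ∀ k : ℕ, P r k ∈ F → fl n k from ⟨hL, hall⟩)]
      linarith
    · have hall' := hall
      simp only [not_forall] at hall
      obtain ⟨k, hkF, hkf⟩ := hall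
      rw [ind_true hL, ind_false (fun h => hall' h.2), mul_one, mul_zero, zero_add]
      by_cases hfa : fl n a
      · have hak : a < k := by
          rcases lt_trichotomy a k with h | h | h
          · exact h
          · exact absurd (h ▸ hfa) hkf
          · exact absurd hkF (hL.2 k h)
        have hkn := hit_level hE.lev hhn hkF
        have hk1 : k ∈ range (n + 1) := by rw [Finset.mem_range]; omega
        refine le_trans ?_ (Finset.single_le_sum hnn hk1)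
        unfold κ
        rw [ind_true hkf, ind_true (show Low F r a ∧ P r k ∈ F ∧ a < k from ⟨hL, hkF, hak⟩),
          mul_one, mul_one]
      · have h0 : φ n a = 0 := by unfold φ; rw [ind_false hfa, mul_zero]
        rw [h0] at hS0 ⊢
        exact hS0
  · rw [ind_false hL, mul_zero]
    rw [ind_false (fun h => hL h.1), mul_zero, zero_add]
    exact hS0

theorem step4 {n : ℕ} {F : Fam n} {S : Cen n} {lo hi H : ℕ} {K0 q ε : ℝ} (h : S_GI)
    (hE : Env n F S lo hi H K0 q ε) (hhi : (hi : ℝ) ≤ n / 2 + 3 * √n) (hhi2 : (n : ℝ) / 2 ≤ hi) :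
    n * ∑ r : Perm (Fin n), ∑ a ∈ range (n + 1), ∑ k ∈ range (n + 1),
        φ n a * κ n k * ind (Low F r a ∧ P r k ∈ F ∧ a < k) ≤
      3 / 16 * (n * ∑ r : Perm (Fin n), ∑ a ∈ range (n + 1), φ n a * ind (Low F r a)) +
      1 / 64 * (n * ∑ r : Perm (Fin n), ind (Miss F r)) +
      (48 * ((2 * 1728 + 36 + 4 * 10 ^ 4 * K0) * 2000) + (100 + (108 + 576 * K0) * 2000)) *
        (n.factorial : ℝ) := by
  have hhn : hi < n := by have := hE.hH; have := hE.hHn; omega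
  have hn : 1 ≤ n := by omega
  have hn0 : (0 : ℝ) < n := by exact_mod_cast hn
  obtain ⟨T, hT1, hT2⟩ := h n F S lo hi H 1728 K0 q ε 2000 (φ n) (κ n) hE (by norm_num)
    (by norm_num) (phi_nonneg n) (phi_le_one n) (fun k => ind_nonneg _) (fun k => ind_le_one _)
    (dec hn hhi)
  have hT3 := hT2 (fun a => 2 * φ n a * max ((n : ℝ) / 2 - a) 0) (fun _ => 0)
    (fun a => mul_nonneg (mul_nonneg (by norm_num) (phi_nonneg _ _)) (le_max_right _ _))
    (fun _ => le_refl _) (by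
      intro a c hac hc
      by_cases hfa : fl n a
      · have h1 : (a : ℝ) < n / 2 - 3 * √n := hfa
        have h2 : max ((n : ℝ) / 2 - a) 0 = n / 2 - a := by
          apply max_eq_left
          have := Real.sqrt_nonneg (n : ℝ)
          linarith
        have h3 : (a : ℝ) ≤ c := by exact_mod_cast hac
        have h4 : (c : ℝ) + 1 ≤ hi := by exact_mod_cast hc
        have h5 : (c : ℝ) - a ≤ 2 * (n / 2 - a) := by linarith
        have h6 : κ n (c + 1) ≤ 1 := ind_le_one _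
        have h7 : 0 ≤ κ n (c + 1) := ind_nonneg _
        have h8 : φ n a * κ n (c + 1) ≤ φ n a * 1 := mul_le_mul_of_nonneg_left h6 (phi_nonneg _ _)
        show φ n a * κ n (c + 1) * ((c : ℝ) - a) ≤ 2 * φ n a * max ((n : ℝ) / 2 - a) 0 + 0
        rw [h2]
        calc φ n a * κ n (c + 1) * ((c : ℝ) - a) ≤ (φ n a * 1) * (2 * (n / 2 - a)) :=
              mul_le_mul h8 h5 (by linarith) (by rw [mul_one]; exact phi_nonneg _ _)
          _ = 2 * φ n a * ((n : ℝ) / 2 - a) + 0 := by ring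
      · have h0 : φ n a = 0 := by unfold φ; rw [ind_false hfa, mul_zero]
        show φ n a * κ n (c + 1) * ((c : ℝ) - a) ≤ 2 * φ n a * max ((n : ℝ) / 2 - a) 0 + 0
        rw [h0]
        simp)
  have h5 : 3 * (∑ r : Perm (Fin n), ∑ a ∈ range (n + 1),
      ind (Low F r a) * (2 * φ n a * max ((n : ℝ) / 2 - a) 0) * ((T r a).card : ℝ)) ≤
      48 * (∑ r : Perm (Fin n), ∑ a ∈ range (n + 1), φ n a * (1 + ((hi : ℝ) - a) ^ 2 / n) *
        ind (Low F r a) * ((T r a).card : ℝ) ^ 2) +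
      3 / 16 * (n * ∑ r : Perm (Fin n), ∑ a ∈ range (n + 1), φ n a * ind (Low F r a)) := by
    rw [Finset.mul_sum, Finset.mul_sum, Finset.mul_sum, Finset.mul_sum, ← Finset.sum_add_distrib]
    refine Finset.sum_le_sum fun r _ => ?_
    rw [Finset.mul_sum, Finset.mul_sum, Finset.mul_sum, Finset.mul_sum, ← Finset.sum_add_distrib]
    refine Finset.sum_le_sum fun a _ => ?_
    by_cases hL : Low F r a
    · rw [ind_true hL]
      have hah : a ≤ hi := (hit_level hE.lev hhn hL.1).2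
      have hah' : (a : ℝ) ≤ hi := by exact_mod_cast hah
      set d : ℝ := max ((n : ℝ) / 2 - a) 0 with hd
      have hd0 : 0 ≤ d := le_max_right _ _
      have hdh : d ≤ (hi : ℝ) - a := max_le (by linarith) (by linarith)
      set t : ℝ := ((T r a).card : ℝ) with ht
      have ht0 : 0 ≤ t := Nat.cast_nonneg _
      have h6 : d ^ 2 ≤ ((hi : ℝ) - a) ^ 2 := pow_le_pow_left₀ hd0 hdh 2
      have h7 : d ^ 2 / n ≤ 1 + ((hi : ℝ) - a) ^ 2 / n := by
        have := div_le_div_of_nonneg_right h6 hn0.le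
        linarith
      have h8 : 6 * (d * t) ≤ 48 * (d ^ 2 / n * t ^ 2) + 3 / 16 * n := by
        have h9 : 48 * (d ^ 2 / n * t ^ 2) + 3 / 16 * n - 6 * (d * t) =
            3 / 16 * (16 * (d * t) - n) ^ 2 / n := by
          field_simp
          ring
        have h10 : 0 ≤ 3 / 16 * (16 * (d * t) - n) ^ 2 / n := by positivity
        linarith
      have h11 : d ^ 2 / n * t ^ 2 ≤ (1 + ((hi : ℝ) - a) ^ 2 / n) * t ^ 2 :=
        mul_le_mul_of_nonneg_right h7 (by positivity)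
      have h12 : 6 * (d * t) ≤ 48 * ((1 + ((hi : ℝ) - a) ^ 2 / n) * t ^ 2) + 3 / 16 * n := by
        linarith
      have h13 := mul_le_mul_of_nonneg_left h12 (phi_nonneg n a)
      calc 3 * (1 * (2 * φ n a * d) * t) = φ n a * (6 * (d * t)) := by ring
        _ ≤ φ n a * (48 * ((1 + ((hi : ℝ) - a) ^ 2 / n) * t ^ 2) + 3 / 16 * n) := h13
        _ = _ := by ring
    · rw [ind_false hL]
      simp
  have h6 : 9 * (∑ r : Perm (Fin n), ∑ k ∈ range (n + 1), (fun _ : ℕ => (0 : ℝ)) k *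
      ind (P r k ∈ F)) = 0 := by simp
  have h7 := mul_le_mul_of_nonneg_left hT1 (show (0 : ℝ) ≤ 48 by norm_num)
  push_cast at hT3 h7
  linarith

end St3A

open St3A in
theorem st3 (he : S_Env) (hk : S_Kl) (h : S_GI) : S_St3 := by
  obtain ⟨K0, hK0, n₁, HE⟩ := he
  refine ⟨32 / 13 * (48 * ((2 * 1728 + 36 + 4 * 10 ^ 4 * K0) * 2000) +
    (100 + (108 + 576 * K0) * 2000)), max 16384 n₁, ?_⟩
  intro n hn F hF hW
  have hn1 : 16384 ≤ n := le_trans (le_max_left _ _) hn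
  have hn2 : n₁ ≤ n := le_trans (le_max_right _ _) hn
  have hnR : (16384 : ℝ) ≤ n := by exact_mod_cast hn1
  have hn0 : (0 : ℝ) < n := by linarith
  set s : ℝ := √(n : ℝ) with hs
  have hs2 : s ^ 2 = n := Real.sq_sqrt hn0.le
  have hs1 : 128 ≤ s := by
    rw [hs]
    apply Real.le_sqrt_of_sq_le
    linarith
  have hlog1 : 1 ≤ Real.log n := by
    rw [Real.le_log_iff_exp_le hn0]
    have := Real.exp_one_lt_d9
    linarith
  have hlog2 : Real.log n ≤ 2 * s := by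
    have h1 : Real.log n = 2 * Real.log s := by
      rw [← hs2, Real.log_pow]; push_cast; ring
    have h2 := Real.log_le_sub_one_of_pos (show 0 < s by linarith)
    linarith
  set u : ℝ := √((n : ℝ) * Real.log n) with hu
  have hu2 : u ^ 2 = n * Real.log n := Real.sq_sqrt (by positivity)
  have hu0 : 0 ≤ u := Real.sqrt_nonneg _
  have hsu : s ≤ u := by
    rw [hs, hu]
    apply Real.sqrt_le_sqrt
    nlinarith
  have hu8 : 8 * u ≤ n := by
    have h1 : (8 * u) ^ 2 ≤ (n : ℝ) ^ 2 := by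
      rw [mul_pow, hu2]
      have h2 : 64 * Real.log n ≤ n := by nlinarith
      nlinarith
    exact le_of_sq_le_sq h1 hn0.le
  set lo : ℕ := ⌈(n : ℝ) / 2 - 2 * u⌉₊ - 3 with hlo
  set hi : ℕ := ⌊(n : ℝ) / 2 + 3 * s⌋₊ with hhi
  have hceil3 : 3 ≤ ⌈(n : ℝ) / 2 - 2 * u⌉₊ := by
    have h1 : (3 : ℝ) ≤ (⌈(n : ℝ) / 2 - 2 * u⌉₊ : ℝ) := by
      have := Nat.le_ceil ((n : ℝ) / 2 - 2 * u)
      linarith
    exact_mod_cast h1
  have hlo3 : lo + 3 = ⌈(n : ℝ) / 2 - 2 * u⌉₊ := by omega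
  have hloR : (lo : ℝ) + 3 = (⌈(n : ℝ) / 2 - 2 * u⌉₊ : ℝ) := by exact_mod_cast hlo3
  have hhi1 : (hi : ℝ) ≤ n / 2 + 3 * s := Nat.floor_le (by positivity)
  have hhi2 : (n : ℝ) / 2 + 3 * s < hi + 1 := Nat.lt_floor_add_one _
  have hlo1 : (n : ℝ) / 2 - 2 * u ≤ lo + 3 := by rw [hloR]; exact Nat.le_ceil _
  have hlo2 : (lo : ℝ) + 3 < n / 2 - 2 * u + 1 := by
    rw [hloR]; exact Nat.ceil_lt_add_one (by linarith)
  have hlohi : lo ≤ hi := by
    have h1 : (lo : ℝ) ≤ hi := by linarith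
    exact_mod_cast h1
  have hlev : Levels F lo hi := by
    intro A hA
    obtain ⟨h1, h2⟩ := hW A hA
    constructor
    · rw [hlo3]; exact Nat.ceil_le.mpr h1
    · exact Nat.le_floor h2
  obtain ⟨S, hE⟩ := HE n hn2 F lo hi hF (by linarith) hlohi (by linarith) hlev
  have h1 := step1 hk hE (φ n) (phi_nonneg n)
  have h2 := step2 hE
  have h4 := step4 h hE hhi1 (by linarith)
  have hXeq : ∑ r : Perm (Fin n), ∑ k ∈ range (n + 1), Real.exp (-((k : ℝ) - n / 2) ^ 2 / n) *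
      ind (P r k ∈ F ∧ (k : ℝ) < n / 2 - 3 * s) =
      ∑ r : Perm (Fin n), ∑ k ∈ range (n + 1), φ n k * ind (P r k ∈ F) := by
    refine Finset.sum_congr rfl fun r _ => Finset.sum_congr rfl fun k _ => ?_
    rw [ind_and]
    show W n k * (ind (P r k ∈ F) * ind (fl n k)) = W n k * ind (fl n k) * ind (P r k ∈ F)
    ring
  have hmiss : ∑ r : Perm (Fin n), ind (Miss F r) ≤
      ∑ r : Perm (Fin n), ind (∀ k : ℕ, P r k ∈ F → fl n k) :=
    Finset.sum_le_sum fun r _ => ind_mono fun hm k hk' => absurd hk' (hm k)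
  rw [hXeq]
  show (n : ℝ) * ∑ r : Perm (Fin n), ∑ k ∈ range (n + 1), φ n k * ind (P r k ∈ F) ≤
    1 / 8 * (n * ∑ r : Perm (Fin n), ind (∀ k : ℕ, P r k ∈ F → fl n k)) + _
  set X0 := ∑ r : Perm (Fin n), ∑ k ∈ range (n + 1), φ n k * ind (P r k ∈ F) with hX0
  set X1 := ∑ r : Perm (Fin n), ∑ a ∈ range (n + 1), φ n a * ind (Low F r a) with hX1
  set Z := ∑ r : Perm (Fin n), ind (∀ k : ℕ, P r k ∈ F → fl n k) with hZ
  set Z' := ∑ r : Perm (Fin n), ind (Miss F r) with hZ'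
  set Y := ∑ r : Perm (Fin n), ∑ a ∈ range (n + 1), ∑ k ∈ range (n + 1),
        φ n a * κ n k * ind (Low F r a ∧ P r k ∈ F ∧ a < k) with hY
  have hZ0 : 0 ≤ Z := Finset.sum_nonneg fun _ _ => ind_nonneg _
  have e1 := mul_le_mul_of_nonneg_left h1 hn0.le
  have e2 := mul_le_mul_of_nonneg_left h2 hn0.le
  have e3 := mul_le_mul_of_nonneg_left hmiss hn0.le
  have e4 : 0 ≤ n * Z := by positivity
  have e5 : (n : ℝ) * (1 / 64 * Z + Y) = 1 / 64 * (n * Z) + n * Y := by ring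
  have e6 : (n : ℝ) * (2 * X1) = 2 * (n * X1) := by ring
  rw [e5] at e2
  rw [e6] at e1
  set B : ℝ := (48 * ((2 * 1728 + 36 + 4 * 10 ^ 4 * K0) * 2000) +
    (100 + (108 + 576 * K0) * 2000)) with hB
  have e7 : 32 / 13 * B * (n.factorial : ℝ) = 32 / 13 * (B * (n.factorial : ℝ)) := by ring
  rw [e7]
  linarith

end Pool.Agent.H710.KU
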